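import Mathlib

/-!
# Constraint graphs over a finite alphabet
-/

namespace Pool.Agent.PCP


/-- A binary relation over the alphabet `Fin q`. -/
abbrev Rel (q : ℕ) := Fin q → Fin q → Bool

/-- A constraint graph: the number of vertices (in unary) and the list of edges, each with its
relation. -/
abbrev CG (q : ℕ) := List Unit × List (ℕ × ℕ × Rel q)

/-- number of constraints violated by an assignment -/
def viol {q : ℕ} (E : List (ℕ × ℕ × Rel q)) (a : ℕ → Fin q) : ℕ :=
  E.countP fun e => !(e.2.2 (a e.1) (a e.2.1))

/-- number of edge ends at a vertex -/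
def degCG {q : ℕ} (E : List (ℕ × ℕ × Rel q)) (x : ℕ) : ℕ :=
  E.countP (fun e => decide (e.1 = x)) + E.countP (fun e => decide (e.2.1 = x))

/-- all edges join vertices `< n`, and all degrees are at most `B` -/
structure WF {q : ℕ} (B : ℕ) (G : CG q) : Prop where
  lt : ∀ e ∈ G.2, e.1 < G.1.length ∧ e.2.1 < G.1.length
  deg : ∀ x, degCG G.2 x ≤ B

end Pool.Agent.PCP
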