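import Pool.Agent.Lib.PCP.TabTime

/-!
# Verification in polynomial time as 3SAT, with recovery of the witness
-/

namespace Pool.Agent.PCP.Lev

open Pool.Agent.PolyTime Pool.Agent.CookLevin Turing

section acc
variable {Q K A : Type} [DecidableEq K] [DecidableEq A] (B : Tab Q K A)

/-- From a satisfying assignment we get an accepting run. -/
theorem accepts_of_sat {y : List Bool} {W T Mx : ℕ} (hMx : T < Mx) (τ : VN → Prop)
    [DecidablePred τ] (hτ : ∀ c ∈ B.tableau y W T Mx, Cl.holds τ c) :
    B.accepts (y ++ List.ofFn (n := W) fun j =>
      decide (τ (B.ns 0 B.k0 (y.length + j) (some (B.sy true))))) T := by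
  -- the guess
  let u : List Bool := List.ofFn (n := W) fun j =>
    decide (τ (B.ns 0 B.k0 (y.length + j) (some (B.sy true))))
  have hu : u.length = W := by simp [u]
  change B.accepts (y ++ u) T
  set l := y ++ u with hl
  have hτ' : ∀ c, c ∈ B.tableau y W T Mx → Cl.holds τ c := hτ
  simp only [Tab.tableau, List.mem_append, List.mem_cons, List.mem_flatMap, List.mem_range] at hτ'
  have key : ∀ t ≤ T, τ (B.nc t (B.conf l t).1) ∧
      ∀ k i, i + t < Mx → τ (B.ns t k i ((B.conf l t).2 k)[i]?) := by
    intro t
    induction t with
    | zero =>
      intro _
      refine ⟨?_, fun k i hi => ?_⟩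
      · have := hτ' _ (Or.inr (Or.inl rfl))
        rw [fact_holds] at this
        exact this
      · rw [B.start_stack]
        by_cases hk : k = B.k0
        · rw [if_pos hk]
          subst hk
          by_cases h1 : i < y.length
          · have hin : (if y[i] = true then (fact (B.ns 0 B.k0 i (some (B.sy true))))
                else (fact (B.ns 0 B.k0 i (some (B.sy false))))) ∈
                B.inputClauses y W Mx := by
              unfold Tab.inputClauses
              refine List.mem_append_left _ (List.mem_map.2 ⟨(y[i], i), ?_, ?_⟩)
              · rw [List.mk_mem_zipIdx_iff_getElem?]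
                exact List.getElem?_eq_getElem h1
              · cases y[i] <;> rfl
            have h2 := hτ' _ (Or.inr (Or.inr (Or.inr (Or.inl hin))))
            rw [hl, List.getElem?_append_left h1, List.getElem?_eq_getElem h1]
            cases hy : y[i] with
            | false =>
              rw [hy, if_neg (by simp), fact_holds] at h2
              exact h2
            | true =>
              rw [hy, if_pos rfl, fact_holds] at h2
              exact h2
          · by_cases h2 : i < y.length + W
            · obtain ⟨j, rfl⟩ : ∃ j, i = y.length + j := ⟨i - y.length, by omega⟩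
              have hj : j < W := by omega
              have hin : or2 (B.ns 0 B.k0 (y.length + j) (some (B.sy false)))
                  (B.ns 0 B.k0 (y.length + j) (some (B.sy true))) ∈ B.inputClauses y W Mx := by
                unfold Tab.inputClauses
                refine List.mem_append_right _ (List.mem_append_left _
                  (List.mem_map.2 ⟨j, List.mem_range.2 hj, rfl⟩))
              have h3 := hτ' _ (Or.inr (Or.inr (Or.inr (Or.inl hin))))
              rw [or2_holds] at h3
              have h4 : l[y.length + j]? =
                  some (decide (τ (B.ns 0 B.k0 (y.length + j) (some (B.sy true))))) := by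
                rw [hl, List.getElem?_append_right (by omega)]
                have : y.length + j - y.length = j := by omega
                rw [this, List.getElem?_eq_getElem (by omega)]
                simp [u]
              rw [h4]
              by_cases h5 : τ (B.ns 0 B.k0 (y.length + j) (some (B.sy true)))
              · rw [decide_eq_true h5]
                exact h5
              · rw [decide_eq_false h5]
                exact h3.resolve_right h5
            · obtain ⟨j, rfl⟩ : ∃ j, i = y.length + W + j := ⟨i - y.length - W, by omega⟩
              have hin : fact (B.ns 0 B.k0 (y.length + W + j) none) ∈ B.inputClauses y W Mx := by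
                unfold Tab.inputClauses
                refine List.mem_append_right _ (List.mem_append_right _
                  (List.mem_map.2 ⟨j, List.mem_range.2 (by omega), rfl⟩))
              have h3 := hτ' _ (Or.inr (Or.inr (Or.inr (Or.inl hin))))
              rw [fact_holds] at h3
              have h4 : l[y.length + W + j]? = none := by
                rw [List.getElem?_eq_none_iff, hl, List.length_append]
                omega
              rw [h4]
              exact h3
        · rw [if_neg hk]
          have hin : fact (B.ns 0 k i none) ∈ B.emptyClauses Mx := by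
            unfold Tab.emptyClauses
            refine List.mem_flatMap.2 ⟨k, List.mem_filter.2 ⟨B.hK k, by simpa using hk⟩,
              List.mem_map.2 ⟨i, List.mem_range.2 (by omega), rfl⟩⟩
          have h3 := hτ' _ (Or.inr (Or.inr (Or.inl hin)))
          rw [fact_holds] at h3
          exact h3
    | succ t ih =>
      intro ht
      obtain ⟨ih1, ih2⟩ := ih (by omega)
      have hq := (B.conf_mem l t).1
      have hstep : ∀ i < Mx, ∀ c ∈ B.stepClauses t i, Cl.holds τ c := fun i hi c hc =>
        hτ' c (Or.inl ⟨t, by omega, i, hi, hc⟩)
      refine ⟨?_, fun k i hi => ?_⟩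
      · have h0 := ih2 (B.M.stk (B.conf l t).1) 0 (by omega)
        have hin : B.ctlClause (B.conf l t).1 ((B.conf l t).2 (B.M.stk (B.conf l t).1))[0]? t ∈
            B.stepClauses t 0 := by
          unfold Tab.stepClauses
          exact List.mem_append_left _ (List.mem_flatMap.2 ⟨_, hq, List.mem_map.2
            ⟨_, B.getElem?_mem_AO l t _ 0, rfl⟩⟩)
        have h1 := hstep 0 (by omega) _ hin
        rw [Tab.ctlClause, imp2_holds] at h1
        have h2 := h1 ih1 h0
        rw [B.conf_succ]
        simp only [EM.step]
        rw [List.head?_eq_getElem?]
        exact h2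
      · rw [B.conf_succ, B.step_stack]
        have hin : ∀ j < Mx, ∀ a ∈ B.AO, ∀ c ∈ B.cellClauses (B.conf l t).1 k a t j,
            Cl.holds τ c := by
          intro j hj a ha c hc
          refine hstep j hj c ?_
          unfold Tab.stepClauses
          exact List.mem_append_right _ (List.mem_flatMap.2 ⟨_, hq, List.mem_flatMap.2
            ⟨k, B.hK k, List.mem_flatMap.2 ⟨a, ha, hc⟩⟩⟩)
        cases hact : B.actAt (B.conf l t).1 k with
        | keep =>
          have h0 := ih2 k i (by omega)
          have h1 := hin i (by omega) _ (B.getElem?_mem_AO l t k i)
            (imp2 (B.nc t (B.conf l t).1) (B.ns t k i ((B.conf l t).2 k)[i]?)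
              (B.ns (t + 1) k i ((B.conf l t).2 k)[i]?)) (by
                unfold Tab.cellClauses; rw [hact]; simp)
          rw [imp2_holds] at h1
          exact h1 ih1 h0
        | pop =>
          have h0 := ih2 k (i + 1) (by omega)
          have h1 := hin i (by omega) _ (B.getElem?_mem_AO l t k (i + 1))
            (imp2 (B.nc t (B.conf l t).1) (B.ns t k (i + 1) ((B.conf l t).2 k)[i + 1]?)
              (B.ns (t + 1) k i ((B.conf l t).2 k)[i + 1]?)) (by
                unfold Tab.cellClauses; rw [hact]; simp)
          rw [imp2_holds] at h1
          simp only [Act.app, List.getElem?_tail]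
          exact h1 ih1 h0
        | push b =>
          cases i with
          | zero =>
            have h1 := hin 0 (by omega) _ (B.getElem?_mem_AO l t k 0)
              (imp2 (B.nc t (B.conf l t).1) (B.nc t (B.conf l t).1)
                (B.ns (t + 1) k 0 (some b))) (by
                  unfold Tab.cellClauses; rw [hact]; simp)
            rw [imp2_holds] at h1
            simpa [Act.app] using h1 ih1 ih1
          | succ i =>
            have h0 := ih2 k i (by omega)
            have h1 := hin i (by omega) _ (B.getElem?_mem_AO l t k i)
              (imp2 (B.nc t (B.conf l t).1) (B.ns t k i ((B.conf l t).2 k)[i]?)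
                (B.ns (t + 1) k (i + 1) ((B.conf l t).2 k)[i]?)) (by
                  unfold Tab.cellClauses; rw [hact]; simp)
            rw [imp2_holds] at h1
            simp only [Act.app, List.getElem?_cons_succ]
            exact h1 ih1 h0
  obtain ⟨_, h2⟩ := key T (le_refl _)
  have h3 := h2 B.k1 0 (by omega)
  unfold Tab.accepts
  rw [List.head?_eq_getElem?]
  by_contra hne
  have hin : nfact (B.ns T B.k1 0 ((B.conf l T).2 B.k1)[0]?) ∈ B.finalClauses T := by
    unfold Tab.finalClauses
    exact List.mem_map.2 ⟨_, List.mem_filter.2 ⟨B.getElem?_mem_AO l T B.k1 0, by simpa using hne⟩,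
      rfl⟩
  have h4 := hτ' _ (Or.inr (Or.inr (Or.inr (Or.inr hin))))
  rw [nfact_holds] at h4
  exact h4 h3


end acc

/-! ### the machine -/

section machine

theorem initList_stk (tm : FinTM2) (s : List (tm.Γ tm.k₀)) :
    (initList tm s).stk = Function.update (fun _ => []) tm.k₀ s := by
  funext k
  by_cases hk : k = tm.k₀
  · subst hk
    simp [initList]
  · rw [Function.update_of_ne hk]
    simp [initList, hk]

theorem haltList_stk (tm : FinTM2) (s : List (tm.Γ tm.k₁)) :
    (haltList tm s).stk = Function.update (fun _ => []) tm.k₁ s := by
  funext k
  by_cases hk : k = tm.k₁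
  · subst hk
    simp [haltList]
  · rw [Function.update_of_ne hk]
    simp [haltList, hk]

/-- Codes of the elements of a list. -/
noncomputable def code {X : Type} (L : List X) (x : X) : D :=
  letI : DecidableEq X := Classical.decEq X
  enc (L.idxOf x)

theorem code_inj {X : Type} {L : List X} {x y : X} (hx : x ∈ L) (h : code L x = code L y) :
    x = y := by
  let _ : DecidableEq X := Classical.decEq X
  have h' : L.idxOf x = L.idxOf y := EncInj.inj h
  exact (List.idxOf_inj hx).1 h'

variable {A : Type} [Enc A]

/-- a word and an instance, encoded as a word on which machines work -/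
structure Wd (A : Type) where
  u : List Bool
  x : A

instance : Enc (Wd A) := ⟨fun z => enc (Raw.pairWord (bits (enc z.x)) z.u)⟩

/-- the known part of the input -/
def known (x : A) : List Bool := (bits (enc x)).flatMap (fun b => [true, b]) ++ [false]

theorem pairWord_eq (x : A) (u : List Bool) :
    Raw.pairWord (bits (enc x)) u = known x ++ u := by
  simp [Raw.pairWord, known]

theorem known_length (x : A) : (known x).length = 2 * size (enc x) + 1 := by
  simp [known, List.length_flatMap, Nat.mul_comm]
  rfl

theorem known_ptime : PTime (known (A := A)) := by
  unfold known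
  refine PTime.append (PTime.flatMap (g := fun (_ : A) (b : Bool) => [true, b])
    (PTime.bits' PTime.id) ?_) (PTime.const _)
  exact (PTime.const true).cons (PTime.snd.cons (PTime.const []))

/-- A verifier on codes gives a machine on words. -/
theorem verifier_machine {V : List Bool × A → Bool} (hV : PTime V) :
    Nonempty (TM2ComputableInPolyTime (fun p : List Bool × A => known p.2 ++ p.1)
      (fun b : Bool => [b]) V) := by
  have hu : PTime (fun w : List Bool => (((Raw.unpair w).2, parse (Raw.unpair w).1) :
      List Bool × D)) :=
    Raw.ptime_unpair.snd'.pair (PTime.parse.comp Raw.ptime_unpair.fst')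
  have hf : PTime (fun z : Wd A => (z.u, z.x)) := by
    refine hu.of_enc_eq (fun z : Wd A => Raw.pairWord (bits (enc z.x)) z.u) (fun _ => rfl)
      fun z => ?_
    rw [Raw.unpair_pairWord, parse_bits']
    rfl
  have hg : PTime (fun z : Wd A => [V (z.u, z.x)]) := (hV.comp hf).cons (PTime.const [])
  have h := Raw.toMachine (Z := Wd A) (fun z => Raw.pairWord (bits (enc z.x)) z.u) (fun _ => rfl)
    hg (α := List Bool × A) (β := Bool) (ea := fun p => ⟨p.1, p.2⟩) (eb := fun b => [b]) (f := V)
    (fun _ => rfl)
  simpa only [pairWord_eq] using h

theorem tableau_length {Q K A : Type} [DecidableEq K] [DecidableEq A] (B : Tab Q K A)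
    {y y' : List Bool} (h : y.length = y'.length) (W T Mx : ℕ) :
    (B.tableau y W T Mx).length = (B.tableau y' W T Mx).length := by
  unfold Tab.tableau Tab.inputClauses
  simp [h]

/-- **Cook-Levin theorem** with recovery of the witness: a polynomial-time verifier `V` for
witnesses of length `(N x).length`. -/
theorem levin3 (V : List Bool × A → Bool) (hV : PTime V) (N : A → List Unit) (hN : PTime N) :
    ∃ (F : A → List (Cl VN)) (nm : A × ℕ → VN), PTime F ∧ PTime nm ∧ (∀ x, F x ≠ []) ∧
      (∀ x x', size (enc x) = size (enc x') → (N x).length = (N x').length →
        (F x).length = (F x').length) ∧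
      (∀ x w, w.length = (N x).length → V (w, x) = true → Sat3 (F x)) ∧
      ∀ x (τ : VN → Prop) [DecidablePred τ], (∀ c ∈ F x, Cl.holds τ c) →
        V (List.ofFn (n := (N x).length) (fun j => decide (τ (nm (x, j)))), x) = true := by
  classical
  obtain ⟨c⟩ := verifier_machine hV
  let tm := c.tm
  let _ : Fintype tm.K := tm.kFin
  let _ : Fintype tm.Λ := tm.ΛFin
  let _ : Fintype tm.σ := tm.σFin
  let _ : DecidableEq tm.K := tm.kDecidableEq
  obtain ⟨QL, hQ1, hQ2⟩ := exists_closed tm.m tm.k₀
  let M := microEM tm.m tm.k₀
  let sy : Bool → (Σ k, tm.Γ k) := fun b => ⟨tm.k₀, c.inputAlphabet.invFun b⟩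
  let acc : Σ k, tm.Γ k := ⟨tm.k₁, c.outputAlphabet.invFun true⟩
  let AL : List (Σ k, tm.Γ k) := sy false :: sy true :: acc ::
    QL.filterMap fun q => match M.act q with
      | Act.push a => some a
      | _ => none
  let B : Tab (Option (TM2.Stmt tm.Γ tm.Λ tm.σ) × tm.σ) tm.K (Σ k, tm.Γ k) :=
    { M := M
      q0 := (some (tm.m tm.main), tm.initialState)
      k0 := tm.k₀
      k1 := tm.k₁
      sy := sy
      acc := acc
      QL := QL
      KL := Finset.univ.toList
      AL := AL
      cq := code QL
      ck := code Finset.univ.toList
      ca := code (none :: AL.map some)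
      h0 := hQ1 _ _
      hnext := hQ2
      hpush := by
        intro q hq a ha
        refine List.mem_cons_of_mem _ (List.mem_cons_of_mem _ (List.mem_cons_of_mem _ ?_))
        exact List.mem_filterMap.2 ⟨q, hq, by rw [ha]⟩
      hsy := by
        intro b
        cases b
        · exact List.mem_cons_self
        · exact List.mem_cons_of_mem _ List.mem_cons_self
      hacc := List.mem_cons_of_mem _ (List.mem_cons_of_mem _ List.mem_cons_self)
      hK := fun k => by simp
      hcq := fun q hq q' _ h => code_inj hq h
      hck := fun k k' h => code_inj (by simp) h
      hca := fun a ha b _ h => code_inj ha h }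
  -- time bound
  let Dp : ℕ := Finset.univ.sup fun l => depth (tm.m l)
  have hDp : ∀ l, depth (tm.m l) ≤ Dp := fun l => Finset.le_sup (f := fun l => depth (tm.m l))
    (Finset.mem_univ l)
  let q : Polynomial ℕ := c.time * Polynomial.C Dp
  -- a list as long as the input word
  let IN : A → List Unit := fun x => (known x).map (fun _ => ()) ++ N x
  have hIN : PTime IN := (PTime.map (g := fun (_ : A) (_ : Bool) => ()) known_ptime
    (PTime.const _)).append hN
  have hINl : ∀ x, (IN x).length = (known x).length + (N x).length := fun x => by
    simp only [IN, List.length_append, List.length_map]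
  let T : A → List Unit := fun x => List.replicate (q.eval (IN x).length) ()
  have hT : PTime T := PTime.unaryPoly hIN q
  have hTl : ∀ x, (T x).length = c.time.eval ((known x).length + (N x).length) * Dp := by
    intro x
    simp only [T, List.length_replicate, q, Polynomial.eval_mul, Polynomial.eval_C, hINl]
  have hrun : ∀ (x : A) (u : List Bool), u.length = (N x).length →
      (B.accepts (known x ++ u) (T x).length ↔ V (u, x) = true) := by
    intro x u hu
    have hrun := c.outputsFun (u, x)
    have hsteps := hrun.steps_le_m
    have hev := hrun.evals_in_steps
    have hl : (known x ++ u).length = (known x).length + (N x).length := by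
      rw [List.length_append, hu]
    have hfin := micro_final tm.m tm.k₀ Dp hDp hrun.steps
      (initList tm ((known x ++ u).map c.inputAlphabet.invFun)) tm.initialState
      (haltList tm ([V (u, x)].map c.outputAlphabet.invFun)).stk hev (T x).length (by
        rw [hTl]
        refine Nat.mul_le_mul_right _ ?_
        rw [← hl]
        exact hsteps)
    have hstart : B.start (known x ++ u) =
        toConf tm.m (initList tm ((known x ++ u).map c.inputAlphabet.invFun)) := by
      have e1 : (toConf tm.m (initList tm ((known x ++ u).map c.inputAlphabet.invFun))).1 =
          (some (tm.m tm.main), tm.initialState) := rfl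
      have e2 : (toConf tm.m (initList tm ((known x ++ u).map c.inputAlphabet.invFun))).2 =
          Function.update (fun _ => []) tm.k₀ ((known x ++ u).map sy) := by
        change tagStk (initList tm _).stk = _
        rw [initList_stk, tagStk_update, List.map_map]
        rfl
      exact Prod.ext e1.symm e2.symm
    change ((B.conf (known x ++ u) (T x).length).2 tm.k₁).head? = some acc ↔ _
    have hconf : B.conf (known x ++ u) (T x).length = ((none, tm.initialState),
        tagStk (haltList tm ([V (u, x)].map c.outputAlphabet.invFun)).stk) := by
      unfold Tab.conf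
      rw [hstart]
      exact hfin
    rw [hconf, haltList_stk, tagStk_update]
    simp only [Function.update_self, List.map_cons, List.map_nil, List.head?_cons, acc,
      Option.some.injEq, Sigma.mk.injEq, heq_eq_eq, true_and]
    exact c.outputAlphabet.symm.injective.eq_iff
  have hnm : PTime (fun p : A × ℕ => B.ns 0 B.k0 ((known p.1).length + p.2)
      (some (B.sy true))) :=
    ptime_ns B (PTime.const 0) _ ((known_ptime.comp PTime.fst).length.add PTime.snd) _
  refine ⟨fun x => B.tableau (known x) (N x).length (T x).length (() :: T x).length,
    fun p => B.ns 0 B.k0 ((known p.1).length + p.2) (some (B.sy true)),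
    ptime_tableau B known_ptime hN hT ((PTime.const ()).cons hT), hnm, fun x => ?_,
    fun x x' h1 h2 => ?_, fun x w hw hVw => ?_, fun x τ _ hτ => ?_⟩
  · simp [Tab.tableau]
  · have h3 : (known x).length = (known x').length := by rw [known_length, known_length, h1]
    have h4 : (T x).length = (T x').length := by rw [hTl, hTl, h3, h2]
    simp only [List.length_cons]
    rw [h2, h4]
    exact tableau_length B h3 _ _ _
  · exact B.sat_of_accepts hw ((hrun x w hw).2 hVw)
  · have h := accepts_of_sat B (T := (T x).length) (Mx := (() :: T x).length)
      (by rw [List.length_cons]; omega) τ hτ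
    rw [hrun x _ (List.length_ofFn)] at h
    exact h

end machine

end Pool.Agent.PCP.Lev
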