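import Pool.Agent.Lib.PolyTime.Arith
import Pool.Agent.Lib.PCP.Levin
import Pool.Agent.Lib.PCP.CG

/-!
# From 3SAT to constraint graphs
-/

namespace Pool.Agent.PCP.Lev

set_option linter.unusedSectionVars false

open Pool.Agent.PolyTime Pool.Agent.CookLevin

section
variable {U : Type} [Enc U] [EncInj U] [DecidableEq U]

/-- position of the first occurrence -/
def ix (L : List U) (v : U) : ℕ :=
  (((L.zip (List.range L.length)).find? fun p => decide (p.1 = v)).map fun p => p.2).getD 0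

theorem ix_spec (L : List U) (v : U) (hv : v ∈ L) : L[ix L v]? = some v := by
  obtain ⟨i, hi, rfl⟩ := List.getElem_of_mem hv
  have hz : ∀ p ∈ L.zip (List.range L.length), L[p.2]? = some p.1 := by
    intro p hp
    rw [zipIdx_eq] at hp
    obtain ⟨a, b⟩ := p
    rw [List.mk_mem_zipIdx_iff_getElem?] at hp
    exact hp
  have hmem : (L[i], i) ∈ L.zip (List.range L.length) := by
    rw [zipIdx_eq, List.mk_mem_zipIdx_iff_getElem?]
    exact List.getElem?_eq_getElem hi
  unfold ix
  cases h : (L.zip (List.range L.length)).find? (fun p => decide (p.1 = L[i])) with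
  | none =>
    rw [List.find?_eq_none] at h
    have := h _ hmem
    simp at this
  | some p =>
    have h1 := List.find?_some h
    have h2 := List.mem_of_find?_eq_some h
    have h3 := hz p h2
    simp only [decide_eq_true_eq] at h1
    simp only [Option.map_some, Option.getD_some]
    rw [h3, h1]

theorem ix_lt (L : List U) (v : U) (hv : v ∈ L) : ix L v < L.length := by
  have h := ix_spec L v hv
  by_contra hcon
  rw [List.getElem?_eq_none (by omega)] at h
  cases h

theorem ix_ptime {α : Type} [Enc α] {L : α → List U} {v : α → U} (hL : PTime L) (hv : PTime v) :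
    PTime (fun a => ix (L a) (v a)) := by
  unfold ix
  have h1 : PTime (fun a => ((L a).zip (List.range (L a).length)).find?
      fun p => decide (p.1 = v a)) :=
    PTime.find? (g := fun a (p : U × ℕ) => decide (p.1 = v a)) (PTime.zipIdx hL)
      (PTime.eq (PTime.fst' PTime.snd) (hv.comp PTime.fst))
  exact PTime.getD (PTime.omap (g := fun _ (p : U × ℕ) => p.2) h1 (PTime.snd' PTime.snd))
    (PTime.const 0)

/-! ### the relations -/

/-- bit of an assignment to the three literals -/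
def bit (p : Fin 3) (a : Fin 8) : Bool := (a : ℕ) / 2 ^ (p : ℕ) % 2 = 1

/-- the signs of a clause -/
abbrev Sg := Bool × (Bool × Bool)

/-- the sign at a position -/
def sg (s : Sg) (p : Fin 3) : Bool := if p = 0 then s.1 else if p = 1 then s.2.1 else s.2.2

/-- The local assignment `a` satisfies the clause, and is consistent with the value of the
variable. -/
def crel (s : Sg) (p : Fin 3) : Rel 8 := fun a b =>
  (decide (bit 0 a = sg s 0) || (decide (bit 1 a = sg s 1) || decide (bit 2 a = sg s 2))) &&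
    decide (bit p a = decide (b = 1))

/-- variable at a position -/
def cv (c : Cl U) (p : Fin 3) : U :=
  if p = 0 then c.1.1 else if p = 1 then c.2.1.1 else c.2.2.1

/-- signs of a clause -/
def cs (c : Cl U) : Sg := (c.1.2, (c.2.1.2, c.2.2.2))

/-- all variables -/
def vars (Φ : List (Cl U)) : List U := Φ.flatMap fun c => [cv c 0, cv c 1, cv c 2]

/-- The constraint graph of a 3SAT instance. -/
def satCG (Φ : List (Cl U)) : CG 8 :=
  (Φ.map (fun _ => ()) ++ (vars Φ).map (fun _ => ()),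
    (Φ.zip (List.range Φ.length)).flatMap fun c =>
      [(c.2, Φ.length + ix (vars Φ) (cv c.1 0), crel (cs c.1) 0),
       (c.2, Φ.length + ix (vars Φ) (cv c.1 1), crel (cs c.1) 1),
       (c.2, Φ.length + ix (vars Φ) (cv c.1 2), crel (cs c.1) 2)])

theorem cv_mem (Φ : List (Cl U)) {c : Cl U} (hc : c ∈ Φ) (p : Fin 3) : cv c p ∈ vars Φ := by
  unfold vars
  rw [List.mem_flatMap]
  refine ⟨c, hc, ?_⟩
  fin_cases p <;> simp

theorem mem_satCG (Φ : List (Cl U)) (e : ℕ × ℕ × Rel 8) : e ∈ (satCG Φ).2 ↔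
    ∃ c i, Φ[i]? = some c ∧ ∃ p : Fin 3,
      e = (i, Φ.length + ix (vars Φ) (cv c p), crel (cs c) p) := by
  unfold satCG
  simp only [List.mem_flatMap]
  constructor
  · rintro ⟨⟨c, i⟩, hc, he⟩
    rw [zipIdx_eq, List.mk_mem_zipIdx_iff_getElem?] at hc
    refine ⟨c, i, hc, ?_⟩
    simp only [List.mem_cons, List.not_mem_nil, or_false] at he
    rcases he with rfl | rfl | rfl
    · exact ⟨0, rfl⟩
    · exact ⟨1, rfl⟩
    · exact ⟨2, rfl⟩
  · rintro ⟨c, i, hc, p, rfl⟩
    refine ⟨(c, i), ?_, ?_⟩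
    · rw [zipIdx_eq, List.mk_mem_zipIdx_iff_getElem?]
      exact hc
    · fin_cases p <;> simp

theorem satCG_lt (Φ : List (Cl U)) : ∀ e ∈ (satCG Φ).2, e.1 < (satCG Φ).1.length ∧
    e.2.1 < (satCG Φ).1.length := by
  intro e he
  obtain ⟨c, i, hc, p, rfl⟩ := (mem_satCG Φ e).1 he
  have hi : i < Φ.length := (List.getElem?_eq_some_iff.1 hc).1
  have hv := ix_lt (vars Φ) (cv c p) (cv_mem Φ (List.mem_of_getElem? hc) p)
  have hl : (satCG Φ).1.length = Φ.length + (vars Φ).length := by simp [satCG]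
  rw [hl]
  simp only
  omega

theorem satCG_ne (Φ : List (Cl U)) (h : Φ ≠ []) : 0 < (satCG Φ).2.length := by
  obtain ⟨c, l, rfl⟩ := List.exists_cons_of_ne_nil h
  have h1 : (0, (c :: l).length + ix (vars (c :: l)) (cv c 0), crel (cs c) 0) ∈
      (satCG (c :: l)).2 := (mem_satCG _ _).2 ⟨c, 0, rfl, 0, rfl⟩
  exact List.length_pos_of_mem h1

theorem viol_zero {q : ℕ} (E : List (ℕ × ℕ × Rel q)) (a : ℕ → Fin q) :
    viol E a = 0 ↔ ∀ e ∈ E, e.2.2 (a e.1) (a e.2.1) = true := by
  unfold viol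
  rw [List.countP_eq_zero]
  simp

/-- the local assignment with given bits -/
def mk3 (x y z : Bool) : Fin 8 := ⟨x.toNat + 2 * y.toNat + 4 * z.toNat, by
  cases x <;> cases y <;> cases z <;> decide⟩

theorem bit_mk3 (f : Fin 3 → Bool) (p : Fin 3) : bit p (mk3 (f 0) (f 1) (f 2)) = f p := by
  fin_cases p <;> cases h0 : f 0 <;> cases h1 : f 1 <;> cases h2 : f 2 <;>
    simp [bit, mk3, h0, h1, h2]

theorem satCG_complete (Φ : List (Cl U)) (h : Sat3 Φ) : ∃ a, viol (satCG Φ).2 a = 0 := by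
  classical
  obtain ⟨τ, hτ⟩ := h
  refine ⟨fun n => if h : n < Φ.length then
      mk3 (decide (τ (cv Φ[n] 0))) (decide (τ (cv Φ[n] 1))) (decide (τ (cv Φ[n] 2)))
    else if h' : n - Φ.length < (vars Φ).length then
      (if τ (vars Φ)[n - Φ.length] then 1 else 0) else 0, ?_⟩
  rw [viol_zero]
  intro e he
  obtain ⟨c, i, hc, p, rfl⟩ := (mem_satCG Φ e).1 he
  obtain ⟨hi, rfl⟩ := List.getElem?_eq_some_iff.1 hc
  have hmem := cv_mem Φ (List.getElem_mem hi) p
  have hv := ix_lt (vars Φ) (cv Φ[i] p) hmem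
  have hs := ix_spec (vars Φ) (cv Φ[i] p) hmem
  obtain ⟨_, hs'⟩ := List.getElem?_eq_some_iff.1 hs
  have e1 : ¬ Φ.length + ix (vars Φ) (cv Φ[i] p) < Φ.length := by omega
  have e2 : Φ.length + ix (vars Φ) (cv Φ[i] p) - Φ.length = ix (vars Φ) (cv Φ[i] p) := by omega
  simp only [dif_pos hi, dif_neg e1, e2, dif_pos hv, hs']
  have hcl := hτ Φ[i] (List.getElem_mem hi)
  unfold crel
  have hb : ∀ p, bit p (mk3 (decide (τ (cv Φ[i] 0))) (decide (τ (cv Φ[i] 1)))
      (decide (τ (cv Φ[i] 2)))) = decide (τ (cv Φ[i] p)) :=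
    fun p => bit_mk3 (fun p => decide (τ (cv Φ[i] p))) p
  rw [hb, hb, hb, hb]
  rw [Bool.and_eq_true]
  constructor
  · rw [Bool.or_eq_true, Bool.or_eq_true, decide_eq_true_eq, decide_eq_true_eq, decide_eq_true_eq]
    simp only [Cl.holds, Lit.holds] at hcl
    have key : ∀ (P : Prop) [Decidable P] (b : Bool), (P ↔ b = true) → decide P = b := by
      intro P _ b h
      cases b
      · simpa using h
      · simpa using h
    rcases hcl with h | h | h
    · exact Or.inl (key _ _ h)
    · exact Or.inr (Or.inl (key _ _ h))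
    · exact Or.inr (Or.inr (key _ _ h))
  · rw [decide_eq_true_eq]
    by_cases h : τ (cv Φ[i] p)
    · simp [h]
    · simp [h]

theorem satCG_sound (Φ : List (Cl U)) (a : ℕ → Fin 8) (h : viol (satCG Φ).2 a = 0) :
    ∀ c ∈ Φ, Cl.holds (fun v => a (Φ.length + ix (vars Φ) v) = 1) c := by
  intro c hc
  obtain ⟨i, hi, rfl⟩ := List.getElem_of_mem hc
  rw [viol_zero] at h
  have key : ∀ p : Fin 3, crel (cs Φ[i]) p (a i) (a (Φ.length + ix (vars Φ) (cv Φ[i] p))) = true :=
    fun p => h _ ((mem_satCG Φ _).2 ⟨Φ[i], i, List.getElem?_eq_getElem hi, p, rfl⟩)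
  have h0 := key 0
  have h1 := key 1
  have h2 := key 2
  unfold crel at h0 h1 h2
  rw [Bool.and_eq_true] at h0 h1 h2
  have e0 := h0.2
  have e1 := h1.2
  have e2 := h2.2
  have hs := h0.1
  rw [decide_eq_true_eq] at e0 e1 e2
  rw [Bool.or_eq_true, Bool.or_eq_true, decide_eq_true_eq, decide_eq_true_eq,
    decide_eq_true_eq, e0, e1, e2] at hs
  simp only [Cl.holds, Lit.holds]
  have key' : ∀ (P : Prop) [Decidable P] (b : Bool), decide P = b → (P ↔ b = true) := by
    intro P _ b h
    rw [← h]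
    simp
  rcases hs with h | h | h
  · exact Or.inl (key' _ _ h)
  · exact Or.inr (Or.inl (key' _ _ h))
  · exact Or.inr (Or.inr (key' _ _ h))

omit [DecidableEq U] in
theorem vars_ptime : PTime (vars : List (Cl U) → List U) := by
  unfold vars
  have hc : PTime (fun z : List (Cl U) × Cl U => z.2) := PTime.snd
  exact PTime.flatMap (g := fun (_ : List (Cl U)) (c : Cl U) => [cv c 0, cv c 1, cv c 2]) PTime.id
    (hc.fst'.fst'.cons (hc.snd'.fst'.fst'.cons (hc.snd'.snd'.fst'.cons (PTime.const []))))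

theorem satCG_ptime : PTime (satCG : List (Cl U) → CG 8) := by
  have h1 : PTime (fun Φ : List (Cl U) => Φ.map (fun _ => ()) ++ (vars Φ).map (fun _ => ())) :=
    PTime.append (PTime.map (g := fun (_ : List (Cl U)) (_ : Cl U) => ()) PTime.id (PTime.const _))
      (PTime.map (g := fun (_ : List (Cl U)) (_ : U) => ()) vars_ptime (PTime.const _))
  refine h1.pair ?_
  refine PTime.flatMap (g := fun (Φ : List (Cl U)) (c : Cl U × ℕ) =>
      [(c.2, Φ.length + ix (vars Φ) (cv c.1 0), crel (cs c.1) 0),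
       (c.2, Φ.length + ix (vars Φ) (cv c.1 1), crel (cs c.1) 1),
       (c.2, Φ.length + ix (vars Φ) (cv c.1 2), crel (cs c.1) 2)]) (PTime.zipIdx PTime.id) ?_
  have hΦ : PTime (fun z : List (Cl U) × (Cl U × ℕ) => z.1) := PTime.fst
  have hi : PTime (fun z : List (Cl U) × (Cl U × ℕ) => z.2.2) := PTime.snd' PTime.snd
  have hc : PTime (fun z : List (Cl U) × (Cl U × ℕ) => z.2.1) := PTime.fst' PTime.snd
  have hs : PTime (fun z : List (Cl U) × (Cl U × ℕ) => cs z.2.1) :=
    hc.fst'.snd'.pair (hc.snd'.fst'.snd'.pair hc.snd'.snd'.snd')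
  have hr : ∀ p : Fin 3, PTime (fun z : List (Cl U) × (Cl U × ℕ) => crel (cs z.2.1) p) :=
    fun p => (PTime.of_finite (fun s : Sg => crel s p)).comp hs
  have hv : ∀ p : Fin 3, PTime (fun z : List (Cl U) × (Cl U × ℕ) => cv z.2.1 p) := by
    intro p
    fin_cases p
    · exact hc.fst'.fst'
    · exact hc.snd'.fst'.fst'
    · exact hc.snd'.snd'.fst'
  have he : ∀ p : Fin 3, PTime (fun z : List (Cl U) × (Cl U × ℕ) =>
      ((z.2.2, z.1.length + ix (vars z.1) (cv z.2.1 p), crel (cs z.2.1) p) : ℕ × ℕ × Rel 8)) :=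
    fun p => hi.pair ((hΦ.length.add (ix_ptime (vars_ptime.comp hΦ) (hv p))).pair (hr p))
  exact (he 0).cons ((he 1).cons ((he 2).cons (PTime.const [])))

end

end Pool.Agent.PCP.Lev
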