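import Pool.Agent.Lib.PCP.Gap
import Pool.Agent.Lib.PCP.SatCG

/-!
# The PCP theorem for polynomial-time verifiers, with recovery of the witness
-/

namespace Pool.Agent.PCP

open Pool.Agent.PolyTime Pool.Agent.CookLevin

theorem length_graphs (q : ℕ) [NeZero q] (G : CG q) : (graphs q G).1.2.length =
    ratio 1024 t0 ^ (G.2.length * Cq q).bits.length * (ratio q 1 * G.2.length) := by
  unfold graphs
  rw [iterS_length, length_step']

theorem gapF_sizes (q : ℕ) [NeZero q] (G G' : CG q) (h : G.2.length = G'.2.length) :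
    (gapF q G).1.length = (gapF q G').1.length ∧ (gapF q G).2.length = (gapF q G').2.length := by
  have h1 : ∀ G : CG q, (gapF q G).1.length = 2 * (graphs q G).1.2.length :=
    fun G => List.length_replicate ..
  have h2 : ∀ G : CG q, (gapF q G).2.length = 260 * (graphs q G).1.2.length :=
    fun G => length_regG _
  rw [h1, h1, h2, h2, length_graphs, length_graphs, h]
  exact ⟨rfl, rfl⟩

theorem length_satCG {U : Type} [Enc U] [EncInj U] [DecidableEq U] (Φ : List (Cl U)) :
    (Lev.satCG Φ).2.length = 3 * Φ.length := by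
  unfold Lev.satCG
  simp [List.length_flatMap, Nat.mul_comm]

/-- **The PCP theorem.** -/
theorem pcp {A : Type} [Enc A] (V : List Bool × A → Bool) (hV : PTime V) (N : A → List Unit)
    (hN : PTime N) : ∃ (G : A → CG 1024) (dec : A × List (Fin 1024) → List Bool) (δ : ℝ),
    0 < δ ∧ PTime G ∧ PTime dec ∧ (∀ x, WF 260 (G x)) ∧
    (∀ x, (G x).1.length ≤ (G x).2.length) ∧ (∀ x, 0 < (G x).2.length) ∧
    (∀ x x', size (enc x) = size (enc x') → (N x).length = (N x').length →
      (G x).1.length = (G x').1.length ∧ (G x).2.length = (G x').2.length) ∧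
    (∀ x w, w.length = (N x).length → V (w, x) = true → ∃ a, viol (G x).2 a = 0) ∧
    ∀ x (L : List (Fin 1024)), (viol (G x).2 (fun n => L.getD n 0) : ℝ) <
      δ * (G x).2.length → V (dec (x, L), x) = true := by
  classical
  obtain ⟨F, nm, hF, hnm, hne, hsz, hcomp, hsound⟩ := Lev.levin3 V hV N hN
  obtain ⟨δ, hδ, hgF, hgD, hWF, hle, hgc, hgs⟩ := gap_reduction 8
  let C : A → CG 8 := fun x => Lev.satCG (F x)
  have hC : PTime C := Lev.satCG_ptime.comp hF
  let dec : A × List (Fin 1024) → List Bool := fun z => (List.range (N z.1).length).map fun j =>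
    decide ((gapD 8 (C z.1, z.2)).getD ((F z.1).length + Lev.ix (Lev.vars (F z.1)) (nm (z.1, j)))
      (0 : Fin 8) = 1)
  have hdec : PTime dec := by
    refine PTime.map (g := fun (z : A × List (Fin 1024)) (j : ℕ) =>
      decide ((gapD 8 (C z.1, z.2)).getD ((F z.1).length +
        Lev.ix (Lev.vars (F z.1)) (nm (z.1, j))) (0 : Fin 8) = 1))
      (PTime.rangeLength (hN.comp PTime.fst)) ?_
    have hx : PTime (fun z : (A × List (Fin 1024)) × ℕ => z.1.1) := PTime.fst' PTime.fst
    have hL : PTime (fun z : (A × List (Fin 1024)) × ℕ => z.1.2) := PTime.snd' PTime.fst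
    have hFx : PTime (fun z : (A × List (Fin 1024)) × ℕ => F z.1.1) := hF.comp hx
    have hD : PTime (fun z : (A × List (Fin 1024)) × ℕ => gapD 8 (C z.1.1, z.1.2)) :=
      hgD.comp ((hC.comp hx).pair hL)
    have hn : PTime (fun z : (A × List (Fin 1024)) × ℕ => nm (z.1.1, z.2)) :=
      hnm.comp (hx.pair PTime.snd)
    exact PTime.eq (PTime.listGetD hD (hFx.length.add (Lev.ix_ptime (Lev.vars_ptime.comp hFx) hn))
      (PTime.const 0)) (PTime.const 1)
  refine ⟨fun x => gapF 8 (C x), dec, δ, hδ, hgF.comp hC, hdec, fun x => hWF _, fun x => hle _,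
    fun x => ?_, fun x x' h1 h2 => ?_, fun x w hw hVw => ?_, fun x L hL => ?_⟩
  · have h1 : (gapF 8 (C x)).2.length = 260 * (graphs 8 (C x)).1.2.length := length_regG _
    have h2 : 0 < (C x).2.length := Lev.satCG_ne _ (hne x)
    have h3 := ratio_pos (q := 1024) t0_pos
    have h4 := ratio_pos (q := 8) (t := 1) (by norm_num)
    have h5 : 0 < (graphs 8 (C x)).1.2.length := by
      rw [length_graphs]
      exact Nat.mul_pos (pow_pos h3 _) (Nat.mul_pos h4 h2)
    exact h1 ▸ Nat.mul_pos (by norm_num) h5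
  · refine gapF_sizes 8 _ _ ?_
    change (Lev.satCG (F x)).2.length = (Lev.satCG (F x')).2.length
    rw [length_satCG, length_satCG, hsz x x' h1 h2]
  · exact hgc _ (Lev.satCG_complete _ (hcomp x w hw hVw))
  · have h1 := hgs (C x) (Lev.satCG_ne _ (hne x)) (Lev.satCG_lt _) L hL
    have h2 := Lev.satCG_sound (F x) _ h1
    have h3 := hsound x (fun v => (gapD 8 (C x, L)).getD ((F x).length +
      Lev.ix (Lev.vars (F x)) v) (0 : Fin 8) = 1) h2
    have h4 : dec (x, L) = List.ofFn (n := (N x).length) (fun j => decide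
        ((gapD 8 (C x, L)).getD ((F x).length + Lev.ix (Lev.vars (F x)) (nm (x, j)))
          (0 : Fin 8) = 1)) := by
      apply List.ext_getElem
      · simp [dec]
      · intro i h5 h6
        simp [dec]
    rw [h4]
    exact h3

end Pool.Agent.PCP
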