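import Pool.Agent.Lib.PCP.TriSound2

/-!
# From constraint graphs to triangle packing in graphs of bounded degree
-/

namespace Pool.Agent.PCP

open Pool.Agent.PolyTime Pool.Agent.MP_311ff9_lc

/-- Gap constraint graph to triangle packing in graphs of bounded degree. -/
theorem cg_to_triangles (q B : ℕ) (hq : 0 < q) :
    ∃ (Δ k : ℕ) (f : CG q → List (List Bool)) (g : CG q × List (ℕ × ℕ × ℕ) → List (Fin q)),
      PTime f ∧ PTime g ∧ ∀ G : CG q, WF B G → ∃ X : BoundedGraph Δ, X.matrix = f G ∧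
        (∀ S, IsTrianglePacking X S → S.length ≤ k * G.1.length + G.2.length) ∧
        ((∃ a : ℕ → Fin q, viol G.2 a = 0) →
          ∃ S, IsTrianglePacking X S ∧ S.length = k * G.1.length + G.2.length) ∧
        ∀ S, IsTrianglePacking X S →
          viol G.2 (fun i => (g (G, S)).getD i ⟨0, hq⟩) ≤
            k * (k * G.1.length + G.2.length - S.length) := by
  refine ⟨Tri.Dl q (B + 2), q * (B + 2) + (q - 1), Tri.mat (B + 2), Tri.dec (B + 2) ⟨0, hq⟩,
    Tri.mat_p _, Tri.dec_p _ _, ?_⟩
  intro G hG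
  refine ⟨Tri.XX (B + 2) G, Tri.XX_matrix _ _, ?_, ?_, ?_⟩
  · intro S hS
    have := Tri.count (by omega) hS
    omega
  · rintro ⟨a, ha⟩
    exact Tri.complete (by omega) (by omega) hG ha
  · intro S hS
    have h1 := Tri.count (by omega) hS
    have h2 := Tri.sound (by omega) (by omega) hG hS ⟨0, hq⟩
    have h3 : B + 1 ≤ q * (B + 2) + (q - 1) := by
      have : 1 * (B + 2) ≤ q * (B + 2) := Nat.mul_le_mul_right _ hq
      omega
    refine h2.trans (Nat.mul_le_mul h3 ?_)
    omega

end Pool.Agent.PCP
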