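import Pool.Agent.Lib.PCP.Kmsv
import Pool.Agent.Lib.PCP.Pcp
import Pool.Agent.Lib.PCP.Triangles

/-!
# The reduction from a problem in APX to triangle packing: construction
-/

namespace Pool.Agent.PCP

open Pool.Agent.PolyTime Pool.Agent.MP_311ff9_lc

/-! ### the parameter `r` -/

instance (priority := high) instEncRatio : Enc RatioParam := ⟨ratCode⟩

/-- numerator -/
def aa (r : RatioParam) : ℕ := r.1.num.toNat
/-- denominator -/
def bb (r : RatioParam) : ℕ := r.1.den
/-- `α (a - b)` -/
def cc (α : ℕ) (r : RatioParam) : ℕ := α * (aa r - bb r)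
/-- number of thresholds -/
def Kn (ρ α : ℕ) (r : RatioParam) : ℕ := ρ * bb r / cc α r + 1

theorem bb_pos (r : RatioParam) : 0 < bb r := r.1.den_pos

theorem bb_lt_aa (r : RatioParam) : bb r < aa r := by
  obtain ⟨r, hr⟩ := r
  have h1 : (r.den : ℤ) < r.num := by
    have h2 : (1 : ℚ) < r.num / r.den := by rw [Rat.num_div_den]; exact hr
    rw [lt_div_iff₀ (by exact_mod_cast r.den_pos), one_mul] at h2
    exact_mod_cast h2
  unfold aa bb
  simp only
  omega

theorem ratio_eq (r : RatioParam) :
    (((r.1 : ℚ) : ℝ) - 1) = ((aa r - bb r : ℕ) : ℝ) / bb r := by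
  have h := bb_lt_aa r
  have hb : (0 : ℝ) < bb r := by exact_mod_cast bb_pos r
  rw [Nat.cast_sub h.le, eq_div_iff hb.ne', sub_mul, one_mul]
  have h1 : ((r.1 : ℚ) : ℝ) * bb r = aa r := by
    have h2 : (r.1 : ℚ) * (r.1.den : ℚ) = r.1.num := Rat.mul_den_eq_num r.1
    have h3 : ((aa r : ℕ) : ℤ) = r.1.num := by
      unfold aa
      have : (bb r : ℤ) < (r.1.num.toNat : ℤ) := by exact_mod_cast h
      rw [Int.toNat_of_nonneg]
      by_contra hcon
      rw [Int.toNat_of_nonpos (by omega)] at this
      have := bb_pos r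
      omega
    have h4 : (r.1 : ℚ) * (bb r : ℚ) = (aa r : ℚ) := by
      have h5 : ((aa r : ℕ) : ℚ) = ((r.1.num : ℤ) : ℚ) := by rw [← h3]; simp
      rw [h5]
      exact h2
    exact_mod_cast h4
  rw [h1]

section par
variable {α : Type} [Enc α] {r : α → RatioParam}

theorem par_ptime (hr : PTime r) : PTime (fun a =>
    ((List.replicate (aa (r a)) (), List.replicate (bb (r a)) ()) : List Unit × List Unit)) := by
  have h : PTime (fun r : RatioParam =>
      ((List.replicate (aa r) (), List.replicate (bb r) ()) : List Unit × List Unit)) :=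
    (PTime.id (α := RatioParam)).of_enc_eq (fun r => r) (fun _ => rfl) (fun _ => rfl)
  exact h.comp hr

theorem aa_ptime (hr : PTime r) : PTime (fun a => aa (r a)) :=
  (par_ptime hr).fst'.length.of_eq fun _ => List.length_replicate ..

theorem bb_ptime (hr : PTime r) : PTime (fun a => bb (r a)) :=
  (par_ptime hr).snd'.length.of_eq fun _ => List.length_replicate ..

theorem cc_ptime (c : ℕ) (hr : PTime r) : PTime (fun a => cc c (r a)) :=
  (PTime.const c).mul ((aa_ptime hr).sub (bb_ptime hr))

theorem Kn_ptime (ρ c : ℕ) (hr : PTime r) : PTime (fun a => Kn ρ c (r a)) :=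
  (((PTime.const ρ).mul (bb_ptime hr)).div (cc_ptime c hr)).add (PTime.const 1)

theorem rangeK_ptime (ρ c : ℕ) (hr : PTime r) : PTime (fun a => List.range (Kn ρ c (r a))) := by
  have h1 : PTime (fun a => (List.replicate ρ ()).flatMap (fun _ =>
      List.replicate (bb (r a)) ()) ++ [()]) :=
    PTime.append (PTime.flatMap (g := fun (a : α) (_ : Unit) => List.replicate (bb (r a)) ())
      (PTime.const (List.replicate ρ ())) ((par_ptime hr).snd'.comp PTime.fst)) (PTime.const [()])
  refine PTime.rangeLe (Kn_ptime ρ c hr) h1 fun a => ?_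
  have h2 : ((List.replicate ρ ()).flatMap (fun _ => List.replicate (bb (r a)) ()) ++
      [()]).length = ρ * bb (r a) + 1 := by
    simp [List.length_flatMap]
  rw [h2]
  unfold Kn
  exact Nat.succ_le_succ (Nat.div_le_self _ _)

theorem unitsK_ptime (ρ c : ℕ) (hr : PTime r) :
    PTime (fun a => List.replicate (Kn ρ c (r a)) ()) := by
  have h : PTime (fun a => (List.range (Kn ρ c (r a))).map fun _ => ()) :=
    PTime.map (g := fun (_ : α) (_ : ℕ) => ()) (rangeK_ptime ρ c hr) (PTime.const ())
  exact h.of_eq fun a => by rw [List.map_const', List.length_range]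

end par

/-! ### The queries -/

section queries
variable {A : OptProblem} (ρ α : ℕ)

/-- the `i`-th query -/
def qry (z : RatioParam × A.Inst) (i : ℕ) : Qy A :=
  (z.2, ((bb z.1, cc α z.1), ((List.replicate (Kn ρ α z.1) ()).take i,
    (List.replicate (Kn ρ α z.1) ()).take (Kn ρ α z.1 - i))))

/-- all queries -/
def qs (z : RatioParam × A.Inst) : List (Qy A) := (List.range (Kn ρ α z.1)).map (qry ρ α z)

theorem qry_ptime : PTime (fun p : (RatioParam × A.Inst) × ℕ => qry ρ α p.1 p.2) := by
  have hr : PTime (fun p : (RatioParam × A.Inst) × ℕ => p.1.1) := PTime.fst' PTime.fst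
  have hx : PTime (fun p : (RatioParam × A.Inst) × ℕ => p.1.2) := PTime.snd' PTime.fst
  have hi : PTime (fun p : (RatioParam × A.Inst) × ℕ => p.2) := PTime.snd
  have hu := unitsK_ptime ρ α hr
  exact hx.pair (((bb_ptime hr).pair (cc_ptime α hr)).pair
    ((PTime.take hu hi).pair (PTime.take hu ((Kn_ptime ρ α hr).sub hi))))

theorem qs_ptime : PTime (qs ρ α : RatioParam × A.Inst → List (Qy A)) :=
  PTime.map (g := fun z i => qry ρ α z i) (rangeK_ptime ρ α PTime.fst) (qry_ptime ρ α)

theorem size_units (n : ℕ) : size (enc (List.replicate n ())) = 2 * n + 1 := by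
  induction n with
  | zero => rfl
  | succ n ih =>
    rw [List.replicate_succ, size_lcons, ih]
    have : size (enc ()) = 1 := rfl
    omega

theorem size_qry (z : RatioParam × A.Inst) {i : ℕ} (hi : i ≤ Kn ρ α z.1) :
    size (enc (qry ρ α z i)) = size (enc (qry ρ α z 0)) := by
  unfold qry
  simp only [size_pair, List.take_replicate, size_units]
  omega

theorem qry_len (z : RatioParam × A.Inst) {i : ℕ} (hi : i ≤ Kn ρ α z.1) :
    (qry ρ α z i).2.2.1.length = i := by
  unfold qry
  simp only [List.take_replicate, List.length_replicate]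
  omega

end queries

/-! ### The output of the other parts -/

/-- output of the PCP theorem for the verifier of `C` -/
structure Pk {A : OptProblem} (C : Ctx A) where
  G : Qy A → CG 1024
  dec : Qy A × List (Fin 1024) → List Bool
  δ : ℝ
  δ_pos : 0 < δ
  hG : PTime G
  hdec : PTime dec
  WF : ∀ x, WF 260 (G x)
  le : ∀ x, (G x).1.length ≤ (G x).2.length
  pos : ∀ x, 0 < (G x).2.length
  sz : ∀ x x', size (enc x) = size (enc x') → (C.N x).length = (C.N x').length →
      (G x).1.length = (G x').1.length ∧ (G x).2.length = (G x').2.length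
  complete : ∀ x w, w.length = (C.N x).length → C.V (w, x) = true → ∃ a, viol (G x).2 a = 0
  sound : ∀ x (L : List (Fin 1024)), (viol (G x).2 (fun n => L.getD n 0) : ℝ) <
      δ * (G x).2.length → C.V (dec (x, L), x) = true

theorem exists_pk {A : OptProblem} (C : Ctx A) : Nonempty (Pk C) := by
  obtain ⟨G, dec, δ, h1, h2, h3, h4, h5, h6, h7, h8, h9⟩ := pcp C.V C.V_ptime C.N C.N_ptime
  exact ⟨⟨G, dec, δ, h1, h2, h3, h4, h5, h6, h7, h8, h9⟩⟩

/-- output of the reduction to triangle packing -/
structure Tk (Δ k : ℕ) where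
  f : CG 1024 → List (List Bool)
  g : CG 1024 × List (ℕ × ℕ × ℕ) → List (Fin 1024)
  hf : PTime f
  hg : PTime g
  X : ∀ G : CG 1024, WF 260 G → BoundedGraph Δ
  matrix : ∀ G h, (X G h).matrix = f G
  upper : ∀ G h S, IsTrianglePacking (X G h) S → S.length ≤ k * G.1.length + G.2.length
  complete : ∀ G h, (∃ a : ℕ → Fin 1024, viol G.2 a = 0) →
    ∃ S, IsTrianglePacking (X G h) S ∧ S.length = k * G.1.length + G.2.length
  sound : ∀ G h S, IsTrianglePacking (X G h) S →
    viol G.2 (fun i => (g (G, S)).getD i 0) ≤ k * (k * G.1.length + G.2.length - S.length)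

theorem exists_tk : ∃ Δ k, Nonempty (Tk Δ k) := by
  obtain ⟨Δ, k, f, g, hf, hg, h⟩ := cg_to_triangles 1024 260 (by norm_num)
  exact ⟨Δ, k, ⟨{
    f := f
    g := g
    hf := hf
    hg := hg
    X := fun G hG => (h G hG).choose
    matrix := fun G hG => (h G hG).choose_spec.1
    upper := fun G hG => (h G hG).choose_spec.2.1
    complete := fun G hG => (h G hG).choose_spec.2.2.1
    sound := fun G hG => (h G hG).choose_spec.2.2.2 }⟩⟩

/-- output of the union construction -/
structure Uk (Δ : ℕ) where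
  F : List (List (List Bool)) → List (List Bool)
  P : List (List (List Bool)) × List (ℕ × ℕ × ℕ) → List (List (ℕ × ℕ × ℕ))
  hF : PTime F
  hP : PTime P
  U : List (BoundedGraph Δ) → BoundedGraph Δ
  matrix : ∀ Xs, (U Xs).matrix = F (Xs.map BoundedGraph.matrix)
  parts : ∀ Xs S, IsTrianglePacking (U Xs) S →
    (P (Xs.map BoundedGraph.matrix, S)).length = Xs.length ∧
    (∀ i (_ : i < Xs.length),
      IsTrianglePacking Xs[i] ((P (Xs.map BoundedGraph.matrix, S)).getD i [])) ∧
    S.length = ((P (Xs.map BoundedGraph.matrix, S)).map List.length).sum ∧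
    ∀ i (_ : i < Xs.length) (R : List (ℕ × ℕ × ℕ)), IsTrianglePacking Xs[i] R →
      ∃ S', IsTrianglePacking (U Xs) S' ∧
        S'.length + ((P (Xs.map BoundedGraph.matrix, S)).getD i []).length = S.length + R.length

/-! ### The reduction -/

section red
variable {A : OptProblem} (C : Ctx A) (PK : Pk C) {Δ k : ℕ} (TK : Tk Δ k) (UK : Uk Δ) (α : ℕ)

local instance : Enc (BoundedGraph Δ) := ⟨fun X => enc X.matrix⟩

/-- the graphs of the queries -/
noncomputable def gs (z : RatioParam × A.Inst) : List (BoundedGraph Δ) :=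
  (qs C.ρ α z).map fun q => TK.X (PK.G q) (PK.WF q)

/-- their matrices -/
def ms (z : RatioParam × A.Inst) : List (List (List Bool)) :=
  (qs C.ρ α z).map fun q => TK.f (PK.G q)

theorem gs_matrix (z : RatioParam × A.Inst) :
    (gs C PK TK α z).map BoundedGraph.matrix = ms C PK TK α z := by
  unfold gs ms
  rw [List.map_map]
  exact List.map_congr_left fun q _ => TK.matrix _ _

/-- the map of instances -/
noncomputable def redF (z : RatioParam × A.Inst) : BoundedGraph Δ := UK.U (gs C PK TK α z)

theorem ms_ptime : PTime (ms C PK TK α) :=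
  PTime.map (g := fun _ q => TK.f (PK.G q)) (qs_ptime C.ρ α)
    ((TK.hf.comp PK.hG).comp PTime.snd)

theorem redF_ptime : PTime (redF C PK TK UK α) := by
  refine (UK.hF.comp (ms_ptime C PK TK α)).of_enc_eq (fun z => z) (fun _ => rfl) fun z => ?_
  change enc (UK.U (gs C PK TK α z)).matrix = _
  rw [UK.matrix, gs_matrix]

/-- the parts of a packing -/
def pts (z : RatioParam × (A.Inst × List (ℕ × ℕ × ℕ))) : List (List (ℕ × ℕ × ℕ)) :=
  UK.P (ms C PK TK α (z.1, z.2.1), z.2.2)

/-- the witness decoded from a packing -/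
def wit (p : Qy A × List (ℕ × ℕ × ℕ)) : List Bool := PK.dec (p.1, TK.g (PK.G p.1, p.2))

/-- the last query with a valid decoded witness -/
noncomputable def lastOk (z : RatioParam × (A.Inst × List (ℕ × ℕ × ℕ))) :
    Option (Qy A × List (ℕ × ℕ × ℕ)) :=
  ((qs C.ρ α (z.1, z.2.1)).zip (pts C PK TK UK α z)).reverse.find?
    fun p => C.V (wit C PK TK p, p.1)

/-- code of the output -/
noncomputable def codeOut (z : RatioParam × (A.Inst × List (ℕ × ℕ × ℕ))) : D :=
  ((lastOk C PK TK UK α z).map fun p => parse (wit C PK TK p)).getD (A.encSol (C.T z.2.1))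

theorem codeOut_good (z : RatioParam × (A.Inst × List (ℕ × ℕ × ℕ))) :
    ∃ y, A.encSol y = codeOut C PK TK UK α z ∧ A.feasible z.2.1 y := by
  unfold codeOut
  cases h : lastOk C PK TK UK α z with
  | none => exact ⟨C.T z.2.1, rfl, C.T_feas _⟩
  | some p =>
    have h1 := List.find?_some h
    have h2 := List.mem_of_find?_eq_some h
    rw [List.mem_reverse] at h2
    have h3 : p.1 ∈ qs C.ρ α (z.1, z.2.1) := (List.of_mem_zip h2).1
    obtain ⟨hex, _⟩ := C.V_sound h1
    unfold qs at h3
    obtain ⟨i, _, hi⟩ := List.mem_map.1 h3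
    have h4 : p.1.1 = z.2.1 := by rw [← hi]; rfl
    obtain ⟨y, hy1, hy2⟩ := hex
    refine ⟨y, hy1, ?_⟩
    rw [← h4]
    exact hy2

/-- the map of solutions -/
noncomputable def redG (z : RatioParam × (A.Inst × List (ℕ × ℕ × ℕ))) : A.Sol :=
  (codeOut_good C PK TK UK α z).choose

theorem redG_feasible (z : RatioParam × (A.Inst × List (ℕ × ℕ × ℕ))) :
    A.feasible z.2.1 (redG C PK TK UK α z) := (codeOut_good C PK TK UK α z).choose_spec.2

theorem redG_ptime : PTime (redG C PK TK UK α) := by
  have hz : PTime (fun z : RatioParam × (A.Inst × List (ℕ × ℕ × ℕ)) => (z.1, z.2.1)) :=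
    PTime.fst.pair (PTime.fst' PTime.snd)
  have hS : PTime (fun z : RatioParam × (A.Inst × List (ℕ × ℕ × ℕ)) => z.2.2) :=
    PTime.snd' PTime.snd
  have hp : PTime (pts C PK TK UK α) := UK.hP.comp (((ms_ptime C PK TK α).comp hz).pair hS)
  have hw : PTime (wit C PK TK) :=
    PK.hdec.comp (PTime.fst.pair (TK.hg.comp ((PK.hG.comp PTime.fst).pair PTime.snd)))
  have hl : PTime (lastOk C PK TK UK α) := by
    refine PTime.find? (g := fun (_ : RatioParam × (A.Inst × List (ℕ × ℕ × ℕ)))
      (p : Qy A × List (ℕ × ℕ × ℕ)) => C.V (wit C PK TK p, p.1))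
      (PTime.reverse (((qs_ptime C.ρ α).comp hz).zip hp)) ?_
    exact C.V_ptime.comp ((hw.comp PTime.snd).pair (PTime.fst' PTime.snd))
  have hc : PTime (codeOut C PK TK UK α) := by
    refine PTime.getD (PTime.omap (g := fun (_ : RatioParam × (A.Inst × List (ℕ × ℕ × ℕ)))
      (p : Qy A × List (ℕ × ℕ × ℕ)) => parse (wit C PK TK p)) hl
      (Ctx.parse_ptime' (hw.comp PTime.snd))) ?_
    exact PTime.toD.comp (C.hT.comp (PTime.fst' PTime.snd))
  exact hc.of_enc_eq (fun z => z) (fun _ => rfl)
    (fun z => (codeOut_good C PK TK UK α z).choose_spec.1)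

end red

end Pool.Agent.PCP
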