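import Pool.Agent.Lib.PCP.Regular

/-!
# Soundness of the degree reduction
-/

namespace Pool.Agent.PCP

open Finset BigOperators

theorem ind_not_add {p : Prop} [Decidable p] : ind p + ind (¬ p) = 1 := by
  by_cases h : p
  · rw [ind_true h, ind_false (not_not.2 h)]; norm_num
  · rw [ind_false h, ind_true h]; norm_num

theorem sum_pairs (m : ℕ) (g : ℕ → ℝ) :
    ∑ x ∈ range (2 * m), g x = ∑ i ∈ range m, (g (2 * i) + g (2 * i + 1)) := by
  induction m with
  | zero => simp
  | succ m ih =>
    rw [Nat.mul_succ, Finset.sum_range_succ, Finset.sum_range_succ, ih, Finset.sum_range_succ]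
    ring

theorem countP_eq_sum {β : Type} (p : β → Bool) (l : List β) (d : β) :
    (l.countP p : ℝ) = ∑ i ∈ range l.length, ind (p (l.getD i d) = true) := by
  induction l with
  | nil => simp
  | cons x l ih =>
    rw [List.length_cons, Finset.sum_range_succ', List.countP_cons]
    simp only [List.getD_cons_succ, List.getD_cons_zero]
    rw [← ih]
    by_cases h : p x = true
    · simp [h, ind]
    · simp [h, ind]

section
variable {q : ℕ} (E : List (ℕ × ℕ × Rel q))

/-- number of violated (dart, port) pairs -/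
noncomputable def bad (a : ℕ → Fin q) : ℝ :=
  ∑ x ∈ range (2 * E.length), ∑ p : HP, ind (hcon E x p (a x) (a (hrot E x p).1) = false)

theorem two_viol (σ : ℕ → Fin q) :
    2 * (viol E σ : ℝ) = ∑ x ∈ range (2 * E.length),
      ind (hcon E x (Sum.inl (Sum.inl ())) (σ (vtx E x)) (σ (vtx E (mate x))) = false) := by
  rw [sum_pairs, viol, countP_eq_sum _ E (0, 0, fun _ _ => true), Finset.mul_sum]
  refine Finset.sum_congr rfl fun i _ => ?_
  have e0 : (2 * i) % 2 = 0 := by omega
  have e1 : (2 * i + 1) % 2 ≠ 0 := by omega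
  have e2 : (2 * i) / 2 = i := by omega
  have e3 : (2 * i + 1) / 2 = i := by omega
  have e4 : mate (2 * i) = 2 * i + 1 := by unfold mate; rw [if_pos e0]
  have e5 : mate (2 * i + 1) = 2 * i := by unfold mate; rw [if_neg e1]; omega
  have v0 : vtx E (2 * i) = (E.getD i (0, 0, fun _ _ => true)).1 := by
    unfold vtx; rw [if_pos e0, e2]
  have v1 : vtx E (2 * i + 1) = (E.getD i (0, 0, fun _ _ => true)).2.1 := by
    unfold vtx; rw [if_neg e1, e3]
  simp only [hcon, e4, e5, v0, v1, e0, e1, e2, e3, if_true, if_false]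
  simp only [Bool.not_eq_true']
  ring

theorem sum_mate (m : ℕ) (g : ℕ → ℝ) :
    ∑ x ∈ range (2 * m), g (mate x) = ∑ x ∈ range (2 * m), g x := by
  refine Finset.sum_nbij' mate mate ?_ ?_ ?_ ?_ ?_
  · intro x hx; simp only [Finset.mem_range] at hx ⊢; exact mate_lt hx
  · intro x hx; simp only [Finset.mem_range] at hx ⊢; exact mate_lt hx
  · intro x _; exact mate_mate x
  · intro x _; exact mate_mate x
  · intro x _; rfl

/-- one value in one cloud -/
theorem cloud_value (a : ℕ → Fin q) (y : ℕ) (s t : Fin q) (hst : s ≠ t)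
    (h : ∑ x ∈ (range (2 * E.length)).filter (fun x => vtx E x = y), ind (a x = s) ≤
      ∑ x ∈ (range (2 * E.length)).filter (fun x => vtx E x = y), ind (a x = t)) :
    (7 / 10 : ℝ) * ∑ x ∈ (range (2 * E.length)).filter (fun x => vtx E x = y), ind (a x = s) ≤
      ∑ x ∈ (range (2 * E.length)).filter (fun x => vtx E x = y), ∑ p : XP,
        (ind (a x = s) - ind (a (hrot E x (Sum.inl (Sum.inr (Sum.inl p)))).1 = s)) ^ 2 := by
  set C := (range (2 * E.length)).filter (fun x => vtx E x = y) with hC
  set k : ℝ := ((C.card : ℕ) : ℝ) with hk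
  set K : ℝ := ∑ x ∈ C, ind (a x = s) with hK
  rcases Nat.eq_zero_or_pos C.card with h0 | h0
  · rw [Finset.card_eq_zero] at h0
    rw [hK, h0]
    simp
  have hkpos : 0 < k := by rw [hk]; exact_mod_cast h0
  have hKnn : 0 ≤ K := Finset.sum_nonneg fun x _ => ind_nonneg _
  have hK2 : 2 * K ≤ k := by
    have h1 : K + ∑ x ∈ C, ind (a x = t) ≤ k := by
      rw [hK, ← Finset.sum_add_distrib, hk]
      have : ((C.card : ℕ) : ℝ) = ∑ x ∈ C, (1 : ℝ) := by simp
      rw [this]
      refine Finset.sum_le_sum fun x _ => ?_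
      by_cases hx : a x = s
      · have : a x ≠ t := fun h' => hst (hx.symm.trans h')
        rw [ind_true hx, ind_false this]; norm_num
      · rw [ind_false hx]
        have := ind_le_one (a x = t)
        linarith
    linarith
  have hp := cloud_poincare E y (fun x => ind (a x = s) - K / k) (by
    rw [Finset.sum_sub_distrib, ← hC, ← hK, Finset.sum_const, nsmul_eq_mul, ← hk]
    field_simp
    ring)
  rw [← hC] at hp
  have e1 : ∑ x ∈ C, (ind (a x = s) - K / k) ^ 2 = K - K ^ 2 / k := by
    have : ∀ x ∈ C, (ind (a x = s) - K / k) ^ 2 =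
        ind (a x = s) - 2 * (K / k) * ind (a x = s) + (K / k) ^ 2 := by
      intro x _
      have hsq : ind (a x = s) ^ 2 = ind (a x = s) := by
        unfold ind; split <;> norm_num
      ring_nf
      rw [hsq]
      ring
    rw [Finset.sum_congr rfl this, Finset.sum_add_distrib, Finset.sum_sub_distrib,
      ← Finset.mul_sum, ← hK, Finset.sum_const, nsmul_eq_mul, ← hk]
    field_simp
    ring
  have e2 : ∀ x ∈ C, ∑ p : XP, ((ind (a x = s) - K / k) -
      (ind (a (hrot E x (Sum.inl (Sum.inr (Sum.inl p)))).1 = s) - K / k)) ^ 2 =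
      ∑ p : XP, (ind (a x = s) -
        ind (a (hrot E x (Sum.inl (Sum.inr (Sum.inl p)))).1 = s)) ^ 2 := by
    intro x _
    refine Finset.sum_congr rfl fun p _ => ?_
    ring
  rw [e1, Finset.sum_congr rfl e2] at hp
  have e3 : K ^ 2 / k ≤ K / 2 := by
    rw [div_le_div_iff₀ hkpos (by norm_num)]
    nlinarith
  linarith

/-- indicator form of the plurality assumption -/
def Plur (a σ : ℕ → Fin q) : Prop := ∀ y s,
  ∑ x ∈ (range (2 * E.length)).filter (fun x => vtx E x = y), ind (a x = s) ≤
    ∑ x ∈ (range (2 * E.length)).filter (fun x => vtx E x = y), ind (a x = σ y)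

theorem cloud_minority (a σ : ℕ → Fin q) (hσ : Plur E a σ) (y : ℕ) :
    (7 / 10 : ℝ) * ∑ x ∈ (range (2 * E.length)).filter (fun x => vtx E x = y),
        ind (a x ≠ σ (vtx E x)) ≤
      2 * ∑ x ∈ (range (2 * E.length)).filter (fun x => vtx E x = y), ∑ p : XP,
        ind (a x ≠ a (hrot E x (Sum.inl (Sum.inr (Sum.inl p)))).1) := by
  set C := (range (2 * E.length)).filter (fun x => vtx E x = y) with hC
  have h1 : ∑ x ∈ C, ind (a x ≠ σ (vtx E x)) =
      ∑ s ∈ univ.erase (σ y), ∑ x ∈ C, ind (a x = s) := by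
    rw [Finset.sum_comm]
    refine Finset.sum_congr rfl fun x hx => ?_
    have hv : vtx E x = y := (Finset.mem_filter.1 hx).2
    rw [hv]
    by_cases h : a x = σ y
    · rw [ind_false (not_not.2 h)]
      symm
      refine Finset.sum_eq_zero fun s hs => ?_
      exact ind_false fun h' => (Finset.ne_of_mem_erase hs) (h'.symm.trans h)
    · rw [ind_true h, Finset.sum_eq_single (a x)]
      · exact (ind_true rfl).symm
      · intro s _ hs
        exact ind_false fun h' => hs h'.symm
      · intro h'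
        exact absurd (Finset.mem_erase.2 ⟨h, Finset.mem_univ _⟩) h'
  have h2 : ∀ s ∈ univ.erase (σ y), (7 / 10 : ℝ) * ∑ x ∈ C, ind (a x = s) ≤
      ∑ x ∈ C, ∑ p : XP,
        (ind (a x = s) - ind (a (hrot E x (Sum.inl (Sum.inr (Sum.inl p)))).1 = s)) ^ 2 :=
    fun s hs => cloud_value E a y s (σ y) (Finset.ne_of_mem_erase hs) (hσ y s)
  rw [h1, Finset.mul_sum]
  refine (Finset.sum_le_sum h2).trans ?_
  rw [Finset.sum_comm, Finset.mul_sum]
  refine Finset.sum_le_sum fun x _ => ?_
  rw [Finset.sum_comm, Finset.mul_sum]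
  refine Finset.sum_le_sum fun p _ => ?_
  generalize (a (hrot E x (Sum.inl (Sum.inr (Sum.inl p)))).1) = b
  generalize a x = c
  calc ∑ s ∈ univ.erase (σ y), (ind (c = s) - ind (b = s)) ^ 2
      ≤ ∑ s, (ind (c = s) - ind (b = s)) ^ 2 :=
        Finset.sum_le_sum_of_subset_of_nonneg (Finset.subset_univ _) fun _ _ _ => by positivity
    _ ≤ 2 * ind (c ≠ b) := by
        by_cases h : c = b
        · subst h
          simp [ind]
        · rw [ind_true h]
          have : ∀ s, (ind (c = s) - ind (b = s)) ^ 2 ≤ ind (c = s) + ind (b = s) := by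
            intro s
            unfold ind
            split <;> split <;> norm_num
          refine (Finset.sum_le_sum fun s _ => this s).trans ?_
          rw [Finset.sum_add_distrib]
          have e : ∀ d : Fin q, ∑ s, ind (d = s) = 1 := by
            intro d
            unfold ind
            rw [Finset.sum_ite_eq]
            simp
          rw [e, e]
          norm_num

/-- Soundness of the degree reduction. -/
theorem degree_reduction (a σ : ℕ → Fin q) (hσ : Plur E a σ) :
    2 * (viol E σ : ℝ) ≤ 6 * bad E a := by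
  set N := 2 * E.length with hN
  set EXT : ℝ := ∑ x ∈ range N,
    ind (hcon E x (Sum.inl (Sum.inl ())) (a x) (a (mate x)) = false) with hEXT
  set SB : ℝ := ∑ x ∈ range N, ind (a x ≠ σ (vtx E x)) with hSB
  set CL : ℝ := ∑ x ∈ range N, ∑ p : XP,
    ind (a x ≠ a (hrot E x (Sum.inl (Sum.inr (Sum.inl p)))).1) with hCL
  have h1 : 2 * (viol E σ : ℝ) ≤ EXT + 2 * SB := by
    rw [two_viol]
    have hm : SB = ∑ x ∈ range N, ind (a (mate x) ≠ σ (vtx E (mate x))) :=
      (sum_mate E.length (fun x => ind (a x ≠ σ (vtx E x)))).symm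
    have : EXT + 2 * SB = ∑ x ∈ range N,
        (ind (hcon E x (Sum.inl (Sum.inl ())) (a x) (a (mate x)) = false) +
          ind (a x ≠ σ (vtx E x)) + ind (a (mate x) ≠ σ (vtx E (mate x)))) := by
      rw [Finset.sum_add_distrib, Finset.sum_add_distrib, ← hm, ← hSB, ← hEXT]
      ring
    rw [this]
    refine Finset.sum_le_sum fun x _ => ?_
    by_cases e1 : a x = σ (vtx E x)
    · by_cases e2 : a (mate x) = σ (vtx E (mate x))
      · rw [e1, e2]
        have h3 := ind_nonneg (σ (vtx E x) ≠ σ (vtx E x))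
        have h4 := ind_nonneg (σ (vtx E (mate x)) ≠ σ (vtx E (mate x)))
        linarith
      · have h3 := ind_true (p := a (mate x) ≠ σ (vtx E (mate x))) e2
        have h4 := ind_nonneg (a x ≠ σ (vtx E x))
        have h5 := ind_nonneg (hcon E x (Sum.inl (Sum.inl ())) (a x) (a (mate x)) = false)
        have h6 := ind_le_one (hcon E x (Sum.inl (Sum.inl ())) (σ (vtx E x))
          (σ (vtx E (mate x))) = false)
        linarith
    · have h3 := ind_true (p := a x ≠ σ (vtx E x)) e1
      have h4 := ind_nonneg (a (mate x) ≠ σ (vtx E (mate x)))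
      have h5 := ind_nonneg (hcon E x (Sum.inl (Sum.inl ())) (a x) (a (mate x)) = false)
      have h6 := ind_le_one (hcon E x (Sum.inl (Sum.inl ())) (σ (vtx E x))
        (σ (vtx E (mate x))) = false)
      linarith
  have h2 : (7 / 10 : ℝ) * SB ≤ 2 * CL := by
    have hmaps : ∀ x ∈ range N, vtx E x ∈ (range N).image (vtx E) := fun x hx =>
      Finset.mem_image_of_mem _ hx
    rw [hSB, hCL, ← Finset.sum_fiberwise_of_maps_to hmaps, ← Finset.sum_fiberwise_of_maps_to hmaps,
      Finset.mul_sum, Finset.mul_sum]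
    exact Finset.sum_le_sum fun y _ => cloud_minority E a σ hσ y
  have h3 : EXT + CL ≤ bad E a := by
    unfold bad
    rw [hEXT, hCL, ← Finset.sum_add_distrib]
    refine Finset.sum_le_sum fun x _ => ?_
    rw [Fintype.sum_sum_type, Fintype.sum_sum_type, Fintype.sum_sum_type]
    have e1 : ∑ p : Unit, ind (hcon E x (Sum.inl (Sum.inl p)) (a x)
        (a (hrot E x (Sum.inl (Sum.inl p))).1) = false) =
        ind (hcon E x (Sum.inl (Sum.inl ())) (a x) (a (mate x)) = false) := by
      rw [Fintype.sum_unique]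
      rfl
    have e2 : ∑ p : XP, ind (hcon E x (Sum.inl (Sum.inr (Sum.inl p))) (a x)
        (a (hrot E x (Sum.inl (Sum.inr (Sum.inl p)))).1) = false) =
        ∑ p : XP, ind (a x ≠ a (hrot E x (Sum.inl (Sum.inr (Sum.inl p)))).1) := by
      refine Finset.sum_congr rfl fun p _ => ?_
      simp [hcon]
    rw [e1, e2]
    have e3 : 0 ≤ ∑ p : XP, ind (hcon E x (Sum.inl (Sum.inr (Sum.inr p))) (a x)
        (a (hrot E x (Sum.inl (Sum.inr (Sum.inr p)))).1) = false) :=
      Finset.sum_nonneg fun _ _ => ind_nonneg _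
    have e4 : 0 ≤ ∑ p : Fin 65, ind (hcon E x (Sum.inr p) (a x)
        (a (hrot E x (Sum.inr p)).1) = false) :=
      Finset.sum_nonneg fun _ _ => ind_nonneg _
    linarith
  have h4 : 0 ≤ EXT := Finset.sum_nonneg fun _ _ => ind_nonneg _
  have h5 : 0 ≤ CL := Finset.sum_nonneg fun _ _ => Finset.sum_nonneg fun _ _ => ind_nonneg _
  linarith

end

end Pool.Agent.PCP
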