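import Pool.Agent.Lib.PCP.LongCode
import Pool.Agent.Lib.PCP.CG
import Pool.Agent.Lib.PCP.DegreeRed

/-!
# Alphabet reduction with the long code test
-/

namespace Pool.Agent.PCP

open Finset BigOperators

/-! ### the target alphabet -/

/-- ten bits as one symbol -/
noncomputable def b10 : (Fin 10 → Bool) ≃ Fin 1024 :=
  Fintype.equivFinOfCardEq (by simp)

/-- functions on `S` -/
abbrev F1 (S : Type) := S → Bool
/-- functions on pairs -/
abbrev F2 (S : Type) := S × S → Bool
/-- randomness of the test -/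
abbrev TT (S : Type) := F2 S × (F2 S × (F2 S × F1 S))
/-- the new vertices belonging to an old vertex: table of the vertex, tables of its edges,
answers of the tests -/
abbrev QQ (Ω S : Type) := F1 S ⊕ ((Ω × F2 S) ⊕ (Ω × TT S))

/-- the five tests, on the ten answers -/
def test5 (α : Fin 10 → Bool) : Bool :=
  (Bool.xor (α 0) (α 1) == α 2) && ((Bool.xor (α 3) (α 4) == (α 0 && α 1)) &&
    ((Bool.xor (α 5) (α 4) == true) && ((Bool.xor (α 6) (α 4) == α 8) &&
      (Bool.xor (α 7) (α 4) == α 9))))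

/-- constraint for the `j`-th query: the first symbol passes the test and agrees with the second
in the queried bit -/
noncomputable def qrel (j : Fin 10) : Rel 1024 := fun x y =>
  test5 (b10.symm x) && (b10.symm x j == b10.symm y 0)

section
variable {Ω S : Type} [Fintype Ω] [DecidableEq Ω] [Fintype S] [DecidableEq S] [Nonempty S]

/-- number of new vertices per old vertex -/
noncomputable def KK (Ω S : Type) [Fintype Ω] [DecidableEq Ω] [Fintype S] [DecidableEq S] : ℕ :=
  Fintype.card (QQ Ω S)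

/-- number of tests -/
noncomputable def NT (S : Type) [Fintype S] [DecidableEq S] : ℕ := Fintype.card (TT S)

omit [Nonempty S] in
theorem NT_pos : 0 < NT S := Fintype.card_pos

omit [Nonempty S] in
theorem KK_pos : 0 < KK Ω S := Fintype.card_pos_iff.2 ⟨Sum.inl fun _ => false⟩

/-- number of a new vertex -/
noncomputable def nm (v : ℕ) (x : QQ Ω S) : ℕ := v * KK Ω S + Fintype.equivFin (QQ Ω S) x

/-- old vertex and local name of a new vertex -/
noncomputable def dn (n : ℕ) : ℕ × QQ Ω S :=
  (n / KK Ω S, (Fintype.equivFin (QQ Ω S)).symm ⟨n % KK Ω S, Nat.mod_lt _ KK_pos⟩)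

omit [Nonempty S] in
theorem dn_nm (v : ℕ) (x : QQ Ω S) : dn (nm v x) = (v, x) := by
  have hlt : (Fintype.equivFin (QQ Ω S) x : ℕ) < KK Ω S := (Fintype.equivFin (QQ Ω S) x).2
  have h1 : nm v x / KK Ω S = v := by
    unfold nm
    rw [Nat.add_comm, Nat.add_mul_div_right _ _ KK_pos, Nat.div_eq_of_lt hlt, Nat.zero_add]
  have h2 : nm v x % KK Ω S = (Fintype.equivFin (QQ Ω S) x : ℕ) := by
    unfold nm
    rw [Nat.add_comm, Nat.add_mul_mod_self_right, Nat.mod_eq_of_lt hlt]
  unfold dn
  simp only [h1, h2, Fin.eta, Equiv.symm_apply_apply]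

omit [Nonempty S] in
theorem nm_lt {N v : ℕ} (hv : v < N) (x : QQ Ω S) : nm v x < N * KK Ω S := by
  have hlt : (Fintype.equivFin (QQ Ω S) x : ℕ) < KK Ω S := (Fintype.equivFin (QQ Ω S) x).2
  unfold nm
  calc v * KK Ω S + (Fintype.equivFin (QQ Ω S) x : ℕ) < v * KK Ω S + KK Ω S := by omega
    _ = (v + 1) * KK Ω S := by ring
    _ ≤ N * KK Ω S := Nat.mul_le_mul_right _ hv

/-- the vertex queried by the `j`-th query: at the first vertex (`false`) or at the second
one (`true`) -/
def tgt (R : F2 S) (ω : Ω) (τ : TT S) (j : Fin 10) : Bool × QQ Ω S :=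
  match j with
  | 0 => (false, Sum.inr (Sum.inl (ω, τ.1)))
  | 1 => (false, Sum.inr (Sum.inl (ω, τ.2.1)))
  | 2 => (false, Sum.inr (Sum.inl (ω, fun z => Bool.xor (τ.1 z) (τ.2.1 z))))
  | 3 => (false, Sum.inr (Sum.inl (ω, fun z => Bool.xor (τ.1 z && τ.2.1 z) (τ.2.2.1 z))))
  | 4 => (false, Sum.inr (Sum.inl (ω, τ.2.2.1)))
  | 5 => (false, Sum.inr (Sum.inl (ω, fun z => Bool.xor (R z) (τ.2.2.1 z))))
  | 6 => (false, Sum.inr (Sum.inl (ω, fun z => Bool.xor (τ.2.2.2 z.1) (τ.2.2.1 z))))
  | 7 => (false, Sum.inr (Sum.inl (ω, fun z => Bool.xor (τ.2.2.2 z.2) (τ.2.2.1 z))))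
  | 8 => (false, Sum.inl τ.2.2.2)
  | 9 => (true, Sum.inl τ.2.2.2)

/-- an edge of the reduced graph -/
noncomputable def redEdge (v w : ℕ) (R : F2 S) (ω : Ω) (τ : TT S) (j : Fin 10) :
    ℕ × ℕ × Rel 1024 :=
  (nm v (Sum.inr (Sum.inr (ω, τ)) : QQ Ω S),
    nm (if (tgt R ω τ j).1 = true then w else v) (tgt R ω τ j).2, qrel j)

/-- the edges belonging to one old edge -/
noncomputable def redBlock (v w : ℕ) (R : F2 S) (ω : Ω) : List (ℕ × ℕ × Rel 1024) :=
  (univ : Finset (TT S)).toList.flatMap fun τ =>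
    (List.finRange 10).map fun j => redEdge v w R ω τ j

/-- all edges of the reduced graph -/
noncomputable def redEdges (N : ℕ) (w : ℕ → Ω → ℕ) (R : ℕ → Ω → F2 S) :
    List (ℕ × ℕ × Rel 1024) :=
  (List.range N).flatMap fun v => (univ : Finset Ω).toList.flatMap fun ω =>
    redBlock v (w v ω) (R v ω) ω

/-! ### counting -/

theorem countP_flatMap' {β γ : Type} (p : γ → Bool) (l : List β) (f : β → List γ) :
    ((l.flatMap f).countP p : ℝ) = (l.map fun b => ((f b).countP p : ℝ)).sum := by
  induction l with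
  | nil => simp
  | cons b l ih => rw [List.flatMap_cons, List.countP_append, List.map_cons, List.sum_cons, ← ih]
                   push_cast; ring

theorem sum_map_range (N : ℕ) (f : ℕ → ℝ) :
    ((List.range N).map f).sum = ∑ v ∈ range N, f v := by
  induction N with
  | zero => simp
  | succ N ih => rw [List.range_succ, List.map_append, List.sum_append, ih,
      Finset.sum_range_succ]; simp

theorem sum_map_finRange (N : ℕ) (f : Fin N → ℝ) :
    ((List.finRange N).map f).sum = ∑ v, f v := by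
  rw [← List.ofFn_eq_map, List.sum_ofFn]

theorem sum_map_univ {β : Type} [Fintype β] (f : β → ℝ) :
    ((univ : Finset β).toList.map f).sum = ∑ v, f v := Finset.sum_map_toList _ _

/-- violation of an edge, as a real number -/
noncomputable def vio {q : ℕ} (a : ℕ → Fin q) (e : ℕ × ℕ × Rel q) : ℝ :=
  ind (e.2.2 (a e.1) (a e.2.1) = false)

theorem viol_map_finRange {q : ℕ} (a : ℕ → Fin q) (N : ℕ) (f : Fin N → ℕ × ℕ × Rel q) :
    (((List.finRange N).map f).countP (fun e => !(e.2.2 (a e.1) (a e.2.1))) : ℝ) =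
      ∑ j, vio a (f j) := by
  rw [← sum_map_finRange, List.countP_map]
  generalize List.finRange N = l
  induction l with
  | nil => simp
  | cons x l ih =>
    rw [List.countP_cons, List.map_cons, List.sum_cons, ← ih]
    unfold vio ind
    by_cases h : (f x).2.2 (a (f x).1) (a (f x).2.1) = false
    · simp [h]; ring
    · simp [h]

omit [Nonempty S] in
theorem viol_redEdges (a : ℕ → Fin 1024) (N : ℕ) (w : ℕ → Ω → ℕ) (R : ℕ → Ω → F2 S) :
    (viol (redEdges N w R) a : ℝ) =
      ∑ v ∈ range N, ∑ ω, ∑ τ : TT S, ∑ j, vio a (redEdge v (w v ω) (R v ω) ω τ j) := by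
  unfold viol redEdges
  rw [countP_flatMap', sum_map_range]
  refine Finset.sum_congr rfl fun v _ => ?_
  rw [countP_flatMap', sum_map_univ]
  refine Finset.sum_congr rfl fun ω _ => ?_
  unfold redBlock
  rw [countP_flatMap', sum_map_univ]
  refine Finset.sum_congr rfl fun τ _ => ?_
  exact viol_map_finRange a 10 _

omit [Nonempty S] in
theorem length_redEdges (N : ℕ) (w : ℕ → Ω → ℕ) (R : ℕ → Ω → F2 S) :
    (redEdges N w R).length = N * (Fintype.card Ω * (NT S * 10)) := by
  unfold redEdges redBlock NT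
  simp only [List.length_flatMap, List.length_map, List.length_finRange, List.map_const',
    List.sum_replicate, Finset.length_toList, Finset.card_univ, List.length_range, smul_eq_mul]

/-! ### Decoding of tables -/

/-- distance to the long code of `s` -/
noncomputable def dst (B : F1 S → Bool) (s : S) : ℝ := avg fun k => ind (B k ≠ k s)

omit [Nonempty S] in
theorem dst_far {B : F1 S → Bool} {s s' : S} (h : dst B s ≤ 1 / 10) (h' : dst B s' ≤ 1 / 10) :
    s = s' := by
  classical
  by_contra hne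
  have h1 : avg (fun k : F1 S => ind (k s ≠ k s')) ≤ 1 / 10 + 1 / 10 := by
    refine le_trans ?_ (add_le_add h h')
    unfold dst
    rw [← avg_add]
    refine avg_mono fun k => ?_
    by_cases e : B k = k s
    · by_cases e' : B k = k s'
      · have : ind (k s ≠ k s') = 0 := ind_false (not_not.2 (e.symm.trans e'))
        rw [this]
        exact add_nonneg (ind_nonneg _) (ind_nonneg _)
      · rw [ind_true (p := B k ≠ k s') e']
        have := ind_nonneg (B k ≠ k s)
        have := ind_le_one (k s ≠ k s')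
        linarith
    · rw [ind_true (p := B k ≠ k s) e]
      have := ind_nonneg (B k ≠ k s')
      have := ind_le_one (k s ≠ k s')
      linarith
  have h2 : avg (fun k : F1 S => ind (k s ≠ k s')) = avg (fun k : F1 S => ind (¬ (k s ≠ k s'))) := by
    rw [← avg_tr (fun z => decide (z = s)) (fun k => ind (¬ (k s ≠ k s')))]
    congr 1
    funext k
    have e1 : xr (fun z => decide (z = s)) k s = !(k s) := by simp [xr]
    have e2 : xr (fun z => decide (z = s)) k s' = k s' := by simp [xr, Ne.symm hne]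
    simp only [e1, e2]
    cases k s <;> cases k s' <;> rfl
  have h3 : avg (fun k : F1 S => ind (k s ≠ k s')) + avg (fun k : F1 S => ind (¬ (k s ≠ k s'))) =
      1 := by
    rw [← avg_add, ← avg_const (X := F1 S) 1]
    congr 1
    funext k
    exact ind_not_add
  linarith

open Classical in
/-- decoding of a table -/
noncomputable def decT (B : F1 S → Bool) : S :=
  if h : ∃ s, dst B s ≤ 1 / 10 then h.choose else Classical.arbitrary S

theorem decT_eq {B : F1 S → Bool} {s : S} (h : dst B s ≤ 1 / 10) : decT B = s := by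
  have hex : ∃ s, dst B s ≤ 1 / 10 := ⟨s, h⟩
  unfold decT
  rw [dif_pos hex]
  exact dst_far hex.choose_spec h

/-- the table of an old vertex -/
noncomputable def tab (Ω : Type) {S : Type} [Fintype Ω] [DecidableEq Ω] [Fintype S]
    [DecidableEq S] (a : ℕ → Fin 1024) (v : ℕ) (k : F1 S) : Bool :=
  b10.symm (a (nm v (Sum.inl k : QQ Ω S))) 0

/-- the decoded assignment -/
noncomputable def decA (Ω : Type) {S : Type} [Fintype Ω] [DecidableEq Ω] [Fintype S]
    [DecidableEq S] [Nonempty S] (a : ℕ → Fin 1024) (v : ℕ) : S :=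
  decT (tab Ω a v)

/-! ### Soundness -/

omit [Nonempty S] in
theorem avg_TT (φ : F2 S → F2 S → F2 S → F1 S → ℝ) :
    avg (fun τ : TT S => φ τ.1 τ.2.1 τ.2.2.1 τ.2.2.2) =
      avg fun f => avg fun g => avg fun h => avg fun k => φ f g h k := by
  have hp : ∀ {X Y : Type} [Fintype X] [Fintype Y] (ψ : X → Y → ℝ),
      avg (fun z : X × Y => ψ z.1 z.2) = avg fun x => avg fun y => ψ x y := by
    intro X Y _ _ ψ
    unfold avg
    rw [Fintype.sum_prod_type, Fintype.card_prod, Nat.cast_mul, ← Finset.sum_div, div_div,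
      mul_comm]
  rw [hp (fun f (r : F2 S × (F2 S × F1 S)) => φ f r.1 r.2.1 r.2.2)]
  congr 1
  funext f
  rw [hp (fun g (r : F2 S × F1 S) => φ f g r.1 r.2)]
  congr 1
  funext g
  rw [hp (fun h k => φ f g h k)]

theorem block_sound (a : ℕ → Fin 1024) (v w : ℕ) (R : F2 S) (ω : Ω)
    (hR : R (decA Ω a v, decA Ω a w) = false) :
    (Fintype.card (TT S) : ℝ) / 100 ≤ ∑ τ : TT S, ∑ j, vio a (redEdge v w R ω τ j) := by
  by_contra hcon
  push Not at hcon
  have hcard : (0 : ℝ) < Fintype.card (TT S) := by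
    exact_mod_cast Fintype.card_pos
  have havg : avg (fun τ : TT S => ∑ j, vio a (redEdge v w R ω τ j)) < 1 / 100 := by
    unfold avg
    rw [div_lt_iff₀ hcard]
    linarith
  -- tables
  set A : F2 S → Bool := fun x => b10.symm (a (nm v (Sum.inr (Sum.inl (ω, x)) : QQ Ω S))) 0
    with hA
  set B₁ := tab Ω (S := S) a v with hB1
  set B₂ := tab Ω (S := S) a w with hB2
  -- actual answers
  let ans : TT S → Fin 10 → Bool := fun τ j =>
    b10.symm (a (nm (if (tgt R ω τ j).1 = true then w else v) (tgt R ω τ j).2)) 0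
  have hans : ∀ τ : TT S, ind (test5 (ans τ) = false) ≤ ∑ j, vio a (redEdge v w R ω τ j) := by
    intro τ
    by_cases hall : ∀ j, (redEdge v w R ω τ j).2.2 (a (redEdge v w R ω τ j).1)
        (a (redEdge v w R ω τ j).2.1) = true
    · have h1 : ∀ j, test5 (b10.symm (a (nm v (Sum.inr (Sum.inr (ω, τ)) : QQ Ω S)))) = true ∧
          b10.symm (a (nm v (Sum.inr (Sum.inr (ω, τ)) : QQ Ω S))) j = ans τ j := by
        intro j
        have := hall j
        simp only [redEdge, qrel, Bool.and_eq_true, beq_iff_eq] at this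
        exact this
      have h2 : b10.symm (a (nm v (Sum.inr (Sum.inr (ω, τ)) : QQ Ω S))) = ans τ :=
        funext fun j => (h1 j).2
      have h3 := (h1 0).1
      rw [h2] at h3
      rw [ind_false (by rw [h3]; simp)]
      exact Finset.sum_nonneg fun j _ => ind_nonneg _
    · push Not at hall
      obtain ⟨j, hj⟩ := hall
      have h1 : vio a (redEdge v w R ω τ j) = 1 := by
        unfold vio
        refine ind_true ?_
        simpa using hj
      refine (ind_le_one _).trans ?_
      rw [← h1]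
      exact Finset.single_le_sum (f := fun j => vio a (redEdge v w R ω τ j))
        (fun j _ => ind_nonneg _) (Finset.mem_univ j)
  have htest : avg (fun τ : TT S => ind (test5 (ans τ) = false)) ≤ 1 / 100 :=
    (avg_mono hans).trans havg.le
  have hgen : ∀ (φ : F2 S → F2 S → F2 S → F1 S → ℝ),
      (∀ f g h k, φ f g h k ≤ ind (test5 (ans (f, g, h, k)) = false)) →
      (avg fun f => avg fun g => avg fun h => avg fun k => φ f g h k) ≤ 1 / 100 := by
    intro φ hφ
    rw [← avg_TT]
    refine le_trans (avg_mono fun τ => ?_) htest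
    exact hφ τ.1 τ.2.1 τ.2.2.1 τ.2.2.2
  have hind : ∀ (P : Prop) [Decidable P] (τ : TT S), (P → test5 (ans τ) = false) →
      ind P ≤ ind (test5 (ans τ) = false) := by
    intro P _ τ h
    by_cases hP : P
    · rw [ind_true hP, ind_true (h hP)]
    · rw [ind_false hP]; exact ind_nonneg _
  -- the five tests
  have t1 := hgen (fun f g _ _ => ind (xor (A f) (A g) ≠ A (fun z => xor (f z) (g z))))
    (fun f g h k => hind _ _ fun hP => by
      have e : (Bool.xor (ans (f, g, h, k) 0) (ans (f, g, h, k) 1) == ans (f, g, h, k) 2) =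
        false := beq_eq_false_iff_ne.2 hP
      unfold test5
      rw [e, Bool.false_and])
  have t2 := hgen (fun f g h _ =>
      ind (xor (A fun z => xor (f z && g z) (h z)) (A h) ≠ (A f && A g)))
    (fun f g h k => hind _ _ fun hP => by
      have e : (Bool.xor (ans (f, g, h, k) 3) (ans (f, g, h, k) 4) ==
        (ans (f, g, h, k) 0 && ans (f, g, h, k) 1)) = false := beq_eq_false_iff_ne.2 hP
      unfold test5
      rw [e, Bool.false_and, Bool.and_false])
  have t3 := hgen (fun _ _ h _ => ind (xor (A fun z => xor (R z) (h z)) (A h) ≠ true))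
    (fun f g h k => hind _ _ fun hP => by
      have e : (Bool.xor (ans (f, g, h, k) 5) (ans (f, g, h, k) 4) == true) = false :=
        beq_eq_false_iff_ne.2 hP
      unfold test5
      rw [e, Bool.false_and, Bool.and_false, Bool.and_false])
  have t4 := hgen (fun _ _ h k => ind (xor (A fun z => xor (k z.1) (h z)) (A h) ≠ B₁ k))
    (fun f g h k => hind _ _ fun hP => by
      have e : (Bool.xor (ans (f, g, h, k) 6) (ans (f, g, h, k) 4) == ans (f, g, h, k) 8) =
        false := beq_eq_false_iff_ne.2 hP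
      unfold test5
      rw [e, Bool.false_and, Bool.and_false, Bool.and_false, Bool.and_false])
  have t5 := hgen (fun _ _ h k => ind (xor (A fun z => xor (k z.2) (h z)) (A h) ≠ B₂ k))
    (fun f g h k => hind _ _ fun hP => by
      have e : (Bool.xor (ans (f, g, h, k) 7) (ans (f, g, h, k) 4) == ans (f, g, h, k) 9) =
        false := beq_eq_false_iff_ne.2 hP
      unfold test5
      rw [e, Bool.and_false, Bool.and_false, Bool.and_false, Bool.and_false])
  simp only [avg_const] at t1 t2 t3 t4 t5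
  rw [avg_comm] at t4 t5
  obtain ⟨s, s', h1, h2, h3⟩ := long_code_test R A B₁ B₂ t1 t2 t3 t4 t5
  have e1 : decA Ω (S := S) a v = s := decT_eq h2
  have e2 : decA Ω (S := S) a w = s' := decT_eq h3
  rw [e1, e2, h1] at hR
  exact absurd hR (by simp)

/-- Soundness of the alphabet reduction. -/
theorem alphabet_sound (a : ℕ → Fin 1024) (N : ℕ) (w : ℕ → Ω → ℕ) (R : ℕ → Ω → F2 S) :
    (NT S : ℝ) / 100 * ∑ v ∈ range N, ∑ ω,
        ind (R v ω (decA Ω a v, decA Ω a (w v ω)) = false) ≤
      viol (redEdges N w R) a := by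
  unfold NT
  rw [viol_redEdges, Finset.mul_sum]
  refine Finset.sum_le_sum fun v _ => ?_
  rw [Finset.mul_sum]
  refine Finset.sum_le_sum fun ω _ => ?_
  by_cases h : R v ω (decA Ω a v, decA Ω a (w v ω)) = false
  · rw [ind_true h, mul_one]
    exact block_sound a v (w v ω) (R v ω) ω h
  · rw [ind_false h, mul_zero]
    exact Finset.sum_nonneg fun _ _ => Finset.sum_nonneg fun _ _ => ind_nonneg _

/-! ### Completeness -/

/-- the honest answers -/
def hAns (R : F2 S) (s s' : S) (τ : TT S) : Fin 10 → Bool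
  | 0 => τ.1 (s, s')
  | 1 => τ.2.1 (s, s')
  | 2 => Bool.xor (τ.1 (s, s')) (τ.2.1 (s, s'))
  | 3 => Bool.xor (τ.1 (s, s') && τ.2.1 (s, s')) (τ.2.2.1 (s, s'))
  | 4 => τ.2.2.1 (s, s')
  | 5 => Bool.xor (R (s, s')) (τ.2.2.1 (s, s'))
  | 6 => Bool.xor (τ.2.2.2 s) (τ.2.2.1 (s, s'))
  | 7 => Bool.xor (τ.2.2.2 s') (τ.2.2.1 (s, s'))
  | 8 => τ.2.2.2 s
  | 9 => τ.2.2.2 s'

/-- the honest assignment -/
noncomputable def hAss (w : ℕ → Ω → ℕ) (R : ℕ → Ω → F2 S) (σ : ℕ → S) (n : ℕ) : Fin 1024 :=
  match (dn n : ℕ × QQ Ω S) with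
  | (v, Sum.inl k) => b10 fun _ => k (σ v)
  | (v, Sum.inr (Sum.inl (ω, f))) => b10 fun _ => f (σ v, σ (w v ω))
  | (v, Sum.inr (Sum.inr (ω, τ))) => b10 (hAns (R v ω) (σ v) (σ (w v ω)) τ)

omit [Nonempty S] in
theorem alphabet_complete (N : ℕ) (w : ℕ → Ω → ℕ) (R : ℕ → Ω → F2 S) (σ : ℕ → S)
    (h : ∀ v < N, ∀ ω, R v ω (σ v, σ (w v ω)) = true) :
    viol (redEdges N w R) (hAss w R σ) = 0 := by
  have key : (viol (redEdges N w R) (hAss w R σ) : ℝ) = 0 := by
    rw [viol_redEdges]
    refine Finset.sum_eq_zero fun v hv => Finset.sum_eq_zero fun ω _ =>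
      Finset.sum_eq_zero fun τ _ => Finset.sum_eq_zero fun j _ => ?_
    have hR := h v (Finset.mem_range.1 hv) ω
    have e0 : hAss w R σ (nm v (Sum.inr (Sum.inr (ω, τ)) : QQ Ω S)) =
        b10 (hAns (R v ω) (σ v) (σ (w v ω)) τ) := by
      unfold hAss; rw [dn_nm]
    have et : test5 (hAns (R v ω) (σ v) (σ (w v ω)) τ) = true := by
      simp only [test5, hAns, hR]
      cases τ.1 (σ v, σ (w v ω)) <;> cases τ.2.1 (σ v, σ (w v ω)) <;>
        cases τ.2.2.1 (σ v, σ (w v ω)) <;> cases τ.2.2.2 (σ v) <;>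
          cases τ.2.2.2 (σ (w v ω)) <;> rfl
    have ef : ∀ f : F2 S, hAss w R σ (nm v (Sum.inr (Sum.inl (ω, f)) : QQ Ω S)) =
        b10 fun _ => f (σ v, σ (w v ω)) := by
      intro f; unfold hAss; rw [dn_nm]
    have ek : ∀ (u : ℕ) (k : F1 S), hAss w R σ (nm u (Sum.inl k : QQ Ω S)) =
        b10 fun _ => k (σ u) := by
      intro u k; unfold hAss; rw [dn_nm]
    unfold vio
    refine ind_false ?_
    simp only [redEdge, qrel, e0, Equiv.symm_apply_apply, et, Bool.true_and]
    have : b10.symm (hAss w R σ (nm (if (tgt (R v ω) ω τ j).1 = true then w v ω else v)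
        (tgt (R v ω) ω τ j).2)) 0 = hAns (R v ω) (σ v) (σ (w v ω)) τ j := by
      fin_cases j <;> simp [tgt, hAns, ef, ek]
    rw [this]
    simp
  exact_mod_cast key

end

end Pool.Agent.PCP
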