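import Pool.Agent.Lib.PCP.StepP

/-!
# Decoding of assignments in polynomial time
-/

namespace Pool.Agent.PCP

open Finset BigOperators Pool.Agent.PolyTime

/-! ### the maximum as a function of comparisons -/

open Classical in
/-- an argument that beats all the others, given all comparisons -/
noncomputable def argC {q : ℕ} [NeZero q] (M : Fin q → Fin q → Bool) : Fin q :=
  if h : ∃ s, ∀ s', M s s' = true then h.choose else 0

open Classical in
theorem argm_eq_argC {q : ℕ} [NeZero q] (W : Fin q → ℝ) (M : Fin q → Fin q → Bool)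
    (h : ∀ s s', M s s' = true ↔ W s' ≤ W s) : argm W = argC M := by
  have e : (fun s => ∀ s', W s' ≤ W s) = fun s => ∀ s', M s s' = true := by
    funext s
    exact propext (forall_congr' fun s' => (h s s').symm)
  have hiff : (∃ s, ∀ s', W s' ≤ W s) ↔ ∃ s, ∀ s', M s s' = true :=
    exists_congr fun s => forall_congr' fun s' => (h s s').symm
  have key : ∀ (P Q : Fin q → Prop) (hP : ∃ s, P s) (hQ : ∃ s, Q s), P = Q →
      hP.choose = hQ.choose := by
    intro P Q hP hQ hPQ
    subst hPQ
    rfl
  unfold argm argC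
  by_cases h1 : ∃ s, ∀ s', W s' ≤ W s
  · have h2 := hiff.1 h1
    rw [dif_pos h1, dif_pos h2]
    exact key _ _ h1 h2 e
  · have h2 : ¬ ∃ s, ∀ s', M s s' = true := fun h => h1 (hiff.2 h)
    rw [dif_neg h1, dif_neg h2]

theorem avgL_congr {P : Type} [Fintype P] (n : ℕ) (F F' : List P → ℝ)
    (h : ∀ l, l.length = n → F l = F' l) : avgL n F = avgL n F' := by
  induction n generalizing F F' with
  | zero => exact h [] rfl
  | succ n ih =>
    rw [avgL, avgL]
    congr 1
    funext p
    exact ih _ _ fun l hl => h (p :: l) (by simp [hl])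

/-- index of a local name -/
noncomputable def qi {Ω S : Type} [Fintype Ω] [DecidableEq Ω] [Fintype S] [DecidableEq S]
    (x : QQ Ω S) : Fin (KK Ω S) := Fintype.equivFin (QQ Ω S) x

section
variable {q : ℕ} [NeZero q]

/-- the block of symbols of an old vertex -/
noncomputable def block (q t : ℕ) (L : List (Fin 1024)) (v : ℕ) :
    Fin (KK (OM t) (SS q t)) → Fin 1024 :=
  fun i => L.getD (v * KK (OM t) (SS q t) + i) 0

omit [NeZero q] in
theorem block_ptime {α : Type} [Enc α] (t : ℕ) {L : α → List (Fin 1024)} {v : α → ℕ}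
    (hL : PTime L) (hv : PTime v) : PTime (fun a => block q t (L a) (v a)) := by
  refine PTime.mkFn (f := fun i a => (L a).getD (v a * KK (OM t) (SS q t) + i) 0) fun i => ?_
  exact PTime.listGetD hL ((hv.mul (PTime.const _)).add (PTime.const _)) (PTime.const 0)

/-- the opinion as a function of the block -/
noncomputable def opB (t : ℕ) (z : (Fin (KK (OM t) (SS q t)) → Fin 1024) × List HP) : Fin q :=
  ext (decT (fun k : F1 (SS q t) => b10.symm
    (z.1 (qi (Sum.inl k : QQ (OM t) (SS q t)))) 0) : SS q t) z.2

theorem opn_eq (t : ℕ) (L : List (Fin 1024)) (v : ℕ) (l : List HP) :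
    (opn t (fun n => L.getD n 0) v l : Fin q) = opB t (block q t L v, l) := rfl

/-- values of the opinions around a dart -/
noncomputable def vals (t : ℕ) (E : List (ℕ × ℕ × Rel q)) (L : List (Fin 1024)) (v : ℕ)
    (l : List HP) : Fin q :=
  opn t (fun n => L.getD n 0) (go (rN E) v l).1 (go (rN E) v l).2

theorem vals_ptime {α : Type} [Enc α] (t : ℕ) {E : α → List (ℕ × ℕ × Rel q)}
    {L : α → List (Fin 1024)} {v : α → ℕ} (hE : PTime E) (hL : PTime L) (hv : PTime v)
    (l : List HP) : PTime (fun a => vals t (E a) (L a) (v a) l) := by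
  have hgo := PTime.go hE hv l
  have hb := block_ptime (q := q) t hL hgo.fst'
  refine PTime.of_finite_set
    (s := (Set.univ : Set (Fin (KK (OM t) (SS q t)) → Fin 1024)) ×ˢ
      {l' : List HP | l'.length = l.length})
    (Set.finite_univ.prod (List.finite_length_eq _ _)) (hb.pair hgo.snd') ?_ (opB t)
  intro a
  exact ⟨Set.mem_univ _, go_snd_length _ _ _⟩

open Classical in
/-- the decoded value of a dart as a finite function of the opinions around it -/
noncomputable def decF (t : ℕ) (F : Fin (Fintype.card (Lt t)) → Fin q) : Fin q :=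
  argm fun s => ∑ k ∈ range t, avgL k fun l =>
    ind ((if h : l.length < t then F (Fintype.equivFin (Lt t) ⟨l, h⟩) else 0) = s)

theorem decH_eq (t : ℕ) (E : List (ℕ × ℕ × Rel q)) (L : List (Fin 1024)) (v : ℕ) :
    decH E t (fun n => L.getD n 0) v =
      decF t fun i => vals t E L v ((Fintype.equivFin (Lt t)).symm i).1 := by
  unfold decH decF
  congr 1
  funext s
  unfold opw
  refine Finset.sum_congr rfl fun k hk => ?_
  refine avgL_congr k _ _ fun l hl => ?_
  have hlt : l.length < t := by rw [hl]; exact Finset.mem_range.1 hk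
  have e : (if h : l.length < t then vals t E L v ((Fintype.equivFin (Lt t)).symm
      (Fintype.equivFin (Lt t) ⟨l, h⟩)).1 else (0 : Fin q)) = vals t E L v l := by
    rw [dif_pos hlt, Equiv.symm_apply_apply]
  unfold ind
  rw [e]
  rfl

theorem decH_ptime {α : Type} [Enc α] (t : ℕ) {E : α → List (ℕ × ℕ × Rel q)}
    {L : α → List (Fin 1024)} {v : α → ℕ} (hE : PTime E) (hL : PTime L) (hv : PTime v) :
    PTime (fun a => decH (E a) t (fun n => (L a).getD n 0) (v a)) := by
  have h : PTime (fun a => (fun i => vals t (E a) (L a) (v a)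
      ((Fintype.equivFin (Lt t)).symm i).1 : Fin (Fintype.card (Lt t)) → Fin q)) :=
    PTime.mkFn fun i => vals_ptime t hE hL hv _
  exact ((PTime.of_finite (decF (q := q) t)).comp h).of_eq fun a => (decH_eq t _ _ _).symm

theorem decV_eq (E : List (ℕ × ℕ × Rel q)) (b : ℕ → Fin q) (y : ℕ) :
    decV E b y = argC fun s s' => decide
      (((cloud E y).filter fun x => decide (b x = s')).length ≤
        ((cloud E y).filter fun x => decide (b x = s)).length) := by
  unfold decV
  refine argm_eq_argC _ _ fun s s' => ?_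
  have h : ∀ s : Fin q, ∑ x ∈ (range (2 * E.length)).filter (fun x => vtx E x = y),
      ind (b x = s) = (((cloud E y).filter fun x => decide (b x = s)).length : ℝ) := by
    intro s
    rw [sum_cloud, ← List.countP_eq_length_filter,
      countP_eq_sum (fun x => decide (b x = s)) (cloud E y) 0]
    refine Finset.sum_congr rfl fun j _ => ?_
    simp only [decide_eq_true_eq]
  rw [h, h, decide_eq_true_eq, Nat.cast_le]

/-- Decoding of an assignment, on lists. -/
noncomputable def decL (t : ℕ) (z : CG q × List (Fin 1024)) : List (Fin q) :=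
  (List.range z.1.1.length).map fun y => dec z.1.2 t (fun n => z.2.getD n 0) y

theorem decL_ptime (t : ℕ) : PTime (decL t : CG q × List (Fin 1024) → List (Fin q)) := by
  have hV : PTime (fun z : CG q × List (Fin 1024) => z.1.1) := PTime.fst' PTime.fst
  refine PTime.map (g := fun (z : CG q × List (Fin 1024)) (y : ℕ) =>
    dec z.1.2 t (fun n => z.2.getD n 0) y) (PTime.rangeLength hV) ?_
  have hE : PTime (fun p : (CG q × List (Fin 1024)) × ℕ => p.1.1.2) :=
    PTime.snd' (PTime.fst' PTime.fst)
  have hL : PTime (fun p : (CG q × List (Fin 1024)) × ℕ => p.1.2) := PTime.snd' PTime.fst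
  have hy : PTime (fun p : (CG q × List (Fin 1024)) × ℕ => p.2) := PTime.snd
  have hcnt : ∀ s : Fin q, PTime (fun p : (CG q × List (Fin 1024)) × ℕ =>
      ((cloud p.1.1.2 p.2).filter fun x => decide
        (decH p.1.1.2 t (fun n => p.1.2.getD n 0) x = s)).length) := by
    intro s
    refine PTime.length (PTime.filter (g := fun (p : (CG q × List (Fin 1024)) × ℕ) (x : ℕ) =>
      decide (decH p.1.1.2 t (fun n => p.1.2.getD n 0) x = s)) (PTime.cloud hE hy) ?_)
    exact PTime.eq (decH_ptime t (hE.comp PTime.fst) (hL.comp PTime.fst) PTime.snd)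
      (PTime.const s)
  have hM : PTime (fun p : (CG q × List (Fin 1024)) × ℕ => (fun s s' => decide
      (((cloud p.1.1.2 p.2).filter fun x => decide
        (decH p.1.1.2 t (fun n => p.1.2.getD n 0) x = s')).length ≤
        ((cloud p.1.1.2 p.2).filter fun x => decide
        (decH p.1.1.2 t (fun n => p.1.2.getD n 0) x = s)).length) :
          Fin q → Fin q → Bool)) :=
    PTime.mkFn fun s => PTime.mkFn fun s' => PTime.le (hcnt s') (hcnt s)
  refine ((PTime.of_finite (argC (q := q))).comp hM).of_eq fun p => ?_
  exact (decV_eq _ _ _).symm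

theorem decL_getD (t : ℕ) (G : CG q) (L : List (Fin 1024)) (y : ℕ) (hy : y < G.1.length) :
    (decL t (G, L)).getD y 0 = dec G.2 t (fun n => L.getD n 0) y := by
  unfold decL
  rw [List.getD_eq_getElem?_getD, List.getElem?_map, List.getElem?_range hy]
  rfl

end

end Pool.Agent.PCP
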