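import Pool.Agent.Lib.PCP.Mgg

/-!
# Explicit expanders on `n` vertices, for every `n`

The Margulis-Gabber-Galil graph on `(ZMod M)²`, `M = ⌊√n⌋ + 1`, folded modulo `n`.
-/

namespace Pool.Agent.PCP

open Finset BigOperators

/-- Ports: which of the (at most four) preimages, coordinate, translation by one, direction. -/
abbrev XP := Fin 4 × (Bool × (Bool × Bool))

/-- the amount added to a coordinate -/
def shift (M : ℕ) (b : Bool) (y : ℕ) (e : Bool) : ℕ :=
  if b = true then 2 * (M - y) + (if e = true then M - 1 else 0)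
  else 2 * y + (if e = true then 1 else 0)

/-- the generators -/
def gen (M : ℕ) (w e b : Bool) (z : ℕ × ℕ) : ℕ × ℕ :=
  if w = true then ((z.1 + shift M b z.2 e) % M, z.2)
  else (z.1, (z.2 + shift M b z.1 e) % M)

/-- rotation map of the expander on `n` vertices -/
def xrot (n : ℕ) (x : ℕ) (p : XP) : ℕ × XP :=
  if x + p.1 * n < (Nat.sqrt n + 1) * (Nat.sqrt n + 1) then
    ((((gen (Nat.sqrt n + 1) p.2.1 p.2.2.1 p.2.2.2
        ((x + p.1 * n) / (Nat.sqrt n + 1), (x + p.1 * n) % (Nat.sqrt n + 1))).1 *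
          (Nat.sqrt n + 1) +
      (gen (Nat.sqrt n + 1) p.2.1 p.2.2.1 p.2.2.2
        ((x + p.1 * n) / (Nat.sqrt n + 1), (x + p.1 * n) % (Nat.sqrt n + 1))).2) % n),
     (Fin.ofNat 4 (((gen (Nat.sqrt n + 1) p.2.1 p.2.2.1 p.2.2.2
        ((x + p.1 * n) / (Nat.sqrt n + 1), (x + p.1 * n) % (Nat.sqrt n + 1))).1 *
          (Nat.sqrt n + 1) +
      (gen (Nat.sqrt n + 1) p.2.1 p.2.2.1 p.2.2.2
        ((x + p.1 * n) / (Nat.sqrt n + 1), (x + p.1 * n) % (Nat.sqrt n + 1))).2) / n),
      (p.2.1, (p.2.2.1, !p.2.2.2))))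
  else (x, p)

/-- one move on the square `[0, M²)` -/
def mv (M : ℕ) (g : Bool × (Bool × Bool)) (z : ℕ) : ℕ :=
  (gen M g.1 g.2.1 g.2.2 (z / M, z % M)).1 * M + (gen M g.1 g.2.1 g.2.2 (z / M, z % M)).2

/-- reversed move -/
def rv (g : Bool × (Bool × Bool)) : Bool × (Bool × Bool) := (g.1, (g.2.1, !g.2.2))

theorem rv_rv (g : Bool × (Bool × Bool)) : rv (rv g) = g := by
  obtain ⟨a, b, c⟩ := g; simp [rv]

theorem xrot_eq (n x : ℕ) (p : XP) : xrot n x p =
    if x + p.1 * n < (Nat.sqrt n + 1) * (Nat.sqrt n + 1) then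
      (mv (Nat.sqrt n + 1) p.2 (x + p.1 * n) % n,
        (Fin.ofNat 4 (mv (Nat.sqrt n + 1) p.2 (x + p.1 * n) / n), rv p.2))
    else (x, p) := rfl

theorem shift_cast (M : ℕ) (y : ℕ) (hy : y ≤ M) (hM : 1 ≤ M) (e : Bool) :
    ((shift M true y e : ℕ) : ZMod M) = - ((shift M false y e : ℕ) : ZMod M) := by
  cases e
  · simp only [shift, if_true, Bool.false_eq_true, if_false, Nat.add_zero]
    push_cast [Nat.cast_sub hy]
    simp
  · simp only [shift, if_true, Bool.false_eq_true, if_false]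
    push_cast [Nat.cast_sub hy, Nat.cast_sub hM]
    simp
    ring

theorem gen_lt {M : ℕ} (hM : 0 < M) (w e b : Bool) (z : ℕ × ℕ) (h1 : z.1 < M) (h2 : z.2 < M) :
    (gen M w e b z).1 < M ∧ (gen M w e b z).2 < M := by
  unfold gen
  cases w
  · exact ⟨h1, Nat.mod_lt _ hM⟩
  · exact ⟨Nat.mod_lt _ hM, h2⟩

theorem add_shift_mod {M : ℕ} (hM : 1 ≤ M) (x y : ℕ) (hx : x < M) (hy : y < M) (e b : Bool) :
    ((x + shift M b y e) % M + shift M (!b) y e) % M = x := by
  have h : (((x + shift M b y e) % M + shift M (!b) y e : ℕ) : ZMod M) = (x : ZMod M) := by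
    push_cast [ZMod.natCast_mod]
    cases b
    · simp only [Bool.not_false]
      rw [shift_cast M y hy.le hM e]
      ring
    · simp only [Bool.not_true]
      rw [shift_cast M y hy.le hM e]
      ring
  have h' := (ZMod.natCast_eq_natCast_iff' _ _ _).1 h
  rw [h', Nat.mod_eq_of_lt hx]

theorem gen_gen {M : ℕ} (hM : 0 < M) (w e b : Bool) (z : ℕ × ℕ) (h1 : z.1 < M) (h2 : z.2 < M) :
    gen M w e (!b) (gen M w e b z) = z := by
  obtain ⟨x, y⟩ := z
  cases w
  · simp only [gen, Bool.false_eq_true, if_false]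
    rw [add_shift_mod hM y x h2 h1]
  · simp only [gen, if_true]
    rw [add_shift_mod hM x y h1 h2]

theorem mv_lt {M : ℕ} (hM : 0 < M) (g : Bool × (Bool × Bool)) (z : ℕ) (hz : z < M * M) :
    mv M g z < M * M := by
  have h1 : z / M < M := Nat.div_lt_of_lt_mul hz
  have h2 : z % M < M := Nat.mod_lt _ hM
  obtain ⟨h3, h4⟩ := gen_lt hM g.1 g.2.1 g.2.2 (z / M, z % M) h1 h2
  unfold mv
  calc _ < (gen M g.1 g.2.1 g.2.2 (z / M, z % M)).1 * M + M := by omega
    _ = ((gen M g.1 g.2.1 g.2.2 (z / M, z % M)).1 + 1) * M := by ring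
    _ ≤ M * M := Nat.mul_le_mul_right _ h3

theorem mv_mv {M : ℕ} (hM : 0 < M) (g : Bool × (Bool × Bool)) (z : ℕ) (hz : z < M * M) :
    mv M (rv g) (mv M g z) = z := by
  have h1 : z / M < M := Nat.div_lt_of_lt_mul hz
  have h2 : z % M < M := Nat.mod_lt _ hM
  obtain ⟨h3, h4⟩ := gen_lt hM g.1 g.2.1 g.2.2 (z / M, z % M) h1 h2
  have e1 : mv M g z / M = (gen M g.1 g.2.1 g.2.2 (z / M, z % M)).1 := by
    unfold mv
    rw [Nat.add_comm, Nat.add_mul_div_right _ _ hM, Nat.div_eq_of_lt h4, Nat.zero_add]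
  have e2 : mv M g z % M = (gen M g.1 g.2.1 g.2.2 (z / M, z % M)).2 := by
    unfold mv
    rw [Nat.add_comm, Nat.add_mul_mod_self_right, Nat.mod_eq_of_lt h4]
  have e3 := gen_gen hM g.1 g.2.1 g.2.2 (z / M, z % M) h1 h2
  have : mv M (rv g) (mv M g z) =
      (gen M g.1 g.2.1 (!g.2.2) (mv M g z / M, mv M g z % M)).1 * M +
      (gen M g.1 g.2.1 (!g.2.2) (mv M g z / M, mv M g z % M)).2 := rfl
  rw [this, e1, e2]
  have e4 : ((gen M g.1 g.2.1 g.2.2 (z / M, z % M)).1, (gen M g.1 g.2.1 g.2.2 (z / M, z % M)).2) =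
      gen M g.1 g.2.1 g.2.2 (z / M, z % M) := rfl
  rw [e4, e3]
  simp only
  rw [Nat.mul_comm]
  exact Nat.div_add_mod z M

theorem sq_le (n : ℕ) (hn : 0 < n) : (Nat.sqrt n + 1) * (Nat.sqrt n + 1) ≤ 4 * n := by
  have h1 := Nat.sqrt_le n
  have h2 := Nat.sqrt_le_self n
  nlinarith

theorem lt_sq (n : ℕ) : n < (Nat.sqrt n + 1) * (Nat.sqrt n + 1) := Nat.lt_succ_sqrt n

theorem xrot_lt {n x : ℕ} (hx : x < n) (p : XP) : (xrot n x p).1 < n := by
  rw [xrot_eq]
  split
  · exact Nat.mod_lt _ (by omega)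
  · exact hx

theorem ofNat_div {n y : ℕ} (hy : y < 4 * n) : ((Fin.ofNat 4 (y / n) : Fin 4) : ℕ) = y / n := by
  have : y / n < 4 := Nat.div_lt_of_lt_mul (by rwa [Nat.mul_comm])
  simp [Fin.ofNat, Nat.mod_eq_of_lt this]

theorem xrot_inv {n x : ℕ} (hx : x < n) (p : XP) :
    xrot n (xrot n x p).1 (xrot n x p).2 = (x, p) := by
  have hn : 0 < n := by omega
  rw [xrot_eq n x p]
  split
  · rename_i h
    simp only
    have hM : 0 < Nat.sqrt n + 1 := Nat.succ_pos _
    have h1 := mv_lt hM p.2 _ h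
    have h2 := mv_mv hM p.2 _ h
    set y := mv (Nat.sqrt n + 1) p.2 (x + p.1 * n) with hy
    have h3 : y < 4 * n := h1.trans_le (sq_le n hn)
    rw [xrot_eq]
    simp only [ofNat_div h3]
    have h4 : y % n + y / n * n = y := by
      rw [Nat.mul_comm]; exact Nat.mod_add_div y n
    rw [h4, if_pos h1, h2, rv_rv]
    have h5 : (x + p.1 * n) % n = x := by
      rw [Nat.add_mul_mod_self_right, Nat.mod_eq_of_lt hx]
    have h6 : (x + p.1 * n) / n = p.1 := by
      rw [Nat.add_mul_div_right _ _ hn, Nat.div_eq_of_lt hx, Nat.zero_add]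
    rw [h5, h6]
    have h7 : (Fin.ofNat 4 (p.1 : ℕ) : Fin 4) = p.1 := by
      ext; simp [Fin.ofNat]
    rw [h7]
  · rename_i h
    rw [xrot_eq]
    simp only
    rw [if_neg h]

/-! ### The Poincaré inequality -/

theorem sum_range_mul' (a b : ℕ) (h : ℕ → ℝ) :
    ∑ z ∈ range (a * b), h z = ∑ i ∈ range a, ∑ j ∈ range b, h (i * b + j) := by
  induction a with
  | zero => simp
  | succ a ih => rw [Nat.succ_mul, Finset.sum_range_add, ih, Finset.sum_range_succ]

theorem sum_zmod (M : ℕ) [NeZero M] (h : ℕ → ℝ) :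
    ∑ a : ZMod M, h a.val = ∑ i ∈ range M, h i := by
  obtain ⟨k, rfl⟩ := Nat.exists_eq_succ_of_ne_zero (NeZero.ne M)
  exact Fin.sum_univ_eq_sum_range (fun i => h i) (k + 1)

theorem sum_zmod2 (M : ℕ) [NeZero M] (h : ℕ → ℝ) :
    ∑ z : ZMod M × ZMod M, h (z.1.val * M + z.2.val) = ∑ z ∈ range (M * M), h z := by
  rw [Fintype.sum_prod_type, sum_range_mul',
    ← sum_zmod M (fun i => ∑ j ∈ range M, h (i * M + j))]
  refine Finset.sum_congr rfl fun a _ => ?_
  exact sum_zmod M (fun j => h (a.val * M + j))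

theorem sum_mv {M : ℕ} (hM : 0 < M) (g : Bool × (Bool × Bool)) (φ : ℕ → ℕ → ℝ) :
    ∑ z ∈ range (M * M), φ z (mv M g z) = ∑ z ∈ range (M * M), φ (mv M (rv g) z) z := by
  refine Finset.sum_nbij' (fun z => mv M g z) (fun z => mv M (rv g) z) ?_ ?_ ?_ ?_ ?_
  · intro z hz
    simp only [Finset.mem_range] at hz ⊢
    exact mv_lt hM g z hz
  · intro z hz
    simp only [Finset.mem_range] at hz ⊢
    exact mv_lt hM _ z hz
  · intro z hz
    simp only [Finset.mem_range] at hz
    exact mv_mv hM g z hz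
  · intro z hz
    simp only [Finset.mem_range] at hz
    have := mv_mv hM (rv g) z hz
    rwa [rv_rv] at this
  · intro z hz
    simp only [Finset.mem_range] at hz
    rw [mv_mv hM g z hz]

/-- the move on the square corresponds to the generator on `ZMod M`, first coordinate -/
theorem mv_zmod_true (M : ℕ) [NeZero M] (e : Bool) (a b : ZMod M) :
    mv M (true, (e, false)) (a.val * M + b.val) =
      (a + 2 * b + (if e = true then 1 else 0)).val * M + b.val := by
  have hM : 0 < M := Nat.pos_of_ne_zero (NeZero.ne M)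
  have h1 : (a.val * M + b.val) / M = a.val := by
    rw [Nat.add_comm, Nat.add_mul_div_right _ _ hM, Nat.div_eq_of_lt (ZMod.val_lt b),
      Nat.zero_add]
  have h2 : (a.val * M + b.val) % M = b.val := by
    rw [Nat.add_comm, Nat.add_mul_mod_self_right, Nat.mod_eq_of_lt (ZMod.val_lt b)]
  have h3 : (a.val + shift M false b.val e) % M =
      (a + 2 * b + (if e = true then 1 else 0)).val := by
    rw [← ZMod.val_natCast]
    congr 1
    cases e
    · simp [shift]
    · simp [shift]; ring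
  unfold mv
  simp only [gen, if_true, h1, h2, h3]

theorem mv_zmod_false (M : ℕ) [NeZero M] (e : Bool) (a b : ZMod M) :
    mv M (false, (e, false)) (a.val * M + b.val) =
      a.val * M + (b + 2 * a + (if e = true then 1 else 0)).val := by
  have hM : 0 < M := Nat.pos_of_ne_zero (NeZero.ne M)
  have h1 : (a.val * M + b.val) / M = a.val := by
    rw [Nat.add_comm, Nat.add_mul_div_right _ _ hM, Nat.div_eq_of_lt (ZMod.val_lt b),
      Nat.zero_add]
  have h2 : (a.val * M + b.val) % M = b.val := by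
    rw [Nat.add_comm, Nat.add_mul_mod_self_right, Nat.mod_eq_of_lt (ZMod.val_lt b)]
  have h3 : (b.val + shift M false a.val e) % M =
      (b + 2 * a + (if e = true then 1 else 0)).val := by
    rw [← ZMod.val_natCast]
    congr 1
    cases e
    · simp [shift]
    · simp [shift]; ring
  unfold mv
  simp only [gen, Bool.false_eq_true, if_false, h1, h2, h3]

/-- Poincaré inequality on the square. -/
theorem square_poincare {M : ℕ} (hM : 0 < M) (F : ℕ → ℝ)
    (h0 : ∑ z ∈ range (M * M), F z = 0) :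
    (7 / 5 : ℝ) * ∑ z ∈ range (M * M), F z ^ 2 ≤
      ∑ z ∈ range (M * M), ∑ g : Bool × (Bool × Bool), (F z - F (mv M g z)) ^ 2 := by
  have : NeZero M := ⟨hM.ne'⟩
  have hm := mgg_poincare M (fun z => F (z.1.val * M + z.2.val)) (by
    rw [sum_zmod2 M F]; exact h0)
  rw [sum_zmod2 M (fun z => F z ^ 2)] at hm
  have hterm : ∀ z : ZMod M × ZMod M,
      ((F (z.1.val * M + z.2.val) - F ((z.1 + 2 * z.2).val * M + z.2.val)) ^ 2 +
        (F (z.1.val * M + z.2.val) - F ((z.1 + 2 * z.2 + 1).val * M + z.2.val)) ^ 2 +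
        (F (z.1.val * M + z.2.val) - F (z.1.val * M + (z.2 + 2 * z.1).val)) ^ 2 +
        (F (z.1.val * M + z.2.val) - F (z.1.val * M + (z.2 + 2 * z.1 + 1).val)) ^ 2) =
      (fun y => (F y - F (mv M (true, (false, false)) y)) ^ 2 +
        (F y - F (mv M (true, (true, false)) y)) ^ 2 +
        (F y - F (mv M (false, (false, false)) y)) ^ 2 +
        (F y - F (mv M (false, (true, false)) y)) ^ 2) (z.1.val * M + z.2.val) := by
    intro z
    simp only [mv_zmod_true, mv_zmod_false, Bool.false_eq_true, if_false, if_true, add_zero]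
  rw [Finset.sum_congr rfl fun z _ => hterm z,
    sum_zmod2 M (fun y => (F y - F (mv M (true, (false, false)) y)) ^ 2 +
        (F y - F (mv M (true, (true, false)) y)) ^ 2 +
        (F y - F (mv M (false, (false, false)) y)) ^ 2 +
        (F y - F (mv M (false, (true, false)) y)) ^ 2)] at hm
  have hrev : ∀ w e : Bool, ∑ z ∈ range (M * M), (F z - F (mv M (w, (e, true)) z)) ^ 2 =
      ∑ z ∈ range (M * M), (F z - F (mv M (w, (e, false)) z)) ^ 2 := by
    intro w e
    rw [sum_mv hM (w, (e, true)) (fun z z' => (F z - F z') ^ 2)]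
    refine Finset.sum_congr rfl fun z _ => ?_
    change (F (mv M (w, (e, false)) z) - F z) ^ 2 = _
    ring
  have hsum : ∑ z ∈ range (M * M), ∑ g : Bool × (Bool × Bool), (F z - F (mv M g z)) ^ 2 =
      2 * ∑ z ∈ range (M * M), ((F z - F (mv M (true, (false, false)) z)) ^ 2 +
        (F z - F (mv M (true, (true, false)) z)) ^ 2 +
        (F z - F (mv M (false, (false, false)) z)) ^ 2 +
        (F z - F (mv M (false, (true, false)) z)) ^ 2) := by
    rw [Finset.sum_comm]
    simp only [Fintype.sum_prod_type, Fintype.sum_bool, hrev, Finset.sum_add_distrib]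
    ring
  rw [hsum]
  linarith

theorem xrot_poincare {n : ℕ} (hn : 0 < n) (f : ℕ → ℝ) (h0 : ∑ x ∈ range n, f x = 0) :
    (7 / 5 : ℝ) * ∑ x ∈ range n, f x ^ 2 ≤
      ∑ x ∈ range n, ∑ p : XP, (f x - f (xrot n x p).1) ^ 2 := by
  set M := Nat.sqrt n + 1 with hMdef
  have hM : 0 < M := Nat.succ_pos _
  -- the mean over the square
  set μ : ℝ := (∑ z ∈ range (M * M), f (z % n)) / (M * M : ℕ) with hμ
  have hMM : (0 : ℝ) < ((M * M : ℕ) : ℝ) := by exact_mod_cast Nat.mul_pos hM hM
  have h1 := square_poincare hM (fun z => f (z % n) - μ) (by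
    rw [Finset.sum_sub_distrib, Finset.sum_const, Finset.card_range, nsmul_eq_mul, hμ]
    field_simp
    ring)
  have h2 : ∑ x ∈ range n, f x ^ 2 ≤ ∑ z ∈ range (M * M), (f (z % n) - μ) ^ 2 := by
    have hsub : range n ⊆ range (M * M) := by
      intro z hz
      simp only [Finset.mem_range] at hz ⊢
      exact hz.trans (lt_sq n)
    calc ∑ x ∈ range n, f x ^ 2 ≤ ∑ x ∈ range n, (f x - μ) ^ 2 := by
          have e : ∑ x ∈ range n, (f x - μ) ^ 2 =
              ∑ x ∈ range n, f x ^ 2 - 2 * μ * ∑ x ∈ range n, f x + n * μ ^ 2 := by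
            rw [Finset.mul_sum, ← Finset.sum_sub_distrib]
            have : (n : ℝ) * μ ^ 2 = ∑ x ∈ range n, μ ^ 2 := by simp
            rw [this, ← Finset.sum_add_distrib]
            exact Finset.sum_congr rfl fun x _ => by ring
          rw [e, h0]
          have : 0 ≤ (n : ℝ) * μ ^ 2 := by positivity
          linarith
      _ = ∑ x ∈ range n, (f (x % n) - μ) ^ 2 := by
          refine Finset.sum_congr rfl fun x hx => ?_
          rw [Nat.mod_eq_of_lt (Finset.mem_range.1 hx)]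
      _ ≤ _ := Finset.sum_le_sum_of_subset_of_nonneg hsub fun _ _ _ => by positivity
  have h3 : ∑ z ∈ range (M * M), ∑ g : Bool × (Bool × Bool),
      ((f (z % n) - μ) - (f (mv M g z % n) - μ)) ^ 2 =
      ∑ x ∈ range n, ∑ p : XP, (f x - f (xrot n x p).1) ^ 2 := by
    -- both sides as sums over `range (4 * n)`
    let φ : ℕ → ℝ := fun z => if z < M * M then
      ∑ g : Bool × (Bool × Bool), (f (z % n) - f (mv M g z % n)) ^ 2 else 0
    have e1 : ∑ z ∈ range (M * M), ∑ g : Bool × (Bool × Bool),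
        ((f (z % n) - μ) - (f (mv M g z % n) - μ)) ^ 2 = ∑ z ∈ range (4 * n), φ z := by
      have hsub : range (M * M) ⊆ range (4 * n) := by
        intro z hz
        simp only [Finset.mem_range] at hz ⊢
        exact hz.trans_le (sq_le n hn)
      rw [← Finset.sum_subset hsub]
      · refine Finset.sum_congr rfl fun z hz => ?_
        simp only [φ, if_pos (Finset.mem_range.1 hz)]
        refine Finset.sum_congr rfl fun g _ => ?_
        ring
      · intro z _ hz
        simp only [Finset.mem_range] at hz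
        simp only [φ, if_neg hz]
    have e2 : ∑ z ∈ range (4 * n), φ z = ∑ i ∈ range 4, ∑ x ∈ range n, φ (i * n + x) :=
      sum_range_mul' 4 n φ
    rw [e1, e2, Finset.sum_comm]
    refine Finset.sum_congr rfl fun x hx => ?_
    have hx' := Finset.mem_range.1 hx
    rw [Fintype.sum_prod_type, ← Fin.sum_univ_eq_sum_range (fun i => φ (i * n + x)) 4]
    refine Finset.sum_congr rfl fun i _ => ?_
    have hmod : ((i : ℕ) * n + x) % n = x := by
      rw [Nat.add_comm, Nat.add_mul_mod_self_right, Nat.mod_eq_of_lt hx']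
    have hcomm : (i : ℕ) * n + x = x + (i : ℕ) * n := Nat.add_comm _ _
    by_cases h : (i : ℕ) * n + x < M * M
    · simp only [φ, if_pos h, hmod]
      refine Finset.sum_congr rfl fun g _ => ?_
      rw [xrot_eq]
      simp only
      rw [← hMdef, ← hcomm, if_pos h]
    · simp only [φ, if_neg h]
      symm
      refine Finset.sum_eq_zero fun g _ => ?_
      rw [xrot_eq]
      simp only
      rw [← hMdef, ← hcomm, if_neg h]
      simp
  rw [h3] at h1
  linarith

end Pool.Agent.PCP
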