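import Pool.Agent.Lib.PolyTime.Arith
import Pool.Agent.Lib.PCP.Expander
import Pool.Agent.Lib.PolyTime.Finite

/-!
# The expanders are computed in polynomial time
-/

namespace Pool.Agent.PCP

open Pool.Agent.PolyTime

section
variable {α β : Type} [Enc α] [Enc β]

theorem PTime.shift {M y : α → ℕ} (hM : PTime M) (hy : PTime y) (b e : Bool) :
    PTime (fun a => shift (M a) b (y a) e) := by
  unfold Pool.Agent.PCP.shift
  cases b
  · simp only [Bool.false_eq_true, if_false]
    exact (PTime.mul (PTime.const 2) hy).add (PTime.const _)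
  · simp only [if_true]
    refine (PTime.mul (PTime.const 2) (hM.sub hy)).add ?_
    cases e
    · simp only [Bool.false_eq_true, if_false]
      exact PTime.const 0
    · simp only [if_true]
      exact hM.sub (PTime.const 1)

theorem PTime.mv {M z : α → ℕ} (hM : PTime M) (hz : PTime z) (g : Bool × (Bool × Bool)) :
    PTime (fun a => mv (M a) g (z a)) := by
  obtain ⟨w, e, b⟩ := g
  have h1 : PTime (fun a => z a / M a) := hz.div hM
  have h2 : PTime (fun a => z a % M a) := hz.mod hM
  cases w
  · exact (h1.mul hM).add ((h2.add (PTime.shift hM h1 b e)).mod hM)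
  · exact (((h1.add (PTime.shift hM h2 b e)).mod hM).mul hM).add h2

theorem PTime.xrot {n x : α → ℕ} {g : α → List β} (hn : PTime n) (hx : PTime x) (hg : PTime g)
    (h : ∀ a, n a ≤ (g a).length) (p : XP) : PTime (fun a => xrot (n a) (x a) p) := by
  have hM : PTime (fun a => Nat.sqrt (n a) + 1) := (PTime.sqrtLe hn hg h).succ
  have hz : PTime (fun a => x a + p.1 * n a) := hx.add ((PTime.const (p.1 : ℕ)).mul hn)
  have hmv := PTime.mv hM hz p.2
  have hport : PTime (fun a => ((Fin.ofNat 4 (Pool.Agent.PCP.mv (Nat.sqrt (n a) + 1) p.2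
      (x a + p.1 * n a) / n a), rv p.2) : XP)) := by
    refine PTime.pair ?_ (PTime.const _)
    refine PTime.finMk ?_
    exact (hmv.div hn).mod (PTime.const 4)
  exact PTime.iteP (PTime.lt hz (hM.mul hM)) ((hmv.mod hn).pair hport) (hx.pair (PTime.const p))

end

end Pool.Agent.PCP
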