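import Pool.Agent.Lib.PCP.Iterate

/-!
# The gap reduction on constraint graphs
-/

namespace Pool.Agent.PCP

open Finset BigOperators Pool.Agent.PolyTime

/-! ### the final regularization -/

section reg
variable {q : ℕ}

/-- The regularized graph: vertices are the darts. -/
noncomputable def regG (G : CG q) : CG q :=
  (List.replicate (2 * G.2.length) (),
    (List.range (2 * G.2.length)).flatMap fun x =>
      (Finset.univ : Finset HP).toList.map fun p => (x, (hrot G.2 x p).1, hcon G.2 x p))

theorem length_univ_HP : (Finset.univ : Finset HP).toList.length = 130 := by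
  rw [Finset.length_toList, Finset.card_univ]
  have h := card_HP
  exact_mod_cast h

theorem length_regG (G : CG q) : (regG G).2.length = 260 * G.2.length := by
  unfold regG
  simp only [List.length_flatMap, List.length_map, length_univ_HP, List.map_const', List.sum_replicate,
    List.length_range, smul_eq_mul]
  ring

theorem regG_lt (G : CG q) : ∀ e ∈ (regG G).2, e.1 < (regG G).1.length ∧
    e.2.1 < (regG G).1.length := by
  intro e he
  unfold regG at he ⊢
  simp only [List.mem_flatMap, List.mem_range, List.mem_map, List.length_replicate] at he ⊢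
  obtain ⟨x, hx, p, -, rfl⟩ := he
  exact ⟨hx, hrot_lt G.2 hx p⟩

theorem countP_flatMap_range {β : Type} (N : ℕ) (f : ℕ → List β) (P : β → Bool) :
    ((List.range N).flatMap f).countP P = ∑ x ∈ range N, (f x).countP P := by
  induction N with
  | zero => simp
  | succ N ih =>
    rw [List.range_succ, List.flatMap_append, List.countP_append, ih, Finset.sum_range_succ]
    simp

theorem countP_map_toList {ι β : Type} [DecidableEq ι] (s : Finset ι) (f : ι → β) (P : β → Bool) :
    (s.toList.map f).countP P = ∑ i ∈ s, if P (f i) = true then 1 else 0 := by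
  rw [List.countP_map, List.countP_eq_length_filter, ← Finset.sum_filter, Finset.sum_const,
    smul_eq_mul, mul_one]
  have h := (Finset.nodup_toList s).filter (P ∘ f)
  rw [← List.toFinset_card_of_nodup h, List.toFinset_filter, Finset.toList_toFinset]
  rfl

theorem viol_regG (G : CG q) (b : ℕ → Fin q) : (viol (regG G).2 b : ℝ) = bad G.2 b := by
  unfold viol regG bad
  simp only
  rw [countP_flatMap_range]
  push_cast
  refine Finset.sum_congr rfl fun x _ => ?_
  rw [countP_map_toList]
  push_cast
  refine Finset.sum_congr rfl fun p _ => ?_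
  unfold ind
  simp only [Bool.not_eq_true']

theorem degCG_regG (G : CG q) (x : ℕ) : degCG (regG G).2 x ≤ 260 := by
  unfold degCG regG
  simp only
  rw [countP_flatMap_range, countP_flatMap_range]
  have h1 : ∑ y ∈ range (2 * G.2.length), ((Finset.univ : Finset HP).toList.map fun p =>
      (y, (hrot G.2 y p).1, hcon G.2 y p)).countP (fun e => decide (e.1 = x)) ≤ 130 := by
    by_cases hx : x ∈ range (2 * G.2.length)
    · rw [Finset.sum_eq_single_of_mem x hx]
      · refine (List.countP_le_length).trans ?_
        rw [List.length_map, length_univ_HP]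
      · intro y _ hy
        rw [List.countP_eq_zero]
        simp only [List.mem_map, forall_exists_index, and_imp]
        rintro _ p _ rfl
        simpa using hy
    · rw [Finset.sum_eq_zero]
      · omega
      · intro y hy
        rw [List.countP_eq_zero]
        simp only [List.mem_map, forall_exists_index, and_imp]
        rintro _ p _ rfl
        have : y ≠ x := fun h => hx (h ▸ hy)
        simpa using this
  have h2 : ∑ y ∈ range (2 * G.2.length), ((Finset.univ : Finset HP).toList.map fun p =>
      (y, (hrot G.2 y p).1, hcon G.2 y p)).countP (fun e => decide (e.2.1 = x)) ≤ 130 := by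
    have e1 : ∀ y ∈ range (2 * G.2.length), ((Finset.univ : Finset HP).toList.map fun p =>
        (y, (hrot G.2 y p).1, hcon G.2 y p)).countP (fun e => decide (e.2.1 = x)) =
        ∑ p : HP, if (hrot G.2 y p).1 = x then 1 else 0 := by
      intro y _
      rw [countP_map_toList]
      refine Finset.sum_congr rfl fun p _ => ?_
      simp only [decide_eq_true_eq]
    rw [Finset.sum_congr rfl e1, ← Finset.sum_product', ← Finset.card_filter]
    have h130 : (130 : ℕ) = (Finset.univ : Finset HP).card := by
      rw [Finset.card_univ]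
      have h := card_HP
      symm
      exact_mod_cast h
    rw [h130]
    refine Finset.card_le_card_of_injOn (fun z => (hrot G.2 z.1 z.2).2) (fun _ _ =>
      Finset.mem_coe.2 (Finset.mem_univ _)) ?_
    rintro ⟨y, p⟩ hz ⟨y', p'⟩ hz' h
    simp only [Finset.coe_filter, Finset.mem_product, Finset.mem_range, Finset.mem_univ, and_true,
      Set.mem_ofPred_eq] at hz hz' h
    have i1 := hrot_inv G.2 hz.1 p
    have i2 := hrot_inv G.2 hz'.1 p'
    rw [hz.2, h] at i1
    rw [hz'.2] at i2
    rw [← i1, ← i2]
  omega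

theorem regG_ptime : PTime (regG : CG q → CG q) := by
  have hE : PTime (fun G : CG q => G.2) := PTime.snd
  have hN := PTime.darts hE
  have h1 : PTime (fun G : CG q => List.replicate (2 * G.2.length) ()) := by
    have hc : PTime (fun G : CG q => (List.range (2 * G.2.length)).map fun _ => ()) :=
      PTime.map (g := fun (_ : CG q) (_ : ℕ) => ()) hN (PTime.const _)
    refine hc.of_eq fun G => ?_
    rw [List.map_const', List.length_range]
  refine h1.pair (PTime.flatMap (g := fun (G : CG q) (x : ℕ) =>
    (Finset.univ : Finset HP).toList.map fun p => (x, (hrot G.2 x p).1, hcon G.2 x p)) hN ?_)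
  refine PTime.constList (f := fun (p : HP) (z : CG q × ℕ) =>
    (z.2, (hrot z.1.2 z.2 p).1, hcon z.1.2 z.2 p)) _ fun p _ => ?_
  have hE' : PTime (fun z : CG q × ℕ => z.1.2) := PTime.snd' PTime.fst
  exact PTime.snd.pair ((PTime.hrot hE' PTime.snd p).fst'.pair (PTime.hcon hE' PTime.snd p))

end reg

/-! ### the sequence of graphs -/

/-- a nonempty graph whose edges join vertices -/
def Ok {q : ℕ} (G : CG q) : Prop :=
  0 < G.2.length ∧ ∀ e ∈ G.2, e.1 < G.1.length ∧ e.2.1 < G.1.length

theorem viol_congr {q : ℕ} {E : List (ℕ × ℕ × Rel q)} {a b : ℕ → Fin q} {n : ℕ}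
    (h : ∀ e ∈ E, e.1 < n ∧ e.2.1 < n) (hab : ∀ x < n, a x = b x) : viol E a = viol E b := by
  unfold viol
  refine List.countP_congr fun e he => ?_
  rw [hab _ (h e he).1, hab _ (h e he).2]

theorem step_lt {q : ℕ} [NeZero q] (t : ℕ) (G : CG q) :
    ∀ e ∈ (step t G).2, e.1 < (step t G).1.length ∧ e.2.1 < (step t G).1.length := by
  intro e he
  have h1 : (step t G).1.length = 2 * G.2.length * KK (OM t) (SS q t) := List.length_replicate ..
  rw [h1]
  exact mem_redEdges (fun v hv ω => go_lt G.2 hv (wl ω)) he

theorem step_ok {q : ℕ} [NeZero q] {t : ℕ} (ht : 0 < t) (G : CG q) (hG : 0 < G.2.length) :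
    Ok (step t G) := by
  refine ⟨?_, step_lt t G⟩
  rw [length_step']
  exact Nat.mul_pos (ratio_pos ht) hG

/-- fraction of violated constraints -/
noncomputable def uu {q : ℕ} [NeZero q] (G : CG q) (L : List (Fin q)) : ℝ :=
  (viol G.2 (fun n => L.getD n 0) : ℝ) / G.2.length

theorem one_step {q : ℕ} [NeZero q] {t : ℕ} (ht : 0 < t) (G : CG q) (hG : Ok G)
    (L : List (Fin 1024)) :
    min (t * uu G (decL t (G, L)) / 780) 1 / (1000 * cpow q) ≤ uu (step t G) L := by
  have h := step_sound G hG.1 t ht (fun n => L.getD n 0)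
  have e : viol G.2 (fun n => (decL t (G, L)).getD n 0) =
      viol G.2 (dec G.2 t (fun n => L.getD n 0)) :=
    viol_congr hG.2 fun x hx => decL_getD t G L x hx
  unfold uu
  rw [e]
  exact h

/-- the threshold -/
noncomputable def eps0 : ℝ := 1 / (1000 * cpow 1024)

theorem eps0_pos : 0 < eps0 := by
  have := cpow_pos 1024
  unfold eps0
  positivity

/-- the amplification parameter -/
noncomputable def t0 : ℕ := ⌈2 * 780 * (1000 * cpow 1024)⌉₊

theorem t0_pos : 0 < t0 := by
  have := cpow_pos 1024
  exact Nat.ceil_pos.2 (by positivity)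

theorem amp {G : CG 1024} (hG : Ok G) (L : List (Fin 1024)) :
    min (2 * uu G (decL t0 (G, L))) eps0 ≤ uu (step t0 G) L := by
  refine le_trans ?_ (one_step t0_pos G hG L)
  have hc := cpow_pos 1024
  have hc' : 0 < 1000 * cpow 1024 := by positivity
  have hu : 0 ≤ uu G (decL t0 (G, L)) := by unfold uu; positivity
  have ht : 2 * 780 * (1000 * cpow 1024) ≤ t0 := Nat.le_ceil _
  rw [le_div_iff₀ hc']
  refine le_min ?_ ?_
  · calc min (2 * uu G (decL t0 (G, L))) eps0 * (1000 * cpow 1024) ≤
        2 * uu G (decL t0 (G, L)) * (1000 * cpow 1024) :=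
          mul_le_mul_of_nonneg_right (min_le_left _ _) hc'.le
      _ ≤ _ := by nlinarith
  · calc min (2 * uu G (decL t0 (G, L))) eps0 * (1000 * cpow 1024) ≤
        eps0 * (1000 * cpow 1024) := mul_le_mul_of_nonneg_right (min_le_right _ _) hc'.le
      _ = 1 := by unfold eps0; field_simp

theorem uu_nonneg {q : ℕ} [NeZero q] (G : CG q) (L : List (Fin q)) : 0 ≤ uu G L := by
  unfold uu; positivity

theorem iter_sound (l : List Bool) (s : CG 1024 × List (CG 1024)) (hs : Ok s.1)
    (L : List (Fin 1024)) : Ok (l.foldl (iterS t0) s).1 ∧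
    ∃ L', (l.foldl (iterS t0) s).2.foldl (iterD t0) L = s.2.foldl (iterD t0) L' ∧
      min (2 ^ l.length * uu s.1 L') eps0 ≤ uu (l.foldl (iterS t0) s).1 L := by
  induction l generalizing s with
  | nil =>
    refine ⟨hs, L, rfl, ?_⟩
    rw [List.length_nil, pow_zero, one_mul]
    exact min_le_left _ _
  | cons b l ih =>
    rw [List.foldl_cons]
    obtain ⟨h1, L', h2, h3⟩ := ih (iterS t0 s b) (step_ok t0_pos s.1 hs.1)
    refine ⟨h1, decL t0 (s.1, L'), h2, le_trans ?_ h3⟩
    have h4 := amp hs L'
    have h5 : (iterS t0 s b).1 = step t0 s.1 := rfl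
    rw [h5, List.length_cons, pow_succ]
    refine le_min ?_ (min_le_right _ _)
    have h6 : (1 : ℝ) ≤ 2 ^ l.length := one_le_pow₀ (by norm_num)
    have h7 := eps0_pos
    rcases le_total (2 * uu s.1 (decL t0 (s.1, L'))) eps0 with h | h
    · rw [min_eq_left h] at h4
      refine (min_le_left _ _).trans ?_
      calc (2 : ℝ) ^ l.length * 2 * uu s.1 (decL t0 (s.1, L')) =
          2 ^ l.length * (2 * uu s.1 (decL t0 (s.1, L'))) := by ring
        _ ≤ _ := mul_le_mul_of_nonneg_left h4 (by positivity)
    · rw [min_eq_right h] at h4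
      refine (min_le_right _ _).trans ?_
      calc eps0 = 1 * eps0 := (one_mul _).symm
        _ ≤ 2 ^ l.length * uu (step t0 s.1) L' :=
          mul_le_mul h6 h4 h7.le (by positivity)

theorem iter_complete (l : List Bool) (s : CG 1024 × List (CG 1024))
    (h : ∃ a, viol s.1.2 a = 0) : ∃ a, viol (l.foldl (iterS t0) s).1.2 a = 0 := by
  induction l generalizing s with
  | nil => exact h
  | cons b l ih =>
    rw [List.foldl_cons]
    obtain ⟨a, ha⟩ := h
    exact ih _ (step_complete s.1 t0 a ha)

/-! ### the gap reduction -/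

section gap
variable (q : ℕ) [NeZero q]

/-- constant of the first step -/
noncomputable def Cq : ℕ := ⌈780 * (1000 * cpow q)⌉₊

/-- all the graphs -/
noncomputable def graphs (G : CG q) : CG 1024 × List (CG 1024) :=
  (G.2.length * Cq q).bits.foldl (iterS t0) (step 1 G, [])

theorem graphs_ptime : PTime (graphs q) := by
  have hE : PTime (fun G : CG q => G.2) := PTime.snd
  refine iterS_ptime t0 (g := step 1) (n := fun G => G.2.length * Cq q) (step_ptime 1)
    (hE.length.mul (PTime.const _)) t0_pos (T := fun k => k * Cq q)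
    (PBd.id.mul (PBd.const _)) fun G => ?_
  refine Nat.mul_le_mul_right _ ?_
  have h1 := length_le_size G.2
  have h2 : size (enc G) = size (enc G.1) + size (enc G.2) + 1 := size_pair _ _
  omega

/-- the reduction -/
noncomputable def gapF (G : CG q) : CG 1024 := regG (graphs q G).1

/-- decoding -/
noncomputable def gapD (z : CG q × List (Fin 1024)) : List (Fin q) :=
  decL 1 (z.1, (graphs q z.1).2.foldl (iterD t0)
    ((List.range (graphs q z.1).1.1.length).map
      (decV (graphs q z.1).1.2 fun n => z.2.getD n 0)))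

theorem gapF_ptime : PTime (gapF q) := regG_ptime.comp (graphs_ptime q).fst'

theorem decV_ptime {α : Type} [Enc α] {E : α → List (ℕ × ℕ × Rel q)} {L : α → List (Fin q)}
    {y : α → ℕ} (hE : PTime E) (hL : PTime L) (hy : PTime y) :
    PTime (fun a => decV (E a) (fun n => (L a).getD n 0) (y a)) := by
  have hcnt : ∀ s : Fin q, PTime (fun a => ((cloud (E a) (y a)).filter fun x => decide
        ((L a).getD x 0 = s)).length) := by
    intro s
    refine PTime.length (PTime.filter (g := fun (a : α) (x : ℕ) =>
      decide ((L a).getD x 0 = s)) (PTime.cloud hE hy) ?_)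
    exact PTime.eq (PTime.listGetD (hL.comp PTime.fst) PTime.snd (PTime.const 0)) (PTime.const s)
  have hM : PTime (fun a => (fun s s' => decide
      (((cloud (E a) (y a)).filter fun x => decide ((L a).getD x 0 = s')).length ≤
        ((cloud (E a) (y a)).filter fun x => decide ((L a).getD x 0 = s)).length) :
          Fin q → Fin q → Bool)) :=
    PTime.mkFn fun s => PTime.mkFn fun s' => PTime.le (hcnt s') (hcnt s)
  refine ((PTime.of_finite (argC (q := q))).comp hM).of_eq fun a => ?_
  exact (decV_eq _ _ _).symm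

theorem gapD_ptime : PTime (gapD q) := by
  have hg : PTime (fun z : CG q × List (Fin 1024) => graphs q z.1) :=
    (graphs_ptime q).comp PTime.fst
  refine (decL_ptime 1).comp (PTime.fst.pair (iterD_ptime t0 hg.snd' ?_))
  refine PTime.map (g := fun (z : CG q × List (Fin 1024)) (y : ℕ) =>
    decV (graphs q z.1).1.2 (fun n => z.2.getD n 0) y) (PTime.rangeLength hg.fst'.fst') ?_
  exact decV_ptime 1024 (hg.comp PTime.fst).fst'.snd' (PTime.snd' PTime.fst) PTime.snd

theorem gap_arith {m c C P v u : ℝ} (hm : 1 ≤ m) (hc : 1 ≤ c) (hC : 780 * c ≤ C)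
    (hP : m * C < P) (hv : 1 ≤ v) (hu : min (1 * (v / m) / 780) 1 / c ≤ u) : 1 < P * u := by
  have hC' : 0 < C := by linarith
  have hm' : 0 < m := by linarith
  have hc' : 0 < c := by linarith
  have h6 : 1 / (780 * m) ≤ min (1 * (v / m) / 780) 1 := by
    refine le_min ?_ ?_
    · rw [one_mul, div_div, div_le_div_iff₀ (by positivity) (by positivity)]
      nlinarith
    · rw [div_le_one (by positivity)]
      nlinarith
  have h7 : 1 / (780 * m) / c ≤ u := (div_le_div_of_nonneg_right h6 hc'.le).trans hu
  have h8 : 1 / (m * C) ≤ u := by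
    refine le_trans ?_ h7
    rw [div_div]
    refine one_div_le_one_div_of_le (by positivity) ?_
    nlinarith
  have hmC : 0 < m * C := by positivity
  calc (1 : ℝ) = (m * C) * (1 / (m * C)) := by field_simp
    _ < P * (1 / (m * C)) := mul_lt_mul_of_pos_right hP (by positivity)
    _ ≤ _ := mul_le_mul_of_nonneg_left h8 (by linarith)

theorem one_le_cpow (q : ℕ) : 1 ≤ cpow q := by
  have h8 : 0 < 1 - lam := by have := lam_lt_one; linarith
  have h9 : 0 < 4 / (1 - lam) := by positivity
  unfold cpow
  have : 0 ≤ (2 * (q : ℝ) ^ 2) ^ 2 * (6 + 4 / (1 - lam)) := by positivity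
  linarith

theorem eps0_le_one : eps0 ≤ 1 := by
  have h := one_le_cpow 1024
  unfold eps0
  rw [div_le_one (by linarith)]
  linarith

theorem gap_complete (G : CG q) (h : ∃ a, viol G.2 a = 0) : ∃ a, viol (gapF q G).2 a = 0 := by
  have h1 : ∃ a, viol (graphs q G).1.2 a = 0 := by
    obtain ⟨a, ha⟩ := h
    exact iter_complete _ _ (step_complete G 1 a ha)
  obtain ⟨σ, hσ⟩ := h1
  refine ⟨fun x => σ (vtx (graphs q G).1.2 x), ?_⟩
  have h2 := viol_regG (graphs q G).1 (fun x => σ (vtx (graphs q G).1.2 x))
  have h3 : bad (graphs q G).1.2 (fun x => σ (vtx (graphs q G).1.2 x)) = 0 := by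
    unfold bad
    refine Finset.sum_eq_zero fun x hx => Finset.sum_eq_zero fun p _ => ?_
    have h4 := hcon_of_sat (graphs q G).1.2 σ hσ (Finset.mem_range.1 hx) p
    unfold ind
    rw [if_neg]
    rw [h4]
    simp
  rw [h3] at h2
  exact Nat.cast_eq_zero.1 h2

theorem plur_decV {q : ℕ} [NeZero q] (E : List (ℕ × ℕ × Rel q)) (b : ℕ → Fin q) :
    Plur E b (decV E b) := by
  intro y s
  exact argm_spec (fun s => ∑ x ∈ (range (2 * E.length)).filter
    (fun x => vtx E x = y), ind (b x = s)) s

theorem uu_last {q : ℕ} [NeZero q] {H : CG q} (hH : Ok H) (L : List (Fin q))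
    (hL : (viol (regG H).2 (fun n => L.getD n 0) : ℝ) < eps0 / 780 * (regG H).2.length) :
    uu H ((List.range H.1.length).map (decV H.2 fun n => L.getD n 0)) < eps0 := by
  set b : ℕ → Fin q := fun n => L.getD n 0 with hb
  set M := (List.range H.1.length).map (decV H.2 b) with hM
  have hdr := degree_reduction H.2 b (decV H.2 b) (plur_decV H.2 b)
  have hv : viol H.2 (fun n => M.getD n 0) = viol H.2 (decV H.2 b) := by
    refine viol_congr hH.2 fun x hx => ?_
    rw [hM, List.getD_eq_getElem?_getD, List.getElem?_map, List.getElem?_range hx]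
    rfl
  have hlen : ((regG H).2.length : ℝ) = 260 * H.2.length := by
    rw [length_regG]; push_cast; ring
  have hvr : (viol (regG H).2 b : ℝ) = bad H.2 b := viol_regG _ _
  have hHpos : (0 : ℝ) < H.2.length := by exact_mod_cast hH.1
  unfold uu
  rw [hv, div_lt_iff₀ hHpos]
  rw [hvr, hlen] at hL
  nlinarith

theorem gap_sound (G : CG q) (hG : 0 < G.2.length)
    (hlt : ∀ e ∈ G.2, e.1 < G.1.length ∧ e.2.1 < G.1.length)
    (L : List (Fin 1024)) (hL : (viol (gapF q G).2 (fun n => L.getD n 0) : ℝ) <
        eps0 / 780 * (gapF q G).2.length) : viol G.2 (fun n => (gapD q (G, L)).getD n 0) = 0 := by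
  have hok : Ok (step 1 G) := step_ok (by norm_num) G hG
  obtain ⟨h1, L', h2, h3⟩ := iter_sound (G.2.length * Cq q).bits (step 1 G, []) hok
    ((List.range (graphs q G).1.1.length).map (decV (graphs q G).1.2 fun n => L.getD n 0))
  have h1' : Ok (graphs q G).1 := h1
  have h3' : min (2 ^ (G.2.length * Cq q).bits.length * uu (step 1 G) L') eps0 ≤
    uu (graphs q G).1 ((List.range (graphs q G).1.1.length).map
      (decV (graphs q G).1.2 fun n => L.getD n 0)) := h3
  have hD : gapD q (G, L) = decL 1 (G, L') := congrArg (fun z => decL 1 (G, z)) h2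
  rw [hD]
  have hu := uu_last h1' L hL
  have h4 : 2 ^ (G.2.length * Cq q).bits.length * uu (step 1 G) L' < eps0 := by
    by_contra hcon
    rw [min_eq_right (not_lt.1 hcon)] at h3'
    linarith
  have h5 := one_step (t := 1) (by norm_num) G ⟨hG, hlt⟩ L'
  by_contra hne
  have hpow : ((G.2.length : ℝ) * (Cq q : ℝ)) < 2 ^ (G.2.length * Cq q).bits.length := by
    have h6 : G.2.length * Cq q < 2 ^ (G.2.length * Cq q).bits.length := by
      rw [Nat.size_eq_bits_len]
      exact Nat.lt_size_self _
    exact_mod_cast h6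
  have hv1 : (1 : ℝ) ≤ viol G.2 (fun n => (decL 1 (G, L')).getD n 0) := by
    have : 1 ≤ viol G.2 (fun n => (decL 1 (G, L')).getD n 0) := Nat.one_le_iff_ne_zero.2 hne
    exact_mod_cast this
  have hm : (1 : ℝ) ≤ G.2.length := by exact_mod_cast hG
  have h1c := one_le_cpow q
  have h5' : min (1 * ((viol G.2 (fun n => (decL 1 (G, L')).getD n 0) : ℝ) / G.2.length) / 780) 1 /
      (1000 * cpow q) ≤ uu (step 1 G) L' := by
    rw [Nat.cast_one] at h5
    exact h5
  have h9 := gap_arith hm (by linarith) (Nat.le_ceil _ : 780 * (1000 * cpow q) ≤ (Cq q : ℝ)) hpow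
    hv1 h5'
  have := eps0_le_one
  linarith

/-- **The PCP theorem** (gap amplification), for constraint graphs. -/
theorem gap_reduction : ∃ δ : ℝ, 0 < δ ∧ PTime (gapF q) ∧ PTime (gapD q) ∧
    (∀ G : CG q, WF 260 (gapF q G)) ∧
    (∀ G : CG q, (gapF q G).1.length ≤ (gapF q G).2.length) ∧
    (∀ G : CG q, (∃ a, viol G.2 a = 0) → ∃ a, viol (gapF q G).2 a = 0) ∧
    ∀ G : CG q, 0 < G.2.length → (∀ e ∈ G.2, e.1 < G.1.length ∧ e.2.1 < G.1.length) →
      ∀ L : List (Fin 1024), (viol (gapF q G).2 (fun n => L.getD n 0) : ℝ) <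
        δ * (gapF q G).2.length → viol G.2 (fun n => (gapD q (G, L)).getD n 0) = 0 := by
  refine ⟨eps0 / 780, by have := eps0_pos; positivity, gapF_ptime q, gapD_ptime q, fun G =>
    ⟨regG_lt _, degCG_regG _⟩, fun G => ?_, fun G h => gap_complete q G h, fun G hG hlt L hL =>
      gap_sound q G hG hlt L hL⟩
  have h1 : (gapF q G).1.length = 2 * (graphs q G).1.2.length := List.length_replicate ..
  have h2 : (gapF q G).2.length = 260 * (graphs q G).1.2.length := length_regG _
  omega

end gap

end Pool.Agent.PCP
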