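import Pool.Agent.Lib.PCP.DecP

/-!
# Iterating the gap amplification logarithmically many times
-/

namespace Pool.Agent.PCP

open Finset BigOperators Pool.Agent.PolyTime

/-! ### Sizes -/

theorem size_replicate_unit (n : ℕ) : size (enc (List.replicate n ())) = 2 * n + 1 := by
  induction n with
  | zero => rfl
  | succ n ih =>
    rw [List.replicate_succ, size_lcons, ih]
    have : size (enc ()) = 1 := rfl
    omega

theorem exists_size_le (α : Type) [Finite α] [Enc α] : ∃ B, ∀ a : α, size (enc a) ≤ B :=
  exists_size_bound α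

theorem mem_redEdges {Ω S : Type} [Fintype Ω] [DecidableEq Ω] [Fintype S] [DecidableEq S]
    {N : ℕ} {w : ℕ → Ω → ℕ} {R : ℕ → Ω → F2 S} (hw : ∀ v < N, ∀ ω, w v ω < N)
    {e : ℕ × ℕ × Rel 1024} (he : e ∈ redEdges N w R) :
    e.1 < N * KK Ω S ∧ e.2.1 < N * KK Ω S := by
  unfold redEdges redBlock at he
  simp only [List.mem_flatMap, List.mem_range, List.mem_map] at he
  obtain ⟨v, hv, ω, _, τ, _, j, _, rfl⟩ := he
  refine ⟨nm_lt hv _, ?_⟩
  unfold redEdge
  simp only
  split
  · exact nm_lt (hw v hv ω) _
  · exact nm_lt hv _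

theorem edge_arith {x y N R B : ℕ} (hx : x < N) (hy : y < N) (hR : R ≤ B)
    {sx sy : ℕ} (e1 : sx ≤ 4 * x + 1) (e2 : sy ≤ 4 * y + 1) :
    sx + (sy + R + 1) + 1 ≤ ((4 * N + 1) + ((4 * N + 1) + B + 1) + 1) := by
  omega

theorem step_size {q : ℕ} [NeZero q] (t : ℕ) :
    ∃ p : Polynomial ℕ, ∀ G : CG q, size (enc (step t G)) ≤ p.eval G.2.length := by
  obtain ⟨B, hB⟩ := exists_size_le (Rel 1024)
  obtain ⟨K, hK⟩ : ∃ K, K = KK (OM t) (SS q t) := ⟨_, rfl⟩
  obtain ⟨c, hc⟩ : ∃ c, c = Fintype.card (OM t) * (NT (SS q t) * 10) := ⟨_, rfl⟩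
  have key : ∀ G : CG q, size (enc (step t G)) ≤
      (2 * (2 * G.2.length * K) + 1) + ((2 * G.2.length * c) *
        (((4 * (2 * G.2.length * K) + 1) + ((4 * (2 * G.2.length * K) + 1) + B + 1) + 1) + 1)
          + 1) + 1 := by
    intro G
    have h0 : size (enc (step t G)) = size (enc (step t G).1) + size (enc (step t G).2) + 1 :=
      size_pair _ _
    have h1 : size (enc (step t G).1) = 2 * (2 * G.2.length * K) + 1 := by
      rw [hK]; exact size_replicate_unit _
    have h2 : size (enc (step t G).2) ≤ (step t G).2.length *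
        (((4 * (2 * G.2.length * K) + 1) + ((4 * (2 * G.2.length * K) + 1) + B + 1) + 1) + 1) +
          1 := by
      refine size_list_le _ _ fun e he => ?_
      have hlt := mem_redEdges (fun v hv ω => go_lt G.2 hv (wl ω)) he
      rw [← hK] at hlt
      obtain ⟨x, y, R⟩ := e
      rw [size_pair, size_pair]
      exact edge_arith hlt.1 hlt.2 (hB R) (size_nat_le x) (size_nat_le y)
    rw [length_step, ← hc] at h2
    rw [h0, h1]
    omega
  refine ⟨(2 * (2 * Polynomial.X * Polynomial.C K) + 1) + ((2 * Polynomial.X * Polynomial.C c) *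
        (((4 * (2 * Polynomial.X * Polynomial.C K) + 1) + ((4 * (2 * Polynomial.X *
          Polynomial.C K) + 1) + Polynomial.C B + 1) + 1) + 1) + 1) + 1, fun G => ?_⟩
  refine (key G).trans (le_of_eq ?_)
  simp

/-! ### The iteration -/

section
variable (t : ℕ)

/-- iterate, remembering the previous graphs -/
noncomputable def iterS (s : CG 1024 × List (CG 1024)) (_ : Bool) : CG 1024 × List (CG 1024) :=
  (step t s.1, s.1 :: s.2)

/-- ratio of the numbers of edges -/
noncomputable def ratio (q : ℕ) [NeZero q] (t : ℕ) : ℕ :=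
  2 * (Fintype.card (OM t) * (NT (SS q t) * 10))

theorem length_step' {q : ℕ} [NeZero q] (t : ℕ) (G : CG q) :
    (step t G).2.length = ratio q t * G.2.length := by
  rw [length_step, ratio]; ring

theorem iterS_length (l : List Bool) (s : CG 1024 × List (CG 1024)) :
    (l.foldl (iterS t) s).1.2.length = ratio 1024 t ^ l.length * s.1.2.length := by
  induction l generalizing s with
  | nil => simp
  | cons b l ih =>
    rw [List.foldl_cons, ih, iterS, length_step' (q := 1024), List.length_cons, pow_succ]
    ring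

theorem ratio_pos {q : ℕ} [NeZero q] {t : ℕ} (ht : 0 < t) : 0 < ratio q t := by
  have h1 := card_OM_pos ht
  have h2 : 0 < NT (SS q t) := NT_pos (S := SS q t)
  unfold ratio
  positivity

theorem iterS_mem (ht : 0 < t) (l : List Bool) (s : CG 1024 × List (CG 1024)) (G : CG 1024)
    (hG : G ∈ (l.foldl (iterS t) s).2) : G ∈ s.2 ∨ G = s.1 ∨ ∃ G' : CG 1024, G = step t G' ∧
      G'.2.length ≤ ratio 1024 t ^ l.length * s.1.2.length := by
  induction l generalizing s with
  | nil => exact Or.inl hG
  | cons b l ih =>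
    rw [List.foldl_cons] at hG
    have hr := ratio_pos (q := 1024) ht
    have hpow : 0 < ratio 1024 t ^ l.length := pow_pos hr _
    rcases ih _ hG with h | h | ⟨G', h1, h2⟩
    · change G ∈ s.1 :: s.2 at h
      rcases List.mem_cons.1 h with h | h
      · exact Or.inr (Or.inl h)
      · exact Or.inl h
    · refine Or.inr (Or.inr ⟨s.1, h, ?_⟩)
      exact Nat.le_mul_of_pos_left _ (pow_pos hr _)
    · refine Or.inr (Or.inr ⟨G', h1, h2.trans (le_of_eq ?_)⟩)
      change ratio 1024 t ^ l.length * (step t s.1).2.length = _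
      rw [length_step' (q := 1024), List.length_cons, pow_succ]
      ring

theorem iterS_fst (l : List Bool) (s : CG 1024 × List (CG 1024)) :
    (l.foldl (iterS t) s).1 = s.1 ∨ ∃ G' : CG 1024, (l.foldl (iterS t) s).1 = step t G' ∧
      G'.2.length * ratio 1024 t = ratio 1024 t ^ l.length * s.1.2.length := by
  induction l generalizing s with
  | nil => exact Or.inl rfl
  | cons b l ih =>
    rw [List.foldl_cons]
    rcases ih (iterS t s b) with h | ⟨G', h1, h2⟩
    · rcases l with _ | ⟨b', l⟩
      · refine Or.inr ⟨s.1, rfl, ?_⟩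
        simp only [List.length_cons, List.length_nil, zero_add, pow_one]
        ring
      · have h3 := iterS_length t (b' :: l) (iterS t s b)
        rw [h] at h3
        refine Or.inr ⟨s.1, h, ?_⟩
        have h4 : (iterS t s b).1.2.length = ratio 1024 t * s.1.2.length := length_step' (q := 1024) t s.1
        rw [h4] at h3
        rw [List.length_cons, pow_succ]
        have h5 : ratio 1024 t ^ (b' :: l).length * ratio 1024 t * s.1.2.length =
            ratio 1024 t ^ (b' :: l).length * (ratio 1024 t * s.1.2.length) := by ring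
        rw [h5, ← h3]
        ring
    · refine Or.inr ⟨G', h1, h2.trans ?_⟩
      change ratio 1024 t ^ l.length * (step t s.1).2.length = _
      rw [length_step' (q := 1024), List.length_cons, pow_succ]
      ring

theorem two_pow_size (x : ℕ) : 2 ^ x.bits.length ≤ 2 * x + 1 := by
  rw [Nat.size_eq_bits_len]
  rcases Nat.eq_zero_or_pos (Nat.size x) with h | h
  · rw [h]; omega
  · have h1 : Nat.size x - 1 < Nat.size x := by omega
    have h2 := Nat.lt_size.1 h1
    have h3 : 2 ^ Nat.size x = 2 * 2 ^ (Nat.size x - 1) := by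
      rw [← pow_succ']; congr 1; omega
    rw [h3]
    omega

theorem pow_size_le (c x k : ℕ) (hk : k ≤ x.bits.length) : c ^ k ≤ (2 * x + 1) ^ c := by
  rcases Nat.eq_zero_or_pos c with rfl | hc
  · rcases Nat.eq_zero_or_pos k with rfl | hk0
    · simp
    · rw [zero_pow (by omega)]; exact Nat.zero_le _
  · have h1 : c ^ k ≤ (2 ^ c) ^ k := Nat.pow_le_pow_left Nat.lt_two_pow_self.le k
    have h2 : (2 ^ c) ^ k = (2 ^ k) ^ c := by rw [← pow_mul, ← pow_mul, Nat.mul_comm]
    have h3 : 2 ^ k ≤ 2 * x + 1 :=
      (Nat.pow_le_pow_right (by norm_num) hk).trans (two_pow_size x)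
    calc c ^ k ≤ (2 ^ k) ^ c := by rw [← h2]; exact h1
      _ ≤ (2 * x + 1) ^ c := Nat.pow_le_pow_left h3 c

/-- The iterated construction is polynomial-time. -/
theorem iterS_ptime {α : Type} [Enc α] {g : α → CG 1024} {n : α → ℕ} (hg : PTime g)
    (hn : PTime n) (ht : 0 < t) {T : ℕ → ℕ} (hT : PBd T)
    (hnT : ∀ a, n a ≤ T (size (enc a))) :
    PTime (fun a => (n a).bits.foldl (iterS t) (g a, [])) := by
  obtain ⟨G, hG, hGm, hGs⟩ := hg.size_le
  obtain ⟨p, hp⟩ := step_size (q := 1024) t
  have hstep : PTime (fun z : α × ((CG 1024 × List (CG 1024)) × Bool) => iterS t z.2.1 z.2.2) := by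
    have h1 : PTime (fun z : α × ((CG 1024 × List (CG 1024)) × Bool) => z.2.1) :=
      PTime.fst' PTime.snd
    exact ((step_ptime t).comp h1.fst').pair (h1.fst'.cons h1.snd')
  -- bound for the sizes
  let M : ℕ → ℕ := fun k => (2 * T k + 1) ^ ratio 1024 t * G k
  have hM : PBd M := ((((PBd.const 2).mul hT).add (PBd.const 1)).pow _).mul hG
  let S : ℕ → ℕ := fun k => G k + p.eval (M k)
  have hS : PBd S := hG.add (PBd.comp ⟨p, fun _ => le_refl _⟩ hM)
  have hlenG : ∀ a, (g a).2.length ≤ G (size (enc a)) := by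
    intro a
    have h1 := length_le_size (g a).2
    have h2 : size (enc (g a)) = size (enc (g a).1) + size (enc (g a).2) + 1 := size_pair _ _
    have h3 := hGs a
    omega
  refine PTime.foldl (h := fun _ s b => iterS t s b) hn.natBits (hg.pair (PTime.const [])) hstep
    (B := fun k => S k + (T k * (S k + 1) + 1) + 1)
    ((hS.add ((hT.mul (hS.add (PBd.const 1))).add (PBd.const 1))).add (PBd.const 1)) ?_
  intro a l₁ l₂ hl
  have hk : l₁.length ≤ (n a).bits.length := by rw [hl]; simp
  have hpow := pow_size_le (ratio 1024 t) (n a) l₁.length hk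
  have hTn := hnT a
  have hMb : ratio 1024 t ^ l₁.length * (g a).2.length ≤ M (size (enc a)) := by
    refine Nat.mul_le_mul (hpow.trans (Nat.pow_le_pow_left (by omega) _)) (hlenG a)
  have hGa := hGs a
  have hcur : size (enc (l₁.foldl (iterS t) (g a, [])).1) ≤ S (size (enc a)) := by
    rcases iterS_fst t l₁ (g a, []) with h | ⟨G', h1, h2⟩
    · rw [h]; exact hGa.trans (Nat.le_add_right _ _)
    · rw [h1]
      refine (hp G').trans ?_
      refine le_trans ?_ (Nat.le_add_left _ _)
      refine eval_mono p ?_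
      have hr := ratio_pos (q := 1024) ht
      refine le_trans ?_ hMb
      change _ ≤ ratio 1024 t ^ l₁.length * (g a).2.length
      rw [← h2]
      exact Nat.le_mul_of_pos_right _ hr
  have hlist : ∀ H ∈ (l₁.foldl (iterS t) (g a, [])).2, size (enc H) ≤ S (size (enc a)) := by
    intro H hH
    rcases iterS_mem t ht l₁ (g a, []) H hH with h | h | ⟨G', h1, h2⟩
    · simp at h
    · rw [h]; exact hGa.trans (Nat.le_add_right _ _)
    · rw [h1]
      refine (hp G').trans ?_
      refine le_trans ?_ (Nat.le_add_left _ _)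
      exact eval_mono p (h2.trans hMb)
  have hlen2 : ∀ (l : List Bool) (s : CG 1024 × List (CG 1024)),
      (l.foldl (iterS t) s).2.length = s.2.length + l.length := by
    intro l
    induction l with
    | nil => intro s; rfl
    | cons b l ih =>
      intro s
      rw [List.foldl_cons, ih, List.length_cons]
      change (s.1 :: s.2).length + l.length = _
      rw [List.length_cons]; omega
  have h1 := size_list_le _ _ hlist
  rw [hlen2 l₁ (g a, [])] at h1
  change _ ≤ (([] : List (CG 1024)).length + l₁.length) * (S (size (enc a)) + 1) + 1 at h1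
  have h2 : size (enc (l₁.foldl (iterS t) (g a, []))) =
      size (enc (l₁.foldl (iterS t) (g a, [])).1) +
        size (enc (l₁.foldl (iterS t) (g a, [])).2) + 1 := size_pair _ _
  change size (enc (l₁.foldl (iterS t) (g a, []))) ≤ _
  have hb : (n a).bits.length ≤ n a := by
    rw [Nat.size_eq_bits_len]
    exact Nat.size_le.2 Nat.lt_two_pow_self
  have h3 : (([] : List (CG 1024)).length + l₁.length) * (S (size (enc a)) + 1) ≤
      T (size (enc a)) * (S (size (enc a)) + 1) := Nat.mul_le_mul_right _ (by
        simp only [List.length_nil, Nat.zero_add]; omega)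
  omega

/-- decode along the list of graphs -/
noncomputable def iterD (L : List (Fin 1024)) (G : CG 1024) : List (Fin 1024) := decL t (G, L)

theorem decL_length {q : ℕ} [NeZero q] (t : ℕ) (z : CG q × List (Fin 1024)) :
    (decL t z).length = z.1.1.length := by
  simp [decL]

theorem iterD_ptime {α : Type} [Enc α] {g : α → List (CG 1024)} {L : α → List (Fin 1024)}
    (hg : PTime g) (hL : PTime L) : PTime (fun a => (g a).foldl (iterD t) (L a)) := by
  obtain ⟨G, hG, hGm, hGs⟩ := hg.size_le
  obtain ⟨LL, hLL, hLm, hLs⟩ := hL.size_le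
  obtain ⟨B, hB⟩ := exists_size_le (Fin 1024)
  have hstep : PTime (fun z : α × (List (Fin 1024) × CG 1024) => iterD t z.2.1 z.2.2) :=
    (decL_ptime t).comp ((PTime.snd' PTime.snd).pair (PTime.fst' PTime.snd))
  refine PTime.foldl (h := fun _ L G => iterD t L G) hg hL hstep
    (B := fun k => LL k + (G k * (B + 1) + 1)) (hLL.add ((hG.mul (PBd.const _)).add
      (PBd.const 1))) ?_
  intro a l₁ l₂ hl
  rcases List.eq_nil_or_concat l₁ with h | ⟨l, H, h⟩
  · rw [h]
    exact (hLs a).trans (Nat.le_add_right _ _)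
  · rw [h, List.concat_eq_append, List.foldl_append]
    change size (enc (decL t (H, l.foldl (iterD t) (L a)))) ≤ _
    have h1 := size_list_le (decL t (H, l.foldl (iterD t) (L a))) B fun x _ => hB x
    rw [decL_length] at h1
    have hH : H ∈ g a := by rw [hl, h, List.concat_eq_append]; simp
    have h2 := size_le_of_mem hH
    have h3 : size (enc H) = size (enc H.1) + size (enc H.2) + 1 := size_pair _ _
    have h4 := length_le_size H.1
    have h5 := hGs a
    have h6 : H.1.length * (B + 1) ≤ G (size (enc a)) * (B + 1) :=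
      Nat.mul_le_mul_right _ (by omega)
    simp only at h1
    omega

end

end Pool.Agent.PCP
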