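import Pool.Agent.Lib.PolyTime.Partial
import Pool.Agent.Lib.PolyTime.Converse
import Pool.Agent.Lib.MP_311ff9_lc.Apx

/-!
# The verifier for a problem in APX
-/

namespace Pool.Agent.PCP

open Pool.Agent.PolyTime Pool.Agent.MP_311ff9_lc

instance instEncInst (A : OptProblem) : Enc A.Inst := ⟨A.encInst⟩
instance instEncSol (A : OptProblem) : Enc A.Sol := ⟨A.encSol⟩

/-- All the data of a problem in APX. -/
structure Ctx (A : OptProblem) where
  q : Polynomial ℕ
  F : A.Inst × D → Bool
  hF : PTime F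
  short : ∀ x y, A.feasible x y → size (A.encSol y) ≤ q.eval (size (A.encInst x))
  dec : ∀ x d, size d ≤ q.eval (size (A.encInst x)) →
    (F (x, d) = true ↔ ∃ y, A.encSol y = d ∧ A.feasible x y)
  m : {z : A.Inst × A.Sol // A.feasible z.1 z.2} → ℕ
  hm : PTime m
  value_eq : ∀ z, A.value z.1.1 z.1.2 = m z
  m_pos : ∀ z, 0 < m z
  T : A.Inst → A.Sol
  hT : PTime T
  T_feas : ∀ x, A.feasible x (T x)
  ρ : ℕ
  ρ_pos : 0 < ρ
  ratio : ∀ x y (h : A.feasible x y),
    if A.isMax = true then m ⟨(x, y), h⟩ ≤ ρ * m ⟨(x, T x), T_feas x⟩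
      else m ⟨(x, T x), T_feas x⟩ ≤ ρ * m ⟨(x, y), h⟩

theorem exists_ctx {A : OptProblem} (hA : A.InAPX) : Nonempty (Ctx A) := by
  obtain ⟨⟨⟨q, F, hF, hshort, hdec⟩, ⟨m, hm, hv⟩⟩, ⟨T, ρ, hT, hTr⟩⟩ := hA
  refine ⟨{
    q := q
    F := F
    hF := isPolyTime_iff.1 hF
    short := hshort
    dec := hdec
    m := m
    hm := isPolyTime_iff.1 hm
    value_eq := fun z => (hv z).1
    m_pos := fun z => (hv z).2
    T := T
    hT := isPolyTime_iff.1 hT
    T_feas := fun x => (hTr x).1
    ρ := ⌈ρ⌉₊ + 1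
    ρ_pos := Nat.succ_pos _
    ratio := ?_ }⟩
  intro x y h
  have h1 := (hTr x).2 y h
  have hle : ρ ≤ ((⌈ρ⌉₊ + 1 : ℕ) : ℝ) := by
    have := Nat.le_ceil ρ
    push_cast
    linarith
  have e1 : A.value x y = m ⟨(x, y), h⟩ := (hv ⟨(x, y), h⟩).1
  have e2 : A.value x (T x) = m ⟨(x, T x), (hTr x).1⟩ := (hv ⟨(x, T x), (hTr x).1⟩).1
  rw [e1, e2] at h1
  split_ifs at h1 with hmax
  · rw [if_pos hmax]
    have h2 : (m ⟨(x, y), h⟩ : ℝ) ≤ ((⌈ρ⌉₊ + 1 : ℕ) : ℝ) * m ⟨(x, T x), (hTr x).1⟩ :=
      h1.trans (mul_le_mul_of_nonneg_right hle (Nat.cast_nonneg _))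
    exact_mod_cast h2
  · rw [if_neg hmax]
    have h2 : (m ⟨(x, T x), (hTr x).1⟩ : ℝ) ≤ ((⌈ρ⌉₊ + 1 : ℕ) : ℝ) * m ⟨(x, y), h⟩ :=
      h1.trans (mul_le_mul_of_nonneg_right hle (Nat.cast_nonneg _))
    exact_mod_cast h2

/-- Inputs of the verifier: an instance, the numbers `b`, `c` (the thresholds are multiples of
`1 + i c / b`), and lists of length `i` and `K - i`. -/
abbrev Qy (A : OptProblem) := A.Inst × ((ℕ × ℕ) × (List Unit × List Unit))

/-- the threshold condition -/
def cond (mx : Bool) (v t b c i : ℕ) : Bool :=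
  if mx = true then decide (t * (b + i * c) ≤ b * v) else decide (v * (b + i * c) ≤ t * b)

namespace Ctx

variable {A : OptProblem} (C : Ctx A)

/-- value of the approximate solution -/
def tval (x : A.Inst) : ℕ := C.m ⟨(x, C.T x), C.T_feas x⟩

theorem tval_ptime : PTime C.tval := by
  have h : PTime (fun x : A.Inst => (x, C.T x)) := PTime.id.pair C.hT
  have h' : PTime (fun x : A.Inst => (⟨(x, C.T x), C.T_feas x⟩ :
      {z : A.Inst × A.Sol // A.feasible z.1 z.2})) :=
    h.of_enc_eq (fun x => x) (fun _ => rfl) (fun _ => rfl)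
  exact C.hm.comp h'

/-- length of the witnesses -/
def N (x : Qy A) : List Unit := List.replicate (C.q.eval (bits (enc x.1)).length) ()

theorem N_ptime : PTime C.N := PTime.unaryPoly (PTime.bits' PTime.fst) C.q

theorem N_length (x : Qy A) : (C.N x).length = C.q.eval (size (A.encInst x.1)) :=
  List.length_replicate ..

/-- the witness codes a feasible solution -/
def ok (z : List Bool × Qy A) : Bool :=
  decide ((bits (parse z.1)).length ≤ (C.N z.2).length) && C.F (z.2.1, parse z.1)

theorem parse_ptime' {α : Type} [Enc α] {f : α → List Bool} (hf : PTime f) :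
    PTime (fun a => parse (f a)) := PTime.parse.comp hf

theorem ok_ptime : PTime C.ok := by
  have hd : PTime (fun z : List Bool × Qy A => parse z.1) := parse_ptime' PTime.fst
  exact PTime.and (PTime.le (PTime.length (PTime.bits' hd)) (C.N_ptime.comp PTime.snd).length)
    (C.hF.comp ((PTime.fst' PTime.snd).pair hd))

theorem ok_iff (z : List Bool × Qy A) : C.ok z = true ↔
    size (parse z.1) ≤ C.q.eval (size (A.encInst z.2.1)) ∧
      ∃ y, A.encSol y = parse z.1 ∧ A.feasible z.2.1 y := by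
  unfold ok
  rw [Bool.and_eq_true, decide_eq_true_eq, C.N_length]
  constructor
  · rintro ⟨h1, h2⟩
    exact ⟨h1, (C.dec _ _ h1).1 h2⟩
  · rintro ⟨h1, h2⟩
    exact ⟨h1, (C.dec _ _ h1).2 h2⟩

/-- the solution with a given code -/
noncomputable def sol {x : A.Inst} {d : D} (h : ∃ y, A.encSol y = d ∧ A.feasible x y) :
    {z : A.Inst × A.Sol // A.feasible z.1 z.2} := ⟨(x, h.choose), h.choose_spec.2⟩

theorem enc_sol {x : A.Inst} {d : D} (h : ∃ y, A.encSol y = d ∧ A.feasible x y) :
    enc (sol h) = D.cons (A.encInst x) d := by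
  change D.cons (A.encInst x) (A.encSol h.choose) = _
  rw [h.choose_spec.1]

/-- value of a code -/
noncomputable def mval {x : A.Inst} {d : D} (h : ∃ y, A.encSol y = d ∧ A.feasible x y) : ℕ :=
  C.m (sol h)

theorem mval_eq {x : A.Inst} {y : A.Sol} (hy : A.feasible x y)
    (h : ∃ y', A.encSol y' = A.encSol y ∧ A.feasible x y') : C.mval h = C.m ⟨(x, y), hy⟩ := by
  refine EncInj.inj (C.hm.enc_congr ?_)
  rw [enc_sol]
  rfl

/-- The verifier. -/
noncomputable def V (z : List Bool × Qy A) : Bool :=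
  if h : C.ok z = true then
    cond A.isMax (C.mval ((C.ok_iff z).1 h).2) (C.tval z.2.1) z.2.2.1.1 z.2.2.1.2
      z.2.2.2.1.length
  else false

theorem cond_ptime {α : Type} [Enc α] (mx : Bool) {v t b c i : α → ℕ} (hv : PTime v)
    (ht : PTime t) (hb : PTime b) (hc : PTime c) (hi : PTime i) :
    PTime (fun a => cond mx (v a) (t a) (b a) (c a) (i a)) := by
  have h1 : PTime (fun a => b a + i a * c a) := hb.add (hi.mul hc)
  cases mx
  · exact PTime.le (hv.mul h1) (ht.mul hb)
  · exact PTime.le (ht.mul h1) (hb.mul hv)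

theorem V_ptime : PTime C.V := by
  have hg : PTime (fun a : {z : List Bool × Qy A // C.ok z = true} =>
      cond A.isMax (C.mval ((C.ok_iff a.1).1 a.2).2) (C.tval a.1.2.1) a.1.2.2.1.1 a.1.2.2.1.2
        a.1.2.2.2.1.length) := by
    have hx : PTime (fun a : {z : List Bool × Qy A // C.ok z = true} => a.1.2.1) :=
      PTime.fst' (PTime.snd' PTime.val)
    have hp : PTime (fun a : {z : List Bool × Qy A // C.ok z = true} => a.1.2.2) :=
      PTime.snd' (PTime.snd' PTime.val)
    have hd : PTime (fun a : {z : List Bool × Qy A // C.ok z = true} => parse a.1.1) :=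
      parse_ptime' (PTime.fst' PTime.val)
    have hs : PTime (fun a : {z : List Bool × Qy A // C.ok z = true} =>
        sol ((C.ok_iff a.1).1 a.2).2) :=
      (hx.pair hd).of_enc_eq (fun a => a) (fun _ => rfl) (fun a => enc_sol _)
    exact cond_ptime A.isMax (C.hm.comp hs) (C.tval_ptime.comp hx) hp.fst'.fst' hp.fst'.snd'
      hp.snd'.fst'.length
  exact PTime.dite' C.ok_ptime hg (PTime.const false)

/-- Completeness of the verifier. -/
theorem V_complete {x : A.Inst} {y : A.Sol} (hy : A.feasible x y) (par : (ℕ × ℕ) ×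
    (List Unit × List Unit)) (hc : cond A.isMax (C.m ⟨(x, y), hy⟩) (C.tval x) par.1.1 par.1.2
      par.2.1.length = true) :
    ∃ w, w.length = (C.N (x, par)).length ∧ C.V (w, (x, par)) = true := by
  have hs := C.short x y hy
  let w : List Bool := bits (A.encSol y) ++
    List.replicate (C.q.eval (size (A.encInst x)) - size (A.encSol y)) false
  have hw : parse w = A.encSol y := parse_bits_append _ _
  refine ⟨w, ?_, ?_⟩
  · rw [C.N_length]
    simp only [w, List.length_append, List.length_replicate, length_bits]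
    omega
  · have hok : C.ok (w, (x, par)) = true := by
      rw [C.ok_iff]
      simp only [hw]
      exact ⟨hs, y, rfl, hy⟩
    unfold V
    rw [dif_pos hok]
    have hex : ∃ y', A.encSol y' = A.encSol y ∧ A.feasible x y' := ⟨y, rfl, hy⟩
    have e : ∀ (d : D) (hd : d = A.encSol y) (h : ∃ y', A.encSol y' = d ∧ A.feasible x y'),
        C.mval h = C.m ⟨(x, y), hy⟩ := by
      intro d hd h
      subst hd
      exact C.mval_eq hy h
    rw [e (parse w) hw]
    exact hc

/-- Soundness of the verifier. -/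
theorem V_sound {z : List Bool × Qy A} (h : C.V z = true) :
    ∃ (hex : ∃ y, A.encSol y = parse z.1 ∧ A.feasible z.2.1 y),
      cond A.isMax (C.mval hex) (C.tval z.2.1) z.2.2.1.1 z.2.2.1.2 z.2.2.2.1.length = true := by
  unfold V at h
  split_ifs at h with hok
  exact ⟨((C.ok_iff z).1 hok).2, h⟩

end Ctx

end Pool.Agent.PCP
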