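import Pool.Agent.Lib.PCP.Kmsv2

/-!
# The reduction from a problem in APX to triangle packing: analysis
-/

namespace Pool.Agent.PCP

open Pool.Agent.PolyTime Pool.Agent.MP_311ff9_lc

/-! ### thresholds -/

theorem cond_zero (mx : Bool) (t b c : ℕ) : cond mx t t b c 0 = true := by
  cases mx <;> simp [cond, Nat.mul_comm]

theorem cond_K {mx : Bool} {v t b c K ρ : ℕ} (ht : 0 < t) (hv : 0 < v) (hK : ρ * b < K * c)
    (h : if mx = true then v ≤ ρ * t else t ≤ ρ * v) : cond mx v t b c K = false := by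
  cases mx
  · simp only [Bool.false_eq_true, if_false] at h
    simp only [cond, Bool.false_eq_true, if_false, decide_eq_false_iff_not, not_le]
    calc t * b ≤ ρ * v * b := Nat.mul_le_mul_right _ h
      _ = v * (ρ * b) := by ring
      _ < v * (b + K * c) := Nat.mul_lt_mul_of_pos_left (by omega) hv
  · simp only [if_true] at h
    simp only [cond, if_true, decide_eq_false_iff_not, not_le]
    calc b * v ≤ b * (ρ * t) := Nat.mul_le_mul_left _ h
      _ = t * (ρ * b) := by ring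
      _ < t * (b + K * c) := Nat.mul_lt_mul_of_pos_left (by omega) ht

theorem cond_ratio {mx : Bool} {v v' t b c i j : ℕ} (hb : 0 < b) (hij : i ≤ j)
    (h1 : cond mx v t b c j = true) (h2 : cond mx v' t b c (i + 1) = false) :
    if mx = true then b * v' ≤ (b + c) * v else b * v ≤ (b + c) * v' := by
  have hic : i * c ≤ j * c := Nat.mul_le_mul_right _ hij
  cases mx
  · simp only [cond, Bool.false_eq_true, if_false, decide_eq_true_eq, decide_eq_false_iff_not,
      not_le] at h1 h2 ⊢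
    rcases Nat.lt_or_ge v' v with hlt | hge
    · obtain ⟨d, rfl⟩ := Nat.exists_eq_add_of_lt hlt
      have h3 : (v' + d + 1) * (b + j * c) < v' * (b + (i + 1) * c) := lt_of_le_of_lt h1 h2
      have h4 : v' * (b + (i + 1) * c) ≤ v' * (b + j * c) + v' * c := by
        rw [← Nat.mul_add]
        exact Nat.mul_le_mul_left _ (by rw [Nat.add_mul, Nat.one_mul]; omega)
      have h5 : (d + 1) * (b + j * c) < v' * c := by
        have : (v' + d + 1) * (b + j * c) = v' * (b + j * c) + (d + 1) * (b + j * c) := by ring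
        omega
      have h6 : (d + 1) * b ≤ (d + 1) * (b + j * c) := Nat.mul_le_mul_left _ (by omega)
      have h7 : b * (v' + d + 1) = b * v' + (d + 1) * b := by ring
      have h8 : (b + c) * v' = b * v' + v' * c := by ring
      omega
    · calc b * v ≤ b * v' := Nat.mul_le_mul_left _ hge
        _ ≤ (b + c) * v' := Nat.mul_le_mul_right _ (by omega)
  · simp only [cond, if_true, decide_eq_true_eq, decide_eq_false_iff_not,
      not_le] at h1 h2 ⊢
    have h3 : t ≤ v := by
      have h4 : t * b ≤ b * v := (Nat.mul_le_mul_left _ (by omega)).trans h1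
      rw [Nat.mul_comm] at h4
      exact Nat.le_of_mul_le_mul_left h4 hb
    have h5 : t * (b + (i + 1) * c) ≤ t * (b + j * c) + t * c := by
      rw [← Nat.mul_add]
      exact Nat.mul_le_mul_left _ (by rw [Nat.add_mul, Nat.one_mul]; omega)
    have h6 : t * c ≤ v * c := Nat.mul_le_mul_right _ h3
    have h7 : (b + c) * v = b * v + v * c := by ring
    omega

theorem cond_weak {mx : Bool} {v t b c j : ℕ} (hb : 0 < b)
    (h1 : cond mx v t b c j = true) : if mx = true then t ≤ v else v ≤ t := by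
  cases mx
  · simp only [cond, Bool.false_eq_true, if_false, decide_eq_true_eq] at h1 ⊢
    have h4 : v * b ≤ t * b := (Nat.mul_le_mul_left _ (by omega)).trans h1
    exact Nat.le_of_mul_le_mul_right h4 hb
  · simp only [cond, if_true, decide_eq_true_eq] at h1 ⊢
    have h4 : t * b ≤ b * v := (Nat.mul_le_mul_left _ (by omega)).trans h1
    rw [Nat.mul_comm] at h4
    exact Nat.le_of_mul_le_mul_left h4 hb

theorem find?_reverse_last {β : Type} (Z : List β) (p : β → Bool) :
    ∀ (i : ℕ) (hi : i < Z.length), p Z[i] = true →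
      ∃ (j : ℕ) (hj : j < Z.length), i ≤ j ∧ Z.reverse.find? p = some Z[j] ∧ p Z[j] = true := by
  induction Z using List.reverseRecOn with
  | nil => intro i hi; simp at hi
  | append_singleton Z a ih =>
    intro i hi hp
    rw [List.reverse_append, List.reverse_singleton, List.singleton_append, List.find?_cons]
    by_cases ha : p a = true
    · refine ⟨Z.length, by simp, ?_, ?_, ?_⟩
      · rw [List.length_append, List.length_singleton] at hi
        omega
      · rw [ha]; simp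
      · simpa using ha
    · have hlt : i < Z.length := by
        rw [List.length_append, List.length_singleton] at hi
        by_contra hcon
        have h1 : i = Z.length := by omega
        subst h1
        apply ha
        simpa using hp
      rw [List.getElem_append_left hlt] at hp
      obtain ⟨j, hj, h1, h2, h3⟩ := ih i hlt hp
      refine ⟨j, by rw [List.length_append]; omega, h1, ?_, ?_⟩
      · rw [Bool.not_eq_true] at ha
        rw [ha, h2, List.getElem_append_left hj]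
      · rw [List.getElem_append_left hj]; exact h3

theorem exists_threshold {P : ℕ → Prop} {K : ℕ} (h0 : P 0) (hK : ¬ P K) :
    ∃ i < K, P i ∧ ¬ P (i + 1) := by
  classical
  have hex : ∃ n, ¬ P n := ⟨K, hK⟩
  have h1 := Nat.find_spec hex
  have h2 : Nat.find hex ≠ 0 := fun h => h1 (h ▸ h0)
  have h3 : Nat.find hex ≤ K := Nat.find_min' hex hK
  refine ⟨Nat.find hex - 1, by omega, ?_, ?_⟩
  · by_contra hcon
    exact Nat.find_min hex (by omega) hcon
  · have : Nat.find hex - 1 + 1 = Nat.find hex := by omega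
    rw [this]
    exact h1

/-! ### the constants -/

/-- the error -/
noncomputable def eps (δ : ℝ) (k : ℕ) : ℝ := δ / (k * (k + 1) + 1)

/-- the constant of the reduction -/
noncomputable def alp (δ : ℝ) (k ρ α2 : ℕ) : ℕ := ⌈2 * α2 * ρ / eps δ k⌉₊ + 1

theorem eps_pos {δ : ℝ} (h : 0 < δ) (k : ℕ) : 0 < eps δ k := by
  unfold eps
  positivity

/-- The numerical estimate. -/
theorem small_error {δ : ℝ} (hδ : 0 < δ) (k ρ α2 : ℕ) (r : RatioParam)
    (hsmall : (α2 : ℝ) * (((r.1 : ℚ) : ℝ) - 1) ≤ eps δ k / 2) :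
    (α2 : ℝ) * (((r.1 : ℚ) : ℝ) - 1) * Kn ρ (alp δ k ρ α2) r ≤ eps δ k := by
  set ε := eps δ k with hε
  have hεp : 0 < ε := eps_pos hδ k
  set α := alp δ k ρ α2 with hα
  have hαpos : (0 : ℝ) < α := by
    rw [hα]; unfold alp; push_cast; positivity
  have hαge : 2 * α2 * ρ / ε ≤ α := by
    rw [hα]; unfold alp
    push_cast
    have := Nat.le_ceil (2 * α2 * ρ / eps δ k)
    rw [← hε] at this ⊢
    linarith
  rw [ratio_eq] at hsmall ⊢
  have hab := bb_lt_aa r
  have hb : (0 : ℝ) < bb r := by exact_mod_cast bb_pos r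
  have hd : (0 : ℝ) < ((aa r - bb r : ℕ) : ℝ) := by
    have : 0 < aa r - bb r := by omega
    exact_mod_cast this
  set d : ℝ := ((aa r - bb r : ℕ) : ℝ) with hd'
  have hK : (Kn ρ α r : ℝ) ≤ ρ * bb r / (α * d) + 1 := by
    unfold Kn
    push_cast
    have h1 : ((ρ * bb r / cc α r : ℕ) : ℝ) ≤ ((ρ * bb r : ℕ) : ℝ) / (cc α r : ℕ) :=
      Nat.cast_div_le
    have h2 : ((cc α r : ℕ) : ℝ) = α * d := by
      unfold cc; push_cast; rfl
    rw [h2] at h1
    push_cast at h1
    linarith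
  have h0 : 0 ≤ (α2 : ℝ) * (d / bb r) := by positivity
  calc (α2 : ℝ) * (d / bb r) * Kn ρ α r ≤ (α2 : ℝ) * (d / bb r) * (ρ * bb r / (α * d) + 1) :=
        mul_le_mul_of_nonneg_left hK h0
    _ = α2 * ρ / α + α2 * (d / bb r) := by field_simp
    _ ≤ ε / 2 + ε / 2 := by
        refine add_le_add ?_ hsmall
        rw [div_le_iff₀ hαpos]
        rw [div_le_iff₀ hεp] at hαge
        linarith
    _ = ε := by ring

theorem large_ratio {δ : ℝ} (hδ : 0 < δ) (k ρ α2 : ℕ) (hα2 : 0 < α2) (r : RatioParam)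
    (hlarge : eps δ k / 2 < (α2 : ℝ) * (((r.1 : ℚ) : ℝ) - 1)) :
    (ρ : ℝ) ≤ 1 + (alp δ k ρ α2 : ℕ) * (((r.1 : ℚ) : ℝ) - 1) := by
  set ε := eps δ k with hε
  have hεp : 0 < ε := eps_pos hδ k
  set α := alp δ k ρ α2 with hα
  have hαge : 2 * α2 * ρ / ε ≤ α := by
    rw [hα]; unfold alp
    push_cast
    have := Nat.le_ceil (2 * α2 * ρ / eps δ k)
    rw [← hε] at this ⊢
    linarith
  set β : ℝ := ((r.1 : ℚ) : ℝ) - 1 with hβ
  have hα2' : (0 : ℝ) < α2 := by exact_mod_cast hα2
  rw [div_le_iff₀ hεp] at hαge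
  have hα0 : (0 : ℝ) ≤ α := Nat.cast_nonneg _
  have hαpos : (0 : ℝ) < α := by
    rw [hα]; unfold alp; push_cast; positivity
  have h1 : (α : ℝ) * ε < α * (2 * (α2 * β)) := by
    refine mul_lt_mul_of_pos_left ?_ hαpos
    linarith
  have h2 : 2 * (α2 : ℝ) * ρ ≤ 2 * α2 * (α * β) := by
    calc 2 * (α2 : ℝ) * ρ ≤ α * ε := hαge
      _ ≤ α * (2 * (α2 * β)) := h1.le
      _ = _ := by ring
  have h3 : (ρ : ℝ) ≤ α * β := le_of_mul_le_mul_left h2 (by positivity)
  linarith

/-! ### The main argument -/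

section main
variable {A : OptProblem} (C : Ctx A) (PK : Pk C) {Δ k : ℕ} (TK : Tk Δ k) (UK : Uk Δ) (α : ℕ)

/-- value of the output -/
noncomputable def outv (z : RatioParam × (A.Inst × List (ℕ × ℕ × ℕ))) : ℕ :=
  C.m ⟨(z.2.1, redG C PK TK UK α z), redG_feasible C PK TK UK α z⟩

theorem mval_eq' {A : OptProblem} (C : Ctx A) {x : A.Inst} {y : A.Sol} {d : D}
    (hd : A.encSol y = d) (hy : A.feasible x y)
    (h : ∃ y', A.encSol y' = d ∧ A.feasible x y') : C.mval h = C.m ⟨(x, y), hy⟩ := by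
  subst hd
  exact C.mval_eq hy h

theorem out_some (z : RatioParam × (A.Inst × List (ℕ × ℕ × ℕ)))
    {p : Qy A × List (ℕ × ℕ × ℕ)} (h : lastOk C PK TK UK α z = some p) {j : ℕ}
    (hj : j ≤ Kn C.ρ α z.1) (hp : p.1 = qry C.ρ α (z.1, z.2.1) j) :
    cond A.isMax (outv C PK TK UK α z) (C.tval z.2.1) (bb z.1) (cc α z.1) j = true := by
  have h1 := List.find?_some h
  obtain ⟨hex, hc⟩ := C.V_sound h1
  have hlen : p.1.2.2.1.length = j := by
    rw [hp]
    exact qry_len C.ρ α (z.1, z.2.1) hj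
  have hcode : A.encSol (redG C PK TK UK α z) = parse (wit C PK TK p) := by
    have h2 : A.encSol (redG C PK TK UK α z) = codeOut C PK TK UK α z :=
      (codeOut_good C PK TK UK α z).choose_spec.1
    rw [h2]
    unfold codeOut
    rw [h]
    rfl
  obtain ⟨q, S⟩ := p
  simp only at hp hlen hc
  subst hp
  have hv : C.mval hex = outv C PK TK UK α z :=
    mval_eq' C hcode (redG_feasible C PK TK UK α z) hex
  rw [hv] at hc
  rw [← hlen]
  exact hc

theorem out_none (z : RatioParam × (A.Inst × List (ℕ × ℕ × ℕ)))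
    (h : lastOk C PK TK UK α z = none) : outv C PK TK UK α z = C.tval z.2.1 := by
  have hcode : A.encSol (redG C PK TK UK α z) = A.encSol (C.T z.2.1) := by
    have h2 : A.encSol (redG C PK TK UK α z) = codeOut C PK TK UK α z :=
      (codeOut_good C PK TK UK α z).choose_spec.1
    rw [h2]
    unfold codeOut
    rw [h]
    rfl
  refine EncInj.inj (C.hm.enc_congr ?_)
  change D.cons (A.encInst z.2.1) (A.encSol (redG C PK TK UK α z)) =
    D.cons (A.encInst z.2.1) (A.encSol (C.T z.2.1))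
  rw [hcode]

theorem out_cond (z : RatioParam × (A.Inst × List (ℕ × ℕ × ℕ))) :
    ∃ j, cond A.isMax (outv C PK TK UK α z) (C.tval z.2.1) (bb z.1) (cc α z.1) j = true := by
  cases h : lastOk C PK TK UK α z with
  | none =>
    refine ⟨0, ?_⟩
    rw [out_none C PK TK UK α z h]
    exact cond_zero _ _ _ _
  | some p =>
    have h2 := List.mem_of_find?_eq_some h
    rw [List.mem_reverse] at h2
    have h3 : p.1 ∈ qs C.ρ α (z.1, z.2.1) := (List.of_mem_zip h2).1
    unfold qs at h3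
    obtain ⟨j, hj, hp⟩ := List.mem_map.1 h3
    rw [List.mem_range] at hj
    exact ⟨j, out_some C PK TK UK α z h hj.le hp.symm⟩

/-- comparison of the output with all solutions, up to a factor `num / den` -/
def Cmp (A : OptProblem) (v v' num den : ℕ) : Prop :=
  if A.isMax = true then den * v' ≤ num * v else den * v ≤ num * v'

theorem out_weak (z : RatioParam × (A.Inst × List (ℕ × ℕ × ℕ))) (y : A.Sol)
    (hy : A.feasible z.2.1 y) :
    Cmp A (outv C PK TK UK α z) (C.m ⟨(z.2.1, y), hy⟩) C.ρ 1 := by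
  obtain ⟨j, hj⟩ := out_cond C PK TK UK α z
  have h1 := cond_weak (bb_pos z.1) hj
  have h2 := C.ratio z.2.1 y hy
  unfold Cmp
  change (if A.isMax = true then _ ≤ C.ρ * C.tval z.2.1 else C.tval z.2.1 ≤ _) at h2
  split_ifs with hmax
  · rw [if_pos hmax] at h1 h2
    rw [one_mul]
    exact h2.trans (Nat.mul_le_mul_left _ h1)
  · rw [if_neg hmax] at h1 h2
    rw [one_mul]
    exact h1.trans h2

theorem ratio_of_cmp {x : A.Inst} {y0 : A.Sol} (hy0 : A.feasible x y0) {num den : ℕ}
    (hden : 0 < den) {R : ℝ} (hR : (num : ℝ) / den ≤ R)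
    (h : ∀ (y : A.Sol) (hy : A.feasible x y),
      Cmp A (C.m ⟨(x, y0), hy0⟩) (C.m ⟨(x, y), hy⟩) num den) : A.RatioAtMost x y0 R := by
  intro y hy
  have h1 := h y hy
  have hd : (0 : ℝ) < den := by exact_mod_cast hden
  have e1 : A.value x y = C.m ⟨(x, y), hy⟩ := C.value_eq ⟨(x, y), hy⟩
  have e2 : A.value x y0 = C.m ⟨(x, y0), hy0⟩ := C.value_eq ⟨(x, y0), hy0⟩
  rw [e1, e2]
  unfold Cmp at h1
  rw [div_le_iff₀ hd] at hR
  split_ifs with hmax
  · rw [if_pos hmax] at h1
    have h2 : (den : ℝ) * C.m ⟨(x, y), hy⟩ ≤ num * C.m ⟨(x, y0), hy0⟩ := by exact_mod_cast h1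
    have h3 : (num : ℝ) * C.m ⟨(x, y0), hy0⟩ ≤ R * den * C.m ⟨(x, y0), hy0⟩ :=
      mul_le_mul_of_nonneg_right hR (Nat.cast_nonneg _)
    have h4 : (den : ℝ) * C.m ⟨(x, y), hy⟩ ≤ den * (R * C.m ⟨(x, y0), hy0⟩) := by
      calc (den : ℝ) * C.m ⟨(x, y), hy⟩ ≤ R * den * C.m ⟨(x, y0), hy0⟩ := h2.trans h3
        _ = _ := by ring
    exact le_of_mul_le_mul_left h4 hd
  · rw [if_neg hmax] at h1
    have h2 : (den : ℝ) * C.m ⟨(x, y0), hy0⟩ ≤ num * C.m ⟨(x, y), hy⟩ := by exact_mod_cast h1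
    have h3 : (num : ℝ) * C.m ⟨(x, y), hy⟩ ≤ R * den * C.m ⟨(x, y), hy⟩ :=
      mul_le_mul_of_nonneg_right hR (Nat.cast_nonneg _)
    have h4 : (den : ℝ) * C.m ⟨(x, y0), hy0⟩ ≤ den * (R * C.m ⟨(x, y), hy⟩) := by
      calc (den : ℝ) * C.m ⟨(x, y0), hy0⟩ ≤ R * den * C.m ⟨(x, y), hy⟩ := h2.trans h3
        _ = _ := by ring
    exact le_of_mul_le_mul_left h4 hd

/-- The crucial component has a valid decoded witness. -/
theorem component {α2 : ℕ} (z : RatioParam × (A.Inst × List (ℕ × ℕ × ℕ)))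
    (hS : IsTrianglePacking (redF C PK TK UK (alp PK.δ k C.ρ α2) (z.1, z.2.1)) z.2.2)
    (hr : ∀ S', IsTrianglePacking (redF C PK TK UK (alp PK.δ k C.ρ α2) (z.1, z.2.1)) S' →
      (S'.length : ℝ) ≤ (1 + α2 * (((z.1.1 : ℚ) : ℝ) - 1)) * z.2.2.length)
    (hsmall : (α2 : ℝ) * (((z.1.1 : ℚ) : ℝ) - 1) ≤ eps PK.δ k / 2)
    {i : ℕ} (hi : i < Kn C.ρ (alp PK.δ k C.ρ α2) z.1) {y : A.Sol} (hy : A.feasible z.2.1 y)
    (hcond : cond A.isMax (C.m ⟨(z.2.1, y), hy⟩) (C.tval z.2.1) (bb z.1)
      (cc (alp PK.δ k C.ρ α2) z.1) i = true) :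
    (pts C PK TK UK (alp PK.δ k C.ρ α2) z).length = Kn C.ρ (alp PK.δ k C.ρ α2) z.1 ∧
    C.V (wit C PK TK (qry C.ρ (alp PK.δ k C.ρ α2) (z.1, z.2.1) i,
      (pts C PK TK UK (alp PK.δ k C.ρ α2) z).getD i []),
        qry C.ρ (alp PK.δ k C.ρ α2) (z.1, z.2.1) i) = true := by
  set α := alp PK.δ k C.ρ α2 with hα
  set K := Kn C.ρ α z.1 with hKdef
  set zx : RatioParam × A.Inst := (z.1, z.2.1) with hzx
  set Xs := gs C PK TK α zx with hXs
  have hXlen : Xs.length = K := by
    rw [hXs]; unfold gs qs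
    rw [List.length_map, List.length_map, List.length_range]
  have hXi : ∀ j (hj : j < Xs.length), Xs[j] =
      TK.X (PK.G (qry C.ρ α zx j)) (PK.WF (qry C.ρ α zx j)) := by
    intro j hj
    simp only [hXs, gs, qs, List.getElem_map, List.getElem_range]
  have hU : redF C PK TK UK α zx = UK.U Xs := rfl
  rw [hU] at hS hr
  obtain ⟨hp1, hp2, hp3, hp4⟩ := UK.parts Xs z.2.2 hS
  have hpts : UK.P (Xs.map BoundedGraph.matrix, z.2.2) = pts C PK TK UK α z := by
    unfold pts
    rw [hXs, gs_matrix]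
  rw [hpts] at hp1 hp2 hp3 hp4
  refine ⟨by rw [hp1, hXlen], ?_⟩
  -- all components have the same size
  set Q := qry C.ρ α zx with hQ
  set M := k * (PK.G (Q 0)).1.length + (PK.G (Q 0)).2.length with hM
  have hsz : ∀ j ≤ K, (PK.G (Q j)).1.length = (PK.G (Q 0)).1.length ∧
      (PK.G (Q j)).2.length = (PK.G (Q 0)).2.length := by
    intro j hj
    refine PK.sz _ _ (size_qry C.ρ α zx hj) ?_
    rw [C.N_length, C.N_length]
    rfl
  have hpart : ∀ j (hj : j < Xs.length), ((pts C PK TK UK α z).getD j []).length ≤ M := by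
    intro j hj
    have h1 := hp2 j hj
    rw [hXi j hj] at h1
    have h2 := TK.upper _ _ _ h1
    rw [(hsz j (by omega)).1, (hsz j (by omega)).2] at h2
    exact h2
  have hSum : z.2.2.length ≤ K * M := by
    rw [hp3]
    have h1 := List.sum_le_card_nsmul ((pts C PK TK UK α z).map List.length) M (by
      intro n hn
      obtain ⟨l, hl, rfl⟩ := List.mem_map.1 hn
      obtain ⟨j, hj, rfl⟩ := List.getElem_of_mem hl
      have h2 := hpart j (by rw [← hp1]; exact hj)
      rwa [List.getD_eq_getElem _ _ hj] at h2)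
    rw [List.length_map, hp1, hXlen, smul_eq_mul] at h1
    exact h1
  have hi' : i < Xs.length := by rw [hXlen]; exact hi
  -- the component `i` has a perfect packing
  have hsat : ∃ a, viol (PK.G (Q i)).2 a = 0 := by
    have hlen : (Q i).2.2.1.length = i := qry_len C.ρ α zx hi.le
    obtain ⟨w, hw1, hw2⟩ := C.V_complete hy (Q i).2 (by
      rw [hlen]
      exact hcond)
    exact PK.complete (Q i) w hw1 hw2
  obtain ⟨R, hR1, hR2⟩ := TK.complete _ (PK.WF (Q i)) hsat
  rw [← hXi i hi'] at hR1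
  rw [(hsz i hi.le).1, (hsz i hi.le).2] at hR2
  obtain ⟨S', hS'1, hS'2⟩ := hp4 i hi' R hR1
  have h5 := hr S' hS'1
  set Si := (pts C PK TK UK α z).getD i [] with hSi
  have hSiM : Si.length ≤ M := hpart i hi'
  have h6 : ((M - Si.length : ℕ) : ℝ) ≤ α2 * (((z.1.1 : ℚ) : ℝ) - 1) * z.2.2.length := by
    rw [Nat.cast_sub hSiM]
    have h7 : (S'.length : ℝ) + Si.length = z.2.2.length + M := by
      have : S'.length + Si.length = z.2.2.length + M := by rw [hS'2, hR2]
      exact_mod_cast this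
    linarith
  have hβ : 0 ≤ (α2 : ℝ) * (((z.1.1 : ℚ) : ℝ) - 1) := by
    have h8 : (1 : ℝ) ≤ ((z.1.1 : ℚ) : ℝ) := by exact_mod_cast z.1.2.le
    have : 0 ≤ ((z.1.1 : ℚ) : ℝ) - 1 := by linarith
    positivity
  have h9 : ((M - Si.length : ℕ) : ℝ) ≤ eps PK.δ k * M := by
    calc ((M - Si.length : ℕ) : ℝ) ≤ α2 * (((z.1.1 : ℚ) : ℝ) - 1) * z.2.2.length := h6
      _ ≤ α2 * (((z.1.1 : ℚ) : ℝ) - 1) * (K * M) :=
        mul_le_mul_of_nonneg_left (by exact_mod_cast hSum) hβ
      _ = (α2 * (((z.1.1 : ℚ) : ℝ) - 1) * K) * M := by ring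
      _ ≤ eps PK.δ k * M := mul_le_mul_of_nonneg_right
        (small_error PK.δ_pos k C.ρ α2 z.1 hsmall) (Nat.cast_nonneg _)
  -- decoding
  have hPi := hp2 i hi'
  rw [hXi i hi'] at hPi
  have h10 := TK.sound _ _ _ hPi
  rw [(hsz i hi.le).1, (hsz i hi.le).2] at h10
  refine PK.sound (Q i) (TK.g (PK.G (Q i), Si)) ?_
  have hE : (0 : ℝ) < (PK.G (Q i)).2.length := by exact_mod_cast PK.pos (Q i)
  have hMle : (M : ℝ) ≤ (k + 1) * (PK.G (Q i)).2.length := by
    have h11 := PK.le (Q i)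
    rw [(hsz i hi.le).1] at h11
    have h12 : M ≤ (k + 1) * (PK.G (Q i)).2.length := by
      rw [hM, ← (hsz i hi.le).2]
      have := Nat.mul_le_mul_left k h11
      rw [Nat.add_mul, Nat.one_mul]
      omega
    exact_mod_cast h12
  have heps := eps_pos PK.δ_pos k
  have hkd : (k : ℝ) * (k + 1) * eps PK.δ k < PK.δ := by
    have h13 : eps PK.δ k * (k * (k + 1) + 1) = PK.δ := by
      unfold eps
      field_simp
    nlinarith
  have h14 : (viol (PK.G (Q i)).2 (fun n => (TK.g (PK.G (Q i), Si)).getD n 0) : ℝ) ≤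
      k * ((M - Si.length : ℕ) : ℝ) := by exact_mod_cast h10
  calc (viol (PK.G (Q i)).2 (fun n => (TK.g (PK.G (Q i), Si)).getD n 0) : ℝ) ≤
      k * ((M - Si.length : ℕ) : ℝ) := h14
    _ ≤ k * (eps PK.δ k * M) := mul_le_mul_of_nonneg_left h9 (Nat.cast_nonneg _)
    _ ≤ k * (eps PK.δ k * ((k + 1) * (PK.G (Q i)).2.length)) := by
        refine mul_le_mul_of_nonneg_left ?_ (Nat.cast_nonneg _)
        exact mul_le_mul_of_nonneg_left hMle heps.le
    _ = (k * (k + 1) * eps PK.δ k) * (PK.G (Q i)).2.length := by ring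
    _ < PK.δ * (PK.G (Q i)).2.length := mul_lt_mul_of_pos_right hkd hE

/-- **The reduction is approximation preserving.** -/
theorem red_ratio {α2 : ℕ} (hα2 : 0 < α2) (r : RatioParam) (x : A.Inst)
    (S : List (ℕ × ℕ × ℕ))
    (hS : IsTrianglePacking (redF C PK TK UK (alp PK.δ k C.ρ α2) (r, x)) S)
    (hr : ∀ S', IsTrianglePacking (redF C PK TK UK (alp PK.δ k C.ρ α2) (r, x)) S' →
      (S'.length : ℝ) ≤ (1 + α2 * (((r.1 : ℚ) : ℝ) - 1)) * S.length) :
    A.RatioAtMost x (redG C PK TK UK (alp PK.δ k C.ρ α2) (r, x, S))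
      (1 + (alp PK.δ k C.ρ α2 : ℕ) * (((r.1 : ℚ) : ℝ) - 1)) := by
  by_cases hsmall : (α2 : ℝ) * (((r.1 : ℚ) : ℝ) - 1) ≤ eps PK.δ k / 2
  · set α := alp PK.δ k C.ρ α2 with hα
    have hαpos : 0 < α := Nat.succ_pos _
    have hab := bb_lt_aa r
    have hcpos : 0 < cc α r := Nat.mul_pos hαpos (by omega)
    have hKc : C.ρ * bb r < Kn C.ρ α r * cc α r := by
      have h := Nat.lt_mul_div_succ (C.ρ * bb r) hcpos
      rw [Nat.mul_comm (cc α r)] at h
      exact h
    -- the best threshold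
    obtain ⟨i, hi, hPi, hPi1⟩ := exists_threshold
      (P := fun i => ∃ (y : A.Sol) (hy : A.feasible x y),
        cond A.isMax (C.m ⟨(x, y), hy⟩) (C.tval x) (bb r) (cc α r) i = true)
      (K := Kn C.ρ α r) ⟨C.T x, C.T_feas x, cond_zero _ _ _ _⟩ (by
        rintro ⟨y, hy, hc⟩
        have h1 := C.ratio x y hy
        have h2 := cond_K (mx := A.isMax) (C.m_pos ⟨(x, C.T x), C.T_feas x⟩)
          (C.m_pos ⟨(x, y), hy⟩) hKc h1
        change cond A.isMax _ (C.tval x) _ _ _ = false at h2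
        rw [h2] at hc
        cases hc)
    obtain ⟨y, hy, hcond⟩ := hPi
    obtain ⟨hlen, hV⟩ := component C PK TK UK (r, x, S) hS hr hsmall hi hy hcond
    -- the last valid component
    set Z := (qs C.ρ α (r, x)).zip (pts C PK TK UK α (r, x, S)) with hZ
    have hqlen : (qs C.ρ α (r, x)).length = Kn C.ρ α r := by
      unfold qs; rw [List.length_map, List.length_range]
    have hZlen : Z.length = Kn C.ρ α r := by
      rw [hZ, List.length_zip, hqlen, hlen, Nat.min_self]
    have hZi : ∀ j (hj : j < Z.length), Z[j] = (qry C.ρ α (r, x) j,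
        (pts C PK TK UK α (r, x, S)).getD j []) := by
      intro j hj
      have hj' : j < (pts C PK TK UK α (r, x, S)).length := by
        rw [hlen]; rw [hZlen] at hj; exact hj
      rw [List.getD_eq_getElem _ _ hj']
      simp only [hZ, List.getElem_zip, qs, List.getElem_map, List.getElem_range]
    have hiZ : i < Z.length := by rw [hZlen]; exact hi
    obtain ⟨j, hj, hij, hfind, _⟩ := find?_reverse_last Z
      (fun p => C.V (wit C PK TK p, p.1)) i hiZ (by rw [hZi i hiZ]; exact hV)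
    have hlast : lastOk C PK TK UK α (r, x, S) = some Z[j] := hfind
    have hjK : j ≤ Kn C.ρ α r := by rw [← hZlen]; exact hj.le
    have hout := out_some C PK TK UK α (r, x, S) hlast hjK (by rw [hZi j hj])
    refine ratio_of_cmp C (redG_feasible C PK TK UK α (r, x, S)) (num := bb r + cc α r)
      (den := bb r) (bb_pos r) ?_ fun y' hy' => ?_
    · have hb : (0 : ℝ) < bb r := by exact_mod_cast bb_pos r
      rw [ratio_eq]
      unfold cc
      push_cast
      rw [add_div, div_self hb.ne', mul_div_assoc]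
    · have hnot : cond A.isMax (C.m ⟨(x, y'), hy'⟩) (C.tval x) (bb r) (cc α r) (i + 1) = false := by
        rw [← Bool.not_eq_true]
        exact fun h => hPi1 ⟨y', hy', h⟩
      exact cond_ratio (bb_pos r) hij hout hnot
  · have hlarge := large_ratio PK.δ_pos k C.ρ α2 hα2 r (not_le.1 hsmall)
    refine ratio_of_cmp C (redG_feasible C PK TK UK _ (r, x, S)) (num := C.ρ) (den := 1)
      Nat.one_pos ?_ fun y' hy' => out_weak C PK TK UK _ (r, x, S) y' hy'
    rw [Nat.cast_one, div_one]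
    exact hlarge

end main

end Pool.Agent.PCP
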