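import Mathlib

/-!
The long code test: BLR linearity testing by self-correction, then multiplicativity.
-/

namespace Pool.Agent.PCP

open Finset BigOperators

/-- indicator -/
noncomputable def ind (p : Prop) [Decidable p] : ℝ := if p then 1 else 0

/-- average over a finite type -/
noncomputable def avg {X : Type} [Fintype X] (f : X → ℝ) : ℝ := (∑ x, f x) / Fintype.card X

theorem ind_nonneg (p : Prop) [Decidable p] : 0 ≤ ind p := by
  unfold ind; split_ifs <;> norm_num

theorem ind_true {p : Prop} [Decidable p] (h : p) : ind p = 1 := by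
  unfold ind; rw [if_pos h]

theorem ind_false {p : Prop} [Decidable p] (h : ¬ p) : ind p = 0 := by
  unfold ind; rw [if_neg h]

theorem ind_le_one (p : Prop) [Decidable p] : ind p ≤ 1 := by
  unfold ind; split_ifs <;> norm_num

section Avg
variable {X : Type} [Fintype X]

theorem avg_mono {f g : X → ℝ} (h : ∀ x, f x ≤ g x) : avg f ≤ avg g := by
  unfold avg
  apply div_le_div_of_nonneg_right _ (Nat.cast_nonneg _)
  exact Finset.sum_le_sum fun x _ => h x

theorem avg_add (f g : X → ℝ) : avg (fun x => f x + g x) = avg f + avg g := by
  unfold avg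
  rw [Finset.sum_add_distrib, add_div]

theorem avg_const [Nonempty X] (c : ℝ) : avg (fun _ : X => c) = c := by
  unfold avg
  rw [Finset.sum_const, Finset.card_univ, nsmul_eq_mul]
  have : (Fintype.card X : ℝ) ≠ 0 := by exact_mod_cast Fintype.card_ne_zero
  field_simp

theorem avg_const_mul (c : ℝ) (f : X → ℝ) : avg (fun x => c * f x) = c * avg f := by
  unfold avg
  rw [← Finset.mul_sum, mul_div_assoc]

theorem avg_mul_const (c : ℝ) (f : X → ℝ) : avg (fun x => f x * c) = avg f * c := by
  unfold avg
  rw [← Finset.sum_mul, div_mul_eq_mul_div]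

theorem avg_equiv (e : X ≃ X) (f : X → ℝ) : avg (fun x => f (e x)) = avg f := by
  unfold avg
  rw [Equiv.sum_comp e f]

theorem avg_comm {Y : Type} [Fintype Y] (f : X → Y → ℝ) :
    avg (fun x => avg fun y => f x y) = avg (fun y => avg fun x => f x y) := by
  unfold avg
  rw [← Finset.sum_div, ← Finset.sum_div, Finset.sum_comm, div_div, div_div, mul_comm]

theorem avg_nonneg {f : X → ℝ} (h : ∀ x, 0 ≤ f x) : 0 ≤ avg f := by
  unfold avg
  exact div_nonneg (Finset.sum_nonneg fun x _ => h x) (Nat.cast_nonneg _)

/-- If the average of `f` is less than one and `f` counts at least one failure at every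
point outside a set, then the set is nonempty. -/
theorem exists_of_avg_lt [Nonempty X] {f : X → ℝ} {c : ℝ} (h : avg f < c) : ∃ x, f x < c := by
  by_contra hcon
  push Not at hcon
  have := avg_mono (X := X) (f := fun _ => c) (g := f) hcon
  rw [avg_const] at this
  linarith

end Avg

/-- pointwise xor -/
def xr {Z : Type} (f g : Z → Bool) : Z → Bool := fun z => xor (f z) (g z)

theorem xr_comm {Z : Type} (f g : Z → Bool) : xr f g = xr g f := by
  funext z; simp [xr, Bool.xor_comm]

theorem xr_assoc {Z : Type} (f g h : Z → Bool) : xr (xr f g) h = xr f (xr g h) := by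
  funext z; simp [xr]

theorem xr_self_left {Z : Type} (f g : Z → Bool) : xr f (xr f g) = g := by
  funext z; simp [xr]

/-- translation -/
def tr {Z : Type} (a : Z → Bool) : (Z → Bool) ≃ (Z → Bool) where
  toFun f := xr a f
  invFun f := xr a f
  left_inv f := xr_self_left a f
  right_inv f := xr_self_left a f

theorem avg_tr {Z : Type} [Fintype Z] [DecidableEq Z] (a : Z → Bool) (φ : (Z → Bool) → ℝ) :
    avg (fun f => φ (xr a f)) = avg φ := avg_equiv (tr a) φ

section BLR

variable {Z : Type} [Fintype Z] [DecidableEq Z] (A : (Z → Bool) → Bool)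

/-- majority vote of `A (x + y) + A y` -/
noncomputable def maj (x : Z → Bool) : Bool :=
  if (1 / 2 : ℝ) ≤ avg (fun y => ind (xor (A (xr x y)) (A y) = true)) then true else false

theorem blr_collision {δ : ℝ}
    (h1 : avg (fun f => avg fun g => ind (xor (A f) (A g) ≠ A (xr f g))) ≤ δ) (x : Z → Bool) :
    avg (fun y => avg fun z => ind (xor (A (xr x y)) (A y) ≠ xor (A (xr x z)) (A z))) ≤ 2 * δ := by
  have e1 : avg (fun y => avg fun z => ind (xor (A (xr x y)) (A (xr x z)) ≠ A (xr (xr x y) (xr x z))))
      ≤ δ := by
    have := avg_tr x (fun f => avg fun g => ind (xor (A f) (A g) ≠ A (xr f g)))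
    rw [← this] at h1
    refine le_trans (le_of_eq ?_) h1
    congr 1
    funext y
    exact avg_tr x (fun g => ind (xor (A (xr x y)) (A g) ≠ A (xr (xr x y) g)))
  have e2 : ∀ y z : Z → Bool, xr (xr x y) (xr x z) = xr y z := by
    intro y z; funext t; simp only [xr]
    cases x t <;> cases y t <;> cases z t <;> rfl
  have e3 : avg (fun y => avg fun z => ind (xor (A (xr x y)) (A y) ≠ xor (A (xr x z)) (A z))) ≤
      avg (fun y => (avg fun z => ind (xor (A (xr x y)) (A (xr x z)) ≠ A (xr (xr x y) (xr x z)))) +
        avg fun z => ind (xor (A y) (A z) ≠ A (xr y z))) := by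
    apply avg_mono
    intro y
    rw [← avg_add]
    apply avg_mono
    intro z
    rw [e2]
    generalize A (xr x y) = a
    generalize A (xr x z) = b
    generalize A y = c
    generalize A z = d
    generalize A (xr y z) = e
    cases a <;> cases b <;> cases c <;> cases d <;> cases e <;> simp [ind]
  rw [avg_add] at e3
  linarith

theorem blr_maj {δ : ℝ}
    (h1 : avg (fun f => avg fun g => ind (xor (A f) (A g) ≠ A (xr f g))) ≤ δ) (x : Z → Bool) :
    avg (fun y => ind (maj A x ≠ xor (A (xr x y)) (A y))) ≤ 2 * δ := by
  have hc := blr_collision A h1 x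
  set V : (Z → Bool) → Bool := fun y => xor (A (xr x y)) (A y) with hV
  set p : ℝ := avg (fun y => ind (V y = true)) with hp
  have hq : avg (fun y => ind (V y = false)) = 1 - p := by
    have : avg (fun y => ind (V y = true) + ind (V y = false)) = 1 := by
      have h : (fun y => ind (V y = true) + ind (V y = false)) = fun _ => (1 : ℝ) := by
        funext y
        cases V y <;> simp [ind]
      rw [h, avg_const]
    rw [avg_add] at this
    linarith
  have hp0 : 0 ≤ p := avg_nonneg fun y => ind_nonneg _
  have hp1 : 0 ≤ 1 - p := by rw [← hq]; exact avg_nonneg fun y => ind_nonneg _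
  have hcol : avg (fun y => avg fun z => ind (V y ≠ V z)) = 2 * p * (1 - p) := by
    have h : (fun y => avg fun z => ind (V y ≠ V z)) =
        fun y => ind (V y = true) * (1 - p) + ind (V y = false) * p := by
      funext y
      cases hy : V y
      · have h' : (fun z => ind ((false : Bool) ≠ V z)) = fun z => ind (V z = true) := by
          funext z; cases V z <;> simp [ind]
        rw [h']
        simp [ind] at *
        rfl
      · have h' : (fun z => ind ((true : Bool) ≠ V z)) = fun z => ind (V z = false) := by
          funext z; cases V z <;> simp [ind]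
        rw [h', hq]
        simp [ind]
    rw [h, avg_add, avg_mul_const, avg_mul_const, hq]
    change p * (1 - p) + (1 - p) * p = _
    ring
  have hc' : 2 * p * (1 - p) ≤ 2 * δ := by rw [← hcol]; exact hc
  by_cases hcase : (1 / 2 : ℝ) ≤ p
  · have hm : maj A x = true := by
      unfold maj
      rw [if_pos]
      exact hcase
    rw [hm]
    have h' : (fun y => ind ((true : Bool) ≠ xor (A (xr x y)) (A y))) = fun y => ind (V y = false) := by
      funext y
      change ind ((true : Bool) ≠ V y) = _
      cases V y <;> simp [ind]
    rw [h', hq]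
    nlinarith
  · have hm : maj A x = false := by
      unfold maj
      rw [if_neg]
      exact hcase
    rw [hm]
    have h' : (fun y => ind ((false : Bool) ≠ xor (A (xr x y)) (A y))) = fun y => ind (V y = true) := by
      funext y
      change ind ((false : Bool) ≠ V y) = _
      cases V y <;> simp [ind]
    rw [h']
    change p ≤ _
    push Not at hcase
    nlinarith

/-- self-correction gives an additive function -/
theorem maj_add {δ : ℝ} (hδ : 6 * δ < 1)
    (h1 : avg (fun f => avg fun g => ind (xor (A f) (A g) ≠ A (xr f g))) ≤ δ) (x x' : Z → Bool) :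
    maj A (xr x x') = xor (maj A x) (maj A x') := by
  have a1 := blr_maj A h1 x
  have a2 := blr_maj A h1 x'
  have a3 := blr_maj A h1 (xr x x')
  rw [← avg_tr x] at a2
  have key : avg (fun y => (ind (maj A x ≠ xor (A (xr x y)) (A y)) +
      ind (maj A x' ≠ xor (A (xr x' (xr x y))) (A (xr x y)))) +
      ind (maj A (xr x x') ≠ xor (A (xr (xr x x') y)) (A y))) < 1 := by
    rw [avg_add, avg_add]
    linarith
  obtain ⟨y, hy⟩ := exists_of_avg_lt key
  have e : xr x' (xr x y) = xr (xr x x') y := by
    funext t; simp only [xr]
    cases x t <;> cases x' t <;> cases y t <;> rfl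
  rw [e] at hy
  revert hy
  generalize maj A x = a
  generalize maj A x' = b
  generalize maj A (xr x x') = c
  generalize A (xr x y) = u
  generalize A (xr (xr x x') y) = v
  generalize A y = w
  cases a <;> cases b <;> cases c <;> cases u <;> cases v <;> cases w <;> simp [ind]

theorem maj_close {δ : ℝ}
    (h1 : avg (fun f => avg fun g => ind (xor (A f) (A g) ≠ A (xr f g))) ≤ δ) :
    avg (fun x => ind (A x ≠ maj A x)) ≤ 3 * δ := by
  have a1 : avg (fun x => avg fun y => ind (maj A x ≠ xor (A (xr x y)) (A y))) ≤ 2 * δ := by
    refine le_trans (avg_mono fun x => blr_maj A h1 x) ?_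
    rw [avg_const]
  have h1' := h1
  have a2 : avg (fun x => ind (A x ≠ maj A x)) ≤
      avg (fun x => avg (fun y => ind (xor (A x) (A y) ≠ A (xr x y))) +
        avg fun y => ind (maj A x ≠ xor (A (xr x y)) (A y))) := by
    apply avg_mono
    intro x
    rw [← avg_add]
    have := avg_const (X := Z → Bool) (ind (A x ≠ maj A x))
    rw [← this]
    apply avg_mono
    intro y
    generalize maj A x = a
    generalize A x = b
    generalize A (xr x y) = c
    generalize A y = d
    cases a <;> cases b <;> cases c <;> cases d <;> simp [ind]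
  rw [avg_add] at a2
  linarith

end BLR

section Mult

variable {Z : Type} [Fintype Z] [DecidableEq Z]

/-- pointwise and -/
def an (f g : Z → Bool) : Z → Bool := fun z => f z && g z

theorem mult_of_close (l : (Z → Bool) → Bool)
    (hadd : ∀ x y, l (xr x y) = xor (l x) (l y))
    (h : avg (fun f => avg fun g => ind (l (an f g) ≠ (l f && l g))) < 1 / 4) (f g : Z → Bool) :
    l (an f g) = (l f && l g) := by
  by_contra hne
  have key : (1 : ℝ) ≤ avg (fun f' => avg fun g' =>
      ind (l (an f' g') ≠ (l f' && l g')) + ind (l (an (xr f f') g') ≠ (l (xr f f') && l g')) +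
      (ind (l (an f' (xr g g')) ≠ (l f' && l (xr g g'))) +
       ind (l (an (xr f f') (xr g g')) ≠ (l (xr f f') && l (xr g g'))))) := by
    have h1 : (1 : ℝ) = avg (fun _ : Z → Bool => avg fun _ : Z → Bool => (1 : ℝ)) := by
      rw [avg_const, avg_const]
    conv_lhs => rw [h1]
    apply avg_mono
    intro f'
    apply avg_mono
    intro g'
    have e1 : an (xr f f') g' = xr (an f g') (an f' g') := by
      funext t; simp only [xr, an]; cases f t <;> cases f' t <;> cases g' t <;> rfl
    have e2 : an f' (xr g g') = xr (an f' g) (an f' g') := by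
      funext t; simp only [xr, an]; cases f' t <;> cases g t <;> cases g' t <;> rfl
    have e3 : an (xr f f') (xr g g') =
        xr (xr (an f g) (an f g')) (xr (an f' g) (an f' g')) := by
      funext t; simp only [xr, an]
      cases f t <;> cases f' t <;> cases g t <;> cases g' t <;> rfl
    rw [e1, e2, e3]
    simp only [hadd]
    revert hne
    generalize l (an f g) = a1
    generalize l (an f g') = a2
    generalize l (an f' g) = a3
    generalize l (an f' g') = a4
    generalize l f = b1
    generalize l f' = b2
    generalize l g = b3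
    generalize l g' = b4
    intro hne
    by_contra hlt
    push Not at hlt
    revert hlt hne
    cases a1 <;> cases a2 <;> cases a3 <;> cases a4 <;> cases b1 <;> cases b2 <;> cases b3 <;>
      cases b4 <;> simp [ind]
  have t1 : avg (fun f' => avg fun g' => ind (l (an (xr f f') g') ≠ (l (xr f f') && l g'))) =
      avg (fun f => avg fun g => ind (l (an f g) ≠ (l f && l g))) :=
    avg_tr f (fun f' => avg fun g' => ind (l (an f' g') ≠ (l f' && l g')))
  have t2 : avg (fun f' => avg fun g' => ind (l (an f' (xr g g')) ≠ (l f' && l (xr g g')))) =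
      avg (fun f => avg fun g => ind (l (an f g) ≠ (l f && l g))) := by
    congr 1
    funext f'
    exact avg_tr g (fun g' => ind (l (an f' g') ≠ (l f' && l g')))
  have t3 : avg (fun f' => avg fun g' =>
      ind (l (an (xr f f') (xr g g')) ≠ (l (xr f f') && l (xr g g')))) =
      avg (fun f => avg fun g => ind (l (an f g) ≠ (l f && l g))) := by
    rw [avg_tr f (fun f' => avg fun g' => ind (l (an f' (xr g g')) ≠ (l f' && l (xr g g')))), t2]
  simp only [avg_add] at key
  rw [t1, t2, t3] at key
  linarith

theorem eval_of_mult (l : (Z → Bool) → Bool)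
    (hadd : ∀ x y, l (xr x y) = xor (l x) (l y))
    (hmul : ∀ x y, l (an x y) = (l x && l y)) (R : Z → Bool) (hR : l R = true) :
    ∃ z, R z = true ∧ ∀ f, l f = f z := by
  have h0 : l (fun _ => false) = false := by
    have := hadd (fun _ => false) (fun _ => false)
    simp [xr] at this
    exact this
  have hs : ∀ s : Finset Z, l (fun z => decide (z ∈ s)) = true →
      ∃ z ∈ s, l (fun t => decide (t = z)) = true := by
    intro s
    induction s using Finset.induction_on with
    | empty =>
      intro h
      simp [h0] at h
    | insert a s ha ih =>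
      intro h
      have e : (fun z => decide (z ∈ insert a s)) =
          xr (fun t => decide (t = a)) (fun z => decide (z ∈ s)) := by
        funext t
        simp only [xr, Finset.mem_insert]
        by_cases h1 : t = a
        · subst h1; simp [ha]
        · simp [h1]
      rw [e, hadd] at h
      cases h2 : l (fun t => decide (t = a))
      · rw [h2] at h
        simp at h
        obtain ⟨z, hz, hz'⟩ := ih h
        exact ⟨z, Finset.mem_insert_of_mem hz, hz'⟩
      · exact ⟨a, Finset.mem_insert_self _ _, h2⟩
  have hR' : l (fun z => decide (z ∈ Finset.univ.filter fun z => R z = true)) = true := by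
    have e : (fun z => decide (z ∈ Finset.univ.filter fun z => R z = true)) = R := by
      funext z
      simp
    rw [e, hR]
  obtain ⟨z, hz, hz'⟩ := hs _ hR'
  rw [Finset.mem_filter] at hz
  refine ⟨z, hz.2, ?_⟩
  intro f
  have h1 := hmul f (fun t => decide (t = z))
  rw [hz', Bool.and_true] at h1
  rw [← h1]
  cases hf : f z
  · have : an f (fun t => decide (t = z)) = fun _ => false := by
      funext t
      simp only [an]
      by_cases ht : t = z
      · subst ht; simp [hf]
      · simp [ht]
    rw [this, h0]
  · have : an f (fun t => decide (t = z)) = fun t => decide (t = z) := by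
      funext t
      simp only [an]
      by_cases ht : t = z
      · subst ht; simp [hf]
      · simp [ht]
    rw [this, hz']

end Mult

/-- Long code test. -/
theorem long_code_test {S T : Type} [Fintype S] [Fintype T] [DecidableEq S] [DecidableEq T]
    (R : S × T → Bool) (A : (S × T → Bool) → Bool) (B₁ : (S → Bool) → Bool)
    (B₂ : (T → Bool) → Bool)
    (h1 : avg (fun f => avg fun g => ind (xor (A f) (A g) ≠ A (fun z => xor (f z) (g z)))) ≤ 1 / 100)
    (h2 : avg (fun f => avg fun g => avg fun h =>
      ind (xor (A fun z => xor (f z && g z) (h z)) (A h) ≠ (A f && A g))) ≤ 1 / 100)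
    (h3 : avg (fun h => ind (xor (A fun z => xor (R z) (h z)) (A h) ≠ true)) ≤ 1 / 100)
    (h4 : avg (fun k => avg fun h => ind (xor (A fun z => xor (k z.1) (h z)) (A h) ≠ B₁ k)) ≤ 1 / 100)
    (h5 : avg (fun k => avg fun h => ind (xor (A fun z => xor (k z.2) (h z)) (A h) ≠ B₂ k)) ≤ 1 / 100) :
    ∃ a b, R (a, b) = true ∧ avg (fun k => ind (B₁ k ≠ k a)) ≤ 1 / 10 ∧
      avg (fun k => ind (B₂ k ≠ k b)) ≤ 1 / 10 := by
  have h1' : avg (fun f => avg fun g => ind (xor (A f) (A g) ≠ A (xr f g))) ≤ 1 / 100 := h1
  have hadd := maj_add A (by norm_num) h1'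
  have hcl := maj_close A h1'
  set l := maj A with hl
  -- the correction lemma : for a fixed `F`, `A (F + h) + A h = l F` with probability 94/100
  have hcor : ∀ F : S × T → Bool,
      avg (fun h => ind (xor (A (xr F h)) (A h) ≠ l F)) ≤ 6 / 100 := by
    intro F
    have e1 : avg (fun h => ind (A (xr F h) ≠ l (xr F h))) ≤ 3 * (1 / 100) := by
      rw [avg_tr F (fun h => ind (A h ≠ l h))]; exact hcl
    have e2 : avg (fun h => ind (xor (A (xr F h)) (A h) ≠ l F)) ≤
        avg (fun h => ind (A (xr F h) ≠ l (xr F h)) + ind (A h ≠ l h)) := by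
      apply avg_mono
      intro h
      rw [hadd F h]
      generalize A (xr F h) = a
      generalize A h = b
      generalize l F = c
      generalize l h = d
      cases a <;> cases b <;> cases c <;> cases d <;> simp [ind]
    rw [avg_add] at e2
    linarith
  -- multiplicativity
  have hmul : ∀ f g, l (an f g) = (l f && l g) := by
    apply mult_of_close l hadd
    have e : avg (fun f => avg fun g => ind (l (an f g) ≠ (l f && l g))) ≤
        avg (fun f => avg fun g => ((avg fun h => ind (xor (A (xr (an f g) h)) (A h) ≠ (A f && A g))) +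
          (avg fun h => ind (xor (A (xr (an f g) h)) (A h) ≠ l (an f g)))) +
          (ind (A f ≠ l f) + ind (A g ≠ l g))) := by
      apply avg_mono
      intro f
      apply avg_mono
      intro g
      rw [← avg_add]
      have c1 := avg_const (X := S × T → Bool) (ind (l (an f g) ≠ (l f && l g)))
      have c2 := avg_const (X := S × T → Bool) (ind (A f ≠ l f) + ind (A g ≠ l g))
      rw [← c1, ← c2, ← avg_add]
      apply avg_mono
      intro h
      generalize A (xr (an f g) h) = a1
      generalize A h = a2
      generalize A f = a3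
      generalize A g = a4
      generalize l (an f g) = b1
      generalize l f = b2
      generalize l g = b3
      cases a1 <;> cases a2 <;> cases a3 <;> cases a4 <;> cases b1 <;> cases b2 <;> cases b3 <;>
        simp [ind] <;> norm_num
    simp only [avg_add] at e
    have f1 : avg (fun f => avg fun g => avg fun h =>
        ind (xor (A (xr (an f g) h)) (A h) ≠ (A f && A g))) ≤ 1 / 100 := h2
    have f2 : avg (fun f => avg fun g => avg fun h =>
        ind (xor (A (xr (an f g) h)) (A h) ≠ l (an f g))) ≤ 6 / 100 := by
      have := avg_mono (X := S × T → Bool)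
        (f := fun f => avg fun g => avg fun h => ind (xor (A (xr (an f g) h)) (A h) ≠ l (an f g)))
        (g := fun _ => 6 / 100) (fun f => by
          have := avg_mono (X := S × T → Bool)
            (f := fun g => avg fun h => ind (xor (A (xr (an f g) h)) (A h) ≠ l (an f g)))
            (g := fun _ => 6 / 100) (fun g => hcor (an f g))
          rw [avg_const] at this
          exact this)
      rw [avg_const] at this
      exact this
    have f3 : avg (fun f : S × T → Bool => avg fun _ : S × T → Bool => ind (A f ≠ l f)) ≤
        3 * (1 / 100) := by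
      simp only [avg_const]
      exact hcl
    have f4 : avg (fun _ : S × T → Bool => avg fun g : S × T → Bool => ind (A g ≠ l g)) ≤
        3 * (1 / 100) := by
      rw [avg_const]
      exact hcl
    linarith
  -- `l R = true`
  have hR : l R = true := by
    have e := hcor R
    have f : avg (fun h => ind (xor (A (xr R h)) (A h) ≠ true)) ≤ 1 / 100 := h3
    have key : avg (fun h => ind (xor (A (xr R h)) (A h) ≠ l R) +
        ind (xor (A (xr R h)) (A h) ≠ true)) < 1 := by
      rw [avg_add]; linarith
    obtain ⟨h, hh⟩ := exists_of_avg_lt key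
    revert hh
    generalize A (xr R h) = a
    generalize A h = b
    generalize l R = c
    cases a <;> cases b <;> cases c <;> simp [ind]
  obtain ⟨⟨a, b⟩, hz, hev⟩ := eval_of_mult l hadd hmul R hR
  refine ⟨a, b, hz, ?_, ?_⟩
  · have e : avg (fun k => ind (B₁ k ≠ k a)) ≤
        avg (fun k : S → Bool => (avg fun h => ind (xor (A (xr (fun z => k z.1) h)) (A h) ≠ B₁ k)) +
          avg fun h => ind (xor (A (xr (fun z => k z.1) h)) (A h) ≠ l (fun z => k z.1))) := by
      apply avg_mono
      intro k
      rw [← avg_add, ← avg_const (X := S × T → Bool) (ind (B₁ k ≠ k a))]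
      apply avg_mono
      intro h
      rw [hev (fun z => k z.1)]
      generalize A (xr (fun z => k z.1) h) = a1
      generalize A h = a2
      generalize B₁ k = a3
      change ind (a3 ≠ k a) ≤ ind (xor a1 a2 ≠ a3) + ind (xor a1 a2 ≠ k a)
      generalize k a = a4
      cases a1 <;> cases a2 <;> cases a3 <;> cases a4 <;> simp [ind]
    rw [avg_add] at e
    have f1 : avg (fun k => avg fun h =>
        ind (xor (A (xr (fun z => k z.1) h)) (A h) ≠ B₁ k)) ≤ 1 / 100 := h4
    have f2 : avg (fun k : S → Bool => avg fun h =>
        ind (xor (A (xr (fun z : S × T => k z.1) h)) (A h) ≠ l (fun z => k z.1))) ≤ 6 / 100 := by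
      have := avg_mono (X := S → Bool)
        (f := fun k => avg fun h =>
          ind (xor (A (xr (fun z : S × T => k z.1) h)) (A h) ≠ l (fun z => k z.1)))
        (g := fun _ => 6 / 100) (fun k => hcor (fun z => k z.1))
      rw [avg_const] at this
      exact this
    linarith
  · have e : avg (fun k => ind (B₂ k ≠ k b)) ≤
        avg (fun k : T → Bool => (avg fun h => ind (xor (A (xr (fun z => k z.2) h)) (A h) ≠ B₂ k)) +
          avg fun h => ind (xor (A (xr (fun z => k z.2) h)) (A h) ≠ l (fun z => k z.2))) := by
      apply avg_mono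
      intro k
      rw [← avg_add, ← avg_const (X := S × T → Bool) (ind (B₂ k ≠ k b))]
      apply avg_mono
      intro h
      rw [hev (fun z => k z.2)]
      generalize A (xr (fun z => k z.2) h) = a1
      generalize A h = a2
      generalize B₂ k = a3
      change ind (a3 ≠ k b) ≤ ind (xor a1 a2 ≠ a3) + ind (xor a1 a2 ≠ k b)
      generalize k b = a4
      cases a1 <;> cases a2 <;> cases a3 <;> cases a4 <;> simp [ind]
    rw [avg_add] at e
    have f1 : avg (fun k => avg fun h =>
        ind (xor (A (xr (fun z => k z.2) h)) (A h) ≠ B₂ k)) ≤ 1 / 100 := h5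
    have f2 : avg (fun k : T → Bool => avg fun h =>
        ind (xor (A (xr (fun z : S × T => k z.2) h)) (A h) ≠ l (fun z => k z.2))) ≤ 6 / 100 := by
      have := avg_mono (X := T → Bool)
        (f := fun k => avg fun h =>
          ind (xor (A (xr (fun z : S × T => k z.2) h)) (A h) ≠ l (fun z => k z.2)))
        (g := fun _ => 6 / 100) (fun k => hcor (fun z => k z.2))
      rw [avg_const] at this
      exact this
    linarith

end Pool.Agent.PCP
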