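import Pool.Agent.Lib.PCP.MggAux

/-!
The Poincare inequality for the Margulis-Gabber-Galil expander: Fourier analysis.
-/

namespace Pool.Agent.PCP

open Finset

namespace Mgg

variable {M : ℕ} [NeZero M]

/-- the characters. -/
noncomputable def ch (a z : ZMod M × ZMod M) : ℂ := ZMod.stdAddChar (a.1 * z.1 + a.2 * z.2)

/-- the Fourier transform. -/
noncomputable def ft (G : ZMod M × ZMod M → ℝ) (a : ZMod M × ZMod M) : ℂ :=
  ∑ z, (G z : ℂ) * ch a z

theorem ch_sum (t : ZMod M × ZMod M) :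
    ∑ a, ch a t = if t = 0 then (M : ℂ) ^ 2 else 0 := by
  have h1 : ∑ a : ZMod M × ZMod M, ch a t =
      (∑ x : ZMod M, ZMod.stdAddChar (x * t.1)) * (∑ x : ZMod M, ZMod.stdAddChar (x * t.2)) := by
    rw [Finset.sum_mul_sum, ← Finset.univ_product_univ, Finset.sum_product]
    refine Finset.sum_congr rfl fun x _ => Finset.sum_congr rfl fun y _ => ?_
    unfold ch
    rw [AddChar.map_add_eq_mul]
  rw [h1, AddChar.sum_mulShift _ (ZMod.isPrimitive_stdAddChar M),
    AddChar.sum_mulShift _ (ZMod.isPrimitive_stdAddChar M), ZMod.card]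
  by_cases h2 : t.1 = 0
  · by_cases h3 : t.2 = 0
    · have : t = 0 := Prod.ext h2 h3
      rw [if_pos h2, if_pos h3, if_pos this, sq]
    · have : t ≠ 0 := fun h => h3 (by rw [h]; rfl)
      rw [if_pos h2, if_neg h3, if_neg this]
      simp
  · have : t ≠ 0 := fun h => h2 (by rw [h]; rfl)
    rw [if_neg h2, if_neg this]
    simp

theorem ch_conj (a z : ZMod M × ZMod M) : (starRingEnd ℂ) (ch a z) = ch a (-z) := by
  unfold ch
  rw [← AddChar.map_neg_eq_conj]
  congr 1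
  simp only [Prod.fst_neg, Prod.snd_neg]
  ring

theorem ch_add (a z w : ZMod M × ZMod M) : ch a (z + w) = ch a z * ch a w := by
  unfold ch
  rw [← AddChar.map_add_eq_mul]
  congr 1
  simp only [Prod.fst_add, Prod.snd_add]
  ring

theorem parseval (G H : ZMod M × ZMod M → ℝ) :
    ∑ a, ft G a * (starRingEnd ℂ) (ft H a) = (M : ℂ) ^ 2 * ((∑ z, G z * H z : ℝ) : ℂ) := by
  have h1 : ∀ a, ft G a * (starRingEnd ℂ) (ft H a) =
      ∑ z, ∑ w, ((G z * H w : ℝ) : ℂ) * ch a (z - w) := by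
    intro a
    unfold ft
    rw [map_sum, Finset.sum_mul_sum]
    refine Finset.sum_congr rfl fun z _ => Finset.sum_congr rfl fun w _ => ?_
    rw [map_mul, Complex.conj_ofReal, ch_conj, sub_eq_add_neg, ch_add]
    push_cast
    ring
  simp only [h1]
  rw [Finset.sum_comm]
  have h2 : ∀ z : ZMod M × ZMod M, ∑ a, ∑ w, ((G z * H w : ℝ) : ℂ) * ch a (z - w) =
      (M : ℂ) ^ 2 * ((G z * H z : ℝ) : ℂ) := by
    intro z
    rw [Finset.sum_comm]
    simp only [← Finset.mul_sum, ch_sum, sub_eq_zero]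
    rw [Finset.sum_eq_single z]
    · rw [if_pos rfl]
      ring
    · intro w _ hw
      rw [if_neg (fun h => hw h.symm), mul_zero]
    · simp
  simp only [h2]
  rw [← Finset.mul_sum, Complex.ofReal_sum]

/-- first family of generators. -/
def eq1 (b : ZMod M) : ZMod M × ZMod M ≃ ZMod M × ZMod M where
  toFun z := (z.1 + 2 * z.2 + b, z.2)
  invFun z := (z.1 - 2 * z.2 - b, z.2)
  left_inv z := by
    apply Prod.ext
    · simp only
      ring
    · rfl
  right_inv z := by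
    apply Prod.ext
    · simp only
      ring
    · rfl

/-- second family of generators. -/
def eq2 (b : ZMod M) : ZMod M × ZMod M ≃ ZMod M × ZMod M where
  toFun z := (z.1, z.2 + 2 * z.1 + b)
  invFun z := (z.1, z.2 - 2 * z.1 - b)
  left_inv z := by
    apply Prod.ext
    · rfl
    · simp only
      ring
  right_inv z := by
    apply Prod.ext
    · rfl
    · simp only
      ring

theorem ft_shift1 (G : ZMod M × ZMod M → ℝ) (b : ZMod M) (a : ZMod M × ZMod M) :
    ft (fun z => G (z.1 + 2 * z.2 + b, z.2)) a =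
      ZMod.stdAddChar (-(a.1 * b)) * ft G (a.1, a.2 - 2 * a.1) := by
  unfold ft
  rw [Finset.mul_sum, ← Equiv.sum_comp (eq1 b) (fun w => ZMod.stdAddChar (-(a.1 * b)) *
    ((G w : ℂ) * ch (a.1, a.2 - 2 * a.1) w))]
  refine Finset.sum_congr rfl fun z _ => ?_
  have h1 : ch a z = ZMod.stdAddChar (-(a.1 * b)) * ch (a.1, a.2 - 2 * a.1) (eq1 b z) := by
    unfold ch
    rw [← AddChar.map_add_eq_mul]
    congr 1
    simp only [eq1, Equiv.coe_fn_mk]
    ring
  rw [h1]
  simp only [eq1, Equiv.coe_fn_mk]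
  ring

theorem ft_shift2 (G : ZMod M × ZMod M → ℝ) (b : ZMod M) (a : ZMod M × ZMod M) :
    ft (fun z => G (z.1, z.2 + 2 * z.1 + b)) a =
      ZMod.stdAddChar (-(a.2 * b)) * ft G (a.1 - 2 * a.2, a.2) := by
  unfold ft
  rw [Finset.mul_sum, ← Equiv.sum_comp (eq2 b) (fun w => ZMod.stdAddChar (-(a.2 * b)) *
    ((G w : ℂ) * ch (a.1 - 2 * a.2, a.2) w))]
  refine Finset.sum_congr rfl fun z _ => ?_
  have h1 : ch a z = ZMod.stdAddChar (-(a.2 * b)) * ch (a.1 - 2 * a.2, a.2) (eq2 b z) := by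
    unfold ch
    rw [← AddChar.map_add_eq_mul]
    congr 1
    simp only [eq2, Equiv.coe_fn_mk]
    ring
  rw [h1]
  simp only [eq2, Equiv.coe_fn_mk]
  ring

theorem norm_one_add (t : ZMod M) : ‖(1 : ℂ) + ZMod.stdAddChar (-t)‖ = 2 * cs t := by
  have hM : (0 : ℝ) < M := by
    have := NeZero.pos M
    exact_mod_cast this
  have hM' : (M : ℂ) ≠ 0 := by
    exact_mod_cast hM.ne'
  set k : ℤ := t.valMinAbs with hk
  have ht : t = ((k : ℤ) : ZMod M) := by rw [hk, ZMod.coe_valMinAbs]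
  have h1 : (ZMod.stdAddChar (-t) : ℂ) = Complex.exp (((-2 * (Real.pi * k / M) : ℝ) : ℂ) *
      Complex.I) := by
    have : -t = (((-k : ℤ)) : ZMod M) := by rw [ht, Int.cast_neg]
    rw [this, ZMod.stdAddChar_coe]
    congr 1
    push_cast
    field_simp
  set θ : ℝ := Real.pi * k / M with hθ
  have h2 : (1 : ℂ) + Complex.exp (((-2 * θ : ℝ) : ℂ) * Complex.I) =
      ((2 * Real.cos θ : ℝ) : ℂ) * Complex.exp (((-θ : ℝ) : ℂ) * Complex.I) := by
    push_cast
    rw [Complex.cos]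
    have e1 : Complex.exp (-2 * (θ : ℂ) * Complex.I) =
        Complex.exp (-(θ : ℂ) * Complex.I) * Complex.exp (-(θ : ℂ) * Complex.I) := by
      rw [← Complex.exp_add]
      congr 1
      ring
    have e2 : Complex.exp ((θ : ℂ) * Complex.I) * Complex.exp (-(θ : ℂ) * Complex.I) = 1 := by
      rw [← Complex.exp_add]
      rw [show (θ : ℂ) * Complex.I + -(θ : ℂ) * Complex.I = 0 by ring, Complex.exp_zero]
    rw [e1]
    linear_combination -e2
  have hcs : cs t = Real.cos θ := by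
    unfold cs na
    rw [← hk, ← Real.cos_abs θ, hθ, abs_div, abs_mul, abs_of_pos Real.pi_pos, abs_of_pos hM,
      Nat.cast_natAbs, Int.cast_abs]
  have hcos : 0 ≤ Real.cos θ := by
    rw [← hcs]
    exact cs_nonneg t
  rw [h1, h2, norm_mul, Complex.norm_exp_ofReal_mul_I, mul_one, Complex.norm_real, hcs,
    Real.norm_eq_abs, abs_of_nonneg (by positivity)]

end Mgg

open Mgg in
/-- Margulis-Gabber-Galil: Poincare inequality. -/
theorem mgg_poincare (M : ℕ) [NeZero M] (G : ZMod M × ZMod M → ℝ) (h0 : ∑ z, G z = 0) :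
    (7 / 10 : ℝ) * ∑ z, G z ^ 2 ≤
      ∑ z : ZMod M × ZMod M, ((G z - G (z.1 + 2 * z.2, z.2)) ^ 2 +
        (G z - G (z.1 + 2 * z.2 + 1, z.2)) ^ 2 +
        (G z - G (z.1, z.2 + 2 * z.1)) ^ 2 + (G z - G (z.1, z.2 + 2 * z.1 + 1)) ^ 2) := by
  have hM : (0 : ℝ) < M := by
    have := NeZero.pos M
    exact_mod_cast this
  -- the bilinear sums
  set S : ℝ := ∑ z : ZMod M × ZMod M, G z * (G (z.1 + 2 * z.2 + 0, z.2) +
    G (z.1 + 2 * z.2 + 1, z.2) + G (z.1, z.2 + 2 * z.1 + 0) + G (z.1, z.2 + 2 * z.1 + 1)) with hS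
  have hsq1 : ∀ b : ZMod M, ∑ z : ZMod M × ZMod M, G (z.1 + 2 * z.2 + b, z.2) ^ 2 =
      ∑ z, G z ^ 2 := fun b => Equiv.sum_comp (eq1 b) (fun z => G z ^ 2)
  have hsq2 : ∀ b : ZMod M, ∑ z : ZMod M × ZMod M, G (z.1, z.2 + 2 * z.1 + b) ^ 2 =
      ∑ z, G z ^ 2 := fun b => Equiv.sum_comp (eq2 b) (fun z => G z ^ 2)
  have hexp : ∑ z : ZMod M × ZMod M, ((G z - G (z.1 + 2 * z.2, z.2)) ^ 2 +
        (G z - G (z.1 + 2 * z.2 + 1, z.2)) ^ 2 +
        (G z - G (z.1, z.2 + 2 * z.1)) ^ 2 + (G z - G (z.1, z.2 + 2 * z.1 + 1)) ^ 2) =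
      8 * ∑ z, G z ^ 2 - 2 * S := by
    have e1 := hsq1 0
    have e2 := hsq1 1
    have e3 := hsq2 0
    have e4 := hsq2 1
    have e5 : ∑ z : ZMod M × ZMod M, ((G z - G (z.1 + 2 * z.2, z.2)) ^ 2 +
        (G z - G (z.1 + 2 * z.2 + 1, z.2)) ^ 2 +
        (G z - G (z.1, z.2 + 2 * z.1)) ^ 2 + (G z - G (z.1, z.2 + 2 * z.1 + 1)) ^ 2) =
        ∑ z : ZMod M × ZMod M, (4 * G z ^ 2 + G (z.1 + 2 * z.2 + 0, z.2) ^ 2 +
          G (z.1 + 2 * z.2 + 1, z.2) ^ 2 + G (z.1, z.2 + 2 * z.1 + 0) ^ 2 +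
          G (z.1, z.2 + 2 * z.1 + 1) ^ 2 - 2 * (G z * (G (z.1 + 2 * z.2 + 0, z.2) +
    G (z.1 + 2 * z.2 + 1, z.2) + G (z.1, z.2 + 2 * z.1 + 0) + G (z.1, z.2 + 2 * z.1 + 1)))) := by
      refine Finset.sum_congr rfl fun z _ => ?_
      simp only [add_zero]
      ring
    rw [e5, Finset.sum_sub_distrib, Finset.sum_add_distrib, Finset.sum_add_distrib,
      Finset.sum_add_distrib, Finset.sum_add_distrib, e1, e2, e3, e4, ← Finset.mul_sum,
      ← Finset.mul_sum, ← hS]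
    ring
  rw [hexp]
  -- Fourier side
  set g : ZMod M × ZMod M → ℝ := fun a => ‖ft G a‖ with hg
  have hg0 : g (0, 0) = 0 := by
    rw [hg]
    simp only
    rw [norm_eq_zero]
    unfold ft ch
    have : ∀ z : ZMod M × ZMod M, (G z : ℂ) * ZMod.stdAddChar
        ((0 : ZMod M) * z.1 + (0 : ZMod M) * z.2) = (G z : ℂ) := by
      intro z
      rw [zero_mul, zero_mul, add_zero, AddChar.map_zero_eq_one, mul_one]
    simp only [this]
    rw [← Complex.ofReal_sum, h0]
    rfl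
  have hpars : ∑ a, g a ^ 2 = (M : ℝ) ^ 2 * ∑ z, G z ^ 2 := by
    have h1 := parseval G G
    have h2 : ∀ a, ft G a * (starRingEnd ℂ) (ft G a) = ((g a ^ 2 : ℝ) : ℂ) := by
      intro a
      rw [Complex.mul_conj, Complex.normSq_eq_norm_sq]
    simp only [h2] at h1
    rw [← Complex.ofReal_sum] at h1
    have h3 : ((∑ a, g a ^ 2 : ℝ) : ℂ) = (((M : ℝ) ^ 2 * ∑ z, G z ^ 2 : ℝ) : ℂ) := by
      rw [h1]
      push_cast
      congr 1
      refine Finset.sum_congr rfl fun z _ => ?_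
      ring
    exact_mod_cast h3
  have hSle : (M : ℝ) ^ 2 * S ≤ ∑ a : ZMod M × ZMod M, (g (a.1, a.2 - 2 * a.1) * (2 * cs a.1) +
      g (a.1 - 2 * a.2, a.2) * (2 * cs a.2)) * g a := by
    have h1 := parseval (fun z => G (z.1 + 2 * z.2 + 0, z.2)) G
    have h2 := parseval (fun z => G (z.1 + 2 * z.2 + 1, z.2)) G
    have h3 := parseval (fun z => G (z.1, z.2 + 2 * z.1 + 0)) G
    have h4 := parseval (fun z => G (z.1, z.2 + 2 * z.1 + 1)) G
    simp only [ft_shift1, ft_shift2] at h1 h2 h3 h4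
    have h5 : (((M : ℝ) ^ 2 * S : ℝ) : ℂ) = ∑ a : ZMod M × ZMod M,
        ((1 + ZMod.stdAddChar (-a.1)) * ft G (a.1, a.2 - 2 * a.1) +
          (1 + ZMod.stdAddChar (-a.2)) * ft G (a.1 - 2 * a.2, a.2)) *
            (starRingEnd ℂ) (ft G a) := by
      have h6 : (((M : ℝ) ^ 2 * S : ℝ) : ℂ) =
          (M : ℂ) ^ 2 * ((∑ z : ZMod M × ZMod M, G (z.1 + 2 * z.2 + 0, z.2) * G z : ℝ) : ℂ) +
          (M : ℂ) ^ 2 * ((∑ z : ZMod M × ZMod M, G (z.1 + 2 * z.2 + 1, z.2) * G z : ℝ) : ℂ) +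
          (M : ℂ) ^ 2 * ((∑ z : ZMod M × ZMod M, G (z.1, z.2 + 2 * z.1 + 0) * G z : ℝ) : ℂ) +
          (M : ℂ) ^ 2 * ((∑ z : ZMod M × ZMod M, G (z.1, z.2 + 2 * z.1 + 1) * G z : ℝ) : ℂ) := by
        rw [← mul_add, ← mul_add, ← mul_add, ← Complex.ofReal_add, ← Complex.ofReal_add,
          ← Complex.ofReal_add, ← Finset.sum_add_distrib, ← Finset.sum_add_distrib,
          ← Finset.sum_add_distrib, Complex.ofReal_mul, Complex.ofReal_pow,
          Complex.ofReal_natCast, hS]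
        congr 2
        refine Finset.sum_congr rfl fun z _ => ?_
        ring
      rw [h6, ← h1, ← h2, ← h3, ← h4, ← Finset.sum_add_distrib, ← Finset.sum_add_distrib,
        ← Finset.sum_add_distrib]
      refine Finset.sum_congr rfl fun a _ => ?_
      rw [mul_zero, mul_zero, neg_zero, mul_one, mul_one, AddChar.map_zero_eq_one]
      ring
    have h7 : (M : ℝ) ^ 2 * S ≤ ‖(((M : ℝ) ^ 2 * S : ℝ) : ℂ)‖ := by
      rw [Complex.norm_real]
      exact le_abs_self _
    refine h7.trans ?_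
    rw [h5]
    refine (norm_sum_le _ _).trans ?_
    apply Finset.sum_le_sum
    intro a _
    rw [norm_mul, RCLike.norm_conj]
    apply mul_le_mul_of_nonneg_right _ (norm_nonneg _)
    refine (norm_add_le _ _).trans ?_
    rw [norm_mul, norm_mul, norm_one_add, norm_one_add]
    apply le_of_eq
    rw [hg]
    ring
  -- weights
  have hw1 : ∑ a : ZMod M × ZMod M, g (a.1, a.2 - 2 * a.1) * (2 * cs a.1) * g a ≤
      ∑ a : ZMod M × ZMod M, cs a.1 * (gam (na a.2) (na (a.2 + 2 * a.1)) +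
        gam (na a.2) (na (a.2 - 2 * a.1))) * g a ^ 2 := by
    have e1 : ∀ a : ZMod M × ZMod M, g (a.1, a.2 - 2 * a.1) * (2 * cs a.1) * g a ≤
        cs a.1 * gam (na a.2) (na (a.2 - 2 * a.1)) * g a ^ 2 +
          cs a.1 * gam (na (a.2 - 2 * a.1)) (na a.2) * g (a.1, a.2 - 2 * a.1) ^ 2 := by
      intro a
      have h1 := two_mul_le_gam (na a.2) (na (a.2 - 2 * a.1)) (g a) (g (a.1, a.2 - 2 * a.1))
      have h2 := mul_le_mul_of_nonneg_left h1 (cs_nonneg a.1)
      calc g (a.1, a.2 - 2 * a.1) * (2 * cs a.1) * g a =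
          cs a.1 * (2 * g a * g (a.1, a.2 - 2 * a.1)) := by ring
        _ ≤ _ := h2
        _ = _ := by ring
    refine (Finset.sum_le_sum fun a _ => e1 a).trans ?_
    rw [Finset.sum_add_distrib]
    have e2 : ∑ a : ZMod M × ZMod M, cs a.1 * gam (na (a.2 - 2 * a.1)) (na a.2) *
        g (a.1, a.2 - 2 * a.1) ^ 2 =
        ∑ a : ZMod M × ZMod M, cs a.1 * gam (na a.2) (na (a.2 + 2 * a.1)) * g a ^ 2 := by
      let e : ZMod M × ZMod M ≃ ZMod M × ZMod M :=
        { toFun := fun z => (z.1, z.2 - 2 * z.1)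
          invFun := fun z => (z.1, z.2 + 2 * z.1)
          left_inv := by
            intro z
            ext <;> simp
          right_inv := by
            intro z
            ext <;> simp }
      rw [← Equiv.sum_comp e (fun a => cs a.1 * gam (na a.2) (na (a.2 + 2 * a.1)) * g a ^ 2)]
      refine Finset.sum_congr rfl fun a _ => ?_
      simp only [e, Equiv.coe_fn_mk, sub_add_cancel]
    rw [e2, ← Finset.sum_add_distrib]
    apply le_of_eq
    refine Finset.sum_congr rfl fun a _ => ?_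
    ring
  have hw2 : ∑ a : ZMod M × ZMod M, g (a.1 - 2 * a.2, a.2) * (2 * cs a.2) * g a ≤
      ∑ a : ZMod M × ZMod M, cs a.2 * (gam (na a.1) (na (a.1 + 2 * a.2)) +
        gam (na a.1) (na (a.1 - 2 * a.2))) * g a ^ 2 := by
    have e1 : ∀ a : ZMod M × ZMod M, g (a.1 - 2 * a.2, a.2) * (2 * cs a.2) * g a ≤
        cs a.2 * gam (na a.1) (na (a.1 - 2 * a.2)) * g a ^ 2 +
          cs a.2 * gam (na (a.1 - 2 * a.2)) (na a.1) * g (a.1 - 2 * a.2, a.2) ^ 2 := by
      intro a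
      have h1 := two_mul_le_gam (na a.1) (na (a.1 - 2 * a.2)) (g a) (g (a.1 - 2 * a.2, a.2))
      have h2 := mul_le_mul_of_nonneg_left h1 (cs_nonneg a.2)
      calc g (a.1 - 2 * a.2, a.2) * (2 * cs a.2) * g a =
          cs a.2 * (2 * g a * g (a.1 - 2 * a.2, a.2)) := by ring
        _ ≤ _ := h2
        _ = _ := by ring
    refine (Finset.sum_le_sum fun a _ => e1 a).trans ?_
    rw [Finset.sum_add_distrib]
    have e2 : ∑ a : ZMod M × ZMod M, cs a.2 * gam (na (a.1 - 2 * a.2)) (na a.1) *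
        g (a.1 - 2 * a.2, a.2) ^ 2 =
        ∑ a : ZMod M × ZMod M, cs a.2 * gam (na a.1) (na (a.1 + 2 * a.2)) * g a ^ 2 := by
      let e : ZMod M × ZMod M ≃ ZMod M × ZMod M :=
        { toFun := fun z => (z.1 - 2 * z.2, z.2)
          invFun := fun z => (z.1 + 2 * z.2, z.2)
          left_inv := by
            intro z
            ext <;> simp
          right_inv := by
            intro z
            ext <;> simp }
      rw [← Equiv.sum_comp e (fun a => cs a.2 * gam (na a.1) (na (a.1 + 2 * a.2)) * g a ^ 2)]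
      refine Finset.sum_congr rfl fun a _ => ?_
      simp only [e, Equiv.coe_fn_mk, sub_add_cancel]
    rw [e2, ← Finset.sum_add_distrib]
    apply le_of_eq
    refine Finset.sum_congr rfl fun a _ => ?_
    ring
  have hfin : (M : ℝ) ^ 2 * S ≤ 73 / 20 * ∑ a, g a ^ 2 := by
    refine hSle.trans ?_
    simp only [add_mul]
    rw [Finset.sum_add_distrib]
    refine (add_le_add hw1 hw2).trans ?_
    rw [← Finset.sum_add_distrib, Finset.mul_sum]
    apply Finset.sum_le_sum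
    intro a _
    rw [← add_mul]
    by_cases ha : a = (0, 0)
    · rw [ha, hg0]
      simp
    · exact mul_le_mul_of_nonneg_right (pointwise a.1 a.2 ha) (sq_nonneg _)
  rw [hpars] at hfin
  have hS' : S ≤ 73 / 20 * ∑ z, G z ^ 2 := by
    have hM2 : (0 : ℝ) < (M : ℝ) ^ 2 := by positivity
    have : (M : ℝ) ^ 2 * S ≤ (M : ℝ) ^ 2 * (73 / 20 * ∑ z, G z ^ 2) := by
      calc (M : ℝ) ^ 2 * S ≤ _ := hfin
        _ = _ := by ring
    exact le_of_mul_le_mul_left this hM2
  linarith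

end Pool.Agent.PCP
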