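import Mathlib

/-!
The Poincare inequality for the Margulis-Gabber-Galil expander.
-/

namespace Pool.Agent.PCP

open Finset

namespace Mgg

variable {M : ℕ} [NeZero M]

/-- absolute value of the representative. -/
def na (t : ZMod M) : ℕ := t.valMinAbs.natAbs

/-- the weights. -/
noncomputable def gam (u v : ℕ) : ℝ := if v < u then 5 / 4 else if u < v then 4 / 5 else 1

theorem gam_nonneg (u v : ℕ) : 0 ≤ gam u v := by
  unfold gam
  split_ifs <;> norm_num

theorem gam_le (u v : ℕ) : gam u v ≤ 5 / 4 := by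
  unfold gam
  split_ifs <;> norm_num

theorem two_mul_le_gam (u v : ℕ) (a b : ℝ) : 2 * a * b ≤ gam u v * a ^ 2 + gam v u * b ^ 2 := by
  unfold gam
  rcases lt_trichotomy u v with h | h | h
  · rw [if_neg (by omega), if_pos h, if_pos h]
    nlinarith [sq_nonneg (4 * a - 5 * b)]
  · rw [if_neg (by omega), if_neg (by omega), if_neg (by omega), if_neg (by omega)]
    nlinarith [sq_nonneg (a - b)]
  · rw [if_pos h, if_neg (by omega), if_pos h]
    nlinarith [sq_nonneg (5 * a - 4 * b)]

theorem rep (t : ZMod M) (k : ℤ) (ht : t = (k : ZMod M)) (hk1 : k < M) (hk2 : -(M : ℤ) < k) :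
    (t.valMinAbs = k ∨ t.valMinAbs = k + M ∨ t.valMinAbs = k - M) ∧
      -(M : ℤ) < 2 * t.valMinAbs ∧ 2 * t.valMinAbs ≤ M := by
  have h1 := ZMod.valMinAbs_mem_Ioc t
  rw [Set.mem_Ioc] at h1
  have h2 : ((t.valMinAbs : ℤ) : ZMod M) = (k : ZMod M) := by
    rw [ZMod.coe_valMinAbs, ht]
  have h3 : ((t.valMinAbs - k : ℤ) : ZMod M) = 0 := by
    rw [Int.cast_sub, h2, sub_self]
  rw [ZMod.intCast_zmod_eq_zero_iff_dvd] at h3
  obtain ⟨j, hj⟩ := h3
  have hM : (0 : ℤ) < M := by
    have := NeZero.pos M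
    exact_mod_cast this
  have hj1 : j < 2 := by
    by_contra h
    push Not at h
    have : (M : ℤ) * 2 ≤ M * j := mul_le_mul_of_nonneg_left h hM.le
    omega
  have hj2 : -2 < j := by
    by_contra h
    push Not at h
    have : (M : ℤ) * j ≤ M * (-2) := mul_le_mul_of_nonneg_left h hM.le
    omega
  refine ⟨?_, by omega, by omega⟩
  have : j = -1 ∨ j = 0 ∨ j = 1 := by omega
  rcases this with rfl | rfl | rfl
  · right; right; omega
  · left; omega
  · right; left; omega

theorem int1 (a b r : ℤ) (M : ℕ) (h : b.natAbs < a.natAbs) (hM : 2 * (a.natAbs + b.natAbs) < M)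
    (hr : r = b + 2 * a ∨ r = b + 2 * a + M ∨ r = b + 2 * a - M) : b.natAbs < r.natAbs := by
  rcases hr with rfl | rfl | rfl <;> omega

theorem int2 (a b r : ℤ) (M : ℕ) (hs : (0 < a ∧ 0 < b) ∨ (a < 0 ∧ b < 0))
    (hM : 2 * (a.natAbs + b.natAbs) < M)
    (hr : r = a + 2 * b ∨ r = a + 2 * b + M ∨ r = a + 2 * b - M) : a.natAbs < r.natAbs := by
  rcases hr with rfl | rfl | rfl <;> omega

theorem int3 (a b r : ℤ) (M : ℕ) (hs : (0 < a ∧ b < 0) ∨ (a < 0 ∧ 0 < b))
    (h : b.natAbs < a.natAbs) (hM : 2 * (a.natAbs + b.natAbs) < M)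
    (hr : r = a + 2 * b ∨ r = a + 2 * b + M ∨ r = a + 2 * b - M)
    (hr1 : -(M : ℤ) < 2 * r) (hr2 : 2 * r ≤ M) : r.natAbs < a.natAbs := by
  rcases hr with rfl | rfl | rfl <;> omega

/-- the case `na q < na p`. -/
theorem case_lt (p q : ZMod M) (h : na q < na p) (hM : 2 * (na p + na q) < M) :
    gam (na q) (na (q + 2 * p)) + gam (na q) (na (q - 2 * p)) +
      (gam (na p) (na (p + 2 * q)) + gam (na p) (na (p - 2 * q))) ≤ 73 / 20 := by
  unfold na at *
  set a := p.valMinAbs with ha
  set b := q.valMinAbs with hb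
  have hp : p = ((a : ℤ) : ZMod M) := by rw [ha, ZMod.coe_valMinAbs]
  have hq : q = ((b : ℤ) : ZMod M) := by rw [hb, ZMod.coe_valMinAbs]
  have r1 := rep (q + 2 * p) (b + 2 * a) (by rw [hp, hq]; push_cast; ring) (by omega) (by omega)
  have r2 := rep (q - 2 * p) (b + 2 * (-a)) (by rw [hp, hq]; push_cast; ring)
    (by omega) (by omega)
  have r3 := rep (p + 2 * q) (a + 2 * b) (by rw [hp, hq]; push_cast; ring) (by omega) (by omega)
  have r4 := rep (p - 2 * q) (a + 2 * (-b)) (by rw [hp, hq]; push_cast; ring)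
    (by omega) (by omega)
  have h1 := int1 a b _ M h hM r1.1
  have h2 := int1 (-a) b _ M (by rwa [Int.natAbs_neg]) (by rwa [Int.natAbs_neg]) r2.1
  have g1 : gam b.natAbs (q + 2 * p).valMinAbs.natAbs = 4 / 5 := by
    unfold gam
    rw [if_neg (by omega), if_pos h1]
  have g2 : gam b.natAbs (q - 2 * p).valMinAbs.natAbs = 4 / 5 := by
    unfold gam
    rw [if_neg (by omega), if_pos h2]
  rw [g1, g2]
  by_cases hb0 : b = 0
  · have hq0 : q = 0 := by
      rw [hq, hb0, Int.cast_zero]
    have h3 : (p + 2 * q).valMinAbs.natAbs = a.natAbs := by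
      rw [hq0, mul_zero, add_zero]
    have h4 : (p - 2 * q).valMinAbs.natAbs = a.natAbs := by
      rw [hq0, mul_zero, sub_zero]
    rw [h3, h4]
    unfold gam
    rw [if_neg (lt_irrefl _), if_neg (lt_irrefl _)]
    norm_num
  · have hfin : ∀ t w : ℕ, t < a.natAbs → a.natAbs < w → 4 / 5 + 4 / 5 +
        (gam a.natAbs t + gam a.natAbs w) ≤ 73 / 20 := by
      intro t w ht hw
      unfold gam
      rw [if_pos ht, if_neg (by omega), if_pos hw]
      norm_num
    have hsign : ((0 < a ∧ 0 < b) ∨ (a < 0 ∧ b < 0)) ∨ ((0 < a ∧ b < 0) ∨ (a < 0 ∧ 0 < b)) := by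
      omega
    rcases hsign with hs | hs
    · have h6 := int2 a b _ M hs hM r3.1
      have h7 := int3 a (-b) _ M (by omega) (by rwa [Int.natAbs_neg]) (by rwa [Int.natAbs_neg])
        r4.1 r4.2.1 r4.2.2
      have := hfin _ _ h7 h6
      linarith
    · have h6 := int3 a b _ M hs h hM r3.1 r3.2.1 r3.2.2
      have h7 := int2 a (-b) _ M (by omega) (by rwa [Int.natAbs_neg]) r4.1
      have := hfin _ _ h6 h7
      linarith

/-- the case `na q = na p`. -/
theorem case_eq (p q : ZMod M) (h : na q = na p) (h0 : p ≠ 0) (hM : 2 * (na p + na q) < M) :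
    gam (na q) (na (q + 2 * p)) + gam (na q) (na (q - 2 * p)) ≤ 9 / 5 := by
  unfold na at *
  set a := p.valMinAbs with ha
  set b := q.valMinAbs with hb
  have ha0 : a ≠ 0 := by
    rw [ha]
    exact fun h => h0 ((ZMod.valMinAbs_eq_zero p).mp h)
  have hp : p = ((a : ℤ) : ZMod M) := by rw [ha, ZMod.coe_valMinAbs]
  have hq : q = ((b : ℤ) : ZMod M) := by rw [hb, ZMod.coe_valMinAbs]
  have r1 := rep (q + 2 * p) (b + 2 * a) (by rw [hp, hq]; push_cast; ring) (by omega) (by omega)
  have r2 := rep (q - 2 * p) (b - 2 * a) (by rw [hp, hq]; push_cast; ring) (by omega) (by omega)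
  set r := (q + 2 * p).valMinAbs
  set s := (q - 2 * p).valMinAbs
  have h5 : (r.natAbs = b.natAbs ∧ b.natAbs < s.natAbs) ∨
      (s.natAbs = b.natAbs ∧ b.natAbs < r.natAbs) := by omega
  rcases h5 with ⟨h6, h7⟩ | ⟨h6, h7⟩
  · rw [h6]
    unfold gam
    rw [if_neg (by omega), if_neg (by omega), if_neg (by omega), if_pos h7]
    norm_num
  · rw [h6]
    unfold gam
    rw [if_neg (by omega), if_pos h7, if_neg (by omega), if_neg (by omega)]
    norm_num

/-- the cosine factor. -/
noncomputable def cs (t : ZMod M) : ℝ := Real.cos (Real.pi * (na t : ℝ) / M)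

theorem na_le (t : ZMod M) : 2 * na t ≤ M := by
  have := ZMod.natAbs_valMinAbs_le t
  unfold na
  omega

theorem cs_nonneg (t : ZMod M) : 0 ≤ cs t := by
  have hM : (0 : ℝ) < M := by
    have := NeZero.pos M
    exact_mod_cast this
  have h1 : 2 * (na t : ℝ) ≤ M := by exact_mod_cast na_le t
  apply Real.cos_nonneg_of_neg_pi_div_two_le_of_le
  · have : 0 ≤ Real.pi * (na t : ℝ) / M := by positivity
    have := Real.pi_pos
    linarith
  · rw [div_le_div_iff₀ hM (by norm_num)]
    have := Real.pi_pos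
    nlinarith

theorem cs_le_one (t : ZMod M) : cs t ≤ 1 := Real.cos_le_one _

theorem cs_add_le (p q : ZMod M) (h : M ≤ 2 * (na p + na q)) : cs p + cs q ≤ Real.sqrt 2 := by
  have hM : (0 : ℝ) < M := by
    have := NeZero.pos M
    exact_mod_cast this
  have hpi := Real.pi_pos
  unfold cs
  rw [Real.cos_add_cos]
  have h1 : (M : ℝ) ≤ 2 * ((na p : ℝ) + na q) := by exact_mod_cast h
  have hp : 2 * (na p : ℝ) ≤ M := by exact_mod_cast na_le p
  have hq : 2 * (na q : ℝ) ≤ M := by exact_mod_cast na_le q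
  set θ := (Real.pi * (na p : ℝ) / M + Real.pi * (na q : ℝ) / M) / 2 with hθ
  have hθ' : θ = Real.pi * ((na p : ℝ) + na q) / (2 * M) := by
    rw [hθ]
    field_simp
  have h2 : Real.pi / 4 ≤ θ := by
    rw [hθ', div_le_div_iff₀ (by norm_num) (by positivity)]
    nlinarith
  have h3 : θ ≤ Real.pi / 2 := by
    rw [hθ', div_le_div_iff₀ (by positivity) (by norm_num)]
    nlinarith
  have h4 : Real.cos θ ≤ Real.sqrt 2 / 2 := by
    rw [← Real.cos_pi_div_four]
    apply Real.cos_le_cos_of_nonneg_of_le_pi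
    · positivity
    · linarith
    · exact h2
  have h5 : 0 ≤ Real.cos θ := by
    apply Real.cos_nonneg_of_neg_pi_div_two_le_of_le
    · linarith
    · exact h3
  have h6 : Real.cos ((Real.pi * (na p : ℝ) / M - Real.pi * (na q : ℝ) / M) / 2) ≤ 1 :=
    Real.cos_le_one _
  calc 2 * Real.cos θ * Real.cos ((Real.pi * (na p : ℝ) / M - Real.pi * (na q : ℝ) / M) / 2)
      ≤ 2 * Real.cos θ * 1 := by
        apply mul_le_mul_of_nonneg_left h6
        positivity
    _ ≤ Real.sqrt 2 := by linarith

/-- the pointwise inequality. -/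
theorem pointwise (p q : ZMod M) (h : (p, q) ≠ (0, 0)) :
    cs p * (gam (na q) (na (q + 2 * p)) + gam (na q) (na (q - 2 * p))) +
      cs q * (gam (na p) (na (p + 2 * q)) + gam (na p) (na (p - 2 * q))) ≤ 73 / 20 := by
  have hp0 := cs_nonneg p
  have hq0 := cs_nonneg q
  have hp1 := cs_le_one p
  have hq1 := cs_le_one q
  have g1 := gam_nonneg (na q) (na (q + 2 * p))
  have g2 := gam_nonneg (na q) (na (q - 2 * p))
  have g3 := gam_nonneg (na p) (na (p + 2 * q))
  have g4 := gam_nonneg (na p) (na (p - 2 * q))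
  by_cases hout : M ≤ 2 * (na p + na q)
  · have h1 := cs_add_le p q hout
    have h2 : Real.sqrt 2 ≤ 73 / 50 := by
      rw [Real.sqrt_le_left (by norm_num)]
      norm_num
    have e1 := gam_le (na q) (na (q + 2 * p))
    have e2 := gam_le (na q) (na (q - 2 * p))
    have e3 := gam_le (na p) (na (p + 2 * q))
    have e4 := gam_le (na p) (na (p - 2 * q))
    have e5 : cs p * (gam (na q) (na (q + 2 * p)) + gam (na q) (na (q - 2 * p))) ≤
        cs p * (5 / 2) := mul_le_mul_of_nonneg_left (by linarith) hp0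
    have e6 : cs q * (gam (na p) (na (p + 2 * q)) + gam (na p) (na (p - 2 * q))) ≤
        cs q * (5 / 2) := mul_le_mul_of_nonneg_left (by linarith) hq0
    linarith
  · push Not at hout
    have e5 : cs p * (gam (na q) (na (q + 2 * p)) + gam (na q) (na (q - 2 * p))) ≤
        1 * (gam (na q) (na (q + 2 * p)) + gam (na q) (na (q - 2 * p))) :=
      mul_le_mul_of_nonneg_right hp1 (by linarith)
    have e6 : cs q * (gam (na p) (na (p + 2 * q)) + gam (na p) (na (p - 2 * q))) ≤
        1 * (gam (na p) (na (p + 2 * q)) + gam (na p) (na (p - 2 * q))) :=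
      mul_le_mul_of_nonneg_right hq1 (by linarith)
    rcases lt_trichotomy (na q) (na p) with hlt | heq | hgt
    · have := case_lt p q hlt hout
      linarith
    · have hpne : p ≠ 0 := by
        rintro rfl
        apply h
        have : na q = 0 := by
          rw [heq]
          unfold na
          simp
        unfold na at this
        rw [Int.natAbs_eq_zero, ZMod.valMinAbs_eq_zero] at this
        rw [this]
      have hqne : q ≠ 0 := by
        rintro rfl
        apply hpne
        have : na p = 0 := by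
          rw [← heq]
          unfold na
          simp
        unfold na at this
        rwa [Int.natAbs_eq_zero, ZMod.valMinAbs_eq_zero] at this
      have h1 := case_eq p q heq hpne hout
      have h2 := case_eq q p heq.symm hqne (by omega)
      linarith
    · have := case_lt q p hgt (by omega)
      linarith

end Mgg

end Pool.Agent.PCP
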