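import Pool.Agent.Lib.PCP.LongCode

/-!
# Walks in graphs given by a rotation map, and the powering test
-/

namespace Pool.Agent.PCP

open Finset BigOperators

/-- Follow a list of ports: the endpoint, and the list of ports leading back. -/
def go {V P : Type} (rot : V × P → V × P) : V → List P → V × List P
  | v, [] => (v, [])
  | v, p :: l => ((go rot (rot (v, p)).1 l).1, (go rot (rot (v, p)).1 l).2 ++ [(rot (v, p)).2])

/-- Average over the lists of length `n`. -/
noncomputable def avgL {P : Type} [Fintype P] : ℕ → (List P → ℝ) → ℝ
  | 0, F => F []
  | n + 1, F => avg fun p => avgL n fun l => F (p :: l)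

/-- Weight of the opinion `s` about the vertex `v`: over the walks of length `< t` from `v`,
the opinion of the endpoint about the vertex reached by walking back. -/
noncomputable def opin {V P S : Type} [Fintype P] [DecidableEq S] (rot : V × P → V × P) (t : ℕ)
    (A : V → List P → S) (v : V) (s : S) : ℝ :=
  ∑ a ∈ range t, avgL a fun l => ind (A (go rot v l).1 (go rot v l).2 = s)

/-- The powering test on the walk `l` from `v` rejects: some constraint on the walk, with fewer
than `t` steps before and fewer than `t` steps after it, is violated by the opinions of the two
endpoints of the walk. -/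
def Rejects {V P S : Type} (rot : V × P → V × P) (c : V × P → S → S → Bool) (t : ℕ)
    (A : V → List P → S) (v : V) (l : List P) : Prop :=
  ∃ (x : List P) (p : P) (y : List P), l = x ++ p :: y ∧ x.length < t ∧ y.length < t ∧
    c ((go rot v x).1, p) (A v x)
      (A (go rot (rot ((go rot v x).1, p)).1 y).1 (go rot (rot ((go rot v x).1, p)).1 y).2) = false

end Pool.Agent.PCP
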