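import Pool.Agent.Lib.PCP.PowerDefs

/-!
# Soundness of graph powering (second moment method along random walks)
-/

namespace Pool.Agent.PCP.Pow

open Finset BigOperators

section AvgL

variable {P : Type} [Fintype P]

theorem avgL_congr (n : ℕ) {F G : List P → ℝ} (h : ∀ l, l.length = n → F l = G l) :
    avgL n F = avgL n G := by
  induction n generalizing F G with
  | zero => simpa [avgL] using h [] rfl
  | succ n ih =>
    simp only [avgL]
    congr 1
    funext p
    exact ih fun l hl => h (p :: l) (by simp [hl])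

theorem avgL_mono (n : ℕ) {F G : List P → ℝ} (h : ∀ l, l.length = n → F l ≤ G l) :
    avgL n F ≤ avgL n G := by
  induction n generalizing F G with
  | zero => simpa [avgL] using h [] rfl
  | succ n ih =>
    simp only [avgL]
    apply avg_mono
    intro p
    exact ih fun l hl => h (p :: l) (by simp [hl])

theorem avgL_add (n : ℕ) (F G : List P → ℝ) :
    avgL n (fun l => F l + G l) = avgL n F + avgL n G := by
  induction n generalizing F G with
  | zero => simp [avgL]
  | succ n ih =>
    simp only [avgL]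
    rw [← avg_add]
    congr 1
    funext p
    exact ih _ _

theorem avgL_const_mul (n : ℕ) (r : ℝ) (F : List P → ℝ) :
    avgL n (fun l => r * F l) = r * avgL n F := by
  induction n generalizing F with
  | zero => simp [avgL]
  | succ n ih =>
    simp only [avgL]
    rw [← avg_const_mul]
    congr 1
    funext p
    exact ih _

theorem avgL_mul_const (n : ℕ) (r : ℝ) (F : List P → ℝ) :
    avgL n (fun l => F l * r) = avgL n F * r := by
  rw [mul_comm, ← avgL_const_mul]
  congr 1
  funext l
  ring

theorem avgL_const [Nonempty P] (n : ℕ) (r : ℝ) : avgL (P := P) n (fun _ => r) = r := by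
  induction n with
  | zero => simp [avgL]
  | succ n ih =>
    simp only [avgL]
    rw [ih, avg_const]

theorem avgL_zero (n : ℕ) : avgL (P := P) n (fun _ => 0) = 0 := by
  have := avgL_const_mul (P := P) n 0 (fun _ => 0)
  simpa using this

theorem avgL_sum {ι : Type*} (s : Finset ι) (n : ℕ) (F : ι → List P → ℝ) :
    avgL n (fun l => ∑ i ∈ s, F i l) = ∑ i ∈ s, avgL n (F i) := by
  classical
  induction s using Finset.induction_on with
  | empty => simpa using avgL_zero (P := P) n
  | insert a s ha ih =>
    rw [Finset.sum_insert ha, ← ih, ← avgL_add]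
    congr 1
    funext l
    rw [Finset.sum_insert ha]

theorem avgL_append (a m : ℕ) (G : List P → ℝ) :
    avgL (a + m) G = avgL a fun x => avgL m fun y => G (x ++ y) := by
  induction a generalizing G with
  | zero => simp [avgL]
  | succ a ih =>
    rw [show a + 1 + m = (a + m) + 1 by ring]
    simp only [avgL]
    congr 1
    funext p
    rw [ih]
    rfl

theorem avgL_snoc (a : ℕ) (G : List P → ℝ) :
    avgL (a + 1) G = avgL a fun x => avg fun p => G (x ++ [p]) := by
  rw [avgL_append]
  rfl

theorem avgL_take [Nonempty P] (m n : ℕ) (h : m ≤ n) (G : List P → ℝ) :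
    avgL n (fun l => G (l.take m)) = avgL m G := by
  obtain ⟨k, rfl⟩ := Nat.exists_eq_add_of_le h
  rw [avgL_append]
  apply avgL_congr
  intro x hx
  have : (fun y => G (List.take m (x ++ y))) = fun _ : List P => G x := by
    funext y
    rw [← hx, List.take_left']
    rfl
  rw [this, avgL_const]

theorem avg_sum {X : Type} [Fintype X] {ι : Type*} (s : Finset ι) (F : ι → X → ℝ) :
    avg (fun x => ∑ i ∈ s, F i x) = ∑ i ∈ s, avg (F i) := by
  unfold avg
  rw [Finset.sum_comm, Finset.sum_div]

theorem avg_avgL_comm {X : Type} [Fintype X] (n : ℕ) (F : X → List P → ℝ) :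
    avg (fun x => avgL n (F x)) = avgL n fun l => avg fun x => F x l := by
  induction n generalizing F with
  | zero => simp [avgL]
  | succ n ih =>
    simp only [avgL]
    rw [avg_comm]
    congr 1
    funext p
    exact ih _

theorem avg_zero {X : Type} [Fintype X] : avg (fun _ : X => (0 : ℝ)) = 0 := by
  simp [avg]

end AvgL

section Go

variable {V P : Type} (rot : V × P → V × P)

theorem go_append (v : V) (l m : List P) :
    go rot v (l ++ m) = ((go rot (go rot v l).1 m).1, (go rot (go rot v l).1 m).2 ++ (go rot v l).2) := by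
  induction l generalizing v with
  | nil => simp [go]
  | cons p l ih =>
    rw [List.cons_append]
    simp only [go]
    rw [ih]
    simp

theorem go_go (hinv : ∀ x, rot (rot x) = x) (v : V) (l : List P) :
    go rot (go rot v l).1 (go rot v l).2 = (v, l) := by
  induction l generalizing v with
  | nil => simp [go]
  | cons p l ih =>
    simp only [go]
    rw [go_append, ih]
    simp only [go]
    have : rot ((rot (v, p)).1, (rot (v, p)).2) = (v, p) := hinv (v, p)
    rw [this]
    simp

variable [Fintype V] [Fintype P]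

theorem sum_rot (hinv : ∀ x, rot (rot x) = x) (h : V × P → ℝ) :
    ∑ v, avg (fun p => h (rot (v, p))) = ∑ v, avg (fun p => h (v, p)) := by
  unfold avg
  rw [← Finset.sum_div, ← Finset.sum_div]
  congr 1
  rw [← Fintype.sum_prod_type', ← Fintype.sum_prod_type']
  let e : V × P ≃ V × P := ⟨rot, rot, hinv, hinv⟩
  exact Equiv.sum_comp e h

theorem sum_avg_comm (F : V → P → ℝ) :
    ∑ v, avg (F v) = avg fun p => ∑ v, F v p := by
  unfold avg
  rw [← Finset.sum_div, Finset.sum_comm]

/-- reversing random walks preserves the uniform measure -/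
theorem sum_go (hinv : ∀ x, rot (rot x) = x) (a : ℕ) (G : V × List P → ℝ) :
    ∑ v, avgL a (fun l => G (go rot v l)) = ∑ v, avgL a (fun l => G (v, l)) := by
  induction a generalizing G with
  | zero => simp [avgL, go]
  | succ a ih =>
    have h1 : ∀ v, avgL (a + 1) (fun l => G (go rot v l)) =
        avg fun p => (fun z : V × P => avgL a fun l => G ((go rot z.1 l).1, (go rot z.1 l).2 ++ [z.2]))
          (rot (v, p)) := by
      intro v
      rfl
    refine (Finset.sum_congr rfl fun v _ => h1 v).trans ?_
    refine (sum_rot rot hinv (fun z : V × P => avgL a fun l =>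
      G ((go rot z.1 l).1, (go rot z.1 l).2 ++ [z.2]))).trans ?_
    rw [sum_avg_comm]
    have h2 : ∀ v, avgL (a + 1) (fun l => G (v, l)) =
        avg fun p => avgL a fun x => G (v, x ++ [p]) := by
      intro v
      rw [avgL_snoc, avg_avgL_comm]
    rw [Finset.sum_congr rfl fun v _ => h2 v, sum_avg_comm]
    congr 1
    funext p
    exact ih fun z => G (z.1, z.2 ++ [p])

end Go

section Main

variable {V P S : Type} [Fintype V] [Nonempty V] [Fintype P] [Nonempty P] [Fintype S]
    [DecidableEq S] (rot : V × P → V × P)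

/-- averaging operator -/
noncomputable def TT (f : V → ℝ) : V → ℝ := fun v => avg fun p => f (rot (v, p)).1

theorem TT_sum (hinv : ∀ x, rot (rot x) = x) (f : V → ℝ) : ∑ v, TT rot f v = ∑ v, f v := by
  unfold TT
  rw [sum_rot rot hinv (fun z => f z.1)]
  simp only [avg_const]

theorem TT_add (f g : V → ℝ) : TT rot (fun v => f v + g v) = fun v => TT rot f v + TT rot g v := by
  funext v
  unfold TT
  exact avg_add _ _

theorem TT_const (r : ℝ) : TT rot (fun _ : V => r) = fun _ => r := by
  funext v
  unfold TT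
  exact avg_const r

theorem TT_iter_sum (hinv : ∀ x, rot (rot x) = x) (k : ℕ) (f : V → ℝ) :
    ∑ v, (TT rot)^[k] f v = ∑ v, f v := by
  induction k generalizing f with
  | zero => rfl
  | succ k ih => rw [Function.iterate_succ_apply, ih, TT_sum rot hinv]

theorem TT_iter_add (k : ℕ) (f g : V → ℝ) :
    (TT rot)^[k] (fun v => f v + g v) = fun v => (TT rot)^[k] f v + (TT rot)^[k] g v := by
  induction k generalizing f g with
  | zero => rfl
  | succ k ih =>
    rw [Function.iterate_succ_apply, TT_add, ih]
    rfl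

theorem TT_iter_const (k : ℕ) (r : ℝ) : (TT rot)^[k] (fun _ : V => r) = fun _ => r := by
  induction k with
  | zero => rfl
  | succ k ih => rw [Function.iterate_succ_apply, TT_const, ih]

theorem TT_iter_norm (hinv : ∀ x, rot (rot x) = x) (lam : ℝ) (h0 : 0 ≤ lam)
    (hspec : ∀ f : V → ℝ, ∑ v, f v = 0 →
      ∑ v, (avg fun p => f (rot (v, p)).1) ^ 2 ≤ lam ^ 2 * ∑ v, f v ^ 2)
    (k : ℕ) (f : V → ℝ) (hf : ∑ v, f v = 0) :
    ∑ v, (TT rot)^[k] f v ^ 2 ≤ (lam ^ k) ^ 2 * ∑ v, f v ^ 2 := by
  induction k generalizing f with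
  | zero => simp
  | succ k ih =>
    rw [Function.iterate_succ_apply]
    refine (ih (TT rot f) (by rw [TT_sum rot hinv, hf])).trans ?_
    have := hspec f hf
    have h2 : ∑ v, TT rot f v ^ 2 ≤ lam ^ 2 * ∑ v, f v ^ 2 := this
    calc (lam ^ k) ^ 2 * ∑ v, TT rot f v ^ 2 ≤ (lam ^ k) ^ 2 * (lam ^ 2 * ∑ v, f v ^ 2) := by
          apply mul_le_mul_of_nonneg_left h2 (by positivity)
      _ = (lam ^ (k + 1)) ^ 2 * ∑ v, f v ^ 2 := by ring

/-- mixing bound for a function with values in `[0, 1]` -/
theorem TT_mix (hinv : ∀ x, rot (rot x) = x) (lam : ℝ) (h0 : 0 ≤ lam)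
    (hspec : ∀ f : V → ℝ, ∑ v, f v = 0 →
      ∑ v, (avg fun p => f (rot (v, p)).1) ^ 2 ≤ lam ^ 2 * ∑ v, f v ^ 2)
    (k : ℕ) (x : V → ℝ) (hx0 : ∀ v, 0 ≤ x v) (hx1 : ∀ v, x v ≤ 1) :
    avg (fun v => x v * (TT rot)^[k] x v) ≤ avg x ^ 2 + lam ^ k * avg x := by
  set μ := avg x with hμ
  have hcard : (0 : ℝ) < Fintype.card V := by exact_mod_cast Fintype.card_pos
  have hsum : ∑ v, x v = Fintype.card V * μ := by
    rw [hμ]; unfold avg; field_simp
  set y : V → ℝ := fun v => x v - μ with hy
  have hxy : x = fun v => μ + y v := by funext v; simp [hy]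
  have hysum : ∑ v, y v = 0 := by
    simp only [hy, Finset.sum_sub_distrib, hsum, Finset.sum_const, Finset.card_univ, nsmul_eq_mul]
    ring
  have hit : (TT rot)^[k] x = fun v => μ + (TT rot)^[k] y v := by
    conv_lhs => rw [hxy]
    rw [TT_iter_add, TT_iter_const]
  have hzs : ∑ v, (TT rot)^[k] y v = 0 := by rw [TT_iter_sum rot hinv, hysum]
  have hmain : ∑ v, x v * (TT rot)^[k] x v =
      Fintype.card V * μ ^ 2 + ∑ v, y v * (TT rot)^[k] y v := by
    have : ∀ v, x v * (TT rot)^[k] x v =
        μ ^ 2 + μ * (TT rot)^[k] y v + μ * y v + y v * (TT rot)^[k] y v := by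
      intro v
      rw [hit]
      have : x v = μ + y v := by simp [hy]
      rw [this]; ring
    simp only [this, Finset.sum_add_distrib, ← Finset.mul_sum, hzs, hysum, Finset.sum_const,
      Finset.card_univ, nsmul_eq_mul]
    ring
  have hysq : ∑ v, y v ^ 2 ≤ Fintype.card V * μ := by
    have e : ∑ v, y v ^ 2 = ∑ v, x v ^ 2 - Fintype.card V * μ ^ 2 := by
      have : ∀ v, y v ^ 2 = x v ^ 2 - 2 * μ * x v + μ ^ 2 := by intro v; simp only [hy]; ring
      simp only [this, Finset.sum_add_distrib, Finset.sum_sub_distrib, ← Finset.mul_sum, hsum,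
        Finset.sum_const, Finset.card_univ, nsmul_eq_mul]
      ring
    have e2 : ∑ v, x v ^ 2 ≤ ∑ v, x v := by
      apply Finset.sum_le_sum
      intro v _
      nlinarith [hx0 v, hx1 v]
    rw [e]
    have : 0 ≤ (Fintype.card V : ℝ) * μ ^ 2 := by positivity
    linarith
  have hcs : ∑ v, y v * (TT rot)^[k] y v ≤ lam ^ k * (Fintype.card V * μ) := by
    have hC := Finset.sum_mul_sq_le_sq_mul_sq Finset.univ y ((TT rot)^[k] y)
    have hN := TT_iter_norm rot hinv lam h0 hspec k y hysum
    have hs0 : 0 ≤ ∑ v, y v ^ 2 := Finset.sum_nonneg fun v _ => sq_nonneg _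
    have hsq : (∑ v, y v * (TT rot)^[k] y v) ^ 2 ≤ (lam ^ k * ∑ v, y v ^ 2) ^ 2 := by
      calc (∑ v, y v * (TT rot)^[k] y v) ^ 2 ≤ (∑ v, y v ^ 2) * ∑ v, (TT rot)^[k] y v ^ 2 := hC
        _ ≤ (∑ v, y v ^ 2) * ((lam ^ k) ^ 2 * ∑ v, y v ^ 2) :=
            mul_le_mul_of_nonneg_left hN hs0
        _ = (lam ^ k * ∑ v, y v ^ 2) ^ 2 := by ring
    have h3 : ∑ v, y v * (TT rot)^[k] y v ≤ lam ^ k * ∑ v, y v ^ 2 :=
      le_of_sq_le_sq hsq (mul_nonneg (pow_nonneg h0 k) hs0)
    exact h3.trans (mul_le_mul_of_nonneg_left hysq (pow_nonneg h0 k))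
  unfold avg
  rw [hmain, div_le_iff₀ hcard]
  have : (∑ v, x v) / (Fintype.card V : ℝ) = μ := rfl
  nlinarith

/-- indicator that the `i`-th dart of the walk lies in `F` -/
noncomputable def df (F : V × P → ℝ) (i : ℕ) (v : V) (l : List P) : ℝ :=
  match l.drop i with
  | [] => 0
  | p :: _ => F ((go rot v (l.take i)).1, p)

theorem df_zero (F : V × P → ℝ) (v : V) (p : P) (l : List P) : df rot F 0 v (p :: l) = F (v, p) := by
  simp [df, go]

theorem df_succ (F : V × P → ℝ) (i : ℕ) (v : V) (p : P) (l : List P) :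
    df rot F (i + 1) v (p :: l) = df rot F i (rot (v, p)).1 l := by
  simp only [df, List.drop_succ_cons, List.take_succ_cons, go]

theorem df_append (F : V × P → ℝ) (i : ℕ) (v : V) (x z : List P) (hx : x.length = i) (k : ℕ) :
    df rot F (i + k) v (x ++ z) = df rot F k (go rot v x).1 z := by
  induction x generalizing i v with
  | nil =>
    simp at hx
    subst hx
    simp [go]
  | cons p x ih =>
    obtain ⟨j, rfl⟩ : ∃ j, i = j + 1 := ⟨i - 1, by simp at hx; omega⟩
    rw [show j + 1 + k = (j + k) + 1 by ring, List.cons_append, df_succ, ih j _ (by simpa using hx)]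
    rfl

theorem avgL_df (F : V × P → ℝ) (k m : ℕ) (h : k < m) (w : V) :
    avgL m (fun z => df rot F k w z) = (TT rot)^[k] (fun v => avg fun p => F (v, p)) w := by
  induction k generalizing m w with
  | zero =>
    obtain ⟨m, rfl⟩ : ∃ j, m = j + 1 := ⟨m - 1, by omega⟩
    simp only [avgL, df_zero, avgL_const, Function.iterate_zero, id]
  | succ k ih =>
    obtain ⟨m, rfl⟩ : ∃ j, m = j + 1 := ⟨m - 1, by omega⟩
    simp only [avgL, df_succ]
    rw [Function.iterate_succ_apply']
    unfold TT
    congr 1
    funext p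
    exact ih m (by omega) _

/-- pair correlation of the darts -/
theorem pair_bound (hinv : ∀ x, rot (rot x) = x) (lam : ℝ) (h0 : 0 ≤ lam)
    (hspec : ∀ f : V → ℝ, ∑ v, f v = 0 →
      ∑ v, (avg fun p => f (rot (v, p)).1) ^ 2 ≤ lam ^ 2 * ∑ v, f v ^ 2)
    (F : V × P → ℝ) (hF0 : ∀ z, 0 ≤ F z) (hF1 : ∀ z, F z ≤ 1) (hFr : ∀ z, F (rot z) = F z)
    (i k n : ℕ) (hn : i + 1 + k < n) :
    avg (fun v => avgL n (fun l => df rot F i v l * df rot F (i + 1 + k) v l)) ≤
      (avg fun v => avg fun p => F (v, p)) ^ 2 + lam ^ k * avg fun v => avg fun p => F (v, p) := by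
  obtain ⟨m, rfl⟩ : ∃ m, n = i + (1 + m) := ⟨n - i - 1, by omega⟩
  set x : V → ℝ := fun v => avg fun p => F (v, p) with hx
  have e1 : ∀ v, avgL (i + (1 + m)) (fun l => df rot F i v l * df rot F (i + 1 + k) v l) =
      avgL i fun l => (fun z : V × List P => avg fun p => F (z.1, p) *
        (TT rot)^[k] x (rot (z.1, p)).1) (go rot v l) := by
    intro v
    rw [avgL_append]
    apply avgL_congr
    intro l hl
    rw [show 1 + m = m + 1 by ring]
    simp only [avgL]
    congr 1
    funext p
    have e2 : ∀ y : List P, df rot F i v (l ++ p :: y) * df rot F (i + 1 + k) v (l ++ p :: y) =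
        F ((go rot v l).1, p) * df rot F k (rot ((go rot v l).1, p)).1 y := by
      intro y
      have h1 := df_append rot F i v l (p :: y) hl 0
      rw [Nat.add_zero, df_zero] at h1
      have h2 := df_append rot F i v l (p :: y) hl (k + 1)
      rw [df_succ, show i + (k + 1) = i + 1 + k by ring] at h2
      rw [h1, h2]
    simp only [e2]
    rw [avgL_const_mul, avgL_df rot F k m (by omega)]
  have e3 : ∑ v, avgL (i + (1 + m)) (fun l => df rot F i v l * df rot F (i + 1 + k) v l) =
      ∑ v, x v * (TT rot)^[k] x v := by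
    refine (Finset.sum_congr rfl fun v _ => e1 v).trans ?_
    refine (sum_go rot hinv i (fun z : V × List P => avg fun p => F (z.1, p) *
      (TT rot)^[k] x (rot (z.1, p)).1)).trans ?_
    simp only [avgL_const]
    have e4 : ∀ v, avg (fun p => F (v, p) * (TT rot)^[k] x (rot (v, p)).1) =
        avg fun p => (fun z : V × P => F z * (TT rot)^[k] x z.1) (rot (v, p)) := by
      intro v
      congr 1
      funext p
      simp only [hFr]
    refine (Finset.sum_congr rfl fun v _ => e4 v).trans ?_
    refine (sum_rot rot hinv (fun z : V × P => F z * (TT rot)^[k] x z.1)).trans ?_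
    apply Finset.sum_congr rfl
    intro v _
    rw [← avg_mul_const]
  have e5 : avg (fun v => avgL (i + (1 + m)) (fun l => df rot F i v l * df rot F (i + 1 + k) v l)) =
      avg fun v => x v * (TT rot)^[k] x v := by
    unfold avg at e3 ⊢
    rw [e3]
  rw [e5]
  refine TT_mix rot hinv lam h0 hspec k x ?_ ?_
  · intro v
    exact avg_nonneg fun p => hF0 _
  · intro v
    have := avg_mono (X := P) (f := fun p => F (v, p)) (g := fun _ => 1) (fun p => hF1 _)
    rwa [avg_const] at this

theorem single_eq (hinv : ∀ x, rot (rot x) = x) (F : V × P → ℝ) (i n : ℕ) (hn : i < n) :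
    avg (fun v => avgL n (fun l => df rot F i v l)) = avg fun v => avg fun p => F (v, p) := by
  have : ∀ v, avgL n (fun l => df rot F i v l) =
      (TT rot)^[i] (fun v => avg fun p => F (v, p)) v := fun v => avgL_df rot F i n hn v
  simp only [this]
  unfold avg
  rw [TT_iter_sum rot hinv i (fun v => (∑ p, F (v, p)) / (Fintype.card P : ℝ))]

theorem second_moment (hinv : ∀ x, rot (rot x) = x) (lam : ℝ) (h0 : 0 ≤ lam) (h1 : lam < 1)
    (hspec : ∀ f : V → ℝ, ∑ v, f v = 0 →
      ∑ v, (avg fun p => f (rot (v, p)).1) ^ 2 ≤ lam ^ 2 * ∑ v, f v ^ 2)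
    (F : V × P → ℝ) (hF0 : ∀ z, 0 ≤ F z) (hF1 : ∀ z, F z ≤ 1) (hFr : ∀ z, F (rot z) = F z)
    (hFF : ∀ z, F z * F z = F z) (n : ℕ) :
    avg (fun v => avgL n (fun l => (∑ i ∈ range n, df rot F i v l) ^ 2)) ≤
      n * (avg fun v => avg fun p => F (v, p)) +
      (n ^ 2 * (avg fun v => avg fun p => F (v, p)) ^ 2 +
        2 * n * ((avg fun v => avg fun p => F (v, p)) / (1 - lam))) := by
  set μ := avg fun v => avg fun p => F (v, p) with hμ
  have hμ0 : 0 ≤ μ := avg_nonneg fun v => avg_nonneg fun p => hF0 _
  -- expand the square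
  have e1 : ∀ v l, (∑ i ∈ range n, df rot F i v l) ^ 2 =
      ∑ i ∈ range n, df rot F i v l +
        2 * ∑ i ∈ range n, ∑ j ∈ range n, if i < j then df rot F i v l * df rot F j v l else 0 := by
    intro v l
    have hsq : ∀ i, df rot F i v l * df rot F i v l = df rot F i v l := by
      intro i
      unfold df
      split
      · simp
      · exact hFF _
    rw [sq, Finset.sum_mul_sum]
    have h2 : ∀ i ∈ range n, ∀ j ∈ range n, df rot F i v l * df rot F j v l =
        (if i = j then df rot F i v l else 0) + ((if i < j then df rot F i v l * df rot F j v l else 0)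
          + (if j < i then df rot F j v l * df rot F i v l else 0)) := by
      intro i _ j _
      rcases lt_trichotomy i j with h | h | h
      · simp [h, h.ne, not_lt.2 h.le]
      · subst h; simp [hsq]
      · simp [h, h.ne', not_lt.2 h.le, mul_comm]
    rw [Finset.sum_congr rfl fun i hi => Finset.sum_congr rfl fun j hj => h2 i hi j hj]
    simp only [Finset.sum_add_distrib]
    have h3 : ∑ i ∈ range n, ∑ j ∈ range n, (if i = j then df rot F i v l else 0) =
        ∑ i ∈ range n, df rot F i v l := by
      apply Finset.sum_congr rfl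
      intro i hi
      rw [Finset.sum_ite_eq, if_pos hi]
    have h4 : ∑ i ∈ range n, ∑ j ∈ range n, (if j < i then df rot F j v l * df rot F i v l else 0) =
        ∑ i ∈ range n, ∑ j ∈ range n, (if i < j then df rot F i v l * df rot F j v l else 0) := by
      rw [Finset.sum_comm]
    rw [h3, h4]
    ring
  simp only [e1]
  have e2 : ∀ v, avgL n (fun l => ∑ i ∈ range n, df rot F i v l +
        2 * ∑ i ∈ range n, ∑ j ∈ range n, if i < j then df rot F i v l * df rot F j v l else 0) =
      ∑ i ∈ range n, avgL n (fun l => df rot F i v l) + 2 * ∑ i ∈ range n, ∑ j ∈ range n,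
        if i < j then avgL n (fun l => df rot F i v l * df rot F j v l) else 0 := by
    intro v
    rw [avgL_add, avgL_sum, avgL_const_mul, avgL_sum]
    congr 2
    apply Finset.sum_congr rfl
    intro i _
    rw [avgL_sum]
    apply Finset.sum_congr rfl
    intro j _
    split_ifs
    · rfl
    · exact avgL_zero n
  simp only [e2]
  rw [avg_add, avg_sum, avg_const_mul, avg_sum]
  have e3 : ∑ i ∈ range n, avg (fun v => avgL n (fun l => df rot F i v l)) = n * μ := by
    rw [Finset.sum_congr rfl fun i hi => single_eq rot hinv F i n (Finset.mem_range.1 hi)]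
    rw [Finset.sum_const, Finset.card_range, nsmul_eq_mul]
  rw [e3]
  have e4 : ∑ i ∈ range n, avg (fun v => ∑ j ∈ range n,
      if i < j then avgL n (fun l => df rot F i v l * df rot F j v l) else 0) ≤
      ∑ i ∈ range n, ∑ j ∈ range n, if i < j then μ ^ 2 + lam ^ (j - i - 1) * μ else 0 := by
    apply Finset.sum_le_sum
    intro i _
    rw [avg_sum]
    apply Finset.sum_le_sum
    intro j hj
    split_ifs with hij
    · have := pair_bound rot hinv lam h0 hspec F hF0 hF1 hFr i (j - i - 1) n
        (by have := Finset.mem_range.1 hj; omega)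
      rw [show i + 1 + (j - i - 1) = j by omega] at this
      exact this
    · exact le_of_eq avg_zero
  have hlam : 0 < 1 - lam := by linarith
  have e5 : ∑ i ∈ range n, ∑ j ∈ range n, (if i < j then μ ^ 2 + lam ^ (j - i - 1) * μ else 0) ≤
      n ^ 2 * μ ^ 2 / 2 + n * (μ / (1 - lam)) := by
    have h2 : ∀ i ∈ range n, ∑ j ∈ range n, (if i < j then lam ^ (j - i - 1) * μ else 0) ≤
        μ / (1 - lam) := by
      intro i hi
      have hi' := Finset.mem_range.1 hi
      rw [← Finset.sum_filter]
      have h3 : ∑ j ∈ (range n).filter (fun j => i < j), lam ^ (j - i - 1) * μ =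
          ∑ k ∈ range (n - i - 1), lam ^ k * μ := by
        apply Finset.sum_bij (fun j _ => j - i - 1)
        · intro j hj
          simp only [Finset.mem_filter, Finset.mem_range] at hj ⊢
          omega
        · intro a ha b hb hab
          simp only [Finset.mem_filter, Finset.mem_range] at ha hb
          omega
        · intro k hk
          simp only [Finset.mem_range] at hk
          refine ⟨k + i + 1, ?_, by omega⟩
          simp only [Finset.mem_filter, Finset.mem_range]
          omega
        · intro j _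
          rfl
      rw [h3, ← Finset.sum_mul]
      have h4 : ∑ k ∈ range (n - i - 1), lam ^ k ≤ 1 / (1 - lam) := by
        rw [le_div_iff₀ hlam]
        have := geom_sum_mul_neg lam (n - i - 1)
        rw [this]
        have : 0 ≤ lam ^ (n - i - 1) := pow_nonneg h0 _
        linarith
      calc (∑ k ∈ range (n - i - 1), lam ^ k) * μ ≤ 1 / (1 - lam) * μ :=
            mul_le_mul_of_nonneg_right h4 hμ0
        _ = μ / (1 - lam) := by ring
    have h5 : ∑ i ∈ range n, ∑ j ∈ range n, (if i < j then μ ^ 2 else (0 : ℝ)) ≤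
        n ^ 2 * μ ^ 2 / 2 := by
      have h6 : (∑ i ∈ range n, ∑ j ∈ range n, (if i < j then μ ^ 2 else (0 : ℝ))) * 2 ≤
          n ^ 2 * μ ^ 2 := by
        have h7 : ∑ i ∈ range n, ∑ j ∈ range n, (if i < j then μ ^ 2 else (0 : ℝ)) =
            ∑ i ∈ range n, ∑ j ∈ range n, (if j < i then μ ^ 2 else (0 : ℝ)) := by
          rw [Finset.sum_comm]
        have h8 : ∑ i ∈ range n, ∑ j ∈ range n, ((if i < j then μ ^ 2 else (0 : ℝ)) +
            (if j < i then μ ^ 2 else (0 : ℝ))) ≤ ∑ i ∈ range n, ∑ j ∈ range n, μ ^ 2 := by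
          apply Finset.sum_le_sum
          intro i _
          apply Finset.sum_le_sum
          intro j _
          have : 0 ≤ μ ^ 2 := sq_nonneg _
          rcases lt_trichotomy i j with h | h | h
          · simp [h, not_lt.2 h.le]
          · subst h; simpa using this
          · simp [h, not_lt.2 h.le]
        simp only [Finset.sum_add_distrib] at h8
        rw [← h7] at h8
        simp only [Finset.sum_const, Finset.card_range, nsmul_eq_mul] at h8
        linarith
      linarith
    have h9 : ∀ i j : ℕ, (if i < j then μ ^ 2 + lam ^ (j - i - 1) * μ else 0) =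
        (if i < j then μ ^ 2 else (0 : ℝ)) + (if i < j then lam ^ (j - i - 1) * μ else 0) := by
      intro i j
      split_ifs <;> simp
    simp only [h9, Finset.sum_add_distrib]
    have h10 : ∑ i ∈ range n, ∑ j ∈ range n, (if i < j then lam ^ (j - i - 1) * μ else 0) ≤
        n * (μ / (1 - lam)) := by
      refine (Finset.sum_le_sum h2).trans ?_
      rw [Finset.sum_const, Finset.card_range, nsmul_eq_mul]
    linarith
  nlinarith [e4, e5]

/-- the contribution of the `a`-th dart of the walk `l` from `v` -/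
noncomputable def term (F : V × P → ℝ) (A : V → List P → S) (σ : V → S) (a : ℕ) (v : V)
    (l : List P) : ℝ :=
  match l.drop a with
  | [] => 0
  | p :: y => F ((go rot v (l.take a)).1, p) *
      ind (A v (l.take a) = σ (go rot v (l.take a)).1) *
      ind (A (go rot (rot ((go rot v (l.take a)).1, p)).1 y).1
        (go rot (rot ((go rot v (l.take a)).1, p)).1 y).2 = σ (rot ((go rot v (l.take a)).1, p)).1)

/-- the counting variable of the test -/
noncomputable def NN (F : V × P → ℝ) (A : V → List P → S) (σ : V → S) (t : ℕ) (v : V) (L : ℕ)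
    (l : List P) : ℝ :=
  ∑ a ∈ range t, ∑ b ∈ range t, if a + b = L then term rot F A σ a v (l.take (a + b + 1)) else 0

theorem term_nonneg (F : V × P → ℝ) (hF0 : ∀ z, 0 ≤ F z) (A : V → List P → S) (σ : V → S) (a : ℕ)
    (v : V) (l : List P) : 0 ≤ term rot F A σ a v l := by
  unfold term
  split
  · exact le_rfl
  · exact mul_nonneg (mul_nonneg (hF0 _) (ind_nonneg _)) (ind_nonneg _)

theorem df_nonneg (F : V × P → ℝ) (hF0 : ∀ z, 0 ≤ F z) (i : ℕ) (v : V) (l : List P) :
    0 ≤ df rot F i v l := by
  unfold df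
  split
  · exact le_rfl
  · exact hF0 _

theorem term_le (F : V × P → ℝ) (hF0 : ∀ z, 0 ≤ F z) (A : V → List P → S) (σ : V → S) (a b : ℕ)
    (v : V) (l : List P) : term rot F A σ a v (l.take (a + b + 1)) ≤ df rot F a v l := by
  have h1 : (l.take (a + b + 1)).drop a = (l.drop a).take (b + 1) := by
    rw [List.drop_take]
    congr 1
    omega
  have h2 : (l.take (a + b + 1)).take a = l.take a := by
    rw [List.take_take]
    congr 1
    omega
  unfold term df
  rw [h1, h2]
  cases hd : l.drop a with
  | nil => simp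
  | cons p y =>
    simp only [List.take_succ_cons]
    have h3 := hF0 ((go rot v (l.take a)).1, p)
    calc _ ≤ F ((go rot v (l.take a)).1, p) * 1 * 1 := by
          apply mul_le_mul _ (ind_le_one _) (ind_nonneg _) (by simpa using h3)
          exact mul_le_mul_of_nonneg_left (ind_le_one _) h3
      _ = _ := by ring

theorem NN_nonneg (F : V × P → ℝ) (hF0 : ∀ z, 0 ≤ F z) (A : V → List P → S) (σ : V → S) (t : ℕ)
    (v : V) (L : ℕ) (l : List P) : 0 ≤ NN rot F A σ t v L l := by
  unfold NN
  apply Finset.sum_nonneg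
  intro a _
  apply Finset.sum_nonneg
  intro b _
  split_ifs
  · exact term_nonneg rot F hF0 A σ a v _
  · exact le_rfl

theorem NN_le (F : V × P → ℝ) (hF0 : ∀ z, 0 ≤ F z) (A : V → List P → S) (σ : V → S) (t n : ℕ)
    (htn : t ≤ n) (v : V) (L : ℕ) (l : List P) :
    NN rot F A σ t v L l ≤ ∑ i ∈ range n, df rot F i v l := by
  have h1 : NN rot F A σ t v L l ≤ ∑ a ∈ range t, df rot F a v l := by
    unfold NN
    apply Finset.sum_le_sum
    intro a _
    have h2 : ∀ b ∈ range t, (if a + b = L then term rot F A σ a v (l.take (a + b + 1)) else 0) ≤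
        if b = L - a then df rot F a v l else 0 := by
      intro b _
      by_cases hab : a + b = L
      · rw [if_pos hab, if_pos (by omega)]
        exact term_le rot F hF0 A σ a b v l
      · rw [if_neg hab]
        split_ifs
        · exact df_nonneg rot F hF0 a v l
        · exact le_rfl
    refine (Finset.sum_le_sum h2).trans ?_
    rw [Finset.sum_ite_eq']
    split_ifs
    · exact le_rfl
    · exact df_nonneg rot F hF0 a v l
  refine h1.trans ?_
  apply Finset.sum_le_sum_of_subset_of_nonneg
  · exact Finset.range_subset_range.2 htn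
  · intro i _ _
    exact df_nonneg rot F hF0 i v l

theorem NN_rejects (c : V × P → S → S → Bool) (A : V → List P → S) (σ : V → S) (t : ℕ) (v : V)
    (L : ℕ) (hL : L < 2 * t - 1) (l : List P) (hl : l.length = 2 * t - 1)
    (h : NN rot (fun z => ind (c z (σ z.1) (σ (rot z).1) = false)) A σ t v L l ≠ 0) :
    Rejects rot c t A v (l.take (L + 1)) := by
  unfold NN at h
  obtain ⟨a, ha, h⟩ := Finset.exists_ne_zero_of_sum_ne_zero h
  obtain ⟨b, hb, h⟩ := Finset.exists_ne_zero_of_sum_ne_zero h
  rw [Finset.mem_range] at ha hb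
  by_cases hab : a + b = L
  · rw [if_pos hab, hab] at h
    set m := l.take (L + 1) with hm
    have hmlen : m.length = L + 1 := by
      rw [hm, List.length_take, hl]; omega
    unfold term at h
    split at h
    · exact absurd rfl h
    · rename_i p y hd
      have hx : m = m.take a ++ p :: y := by
        rw [← hd]
        exact (List.take_append_drop a m).symm
      have hylen : y.length < t := by
        have := congrArg List.length hd
        rw [List.length_drop, List.length_cons, hmlen] at this
        omega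
      have hxlen : (m.take a).length < t := by
        rw [List.length_take]; omega
      have h12 := left_ne_zero_of_mul h
      have h3 := right_ne_zero_of_mul h
      have h1 := left_ne_zero_of_mul h12
      have h2 := right_ne_zero_of_mul h12
      have k1 : c ((go rot v (m.take a)).1, p) (σ (go rot v (m.take a)).1)
          (σ (rot ((go rot v (m.take a)).1, p)).1) = false := by
        by_contra hc
        exact h1 (ind_false hc)
      have k2 : A v (m.take a) = σ (go rot v (m.take a)).1 := by
        by_contra hc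
        exact h2 (ind_false hc)
      have k3 : A (go rot (rot ((go rot v (m.take a)).1, p)).1 y).1
          (go rot (rot ((go rot v (m.take a)).1, p)).1 y).2 =
            σ (rot ((go rot v (m.take a)).1, p)).1 := by
        by_contra hc
        exact h3 (ind_false hc)
      refine ⟨m.take a, p, y, hx, hxlen, hylen, ?_⟩
      rw [k2, k3]
      exact k1
  · rw [if_neg hab] at h
    exact absurd rfl h

theorem term_append (F : V × P → ℝ) (A : V → List P → S) (σ : V → S) (a : ℕ) (v : V)
    (x : List P) (hx : x.length = a) (p : P) (y : List P) :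
    term rot F A σ a v (x ++ p :: y) = F ((go rot v x).1, p) *
      ind (A v x = σ (go rot v x).1) *
      ind (A (go rot (rot ((go rot v x).1, p)).1 y).1
        (go rot (rot ((go rot v x).1, p)).1 y).2 = σ (rot ((go rot v x).1, p)).1) := by
  unfold term
  rw [← hx, List.take_left', List.drop_left']
  · rfl
  · rfl

/-- expectation of the contribution of a pair `(a, b)` -/
theorem first_pair (hinv : ∀ x, rot (rot x) = x) (F : V × P → ℝ) (A : V → List P → S) (σ : V → S)
    (a b : ℕ) :
    avg (fun v => avgL (a + (b + 1)) (fun l => term rot F A σ a v l)) =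
      avg fun v => avg fun p => F (v, p) *
        (avgL a fun x => ind (A (go rot v x).1 (go rot v x).2 = σ v)) *
        (avgL b fun y => ind (A (go rot (rot (v, p)).1 y).1 (go rot (rot (v, p)).1 y).2 =
          σ (rot (v, p)).1)) := by
  have e1 : ∀ v, avgL (a + (b + 1)) (fun l => term rot F A σ a v l) =
      avgL a fun x => (fun z : V × List P => avg fun p => F (z.1, p) *
        ind (A (go rot z.1 z.2).1 (go rot z.1 z.2).2 = σ z.1) *
        (avgL b fun y => ind (A (go rot (rot (z.1, p)).1 y).1 (go rot (rot (z.1, p)).1 y).2 =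
          σ (rot (z.1, p)).1))) (go rot v x) := by
    intro v
    rw [avgL_append]
    apply avgL_congr
    intro x hx
    simp only [avgL]
    congr 1
    funext p
    have e2 : ∀ y : List P, term rot F A σ a v (x ++ p :: y) = F ((go rot v x).1, p) *
      ind (A v x = σ (go rot v x).1) *
      ind (A (go rot (rot ((go rot v x).1, p)).1 y).1
        (go rot (rot ((go rot v x).1, p)).1 y).2 = σ (rot ((go rot v x).1, p)).1) :=
      fun y => term_append rot F A σ a v x hx p y
    simp only [e2]
    rw [avgL_const_mul, go_go rot hinv]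
  have e3 : ∑ v, avgL (a + (b + 1)) (fun l => term rot F A σ a v l) =
      ∑ v, avg fun p => F (v, p) *
        (avgL a fun x => ind (A (go rot v x).1 (go rot v x).2 = σ v)) *
        (avgL b fun y => ind (A (go rot (rot (v, p)).1 y).1 (go rot (rot (v, p)).1 y).2 =
          σ (rot (v, p)).1)) := by
    refine (Finset.sum_congr rfl fun v _ => e1 v).trans ?_
    refine (sum_go rot hinv a (fun z : V × List P => avg fun p => F (z.1, p) *
        ind (A (go rot z.1 z.2).1 (go rot z.1 z.2).2 = σ z.1) *
        (avgL b fun y => ind (A (go rot (rot (z.1, p)).1 y).1 (go rot (rot (z.1, p)).1 y).2 =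
          σ (rot (z.1, p)).1)))).trans ?_
    apply Finset.sum_congr rfl
    intro v _
    simp only
    rw [← avg_avgL_comm]
    congr 1
    funext p
    have h := avgL_mul_const a
      (avgL b fun y => ind (A (go rot (rot (v, p)).1 y).1 (go rot (rot (v, p)).1 y).2 =
        σ (rot (v, p)).1))
      (fun x : List P => F (v, p) * ind (A (go rot v x).1 (go rot v x).2 = σ v))
    rw [avgL_const_mul] at h
    exact h
  unfold avg at e3 ⊢
  rw [e3]

theorem opin_lower [Nonempty S] (t : ℕ) (A : V → List P → S) (v : V) (s : S)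
    (hs : ∀ s', opin rot t A v s' ≤ opin rot t A v s) :
    (t : ℝ) / Fintype.card S ≤ opin rot t A v s := by
  have h1 : ∑ s', opin rot t A v s' = t := by
    unfold opin
    rw [Finset.sum_comm]
    have : ∀ a ∈ range t, ∑ s', avgL a (fun l => ind (A (go rot v l).1 (go rot v l).2 = s')) = 1 := by
      intro a _
      rw [← avgL_sum]
      have h2 : (fun l : List P => ∑ s', ind (A (go rot v l).1 (go rot v l).2 = s')) = fun _ => 1 := by
        funext l
        unfold ind
        rw [Finset.sum_ite_eq]
        simp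
      rw [h2, avgL_const]
    rw [Finset.sum_congr rfl this, Finset.sum_const, Finset.card_range, nsmul_eq_mul, mul_one]
  have hq : (0 : ℝ) < Fintype.card S := by exact_mod_cast Fintype.card_pos
  rw [div_le_iff₀ hq, ← h1]
  calc ∑ s', opin rot t A v s' ≤ ∑ _s' : S, opin rot t A v s := Finset.sum_le_sum fun s' _ => hs s'
    _ = opin rot t A v s * Fintype.card S := by
        rw [Finset.sum_const, Finset.card_univ, nsmul_eq_mul, mul_comm]

theorem opin_nonneg (t : ℕ) (A : V → List P → S) (v : V) (s : S) : 0 ≤ opin rot t A v s := by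
  unfold opin
  apply Finset.sum_nonneg
  intro a _
  have := avgL_mono (P := P) a (F := fun _ => 0)
    (G := fun l => ind (A (go rot v l).1 (go rot v l).2 = s)) (fun l _ => ind_nonneg _)
  rwa [avgL_zero] at this

/-- first moment -/
theorem first_moment (hinv : ∀ x, rot (rot x) = x) (F : V × P → ℝ) (hF0 : ∀ z, 0 ≤ F z)
    (A : V → List P → S) (σ : V → S) (t : ℕ) (ht : 0 < t)
    (hσ : ∀ v s, opin rot t A v s ≤ opin rot t A v (σ v)) :
    t / (2 * (Fintype.card S : ℝ) ^ 2) * (avg fun v => avg fun p => F (v, p)) ≤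
      avg fun v => avg fun L : Fin (2 * t - 1) => avgL (2 * t - 1) fun l =>
        NN rot F A σ t v L l := by
  have : Nonempty S := ⟨σ (Classical.arbitrary V)⟩
  have : Nonempty (Fin (2 * t - 1)) := ⟨⟨0, by omega⟩⟩
  set μ := avg fun v => avg fun p => F (v, p) with hμ
  have hμ0 : 0 ≤ μ := avg_nonneg fun v => avg_nonneg fun p => hF0 _
  have hq : (0 : ℝ) < Fintype.card S := by exact_mod_cast Fintype.card_pos
  have htR : (0 : ℝ) < t := by exact_mod_cast ht
  -- evaluate the inner averages
  have e1 : ∀ v, (avg fun L : Fin (2 * t - 1) => avgL (2 * t - 1) fun l => NN rot F A σ t v L l) =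
      (∑ a ∈ range t, ∑ b ∈ range t, avgL (a + (b + 1)) (fun l => term rot F A σ a v l)) /
        (2 * t - 1 : ℕ) := by
    intro v
    have e2 : ∀ L : Fin (2 * t - 1), (avgL (2 * t - 1) fun l => NN rot F A σ t v L l) =
        ∑ a ∈ range t, ∑ b ∈ range t,
          if a + b = (L : ℕ) then avgL (a + (b + 1)) (fun l => term rot F A σ a v l) else 0 := by
      intro L
      unfold NN
      rw [avgL_sum]
      apply Finset.sum_congr rfl
      intro a ha
      rw [avgL_sum]
      apply Finset.sum_congr rfl
      intro b hb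
      rw [Finset.mem_range] at ha hb
      split_ifs
      · exact avgL_take (a + b + 1) (2 * t - 1) (by omega) (fun l => term rot F A σ a v l)
      · exact avgL_zero _
    simp only [e2]
    unfold avg
    rw [Fintype.card_fin]
    congr 1
    rw [Finset.sum_comm]
    apply Finset.sum_congr rfl
    intro a ha
    rw [Finset.sum_comm]
    apply Finset.sum_congr rfl
    intro b hb
    rw [Finset.mem_range] at ha hb
    have e3 : ∀ L : Fin (2 * t - 1),
        (if a + b = (L : ℕ) then avgL (a + (b + 1)) (fun l => term rot F A σ a v l) else 0) =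
        if (⟨a + b, by omega⟩ : Fin (2 * t - 1)) = L then
          avgL (a + (b + 1)) (fun l => term rot F A σ a v l) else 0 := by
      intro L
      simp only [Fin.ext_iff]
    simp only [e3]
    rw [Finset.sum_ite_eq]
    simp
  simp only [e1]
  have e4 : (avg fun v => (∑ a ∈ range t, ∑ b ∈ range t,
        avgL (a + (b + 1)) (fun l => term rot F A σ a v l)) / ((2 * t - 1 : ℕ) : ℝ)) =
      (avg fun v => avg fun p => F (v, p) * opin rot t A v (σ v) *
        opin rot t A (rot (v, p)).1 (σ (rot (v, p)).1)) / ((2 * t - 1 : ℕ) : ℝ) := by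
    have e5 : (avg fun v => (∑ a ∈ range t, ∑ b ∈ range t,
        avgL (a + (b + 1)) (fun l => term rot F A σ a v l)) / ((2 * t - 1 : ℕ) : ℝ)) =
        (avg fun v => (∑ a ∈ range t, ∑ b ∈ range t,
        avgL (a + (b + 1)) (fun l => term rot F A σ a v l))) / ((2 * t - 1 : ℕ) : ℝ) := by
      simp only [div_eq_mul_inv]
      rw [avg_mul_const]
    rw [e5]
    congr 1
    rw [avg_sum]
    have e6 : ∀ v, (avg fun p => F (v, p) * opin rot t A v (σ v) *
        opin rot t A (rot (v, p)).1 (σ (rot (v, p)).1)) =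
        ∑ a ∈ range t, ∑ b ∈ range t, avg fun p => F (v, p) *
        (avgL a fun x => ind (A (go rot v x).1 (go rot v x).2 = σ v)) *
        (avgL b fun y => ind (A (go rot (rot (v, p)).1 y).1 (go rot (rot (v, p)).1 y).2 =
          σ (rot (v, p)).1)) := by
      intro v
      have : ∀ a ∈ range t, ∑ b ∈ range t, (avg fun p => F (v, p) *
        (avgL a fun x => ind (A (go rot v x).1 (go rot v x).2 = σ v)) *
        (avgL b fun y => ind (A (go rot (rot (v, p)).1 y).1 (go rot (rot (v, p)).1 y).2 =
          σ (rot (v, p)).1))) = avg fun p => ∑ b ∈ range t, F (v, p) *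
        (avgL a fun x => ind (A (go rot v x).1 (go rot v x).2 = σ v)) *
        (avgL b fun y => ind (A (go rot (rot (v, p)).1 y).1 (go rot (rot (v, p)).1 y).2 =
          σ (rot (v, p)).1)) := fun a _ => (avg_sum _ _).symm
      rw [Finset.sum_congr rfl this, ← avg_sum]
      congr 1
      funext p
      unfold opin
      rw [mul_assoc, Finset.sum_mul_sum, Finset.mul_sum]
      apply Finset.sum_congr rfl
      intro a _
      rw [Finset.mul_sum]
      apply Finset.sum_congr rfl
      intro b _
      ring
    simp only [e6]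
    rw [avg_sum]
    apply Finset.sum_congr rfl
    intro a _
    rw [avg_sum, avg_sum]
    apply Finset.sum_congr rfl
    intro b _
    exact first_pair rot hinv F A σ a b
  rw [e4]
  have e7 : (t / (Fintype.card S : ℝ)) ^ 2 * μ ≤
      avg fun v => avg fun p => F (v, p) * opin rot t A v (σ v) *
        opin rot t A (rot (v, p)).1 (σ (rot (v, p)).1) := by
    rw [hμ, ← avg_const_mul]
    apply avg_mono
    intro v
    rw [← avg_const_mul]
    apply avg_mono
    intro p
    have h1 := opin_lower rot t A v (σ v) (hσ v)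
    have h2 := opin_lower rot t A (rot (v, p)).1 (σ (rot (v, p)).1) (hσ _)
    have h3 := hF0 (v, p)
    have h4 : 0 ≤ (t : ℝ) / Fintype.card S := by positivity
    have h5 : ((t : ℝ) / Fintype.card S) * ((t : ℝ) / Fintype.card S) ≤
        opin rot t A v (σ v) * opin rot t A (rot (v, p)).1 (σ (rot (v, p)).1) :=
      mul_le_mul h1 h2 h4 (h4.trans h1)
    calc ((t : ℝ) / Fintype.card S) ^ 2 * F (v, p) =
          F (v, p) * (((t : ℝ) / Fintype.card S) * ((t : ℝ) / Fintype.card S)) := by ring
      _ ≤ F (v, p) * (opin rot t A v (σ v) * opin rot t A (rot (v, p)).1 (σ (rot (v, p)).1)) :=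
          mul_le_mul_of_nonneg_left h5 h3
      _ = _ := by ring
  have hn : (0 : ℝ) < ((2 * t - 1 : ℕ) : ℝ) := by
    have : 0 < 2 * t - 1 := by omega
    exact_mod_cast this
  rw [le_div_iff₀ hn]
  refine le_trans ?_ e7
  have hn2 : ((2 * t - 1 : ℕ) : ℝ) ≤ 2 * t := by
    have : 2 * t - 1 ≤ 2 * t := by omega
    exact_mod_cast this
  have h0 : 0 ≤ (t : ℝ) / (2 * (Fintype.card S : ℝ) ^ 2) * μ := by positivity
  calc (t : ℝ) / (2 * (Fintype.card S : ℝ) ^ 2) * μ * ((2 * t - 1 : ℕ) : ℝ) ≤
        (t : ℝ) / (2 * (Fintype.card S : ℝ) ^ 2) * μ * (2 * t) := mul_le_mul_of_nonneg_left hn2 h0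
    _ = (t / (Fintype.card S : ℝ)) ^ 2 * μ := by
        field_simp

end Main

section Final

open Classical

/-- Powering. -/
theorem powering {V P S : Type} [Fintype V] [Nonempty V] [Fintype P] [Nonempty P] [Fintype S]
    [DecidableEq S] (rot : V × P → V × P) (hinv : ∀ x, rot (rot x) = x)
    (c : V × P → S → S → Bool) (hc : ∀ x a b, c (rot x) b a = c x a b)
    (lam : ℝ) (h0 : 0 ≤ lam) (h1 : lam < 1)
    (hspec : ∀ f : V → ℝ, ∑ v, f v = 0 →
      ∑ v, (avg fun p => f (rot (v, p)).1) ^ 2 ≤ lam ^ 2 * ∑ v, f v ^ 2)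
    (t : ℕ) (ht : 0 < t) (A : V → List P → S) (σ : V → S)
    (hσ : ∀ v s, opin rot t A v s ≤ opin rot t A v (σ v)) :
    min (t * avg fun v => avg fun p => ind (c (v, p) (σ v) (σ (rot (v, p)).1) = false)) 1 /
        ((2 * (Fintype.card S : ℝ) ^ 2) ^ 2 * (6 + 4 / (1 - lam)) + 1) ≤
      avg fun v => avg fun L : Fin (2 * t - 1) => avgL (2 * t - 1) fun l =>
        ind (Rejects rot c t A v (l.take (L + 1))) := by
  have : Nonempty S := ⟨σ (Classical.arbitrary V)⟩
  have : Nonempty (Fin (2 * t - 1)) := ⟨⟨0, by omega⟩⟩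
  set F : V × P → ℝ := fun z => ind (c z (σ z.1) (σ (rot z).1) = false) with hF
  have hF0 : ∀ z, 0 ≤ F z := fun z => ind_nonneg _
  have hF1 : ∀ z, F z ≤ 1 := fun z => ind_le_one _
  have hFF : ∀ z, F z * F z = F z := by
    intro z
    simp only [hF]
    unfold ind
    split_ifs <;> simp
  have hFr : ∀ z, F (rot z) = F z := by
    intro z
    simp only [hF]
    rw [hinv z, hc z]
  set μ := avg fun v => avg fun p => F (v, p) with hμ
  have hμ0 : 0 ≤ μ := avg_nonneg fun v => avg_nonneg fun p => hF0 _
  set Pr := avg fun v => avg fun L : Fin (2 * t - 1) => avgL (2 * t - 1) fun l =>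
        ind (Rejects rot c t A v (l.take (L + 1))) with hPr
  change min (t * μ) 1 / _ ≤ Pr
  have hlam : 0 < 1 - lam := by linarith
  have hq : (0 : ℝ) < Fintype.card S := by exact_mod_cast Fintype.card_pos
  have htR : (0 : ℝ) < t := by exact_mod_cast ht
  have hPr0 : 0 ≤ Pr := by
    apply avg_nonneg
    intro v
    apply avg_nonneg
    intro L
    have := avgL_mono (P := P) (2 * t - 1) (F := fun _ => 0)
      (G := fun l => ind (Rejects rot c t A v (l.take (L + 1)))) (fun l _ => ind_nonneg _)
    rwa [avgL_zero] at this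
  set E1 := avg fun v => avg fun L : Fin (2 * t - 1) => avgL (2 * t - 1) fun l =>
        NN rot F A σ t v L l with hE1
  set E2 := avg fun v => avgL (2 * t - 1) fun l => (∑ i ∈ range (2 * t - 1), df rot F i v l) ^ 2
    with hE2
  have hfirst : t / (2 * (Fintype.card S : ℝ) ^ 2) * μ ≤ E1 :=
    first_moment rot hinv F hF0 A σ t ht hσ
  have hsecond := second_moment rot hinv lam h0 h1 hspec F hF0 hF1 hFr hFF (2 * t - 1)
  rw [← hE2, ← hμ] at hsecond
  -- the Cauchy-Schwarz inequality
  have hCS : ∀ r : ℝ, 0 < r → E1 ≤ (r * E2 + Pr / r) / 2 := by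
    intro r hr
    have h2 : E2 = avg fun v => avg fun _L : Fin (2 * t - 1) => avgL (2 * t - 1) fun l =>
        (∑ i ∈ range (2 * t - 1), df rot F i v l) ^ 2 := by
      simp only [avg_const]
      rfl
    have h3 : (r * E2 + Pr / r) / 2 = avg fun v => avg fun L : Fin (2 * t - 1) =>
        avgL (2 * t - 1) fun l => (r / 2) * (∑ i ∈ range (2 * t - 1), df rot F i v l) ^ 2 +
          (1 / (2 * r)) * ind (Rejects rot c t A v (l.take (L + 1))) := by
      simp only [avgL_add, avg_add, avgL_const_mul, avg_const_mul]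
      rw [← h2, ← hPr]
      field_simp
    rw [h3, hE1]
    apply avg_mono
    intro v
    apply avg_mono
    intro L
    apply avgL_mono
    intro l hl
    have hN0 := NN_nonneg rot F hF0 A σ t v L l
    have hN1 := NN_le rot F hF0 A σ t (2 * t - 1) (by omega) v L l
    by_cases hN : NN rot F A σ t v L l = 0
    · rw [hN]
      have : 0 ≤ ind (Rejects rot c t A v (l.take (L + 1))) := ind_nonneg _
      positivity
    · have hrej := NN_rejects rot c A σ t v L L.2 l hl hN
      rw [ind_true hrej]
      set N := NN rot F A σ t v L l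
      set D := ∑ i ∈ range (2 * t - 1), df rot F i v l
      have h4 : N ^ 2 ≤ D ^ 2 := pow_le_pow_left₀ hN0 hN1 2
      have h5 : N ≤ r / 2 * N ^ 2 + 1 / (2 * r) := by
        have : r / 2 * N ^ 2 + 1 / (2 * r) - N = (r * N - 1) ^ 2 / (2 * r) := by
          field_simp
          ring
        have h6 : 0 ≤ (r * N - 1) ^ 2 / (2 * r) := by positivity
        linarith
      have h7 : r / 2 * N ^ 2 ≤ r / 2 * D ^ 2 := mul_le_mul_of_nonneg_left h4 (by positivity)
      linarith
  have hE1nn : 0 ≤ E1 := le_trans (by positivity) hfirst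
  -- the case `μ = 0`
  rcases hμ0.eq_or_lt with hz | hpos
  · rw [← hz]
    have : min ((t : ℝ) * 0) 1 = 0 := by simp
    rw [this, zero_div]
    exact hPr0
  have hE1pos : 0 < E1 := lt_of_lt_of_le (by positivity) hfirst
  have hE2nn : 0 ≤ E2 := by
    apply avg_nonneg
    intro v
    have := avgL_mono (P := P) (2 * t - 1) (F := fun _ => 0)
      (G := fun l => (∑ i ∈ range (2 * t - 1), df rot F i v l) ^ 2) (fun l _ => sq_nonneg _)
    rwa [avgL_zero] at this
  have hE2pos : 0 < E2 := by
    rcases hE2nn.eq_or_lt with hz | hp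
    · exfalso
      have h2 := hCS ((Pr + 1) / E1) (by positivity)
      rw [← hz, mul_zero, zero_add] at h2
      have h3 : Pr / ((Pr + 1) / E1) / 2 < E1 := by
        rw [div_div_eq_mul_div, div_div, div_lt_iff₀ (by positivity)]
        nlinarith
      linarith
    · exact hp
  have hCS2 : E1 ^ 2 ≤ Pr * E2 := by
    have h2 := hCS (E1 / E2) (by positivity)
    have h3 : (E1 / E2 * E2 + Pr / (E1 / E2)) / 2 = (E1 + Pr * E2 / E1) / 2 := by
      field_simp
    rw [h3] at h2
    have h4 : E1 ≤ Pr * E2 / E1 := by linarith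
    rw [le_div_iff₀ hE1pos] at h4
    nlinarith
  -- numerical conclusion
  have hn2 : (((2 * t - 1 : ℕ) : ℝ)) ≤ 2 * t := by
    have : 2 * t - 1 ≤ 2 * t := by omega
    exact_mod_cast this
  have hn0 : (0 : ℝ) ≤ ((2 * t - 1 : ℕ) : ℝ) := Nat.cast_nonneg _
  have hE2le : E2 ≤ t * μ * (2 + 4 * (t * μ) + 4 / (1 - lam)) := by
    refine hsecond.trans ?_
    have h2 : ((2 * t - 1 : ℕ) : ℝ) * μ ≤ 2 * t * μ := mul_le_mul_of_nonneg_right hn2 hμ0
    have h3 : ((2 * t - 1 : ℕ) : ℝ) ^ 2 * μ ^ 2 ≤ (2 * t) ^ 2 * μ ^ 2 :=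
      mul_le_mul_of_nonneg_right (pow_le_pow_left₀ hn0 hn2 2) (sq_nonneg _)
    have h4 : 2 * ((2 * t - 1 : ℕ) : ℝ) * (μ / (1 - lam)) ≤ 2 * (2 * t) * (μ / (1 - lam)) := by
      apply mul_le_mul_of_nonneg_right _ (by positivity)
      linarith
    have h5 : (t : ℝ) * μ * (2 + 4 * (t * μ) + 4 / (1 - lam)) =
        2 * t * μ + ((2 * t) ^ 2 * μ ^ 2 + 2 * (2 * t) * (μ / (1 - lam))) := by
      field_simp
      ring
    rw [h5]
    linarith
  set q := (Fintype.card S : ℝ) with hqdef
  set K := 4 / (1 - lam) with hK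
  have hK0 : 0 < K := by positivity
  have hsq : (t / (2 * q ^ 2) * μ) ^ 2 ≤ E1 ^ 2 := pow_le_pow_left₀ (by positivity) hfirst 2
  set w := (t : ℝ) * μ with hw
  have hw0 : 0 < w := by positivity
  have hmain : w ^ 2 / (2 * q ^ 2) ^ 2 ≤ Pr * (w * (2 + 4 * w + K)) := by
    calc w ^ 2 / (2 * q ^ 2) ^ 2 = (t / (2 * q ^ 2) * μ) ^ 2 := by rw [hw]; field_simp
      _ ≤ E1 ^ 2 := hsq
      _ ≤ Pr * E2 := hCS2
      _ ≤ Pr * (w * (2 + 4 * w + K)) := mul_le_mul_of_nonneg_left hE2le hPr0
  have hmain2 : w ≤ Pr * (2 + 4 * w + K) * (2 * q ^ 2) ^ 2 := by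
    rw [div_le_iff₀ (by positivity)] at hmain
    have : w * w ≤ w * (Pr * (2 + 4 * w + K) * (2 * q ^ 2) ^ 2) := by nlinarith
    exact le_of_mul_le_mul_left this hw0
  rw [div_le_iff₀ (by positivity)]
  set B := (2 * q ^ 2) ^ 2 with hB
  have hB0 : 0 < B := by positivity
  rcases le_total w 1 with hw1 | hw1
  · rw [min_eq_left hw1]
    have h2 : Pr * (2 + 4 * w + K) * B ≤ Pr * (6 + K) * B := by
      apply mul_le_mul_of_nonneg_right _ hB0.le
      apply mul_le_mul_of_nonneg_left _ hPr0
      linarith
    have h3 : Pr * (B * (6 + K) + 1) = Pr * (6 + K) * B + Pr := by ring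
    rw [h3]
    linarith
  · rw [min_eq_right hw1]
    have h2 : 2 + 4 * w + K ≤ w * (6 + K) := by
      have : 0 ≤ (w - 1) * (2 + K) := mul_nonneg (sub_nonneg.2 hw1) (by positivity)
      have e : w * (6 + K) - (2 + 4 * w + K) = (w - 1) * (2 + K) := by ring
      linarith
    have h3 : w ≤ w * (Pr * (6 + K) * B) := by
      calc w ≤ Pr * (2 + 4 * w + K) * B := hmain2
        _ ≤ Pr * (w * (6 + K)) * B := by
            apply mul_le_mul_of_nonneg_right _ hB0.le
            exact mul_le_mul_of_nonneg_left h2 hPr0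
        _ = w * (Pr * (6 + K) * B) := by ring
    have h4 : 1 ≤ Pr * (6 + K) * B := by
      have : w * 1 ≤ w * (Pr * (6 + K) * B) := by rw [mul_one]; exact h3
      exact le_of_mul_le_mul_left this hw0
    have h5 : Pr * (B * (6 + K) + 1) = Pr * (6 + K) * B + Pr := by ring
    rw [h5]
    linarith

end Final

end Pool.Agent.PCP.Pow

namespace Pool.Agent.PCP

export Pow (powering)

end Pool.Agent.PCP
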