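import Pool.Agent.Lib.PolyTime.Sum
import Pool.Agent.Lib.CookLevin.Tableau

/-!
# Machines working on plain bit strings (adapted from `CookLevin/Raw.lean`, by helper29, to
functions on arbitrary encoded types and numbers in binary)
-/

namespace Pool.Agent.PCP.Raw

open Pool.Agent.PolyTime Pool.Agent.PolyTime.SP

theorem runs_loop_nil {P : SP} {m a b : List Bool} :
    Runs (loop Reg.c P) (mk m a b []) (mk m a b []) 1 :=
  ⟨1, le_refl _, Run.loop_nil rfl⟩

theorem runs_loop_a_nil {P : SP} {m b c : List Bool} :
    Runs (loop Reg.a P) (mk m [] b c) (mk m [] b c) 1 :=
  ⟨1, le_refl _, Run.loop_nil rfl⟩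

theorem runs_pop_m_nil {P Q R : SP} {a b c : List Bool} {s : St} {n : ℕ}
    (h : Runs R (mk [] a b c) s n) : Runs (pop Reg.m P Q R) (mk [] a b c) s (n + 1) := by
  obtain ⟨t, ht, h⟩ := h
  exact ⟨t + 1, by omega, Run.pop_nil rfl h⟩

/-- push a marked bit on `a` and continue the loop on `c` -/
def putBit (b : Bool) : SP := (push Reg.a b).seq ((push Reg.a true).seq (push Reg.c true))

/-- read a bit of a plain word -/
def readBody : SP := pop Reg.m (putBit true) (putBit false) skip

/-- the word as marked stack -/
def marked : List Bool → List Bool → List Bool
  | [], A => A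
  | x :: l, A => marked l (true :: x :: A)

theorem marked_append (l l' A : List Bool) : marked (l ++ l') A = marked l' (marked l A) := by
  induction l generalizing A with
  | nil => rfl
  | cons x l ih => simp [marked, ih]

theorem putBit_runs (x : Bool) (m a b c : List Bool) :
    Runs (putBit x) (mk m a b c) (mk m (true :: x :: a) b (true :: c)) 3 :=
  Runs.seq Runs.push_a (Runs.seq Runs.push_a Runs.push_c)

theorem read_runs (l : List Bool) : ∀ a b : List Bool,
    Runs (loop Reg.c readBody) (mk l a b [true]) (mk [] (marked l a) b []) (5 * l.length + 4) := by
  induction l with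
  | nil =>
    intro a b
    exact Runs.mono (Runs.loop_c_true (runs_pop_m_nil (Runs.skip _)) runs_loop_nil) (by simp)
  | cons x l ih =>
    intro a b
    have h := ih (true :: x :: a) b
    refine Runs.mono (Runs.loop_c_true (s := mk l (true :: x :: a) b [true]) (n := 4) ?_ h)
      (by simp; omega)
    cases x
    · exact Runs.pop_m_false (putBit_runs _ _ _ _ _)
    · exact Runs.pop_m_true (putBit_runs _ _ _ _ _)

/-- body of the loop writing the code of a list of bits -/
def writeBody : SP := pop Reg.a
  ((push Reg.m false).seq ((push Reg.m false).seq ((push Reg.m true).seq (push Reg.m true))))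
  ((push Reg.m false).seq (push Reg.m true)) skip

theorem bits_cons_true (l : List Bool) :
    bits (enc (true :: l)) = true :: true :: false :: false :: bits (enc l) := rfl

theorem bits_cons_false (l : List Bool) :
    bits (enc (false :: l)) = true :: false :: bits (enc l) := rfl

theorem write_runs (l : List Bool) : ∀ l' b c : List Bool,
    Runs (loop Reg.a writeBody) (mk (bits (enc l')) (marked l []) b c)
      (mk (bits (enc (l ++ l'))) [] b c) (6 * l.length + 1) := by
  induction l using List.reverseRecOn with
  | nil => intro l' b c; exact Runs.mono runs_loop_a_nil (by simp)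
  | append_singleton l x ih =>
    intro l' b c
    have h := ih (x :: l') b c
    rw [marked_append, List.append_assoc, List.singleton_append]
    refine Runs.mono (Runs.loop_a_true (s := mk (bits (enc (x :: l'))) (marked l []) b c)
      (n := 5) ?_ h) (by simp; omega)
    cases x
    · rw [bits_cons_false]
      exact Runs.mono (Runs.pop_a_false (Runs.seq Runs.push_m Runs.push_m)) (by omega)
    · rw [bits_cons_true]
      exact Runs.pop_a_true (Runs.seq Runs.push_m (Runs.seq Runs.push_m
        (Runs.seq Runs.push_m Runs.push_m)))

/-- from plain words to codes -/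
def toCode : SP := (push Reg.c true).seq ((loop Reg.c readBody).seq
  ((push Reg.m false).seq (loop Reg.a writeBody)))

theorem toCode_runs (l : List Bool) :
    Runs toCode (mk l [] [] []) (mk (bits (enc l)) [] [] []) (11 * l.length + 7) := by
  have h := write_runs l [] [] []
  rw [List.append_nil] at h
  exact Runs.mono (Runs.seq Runs.push_c (Runs.seq (read_runs l [] [])
    (Runs.seq Runs.push_m h))) (by omega)

/-- read an element of a coded list of bits -/
def parseBody : SP := pop Reg.m
  (pop Reg.m ((pop Reg.m skip skip skip).seq ((pop Reg.m skip skip skip).seq (putBit true)))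
    (putBit false) skip) skip skip

theorem parse_runs (l : List Bool) : ∀ a b : List Bool,
    Runs (loop Reg.c parseBody) (mk (bits (enc l)) a b [true]) (mk [] (marked l a) b [])
      (10 * l.length + 4) := by
  induction l with
  | nil =>
    intro a b
    exact Runs.mono (Runs.loop_c_true (n := 2) (n' := 1) (s := mk [] a b [])
      (Runs.pop_m_false (Runs.skip _)) runs_loop_nil) (by simp)
  | cons x l ih =>
    intro a b
    have h := ih (true :: x :: a) b
    refine Runs.mono (Runs.loop_c_true (s := mk (bits (enc l)) (true :: x :: a) b [true])
      (n := 9) ?_ h) (by simp; omega)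
    cases x
    · rw [bits_cons_false]
      exact Runs.mono (Runs.pop_m_true (Runs.pop_m_false (putBit_runs _ _ _ _ _))) (by omega)
    · rw [bits_cons_true]
      exact Runs.mono (Runs.pop_m_true (Runs.pop_m_true (Runs.seq
        (Runs.pop_m_false (Runs.skip _)) (Runs.seq (Runs.pop_m_false (Runs.skip _))
          (putBit_runs _ _ _ _ _))))) (by omega)

/-- move the marked word back -/
def back : SP := loop Reg.a (pop Reg.a (push Reg.m true) (push Reg.m false) skip)

theorem back_runs (l : List Bool) : ∀ m b c : List Bool,
    Runs back (mk m (marked l []) b c) (mk (l ++ m) [] b c) (3 * l.length + 1) := by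
  induction l using List.reverseRecOn with
  | nil => intro m b c; exact Runs.mono runs_loop_a_nil (by simp)
  | append_singleton l x ih =>
    intro m b c
    have h := ih (x :: m) b c
    rw [marked_append, List.append_assoc, List.singleton_append]
    refine Runs.mono (Runs.loop_a_true (s := mk (x :: m) (marked l []) b c)
      (n := 2) ?_ h) (by simp; omega)
    cases x
    · exact Runs.pop_a_false Runs.push_m
    · exact Runs.pop_a_true Runs.push_m

/-- from codes to plain words -/
def ofCode : SP := (push Reg.c true).seq ((loop Reg.c parseBody).seq back)

theorem ofCode_runs (l : List Bool) :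
    Runs ofCode (mk (bits (enc l)) [] [] []) (mk l [] [] []) (13 * l.length + 6) := by
  have h := back_runs l [] [] []
  rw [List.append_nil] at h
  exact Runs.mono (Runs.seq Runs.push_c (Runs.seq (parse_runs l [] []) h)) (by omega)

theorem size_bits (l : List Bool) : size (enc l) ≤ 4 * l.length + 1 := by
  induction l with
  | nil => simp [enc_nil]
  | cons x l ih =>
    rw [size_lcons]
    have : size (enc x) ≤ 3 := by cases x <;> simp [enc_true, enc_false]
    simp only [List.length_cons]
    omega

/-- If `g` is a polynomial-time function on (certain) words, then every function which is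
represented by `g` is computed in polynomial time by a Turing machine working on plain bit
strings. -/
theorem toMachine {Z : Type} [Enc Z] (word : Z → List Bool) (hw : ∀ z, enc z = enc (word z))
    {g : Z → List Bool} (hg : PTime g) {α β : Type} {ea : α → Z} {eb : β → List Bool}
    {f : α → β} (h : ∀ x, eb (f x) = g (ea x)) :
    Nonempty (Turing.TM2ComputableInPolyTime (fun x => word (ea x)) eb f) := by
  obtain ⟨P, S, ⟨p, hp⟩, hSm, hP, hPs⟩ := hg.elim
  let prog : SP := toCode.seq (P.seq ofCode)
  let q : Polynomial ℕ := (11 * Polynomial.X + 7) + (p.comp (4 * Polynomial.X + 1) +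
    (13 * p.comp (4 * Polynomial.X + 1) + 6)) + 1
  have hq : ∀ n, q.eval n = (11 * n + 7) + (p.eval (4 * n + 1) + (13 * p.eval (4 * n + 1) + 6)) +
      1 := by
    intro n
    simp [q, Polynomial.eval_comp]
  have key : ∀ x : α, Nonempty (Turing.TM2OutputsInTime (toTM prog) (word (ea x))
      (Option.some (eb (f x))) (q.eval (word (ea x)).length)) := by
    intro x
    rw [h x, hq]
    have hS : S (size (enc (ea x))) ≤ p.eval (4 * (word (ea x)).length + 1) := by
      rw [hw]
      exact (hSm (size_bits _)).trans (hp _)
    have h1 := toCode_runs (word (ea x))
    have h2 := hP (ea x) [] [] [] []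
    rw [List.append_nil, List.append_nil, hw (ea x)] at h2
    have h3 := ofCode_runs (g (ea x))
    have hlen : (g (ea x)).length ≤ p.eval (4 * (word (ea x)).length + 1) := by
      have := length_le_size (g (ea x))
      have := hPs (ea x)
      omega
    rw [← hw (ea x)] at h2
    obtain ⟨t, ht, hr⟩ := Runs.seq h1 (Runs.seq (by rw [← hw (ea x)]; exact h2) h3)
    obtain ⟨ho⟩ := toTM_outputs hr
    exact ⟨⟨ho.toEvalsTo, ho.steps_le_m.trans (by omega)⟩⟩
  have key' : ∀ (x : α) (l l' : List Bool), l = word (ea x) → l' = eb (f x) →
      Nonempty (Turing.TM2OutputsInTime (toTM prog) l (Option.some l')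
        (q.eval (word (ea x)).length)) := by
    rintro x _ _ rfl rfl
    exact key x
  exact ⟨{ tm := toTM prog, inputAlphabet := Equiv.refl Bool, outputAlphabet := Equiv.refl Bool,
            time := q, outputsFun := fun x => Classical.choice
              (key' x _ _ (List.map_id _) (List.map_id _)) }⟩

/-- The code of a pair of bit strings `(x, u)`: each bit of `x` is preceded by `1`, then `0` and
`u` follow. -/
def pairWord (x u : List Bool) : List Bool :=
  x.flatMap (fun b => [true, b]) ++ false :: u

/-- Decoding of pairs. State: are we in the second part, is a bit of the first part expected,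
the two parts read so far (reversed). -/
def unpairStep (s : (Bool × Bool) × (List Bool × List Bool)) (b : Bool) :
    (Bool × Bool) × (List Bool × List Bool) :=
  if s.1.1 = true then (s.1, (s.2.1, b :: s.2.2))
  else if s.1.2 = true then ((false, false), (b :: s.2.1, s.2.2))
  else if b = true then ((false, true), s.2)
  else ((true, false), s.2)

/-- Decoding of pairs. -/
def unpair (w : List Bool) : List Bool × List Bool :=
  let s := w.foldl unpairStep ((false, false), ([], []))
  (s.2.1.reverse, s.2.2.reverse)

theorem unpair_pairWord (x u : List Bool) : unpair (pairWord x u) = (x, u) := by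
  have h1 : ∀ (u X U : List Bool), u.foldl unpairStep ((true, false), (X, U)) =
      ((true, false), (X, u.reverse ++ U)) := by
    intro u
    induction u with
    | nil => intro X U; rfl
    | cons b u ih =>
      intro X U
      rw [List.foldl_cons]
      change u.foldl unpairStep ((true, false), (X, b :: U)) = _
      rw [ih]
      simp
  have h2 : ∀ (x X U : List Bool), (x.flatMap (fun b => [true, b])).foldl unpairStep
      ((false, false), (X, U)) = ((false, false), (x.reverse ++ X, U)) := by
    intro x
    induction x with
    | nil => intro X U; rfl
    | cons b x ih =>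
      intro X U
      rw [List.flatMap_cons, List.foldl_append]
      change (x.flatMap (fun b => [true, b])).foldl unpairStep ((false, false), (b :: X, U)) = _
      rw [ih]
      simp
  unfold unpair pairWord
  simp only
  rw [List.foldl_append, h2, List.foldl_cons]
  have e : unpairStep ((false, false), (x.reverse ++ [], [])) false =
    ((true, false), (x.reverse ++ [], [])) := rfl
  rw [e, h1]
  simp

theorem ptime_unpair : PTime unpair := by
  have hstep : PTime (fun p : List Bool × (((Bool × Bool) × (List Bool × List Bool)) × Bool) =>
      unpairStep p.2.1 p.2.2) := by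
    have s : PTime (fun p : List Bool × (((Bool × Bool) × (List Bool × List Bool)) × Bool) =>
        p.2.1) := PTime.fst.comp PTime.snd
    have b : PTime (fun p : List Bool × (((Bool × Bool) × (List Bool × List Bool)) × Bool) =>
        p.2.2) := PTime.snd.comp PTime.snd
    have s1 := PTime.fst.comp s
    have s11 := PTime.fst.comp s1
    have s12 := PTime.snd.comp s1
    have s2 := PTime.snd.comp s
    have s21 := PTime.fst.comp s2
    have s22 := PTime.snd.comp s2
    unfold unpairStep
    exact PTime.ite s11 (s1.pair (s21.pair (b.cons s22)))
      (PTime.ite s12 ((PTime.const (false, false)).pair ((b.cons s21).pair s22))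
        (PTime.ite b ((PTime.const (false, true)).pair s2) ((PTime.const (true, false)).pair s2)))
  have hb : ∀ (l : List Bool) (s : (Bool × Bool) × (List Bool × List Bool)),
      size (enc (l.foldl unpairStep s)) ≤ size (enc s) + 8 * l.length := by
    intro l
    induction l with
    | nil => intro s; simp
    | cons b l ih =>
      intro s
      rw [List.foldl_cons, List.length_cons]
      refine (ih _).trans ?_
      have : size (enc (unpairStep s b)) ≤ size (enc s) + 8 := by
        obtain ⟨⟨p, q⟩, X, U⟩ := s
        cases p <;> cases q <;> cases b <;>
          simp [unpairStep, size_pair, size_lcons, enc_true, enc_false] <;> omega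
      omega
  have hfold : PTime (fun w : List Bool => w.foldl unpairStep ((false, false), ([], []))) := by
    refine PTime.foldl (h := fun (_ : List Bool) s b => unpairStep s b) PTime.id (PTime.const _)
      hstep (B := fun n => size (enc (((false, false), ([], [])) :
        (Bool × Bool) × (List Bool × List Bool))) + 8 * n) ((PBd.const _).add
        ((PBd.const 8).mul PBd.id)) ?_
    intro a l₁ l₂ h
    refine (hb l₁ _).trans ?_
    have h1 := length_le_size a
    have h2 : l₁.length ≤ a.length := by rw [h]; simp
    omega
  unfold unpair
  exact (PTime.reverse (PTime.fst.comp (PTime.snd.comp hfold))).pair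
    (PTime.reverse (PTime.snd.comp (PTime.snd.comp hfold)))


end Pool.Agent.PCP.Raw
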