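import Pool.Agent.Lib.PCP.Expander
import Pool.Agent.Lib.PCP.CG
import Pool.Agent.Lib.PCP.PowerDefs

/-!
# The regular expanding constraint graph on the darts of a constraint graph

The vertices are the darts `x < 2m`, dart `x` being the end number `x % 2` of the edge number
`x / 2`.  Ports: the other end of the edge; an expander with equality constraints on the darts at
the same vertex; an expander with trivial constraints on all darts; loops.
-/

namespace Pool.Agent.PCP

open Finset BigOperators

/-- ports that are not loops -/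
abbrev NP := Unit ⊕ (XP ⊕ XP)

/-- ports -/
abbrev HP := NP ⊕ Fin 65

instance : DecidableEq (XP ⊕ XP) := inferInstance
instance : DecidableEq NP := @instDecidableEqSum Unit (XP ⊕ XP) _ _
instance : DecidableEq HP := @instDecidableEqSum NP (Fin 65) _ _

section defs
variable {q : ℕ}

/-- vertex of a dart -/
def vtx (E : List (ℕ × ℕ × Rel q)) (x : ℕ) : ℕ :=
  if x % 2 = 0 then (E.getD (x / 2) (0, 0, fun _ _ => true)).1
  else (E.getD (x / 2) (0, 0, fun _ _ => true)).2.1

/-- the other dart of the edge -/
def mate (x : ℕ) : ℕ := if x % 2 = 0 then x + 1 else x - 1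

/-- the darts at a vertex -/
def cloud (E : List (ℕ × ℕ × Rel q)) (y : ℕ) : List ℕ :=
  (List.range (2 * E.length)).filter fun x => decide (vtx E x = y)

/-- position of a dart in its cloud -/
def pos (E : List (ℕ × ℕ × Rel q)) (x : ℕ) : ℕ :=
  ((cloud E (vtx E x)).filter fun y => decide (y < x)).length

/-- rotation map -/
def hrot (E : List (ℕ × ℕ × Rel q)) (x : ℕ) : HP → ℕ × HP
  | Sum.inl (Sum.inl _) => (mate x, Sum.inl (Sum.inl ()))
  | Sum.inl (Sum.inr (Sum.inl p)) =>
      ((cloud E (vtx E x)).getD (xrot (cloud E (vtx E x)).length (pos E x) p).1 0,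
        Sum.inl (Sum.inr (Sum.inl (xrot (cloud E (vtx E x)).length (pos E x) p).2)))
  | Sum.inl (Sum.inr (Sum.inr p)) =>
      ((xrot (2 * E.length) x p).1, Sum.inl (Sum.inr (Sum.inr (xrot (2 * E.length) x p).2)))
  | Sum.inr i => (x, Sum.inr i)

/-- constraints -/
def hcon (E : List (ℕ × ℕ × Rel q)) (x : ℕ) : HP → Rel q
  | Sum.inl (Sum.inl _) => fun a b =>
      if x % 2 = 0 then (E.getD (x / 2) (0, 0, fun _ _ => true)).2.2 a b
      else (E.getD (x / 2) (0, 0, fun _ _ => true)).2.2 b a
  | Sum.inl (Sum.inr (Sum.inl _)) => fun a b => decide (a = b)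
  | Sum.inl (Sum.inr (Sum.inr _)) => fun _ _ => true
  | Sum.inr _ => fun _ _ => true

end defs

/-! ### Basic facts -/

theorem mate_lt {N x : ℕ} (h : x < 2 * N) : mate x < 2 * N := by
  unfold mate; split <;> omega

theorem mate_mate (x : ℕ) : mate (mate x) = x := by
  unfold mate; split <;> split <;> omega

theorem mate_div (x : ℕ) : mate x / 2 = x / 2 := by
  unfold mate; split <;> omega

theorem mate_mod (x : ℕ) : mate x % 2 = 1 - x % 2 := by
  unfold mate; split <;> omega

/-- In a strictly increasing list, the number of elements below the `j`-th one is `j`. -/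
theorem filter_lt_getElem (D : List ℕ) (hD : D.Pairwise (· < ·)) (j : ℕ) (hj : j < D.length) :
    (D.filter fun y => decide (y < D[j])).length = j := by
  have h1 : ∀ c : ℕ, D.filter (fun y => decide (y < c)) =
      (D.take j).filter (fun y => decide (y < c)) ++ (D.drop j).filter
        (fun y => decide (y < c)) := by
    intro c
    rw [← List.filter_append, List.take_append_drop]
  rw [h1, List.length_append]
  have e1 : ((D.take j).filter fun y => decide (y < D[j])) = D.take j := by
    rw [List.filter_eq_self]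
    intro y hy
    obtain ⟨i, hi, rfl⟩ := List.mem_iff_getElem.1 hy
    rw [List.getElem_take]
    rw [List.length_take] at hi
    have := List.pairwise_iff_getElem.1 hD i j (by omega) hj (by omega)
    simpa using this
  have e2 : ((D.drop j).filter fun y => decide (y < D[j])) = [] := by
    rw [List.filter_eq_nil_iff]
    intro y hy
    obtain ⟨i, hi, rfl⟩ := List.mem_iff_getElem.1 hy
    rw [List.getElem_drop]
    rw [List.length_drop] at hi
    simp only [decide_eq_true_eq, not_lt]
    rcases Nat.eq_zero_or_pos i with rfl | hi0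
    · simp
    · exact (List.pairwise_iff_getElem.1 hD j (j + i) hj (by omega) (by omega)).le
  rw [e1, e2, List.length_take, List.length_nil]
  omega

section facts
variable {q : ℕ} (E : List (ℕ × ℕ × Rel q))

theorem mem_cloud {x y : ℕ} : x ∈ cloud E y ↔ x < 2 * E.length ∧ vtx E x = y := by
  simp [cloud]

theorem cloud_pairwise (y : ℕ) : (cloud E y).Pairwise (· < ·) :=
  List.Pairwise.filter _ List.pairwise_lt_range

theorem cloud_nodup (y : ℕ) : (cloud E y).Nodup :=
  (cloud_pairwise E y).imp fun h => Nat.ne_of_lt h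

theorem pos_getElem (y : ℕ) (j : ℕ) (hj : j < (cloud E y).length) :
    pos E ((cloud E y)[j]) = j := by
  have h1 : vtx E ((cloud E y)[j]) = y := ((mem_cloud E).1 (List.getElem_mem hj)).2
  unfold pos
  rw [h1]
  exact filter_lt_getElem _ (cloud_pairwise E y) j hj

theorem pos_lt {x : ℕ} (hx : x < 2 * E.length) : pos E x < (cloud E (vtx E x)).length := by
  obtain ⟨j, hj, h⟩ := List.mem_iff_getElem.1 ((mem_cloud E).2 ⟨hx, rfl⟩ :
    x ∈ cloud E (vtx E x))
  have := pos_getElem E _ j hj
  rw [h] at this
  rw [this]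
  exact hj

theorem getElem_pos {x : ℕ} (hx : x < 2 * E.length) :
    (cloud E (vtx E x))[pos E x]'(pos_lt E hx) = x := by
  obtain ⟨j, hj, h⟩ := List.mem_iff_getElem.1 ((mem_cloud E).2 ⟨hx, rfl⟩ :
    x ∈ cloud E (vtx E x))
  have := pos_getElem E _ j hj
  rw [h] at this
  simp only [this]
  exact h

theorem getD_pos {x : ℕ} (hx : x < 2 * E.length) :
    (cloud E (vtx E x)).getD (pos E x) 0 = x := by
  rw [List.getD_eq_getElem _ _ (pos_lt E hx)]
  exact getElem_pos E hx

theorem pos_getD (y j : ℕ) (hj : j < (cloud E y).length) : pos E ((cloud E y).getD j 0) = j := by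
  rw [List.getD_eq_getElem _ _ hj]
  exact pos_getElem E y j hj

theorem getD_mem (y j : ℕ) (hj : j < (cloud E y).length) : (cloud E y).getD j 0 ∈ cloud E y := by
  rw [List.getD_eq_getElem _ _ hj]
  exact List.getElem_mem hj

theorem hrot_lt {x : ℕ} (hx : x < 2 * E.length) (p : HP) : (hrot E x p).1 < 2 * E.length := by
  rcases p with (_ | p | p) | i
  · exact mate_lt hx
  · have h1 := xrot_lt (pos_lt E hx) p
    exact ((mem_cloud E).1 (getD_mem E _ _ h1)).1
  · exact xrot_lt hx p
  · exact hx

theorem hrot_vtx {x : ℕ} (hx : x < 2 * E.length) (p : XP) :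
    vtx E (hrot E x (Sum.inl (Sum.inr (Sum.inl p)))).1 = vtx E x :=
  ((mem_cloud E).1 (getD_mem E _ _ (xrot_lt (pos_lt E hx) p))).2

theorem hrot_inv {x : ℕ} (hx : x < 2 * E.length) (p : HP) :
    hrot E (hrot E x p).1 (hrot E x p).2 = (x, p) := by
  rcases p with (_ | p | p) | i
  · change (mate (mate x), _) = _
    rw [mate_mate]
  · have h1 := xrot_lt (pos_lt E hx) p
    have h2 := xrot_inv (pos_lt E hx) p
    have h3 := hrot_vtx E hx p
    have h4 : pos E (hrot E x (Sum.inl (Sum.inr (Sum.inl p)))).1 =
        (xrot (cloud E (vtx E x)).length (pos E x) p).1 := pos_getD E _ _ h1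
    change hrot E (hrot E x (Sum.inl (Sum.inr (Sum.inl p)))).1
      (Sum.inl (Sum.inr (Sum.inl (xrot (cloud E (vtx E x)).length (pos E x) p).2))) = _
    generalize (hrot E x (Sum.inl (Sum.inr (Sum.inl p)))).1 = z at h3 h4 ⊢
    simp only [hrot, h3, h4, h2]
    rw [getD_pos E hx]
  · have h2 := xrot_inv hx p
    simp only [hrot, h2]
  · rfl

theorem hcon_symm {x : ℕ} (p : HP) (a b : Fin q) :
    hcon E (hrot E x p).1 (hrot E x p).2 b a = hcon E x p a b := by
  rcases p with (_ | p | p) | i
  · simp only [hrot, hcon, mate_div, mate_mod]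
    rcases Nat.mod_two_eq_zero_or_one x with h | h
    · simp [h]
    · simp [h]
  · simp only [hrot, hcon]
    by_cases h : a = b
    · simp [h]
    · simp [h, Ne.symm h]
  · rfl
  · rfl

/-! ### Sums over clouds -/

theorem sum_cloud (y : ℕ) (g : ℕ → ℝ) :
    ∑ x ∈ (range (2 * E.length)).filter (fun x => vtx E x = y), g x =
      ∑ j ∈ range (cloud E y).length, g ((cloud E y).getD j 0) := by
  symm
  refine Finset.sum_nbij' (fun j => (cloud E y).getD j 0) (fun x => pos E x) ?_ ?_ ?_ ?_ ?_
  · intro j hj
    have := (mem_cloud E).1 (getD_mem E y j (Finset.mem_range.1 hj))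
    simp only [Finset.mem_filter, Finset.mem_range]
    exact this
  · intro x hx
    simp only [Finset.mem_filter, Finset.mem_range] at hx ⊢
    have := pos_lt E hx.1
    rwa [hx.2] at this
  · intro j hj
    exact pos_getD E y j (Finset.mem_range.1 hj)
  · intro x hx
    simp only [Finset.mem_filter, Finset.mem_range] at hx
    have := getD_pos E hx.1
    rwa [hx.2] at this
  · intro j _
    rfl

/-- Poincaré inequality on a cloud. -/
theorem cloud_poincare (y : ℕ) (f : ℕ → ℝ)
    (h0 : ∑ x ∈ (range (2 * E.length)).filter (fun x => vtx E x = y), f x = 0) :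
    (7 / 5 : ℝ) * ∑ x ∈ (range (2 * E.length)).filter (fun x => vtx E x = y), f x ^ 2 ≤
      ∑ x ∈ (range (2 * E.length)).filter (fun x => vtx E x = y),
        ∑ p : XP, (f x - f (hrot E x (Sum.inl (Sum.inr (Sum.inl p)))).1) ^ 2 := by
  rw [sum_cloud] at h0
  rw [sum_cloud E y (fun x => f x ^ 2), sum_cloud E y (fun x => ∑ p : XP, (f x -
    f (hrot E x (Sum.inl (Sum.inr (Sum.inl p)))).1) ^ 2)]
  rcases Nat.eq_zero_or_pos (cloud E y).length with h | h
  · rw [h]; simp
  · refine (xrot_poincare h (fun j => f ((cloud E y).getD j 0)) h0).trans (le_of_eq ?_)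
    refine Finset.sum_congr rfl fun j hj => ?_
    have hj' := Finset.mem_range.1 hj
    refine Finset.sum_congr rfl fun p _ => ?_
    have h1 := (mem_cloud E).1 (getD_mem E y j hj')
    have h2 : (hrot E ((cloud E y).getD j 0) (Sum.inl (Sum.inr (Sum.inl p)))).1 =
        (cloud E y).getD (xrot (cloud E y).length j p).1 0 := by
      simp only [hrot, h1.2, pos_getD E y j hj']
    rw [h2]

end facts

end Pool.Agent.PCP
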