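import Pool.Agent.Lib.PCP.Regular

/-!
# Spectral gap of the regular graph
-/

namespace Pool.Agent.PCP

open Finset BigOperators

section
variable {q : ℕ} (E : List (ℕ × ℕ × Rel q))

/-- the rotation map on the finite type of darts -/
def rotF : Fin (2 * E.length) × HP → Fin (2 * E.length) × HP := fun z =>
  (⟨(hrot E z.1 z.2).1, hrot_lt E z.1.2 z.2⟩, (hrot E z.1 z.2).2)

theorem rotF_inv (z : Fin (2 * E.length) × HP) : rotF E (rotF E z) = z := by
  have h := hrot_inv E z.1.2 z.2
  obtain ⟨h1, h2⟩ := Prod.mk.inj h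
  exact Prod.ext (Fin.ext h1) h2

/-- constraints on the finite type of darts -/
def conF (z : Fin (2 * E.length) × HP) : Rel q := hcon E z.1 z.2

theorem conF_symm (z : Fin (2 * E.length) × HP) (a b : Fin q) :
    conF E (rotF E z) b a = conF E z a b := hcon_symm E z.2 a b

/-- The constant of the spectral gap. -/
noncomputable def lam : ℝ := Real.sqrt (1293 / 1300)

theorem lam_nonneg : 0 ≤ lam := Real.sqrt_nonneg _

theorem lam_sq : lam ^ 2 = 1293 / 1300 := Real.sq_sqrt (by norm_num)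

theorem lam_lt_one : lam < 1 := by
  have h := lam_sq
  have h0 := lam_nonneg
  nlinarith

theorem rotF_snd_inl (v : Fin (2 * E.length)) (p : NP) :
    ∃ p', (rotF E (v, Sum.inl p)).2 = Sum.inl p' := by
  rcases p with _ | p | p
  · exact ⟨_, rfl⟩
  · exact ⟨_, rfl⟩
  · exact ⟨_, rfl⟩

/-- rotation restricted to the ports that are not loops -/
noncomputable def rotN (z : Fin (2 * E.length) × NP) : Fin (2 * E.length) × NP :=
  ((rotF E (z.1, Sum.inl z.2)).1, Classical.choose (rotF_snd_inl E z.1 z.2))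

theorem rotN_spec (z : Fin (2 * E.length) × NP) :
    rotF E (z.1, Sum.inl z.2) = ((rotN E z).1, Sum.inl (rotN E z).2) := by
  refine Prod.ext rfl ?_
  exact Classical.choose_spec (rotF_snd_inl E z.1 z.2)

theorem rotN_inv (z : Fin (2 * E.length) × NP) : rotN E (rotN E z) = z := by
  have h1 := rotF_inv E (z.1, Sum.inl z.2)
  rw [rotN_spec E z, rotN_spec E (rotN E z)] at h1
  obtain ⟨h2, h3⟩ := Prod.mk.inj h1
  exact Prod.ext h2 (Sum.inl.inj h3)

theorem sum_rotN (g : Fin (2 * E.length) → Fin (2 * E.length) → ℝ) :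
    ∑ v, ∑ p : NP, g v (rotF E (v, Sum.inl p)).1 =
      ∑ v, ∑ p : NP, g (rotF E (v, Sum.inl p)).1 v := by
  rw [← Fintype.sum_prod_type', ← Fintype.sum_prod_type']
  let e : (Fin (2 * E.length) × NP) ≃ (Fin (2 * E.length) × NP) :=
    ⟨rotN E, rotN E, rotN_inv E, rotN_inv E⟩
  rw [← Equiv.sum_comp e]
  refine Finset.sum_congr rfl fun z _ => ?_
  change g (rotN E z).1 (rotF E ((rotN E z).1, Sum.inl (rotN E z).2)).1 = _
  rw [rotN_spec E (rotN E z), rotN_inv]
  rfl

theorem card_NP : (Fintype.card NP : ℝ) = 65 := by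
  simp [NP, XP]

theorem card_HP : (Fintype.card HP : ℝ) = 130 := by
  simp [HP, NP, XP]

theorem spectral (f : Fin (2 * E.length) → ℝ) (h0 : ∑ v, f v = 0) :
    ∑ v, (avg fun p : HP => f (rotF E (v, p)).1) ^ 2 ≤ lam ^ 2 * ∑ v, f v ^ 2 := by
  rcases Nat.eq_zero_or_pos (2 * E.length) with hN | hN
  · have : IsEmpty (Fin (2 * E.length)) := by rw [hN]; infer_instance
    simp
  set s : Fin (2 * E.length) → ℝ := fun v => (∑ p : NP, f (rotF E (v, Sum.inl p)).1) / 65 with hs
  have hT : ∀ v, (avg fun p : HP => f (rotF E (v, p)).1) = (f v + s v) / 2 := by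
    intro v
    unfold avg
    rw [card_HP, Fintype.sum_sum_type]
    have h1 : ∑ i : Fin 65, f (rotF E (v, Sum.inr i)).1 = 65 * f v := by
      have : ∀ i : Fin 65, f (rotF E (v, Sum.inr i)).1 = f v := fun i => rfl
      rw [Finset.sum_congr rfl fun i _ => this i, Finset.sum_const, Finset.card_univ,
        Fintype.card_fin, nsmul_eq_mul]
      norm_num
    rw [h1, hs]
    ring
  -- sum of squares of s
  have hss : ∑ v, s v ^ 2 ≤ ∑ v, f v ^ 2 := by
    have h1 : ∀ v, s v ^ 2 ≤ (∑ p : NP, f (rotF E (v, Sum.inl p)).1 ^ 2) / 65 := by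
      intro v
      have := sq_sum_le_card_mul_sum_sq (s := (univ : Finset NP))
        (f := fun p => f (rotF E (v, Sum.inl p)).1)
      rw [Finset.card_univ, card_NP] at this
      rw [hs]
      simp only
      rw [div_pow, div_le_div_iff₀ (by norm_num) (by norm_num)]
      nlinarith
    refine (Finset.sum_le_sum fun v _ => h1 v).trans (le_of_eq ?_)
    rw [← Finset.sum_div, sum_rotN E (fun _ w => f w ^ 2)]
    simp only [Finset.sum_const, Finset.card_univ, nsmul_eq_mul, card_NP]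
    rw [← Finset.mul_sum]
    ring
  -- Dirichlet form
  have hD : ∑ v, ∑ p : NP, (f v - f (rotF E (v, Sum.inl p)).1) ^ 2 =
      130 * (∑ v, f v ^ 2 - ∑ v, f v * s v) := by
    have h1 : ∑ v, ∑ p : NP, (f v - f (rotF E (v, Sum.inl p)).1) ^ 2 =
        ∑ v, ∑ p : NP, f v ^ 2 + ∑ v, ∑ p : NP, f (rotF E (v, Sum.inl p)).1 ^ 2 -
          2 * ∑ v, ∑ p : NP, f v * f (rotF E (v, Sum.inl p)).1 := by
      rw [Finset.mul_sum, ← Finset.sum_add_distrib, ← Finset.sum_sub_distrib]
      refine Finset.sum_congr rfl fun v _ => ?_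
      rw [Finset.mul_sum, ← Finset.sum_add_distrib, ← Finset.sum_sub_distrib]
      refine Finset.sum_congr rfl fun p _ => ?_
      ring
    rw [h1, sum_rotN E (fun _ w => f w ^ 2)]
    have h2 : ∑ v, ∑ p : NP, f v * f (rotF E (v, Sum.inl p)).1 = 65 * ∑ v, f v * s v := by
      rw [Finset.mul_sum]
      refine Finset.sum_congr rfl fun v _ => ?_
      rw [hs, ← Finset.mul_sum]
      ring
    rw [h2]
    simp only [Finset.sum_const, Finset.card_univ, nsmul_eq_mul, card_NP]
    rw [← Finset.mul_sum]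
    ring
  -- Poincare for the global ports
  have hP : (7 / 5 : ℝ) * ∑ v, f v ^ 2 ≤
      ∑ v, ∑ p : NP, (f v - f (rotF E (v, Sum.inl p)).1) ^ 2 := by
    set g : ℕ → ℝ := fun x => if h : x < 2 * E.length then f ⟨x, h⟩ else 0 with hg
    have hgf : ∀ v : Fin (2 * E.length), g v = f v := by
      intro v
      simp only [hg, v.2, dif_pos]
    have h1 := xrot_poincare hN g (by
      rw [← Fin.sum_univ_eq_sum_range, ← h0]
      exact Finset.sum_congr rfl fun v _ => hgf v)
    rw [← Fin.sum_univ_eq_sum_range (fun x => g x ^ 2),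
      ← Fin.sum_univ_eq_sum_range (fun x => ∑ p : XP, (g x - g (xrot (2 * E.length) x p).1) ^ 2)]
      at h1
    have h2 : ∑ v : Fin (2 * E.length), g v ^ 2 = ∑ v, f v ^ 2 :=
      Finset.sum_congr rfl fun v _ => by rw [hgf]
    rw [h2] at h1
    refine h1.trans (Finset.sum_le_sum fun v _ => ?_)
    rw [Fintype.sum_sum_type, Fintype.sum_sum_type]
    have h3 : ∑ p : XP, (g v - g (xrot (2 * E.length) v p).1) ^ 2 =
        ∑ p : XP, (f v - f (rotF E (v, Sum.inl (Sum.inr (Sum.inr p)))).1) ^ 2 := by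
      refine Finset.sum_congr rfl fun p _ => ?_
      have := hgf (rotF E (v, Sum.inl (Sum.inr (Sum.inr p)))).1
      rw [hgf v, ← this]
      rfl
    rw [h3]
    have h4 : 0 ≤ ∑ p : Unit, (f v - f (rotF E (v, Sum.inl (Sum.inl p))).1) ^ 2 :=
      Finset.sum_nonneg fun _ _ => by positivity
    have h5 : 0 ≤ ∑ p : XP, (f v - f (rotF E (v, Sum.inl (Sum.inr (Sum.inl p)))).1) ^ 2 :=
      Finset.sum_nonneg fun _ _ => by positivity
    linarith
  have hfin : ∑ v, (avg fun p : HP => f (rotF E (v, p)).1) ^ 2 =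
      (∑ v, f v ^ 2 + 2 * ∑ v, f v * s v + ∑ v, s v ^ 2) / 4 := by
    rw [Finset.sum_congr rfl fun v _ => by rw [hT v]]
    rw [Finset.mul_sum, ← Finset.sum_add_distrib, ← Finset.sum_add_distrib, Finset.sum_div]
    refine Finset.sum_congr rfl fun v _ => ?_
    ring
  rw [hfin, lam_sq]
  rw [hD] at hP
  linarith

end

end Pool.Agent.PCP
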