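import Pool.Agent.Lib.PCP.Trace

/-!
# One step of the gap amplification: construction, soundness, completeness
-/

namespace Pool.Agent.PCP

open Finset BigOperators

/-- lists of ports of length `< t` -/
abbrev Lt (t : ℕ) : Type := {l : List HP // l.length < t}

instance (t : ℕ) : Finite (Lt t) := (List.finite_length_lt HP t).to_subtype

noncomputable instance (t : ℕ) : Fintype (Lt t) := Fintype.ofFinite _

/-- the alphabet of opinions -/
abbrev SS (q t : ℕ) : Type := Lt t → Fin q

/-- the walks -/
abbrev OM (t : ℕ) : Type := Fin (2 * t - 1) × (Fin (2 * t - 1) → HP)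

/-- the list of ports of a walk -/
def wl {t : ℕ} (ω : OM t) : List HP := (List.ofFn ω.2).take (ω.1 + 1)

section
variable {q : ℕ} [NeZero q]

/-- opinions as functions on all lists -/
def ext {t : ℕ} (A : SS q t) (l : List HP) : Fin q := if h : l.length < t then A ⟨l, h⟩ else 0

/-- second vertex of the powered edge -/
def stepW {t : ℕ} (E : List (ℕ × ℕ × Rel q)) (v : ℕ) (ω : OM t) : ℕ := (go (rN E) v (wl ω)).1

/-- powered constraint -/
def stepR {t : ℕ} (E : List (ℕ × ℕ × Rel q)) (v : ℕ) (ω : OM t) : F2 (SS q t) := fun z =>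
  accR t (wl ω) (trace E v (wl ω)) (ext z.1) (ext z.2)

/-- One step: regularize, power, reduce the alphabet. -/
noncomputable def step (t : ℕ) (G : CG q) : CG 1024 :=
  (List.replicate (2 * G.2.length * KK (OM t) (SS q t)) (),
    redEdges (2 * G.2.length) (stepW G.2) (stepR G.2 (t := t)))

/-! ### Decoding -/

open Classical in
/-- an argument where the weight is maximal -/
noncomputable def argm (W : Fin q → ℝ) : Fin q :=
  if h : ∃ s, ∀ s', W s' ≤ W s then h.choose else 0

theorem argm_spec (W : Fin q → ℝ) (s : Fin q) : W s ≤ W (argm W) := by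
  have h : ∃ s, ∀ s', W s' ≤ W s := Finite.exists_max W
  unfold argm
  rw [dif_pos h]
  exact h.choose_spec s

/-- the opinions given by an assignment of the new graph -/
noncomputable def opn (t : ℕ) (a : ℕ → Fin 1024) (v : ℕ) (l : List HP) : Fin q :=
  ext (decA (OM t) a v : SS q t) l

/-- weight of the value `s` for the dart `v` -/
noncomputable def opw (E : List (ℕ × ℕ × Rel q)) (t : ℕ) (a : ℕ → Fin 1024) (v : ℕ)
    (s : Fin q) : ℝ :=
  ∑ k ∈ range t, avgL k fun l => ind (opn t a (go (rN E) v l).1 (go (rN E) v l).2 = s)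

/-- decoded assignment of the darts -/
noncomputable def decH (E : List (ℕ × ℕ × Rel q)) (t : ℕ) (a : ℕ → Fin 1024) (v : ℕ) : Fin q :=
  argm (opw E t a v)

/-- decoded assignment of the vertices -/
noncomputable def decV (E : List (ℕ × ℕ × Rel q)) (b : ℕ → Fin q) (y : ℕ) : Fin q :=
  argm fun s => ∑ x ∈ (range (2 * E.length)).filter (fun x => vtx E x = y), ind (b x = s)

/-- decoded assignment of the old graph -/
noncomputable def dec (E : List (ℕ × ℕ × Rel q)) (t : ℕ) (a : ℕ → Fin 1024) : ℕ → Fin q :=
  decV E (decH E t a)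

/-- the constant of the powering -/
noncomputable def cpow (q : ℕ) : ℝ :=
  (2 * (q : ℝ) ^ 2) ^ 2 * (6 + 4 / (1 - lam)) + 1

theorem cpow_pos (q : ℕ) : 0 < cpow q := by
  have h1 : 0 < 1 - lam := by have := lam_lt_one; linarith
  have h2 : 0 < 4 / (1 - lam) := by positivity
  unfold cpow
  positivity

open Classical in
/-- The powering, for natural numbers. -/
theorem powering_N (E : List (ℕ × ℕ × Rel q)) (hE : 0 < E.length) (t : ℕ) (ht : 0 < t)
    (a : ℕ → Fin 1024) :
    min (t * (bad E (decH E t a) / (2 * E.length * 130))) 1 / cpow q ≤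
      (∑ v ∈ range (2 * E.length), ∑ ω : OM t,
        ind (stepR E v ω (decA (OM t) a v, decA (OM t) a (stepW E v ω)) = false)) /
          (2 * E.length * Fintype.card (OM t)) := by
  have hN : 0 < 2 * E.length := by omega
  have : NeZero (2 * E.length) := ⟨hN.ne'⟩
  have hNr : ((2 * E.length : ℕ) : ℝ) = 2 * (E.length : ℝ) := by push_cast; ring
  set A : ℕ → List HP → Fin q := fun v => opn t a v with hA
  have hop : ∀ (v : Fin (2 * E.length)) (s : Fin q),
      opin (rotF E) t (fun w => A w) v s = opw E t a v s := by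
    intro v s
    unfold opin opw
    refine Finset.sum_congr rfl fun k _ => ?_
    congr 1
    funext l
    have h := go_rotF E v l
    simp only [h.1, h.2, hA]
  have hp := powering (V := Fin (2 * E.length)) (rotF E) (rotF_inv E) (conF E)
    (fun x b c => conF_symm E x b c) lam lam_nonneg lam_lt_one (spectral E) t ht
    (fun w => A w) (fun v => decH E t a v) (by
      intro v s
      rw [hop, hop]
      exact argm_spec _ s)
  rw [Fintype.card_fin] at hp
  have hL : (avg fun v : Fin (2 * E.length) => avg fun p => ind (conF E (v, p) (decH E t a v)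
      (decH E t a (rotF E (v, p)).1) = false)) = bad E (decH E t a) / (2 * E.length * 130) := by
    unfold avg bad
    rw [← Finset.sum_div, div_div, card_HP, Fintype.card_fin, hNr]
    rw [← Fin.sum_univ_eq_sum_range (fun x => ∑ p : HP, ind (hcon E x p (decH E t a x)
      (decH E t a (hrot E x p).1) = false))]
    rw [mul_comm (130 : ℝ)]
    rfl
  rw [hL] at hp
  refine hp.trans (le_of_eq ?_)
  have hR : ∀ v : Fin (2 * E.length), (avg fun L : Fin (2 * t - 1) => avgL (2 * t - 1) fun l =>
      ind (Rejects (rotF E) (conF E) t (fun w => A w) v (l.take (L + 1)))) =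
      (∑ ω : OM t, ind (stepR E v ω (decA (OM t) a v, decA (OM t) a (stepW E v ω)) = false)) /
        Fintype.card (OM t) := by
    intro v
    have h1 : ∀ L : Fin (2 * t - 1), (avgL (2 * t - 1) fun l =>
        ind (Rejects (rotF E) (conF E) t (fun w => A w) v (l.take (L + 1)))) =
        avg fun g : Fin (2 * t - 1) → HP => ind (stepR E v ((L, g) : OM t)
          (decA (OM t) a v, decA (OM t) a (stepW E v ((L, g) : OM t))) = false) := by
      intro L
      rw [avgL_take]
      congr 1
      funext g
      have hiff : Rejects (rotF E) (conF E) t (fun w => A w) v (wl ((L, g) : OM t)) ↔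
          stepR E v ((L, g) : OM t) (decA (OM t) a v, decA (OM t) a
            (stepW E v ((L, g) : OM t))) = false := by
        have h2 := accR_iff E t v (wl ((L, g) : OM t)) A
        have h3 : stepR E v ((L, g) : OM t) (decA (OM t) a v, decA (OM t) a
            (stepW E v ((L, g) : OM t))) = accR t (wl ((L, g) : OM t))
              (trace E v (wl ((L, g) : OM t))) (A v)
                (A (go (rN E) v (wl ((L, g) : OM t))).1) := rfl
        rw [h3]
        have h4 : (accR t (wl ((L, g) : OM t)) (trace E v (wl ((L, g) : OM t))) (A v)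
            (A (go (rN E) v (wl ((L, g) : OM t))).1) = false) ↔
            ¬ (accR t (wl ((L, g) : OM t)) (trace E v (wl ((L, g) : OM t))) (A v)
              (A (go (rN E) v (wl ((L, g) : OM t))).1) = true) := by simp
        rw [h4, h2]
        unfold Rejects
        push Not
        constructor
        · rintro ⟨x, p, y, hl, hx, hy, hc⟩
          refine ⟨x, p, y, hl, hx, hy, ?_⟩
          have g1 := go_rotF E v x
          have g2 := go_rotF E (rotF E ((go (rotF E) v x).1, p)).1 y
          rw [ne_eq, Bool.not_eq_true, ← hc]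
          simp only [g2.1, g2.2]
          have e1 : ((rotF E ((go (rotF E) v x).1, p)).1 : ℕ) =
              (hrot E (go (rN E) v x).1 p).1 := by
            rw [← g1.1]; rfl
          rw [e1]
          change hcon E _ p _ _ = hcon E ((go (rotF E) v x).1 : ℕ) p _ _
          rw [g1.1]
        · rintro ⟨x, p, y, hl, hx, hy, hc⟩
          refine ⟨x, p, y, hl, hx, hy, ?_⟩
          have g1 := go_rotF E v x
          have g2 := go_rotF E (rotF E ((go (rotF E) v x).1, p)).1 y
          rw [ne_eq, Bool.not_eq_true] at hc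
          rw [← hc]
          simp only [g2.1, g2.2]
          have e1 : ((rotF E ((go (rotF E) v x).1, p)).1 : ℕ) =
              (hrot E (go (rN E) v x).1 p).1 := by
            rw [← g1.1]; rfl
          rw [e1]
          change hcon E ((go (rotF E) v x).1 : ℕ) p _ _ = hcon E _ p _ _
          rw [g1.1]
      unfold ind
      by_cases hh : Rejects (rotF E) (conF E) t (fun w => A w) v (wl ((L, g) : OM t))
      · have hh' := hiff.1 hh
        have hh'' : Rejects (rotF E) (conF E) t (fun w => A ↑w) v
          ((List.ofFn g).take (L + 1)) := hh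
        rw [if_pos hh'', if_pos hh']
      · have hh' : ¬ _ := fun h => hh (hiff.2 h)
        have hh'' : ¬ Rejects (rotF E) (conF E) t (fun w => A ↑w) v
          ((List.ofFn g).take (L + 1)) := hh
        rw [if_neg hh'', if_neg hh']
    rw [show (fun L : Fin (2 * t - 1) => avgL (2 * t - 1) fun l =>
      ind (Rejects (rotF E) (conF E) t (fun w => A w) v (l.take (L + 1)))) = _ from funext h1]
    rw [← avg_prod (fun (L : Fin (2 * t - 1)) (g : Fin (2 * t - 1) → HP) =>
      ind (stepR E v ((L, g) : OM t) (decA (OM t) a v, decA (OM t) a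
        (stepW E v ((L, g) : OM t))) = false))]
    rfl
  rw [show (fun v : Fin (2 * E.length) => avg fun L : Fin (2 * t - 1) => avgL (2 * t - 1) fun l =>
      ind (Rejects (rotF E) (conF E) t (fun w => A w) v (l.take (L + 1)))) = _ from funext hR]
  unfold avg
  rw [← Finset.sum_div, div_div, Fintype.card_fin, hNr,
    ← Fin.sum_univ_eq_sum_range (fun v => ∑ ω : OM t, ind (stepR E v ω
      (decA (OM t) a v, decA (OM t) a (stepW E v ω)) = false))]
  rw [mul_comm ((Fintype.card (OM t) : ℕ) : ℝ)]

theorem card_OM_pos {t : ℕ} (ht : 0 < t) : 0 < Fintype.card (OM t) := by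
  rw [Fintype.card_pos_iff]
  exact ⟨⟨⟨0, by omega⟩, fun _ => Sum.inl (Sum.inl ())⟩⟩

theorem length_step (t : ℕ) (G : CG q) : (step t G).2.length =
    2 * G.2.length * (Fintype.card (OM t) * (NT (SS q t) * 10)) :=
  length_redEdges _ _ _

/-- Soundness of one step. -/
theorem step_sound (G : CG q) (hE : 0 < G.2.length) (t : ℕ) (ht : 0 < t) (a : ℕ → Fin 1024) :
    min (t * ((viol G.2 (dec G.2 t a) : ℝ) / G.2.length) / 780) 1 / (1000 * cpow q) ≤
      (viol (step t G).2 a : ℝ) / (step t G).2.length := by
  set E := G.2 with hEdef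
  have hm : (0 : ℝ) < E.length := by exact_mod_cast hE
  have hOM : (0 : ℝ) < Fintype.card (OM t) := by exact_mod_cast card_OM_pos ht
  have hTT : (0 : ℝ) < NT (SS q t) := by exact_mod_cast NT_pos
  have h1 := alphabet_sound (Ω := OM t) (S := SS q t) a (2 * E.length) (stepW E) (stepR E)
  have h2 := powering_N E hE t ht a
  have h3 := degree_reduction E (decH E t a) (dec E t a) (by
    intro y s
    exact argm_spec (fun s => ∑ x ∈ (range (2 * E.length)).filter (fun x => vtx E x = y),
      ind (decH E t a x = s)) s)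
  set Z : ℝ := ∑ v ∈ range (2 * E.length), ∑ ω : OM t,
    ind (stepR E v ω (decA (OM t) a v, decA (OM t) a (stepW E v ω)) = false) with hZ
  have hlen : ((step t G).2.length : ℝ) =
      2 * E.length * (Fintype.card (OM t) * (NT (SS q t) * 10)) := by
    rw [length_step]; push_cast; rfl
  have hv : (viol (step t G).2 a : ℝ) ≥ (NT (SS q t) : ℝ) / 100 * Z := h1
  rw [hlen]
  have h4 : (NT (SS q t) : ℝ) / 100 * Z /
      (2 * E.length * (Fintype.card (OM t) * (NT (SS q t) * 10))) =
      (Z / (2 * E.length * Fintype.card (OM t))) / 1000 := by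
    field_simp
    ring
  have h5 : (Z / (2 * E.length * Fintype.card (OM t))) / 1000 ≤ (viol (step t G).2 a : ℝ) /
      (2 * E.length * (Fintype.card (OM t) * (NT (SS q t) * 10))) := by
    rw [← h4]
    exact div_le_div_of_nonneg_right hv (by positivity)
  refine le_trans ?_ h5
  have hcp := cpow_pos q
  have h6 : min (t * ((viol E (dec E t a) : ℝ) / E.length) / 780) 1 / (1000 * cpow q) =
      (min (t * ((viol E (dec E t a) : ℝ) / E.length) / 780) 1 / cpow q) / 1000 := by
    field_simp
  rw [h6]
  refine div_le_div_of_nonneg_right (le_trans ?_ h2) (by norm_num)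
  refine div_le_div_of_nonneg_right ?_ hcp.le
  refine min_le_min_right _ ?_
  have h7 : (viol E (dec E t a) : ℝ) / E.length / 780 ≤
      bad E (decH E t a) / (2 * E.length * 130) := by
    rw [div_div, div_le_div_iff₀ (by positivity) (by positivity)]
    nlinarith
  have ht' : (0 : ℝ) ≤ t := Nat.cast_nonneg t
  calc (t : ℝ) * ((viol E (dec E t a) : ℝ) / E.length) / 780 =
      t * ((viol E (dec E t a) : ℝ) / E.length / 780) := by ring
    _ ≤ _ := mul_le_mul_of_nonneg_left h7 ht'

/-! ### Completeness -/

omit [NeZero q] in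
theorem hcon_of_sat (E : List (ℕ × ℕ × Rel q)) (σ : ℕ → Fin q) (h : viol E σ = 0)
    {x : ℕ} (hx : x < 2 * E.length) (p : HP) :
    hcon E x p (σ (vtx E x)) (σ (vtx E (hrot E x p).1)) = true := by
  rcases p with (_ | p | p) | i
  · have h1 := two_viol E σ
    rw [h] at h1
    have h2 : (0 : ℝ) = ∑ x ∈ range (2 * E.length), ind (hcon E x (Sum.inl (Sum.inl ()))
        (σ (vtx E x)) (σ (vtx E (mate x))) = false) := by rw [← h1]; norm_num
    have h3 := (Finset.sum_eq_zero_iff_of_nonneg (fun _ _ => ind_nonneg _)).1 h2.symm x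
      (Finset.mem_range.2 hx)
    by_contra hcon
    rw [Bool.not_eq_true] at hcon
    rw [ind_true] at h3
    · norm_num at h3
    · exact hcon
  · have h1 := hrot_vtx E hx p
    simp only [hcon, h1, decide_true]
  · rfl
  · rfl

theorem step_complete (G : CG q) (t : ℕ) (σ : ℕ → Fin q) (h : viol G.2 σ = 0) :
    ∃ a, viol (step t G).2 a = 0 := by
  set E := G.2 with hEdef
  let τ : ℕ → SS q t := fun v l => σ (vtx E (go (rN E) v l.1).1)
  refine ⟨hAss (stepW E) (stepR E) τ, alphabet_complete _ _ _ τ ?_⟩
  intro v hv ω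
  let A : ℕ → List HP → Fin q := fun v => ext (τ v)
  have h3 : stepR E v ω (τ v, τ (stepW E v ω)) = accR t (wl ω) (trace E v (wl ω)) (A v)
    (A (go (rN E) v (wl ω)).1) := rfl
  rw [h3, accR_iff]
  intro x p y _ hx hy
  have hvx : (go (rN E) v x).1 < 2 * E.length := go_lt E hv x
  have hu : (hrot E (go (rN E) v x).1 p).1 < 2 * E.length := hrot_lt E hvx p
  have e1 : A v x = σ (vtx E (go (rN E) v x).1) := by
    change ext (τ v) x = _
    unfold ext
    rw [dif_pos hx]
  have e2 : A (go (rN E) (hrot E (go (rN E) v x).1 p).1 y).1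
      (go (rN E) (hrot E (go (rN E) v x).1 p).1 y).2 =
      σ (vtx E (hrot E (go (rN E) v x).1 p).1) := by
    change ext (τ _) _ = _
    unfold ext
    rw [dif_pos (by rw [go_snd_length]; exact hy)]
    change σ (vtx E (go (rN E) (go (rN E) (hrot E (go (rN E) v x).1 p).1 y).1
      (go (rN E) (hrot E (go (rN E) v x).1 p).1 y).2).1) = _
    rw [go_go_N E hu]
  rw [e1, e2]
  exact hcon_of_sat E σ h hvx p

end

end Pool.Agent.PCP
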