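import Pool.Agent.Lib.PolyTime.Arith
import Pool.Agent.Lib.PCP.Step
import Pool.Agent.Lib.PCP.ExpanderP
import Pool.Agent.Lib.PolyTime.Sum

/-!
# One step of the gap amplification is computed in polynomial time
-/

namespace Pool.Agent.PCP

open Pool.Agent.PolyTime

section hrot
variable {α : Type} [Enc α] {q : ℕ}

/-- default edge -/
def dE : ℕ × ℕ × Rel q := (0, 0, fun _ _ => true)

theorem PTime.edge {E : α → List (ℕ × ℕ × Rel q)} {x : α → ℕ} (hE : PTime E) (hx : PTime x) :
    PTime (fun a => (E a).getD (x a / 2) ((0, 0, fun _ _ => true) : ℕ × ℕ × Rel q)) :=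
  PTime.listGetD hE (hx.div (PTime.const 2)) (PTime.const _)

theorem PTime.vtx {E : α → List (ℕ × ℕ × Rel q)} {x : α → ℕ} (hE : PTime E) (hx : PTime x) :
    PTime (fun a => vtx (E a) (x a)) := by
  have h := PTime.edge hE hx
  exact PTime.iteP (PTime.eq (hx.mod (PTime.const 2)) (PTime.const 0)) h.fst' h.snd'.fst'

theorem PTime.mate {x : α → ℕ} (hx : PTime x) : PTime (fun a => mate (x a)) :=
  PTime.iteP (PTime.eq (hx.mod (PTime.const 2)) (PTime.const 0)) (hx.add (PTime.const 1))
    (hx.sub (PTime.const 1))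

theorem PTime.darts {E : α → List (ℕ × ℕ × Rel q)} (hE : PTime E) :
    PTime (fun a => List.range (2 * (E a).length)) :=
  PTime.rangeLe (g := fun a => E a ++ E a) ((PTime.const 2).mul hE.length) (hE.append hE)
    (fun a => by rw [List.length_append]; omega)

theorem PTime.cloud {E : α → List (ℕ × ℕ × Rel q)} {y : α → ℕ} (hE : PTime E) (hy : PTime y) :
    PTime (fun a => cloud (E a) (y a)) :=
  PTime.filter (g := fun a x => decide (Pool.Agent.PCP.vtx (E a) x = y a)) (PTime.darts hE)
    (PTime.eq (PTime.vtx (hE.comp PTime.fst) PTime.snd) (hy.comp PTime.fst))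

theorem PTime.pos {E : α → List (ℕ × ℕ × Rel q)} {x : α → ℕ} (hE : PTime E) (hx : PTime x) :
    PTime (fun a => pos (E a) (x a)) :=
  PTime.length (PTime.filter (g := fun a y => decide (y < x a))
    (PTime.cloud hE (PTime.vtx hE hx)) (PTime.lt PTime.snd (hx.comp PTime.fst)))

theorem PTime.hrot {E : α → List (ℕ × ℕ × Rel q)} {x : α → ℕ} (hE : PTime E) (hx : PTime x)
    (p : HP) : PTime (fun a => hrot (E a) (x a) p) := by
  rcases p with (_ | p | p) | i
  · exact (PTime.mate hx).pair (PTime.const _)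
  · have hc := PTime.cloud hE (PTime.vtx hE hx)
    have h := PTime.xrot hc.length (PTime.pos hE hx) hc (fun a => le_refl _) p
    exact (PTime.listGetD hc h.fst' (PTime.const 0)).pair (PTime.inl (PTime.inr (PTime.inl h.snd')))
  · have h := PTime.xrot (g := fun a => E a ++ E a) ((PTime.const 2).mul hE.length) hx
      (hE.append hE) (fun a => by rw [List.length_append]; omega) p
    exact h.fst'.pair (PTime.inl (PTime.inr (PTime.inr h.snd')))
  · exact hx.pair (PTime.const _)

/-- transposition of a relation -/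
def flip' (R : Rel q) : Rel q := fun a b => R b a

theorem PTime.hcon {E : α → List (ℕ × ℕ × Rel q)} {x : α → ℕ} (hE : PTime E) (hx : PTime x)
    (p : HP) : PTime (fun a => hcon (E a) (x a) p) := by
  rcases p with (_ | p | p) | i
  · have h := (PTime.edge hE hx).snd'.snd'
    have h' : PTime (fun a => flip' ((E a).getD (x a / 2)
      ((0, 0, fun _ _ => true) : ℕ × ℕ × Rel q)).2.2) :=
      (PTime.of_finite (flip' (q := q))).comp h
    refine (PTime.iteP (PTime.eq (hx.mod (PTime.const 2)) (PTime.const 0)) h h').of_eq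
      fun a => ?_
    funext b c
    by_cases hc : x a % 2 = 0
    · simp only [Pool.Agent.PCP.hcon, if_pos hc]
    · simp only [Pool.Agent.PCP.hcon, if_neg hc, flip']
  · exact PTime.const _
  · exact PTime.const _
  · exact PTime.const _

theorem go_ptime (l : List HP) :
    PTime (fun z : List (ℕ × ℕ × Rel q) × ℕ => go (rN z.1) z.2 l) := by
  induction l with
  | nil => exact PTime.snd.pair (PTime.const [])
  | cons p l ih =>
    have h : PTime (fun z : List (ℕ × ℕ × Rel q) × ℕ => hrot z.1 z.2 p) :=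
      PTime.hrot PTime.fst PTime.snd p
    have h2 : PTime (fun z : List (ℕ × ℕ × Rel q) × ℕ => go (rN z.1) (hrot z.1 z.2 p).1 l) :=
      ih.comp (PTime.fst.pair h.fst')
    exact h2.fst'.pair (h2.snd'.append (h.snd'.cons (PTime.const [])))

theorem PTime.go {E : α → List (ℕ × ℕ × Rel q)} {v : α → ℕ} (hE : PTime E) (hv : PTime v)
    (l : List HP) : PTime (fun a => go (rN (E a)) (v a) l) :=
  (go_ptime l).comp (hE.pair hv)

theorem trace_ptime (l : List HP) :
    PTime (fun z : List (ℕ × ℕ × Rel q) × ℕ => trace z.1 z.2 l) := by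
  induction l with
  | nil => exact PTime.const []
  | cons p l ih =>
    have h : PTime (fun z : List (ℕ × ℕ × Rel q) × ℕ => hrot z.1 z.2 p) :=
      PTime.hrot PTime.fst PTime.snd p
    have h2 : PTime (fun z : List (ℕ × ℕ × Rel q) × ℕ => trace z.1 (hrot z.1 z.2 p).1 l) :=
      ih.comp (PTime.fst.pair h.fst')
    have h3 : PTime (fun z : List (ℕ × ℕ × Rel q) × ℕ => hcon z.1 z.2 p) :=
      PTime.hcon PTime.fst PTime.snd p
    exact (h.snd'.pair h3).cons h2

theorem PTime.trace {E : α → List (ℕ × ℕ × Rel q)} {v : α → ℕ} (hE : PTime E) (hv : PTime v)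
    (l : List HP) : PTime (fun a => trace (E a) (v a) l) :=
  (trace_ptime l).comp (hE.pair hv)

end hrot

/-! ### the reduced edges -/

section red
variable {α : Type} [Enc α] {Ω S : Type} [Fintype Ω] [DecidableEq Ω] [Fintype S] [DecidableEq S]

omit [Fintype Ω] [DecidableEq Ω] [Fintype S] [DecidableEq S] in
theorem tgt_fst (R R' : F2 S) (ω : Ω) (τ : TT S) (j : Fin 10) :
    (tgt R ω τ j).1 = (tgt R' ω τ j).1 := by
  fin_cases j <;> rfl

theorem redEdge_ptime {Z : Type} [Enc Z] [EncInj Z] {s : Set Z} (hs : s.Finite) (Rf : Z → F2 S)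
    {v w : α → ℕ} {z : α → Z} (hv : PTime v) (hw : PTime w) (hz : PTime z)
    (hzs : ∀ a, z a ∈ s) (ω : Ω) (τ : TT S) (j : Fin 10) :
    PTime (fun a => redEdge (v a) (w a) (Rf (z a)) ω τ j) := by
  have h1 : PTime (fun a => nm (v a) (Sum.inr (Sum.inr (ω, τ)) : QQ Ω S)) :=
    (hv.mul (PTime.const _)).add (PTime.const _)
  have h2 : PTime (fun a => if (tgt (Rf (z a)) ω τ j).1 = true then w a else v a) := by
    by_cases hb : (tgt (fun _ => false : F2 S) ω τ j).1 = true
    · refine hw.of_eq fun a => ?_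
      rw [if_pos (by rw [tgt_fst _ (fun _ => false : F2 S), hb])]
    · refine hv.of_eq fun a => ?_
      rw [if_neg (by rw [tgt_fst _ (fun _ => false : F2 S)]; exact hb)]
  have h3 : PTime (fun a => (Fintype.equivFin (QQ Ω S) (tgt (Rf (z a)) ω τ j).2 : ℕ)) :=
    PTime.of_finite_set hs hz hzs
      (fun y => (Fintype.equivFin (QQ Ω S) (tgt (Rf y) ω τ j).2 : ℕ))
  exact h1.pair (((h2.mul (PTime.const _)).add h3).pair (PTime.const _))

theorem redBlock_ptime {Z : Type} [Enc Z] [EncInj Z] {s : Set Z} (hs : s.Finite) (Rf : Z → F2 S)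
    {v w : α → ℕ} {z : α → Z} (hv : PTime v) (hw : PTime w) (hz : PTime z)
    (hzs : ∀ a, z a ∈ s) (ω : Ω) :
    PTime (fun a => redBlock (v a) (w a) (Rf (z a)) ω) := by
  refine PTime.constFlatMap (f := fun τ a => (List.finRange 10).map fun j =>
    redEdge (v a) (w a) (Rf (z a)) ω τ j) _ fun τ _ => ?_
  exact PTime.constList (f := fun j a => redEdge (v a) (w a) (Rf (z a)) ω τ j) _ fun j _ =>
    redEdge_ptime hs Rf hv hw hz hzs ω τ j

end red

section step
variable {q : ℕ} [NeZero q]

omit [NeZero q] in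
theorem finite_trace_set (n : ℕ) : {l : List (HP × Rel q) | l.length = n}.Finite :=
  List.finite_length_eq _ n

/-- One step is polynomial-time. -/
theorem step_ptime (t : ℕ) : PTime (step t : CG q → CG 1024) := by
  have hE : PTime (fun G : CG q => G.2) := PTime.snd
  have hN := PTime.darts hE
  have h1 : PTime (fun G : CG q => List.replicate (2 * G.2.length * KK (OM t) (SS q t)) ()) := by
    have hc : PTime (fun G : CG q => (List.range (2 * G.2.length)).flatMap fun _ =>
        List.replicate (KK (OM t) (SS q t)) ()) :=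
      PTime.flatMap (g := fun (_ : CG q) (_ : ℕ) => List.replicate (KK (OM t) (SS q t)) ()) hN
        (PTime.const _)
    refine hc.of_eq fun G => ?_
    rw [List.eq_replicate_iff]
    refine ⟨?_, fun b _ => rfl⟩
    simp [List.length_flatMap]
  have h2 : PTime (fun G : CG q => redEdges (2 * G.2.length) (stepW G.2) (stepR G.2 (t := t))) := by
    unfold redEdges
    refine PTime.flatMap (g := fun (G : CG q) (v : ℕ) =>
      (Finset.univ : Finset (OM t)).toList.flatMap fun ω =>
        redBlock v (stepW G.2 v ω) (stepR G.2 v ω) ω) hN ?_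
    refine PTime.constFlatMap (f := fun (ω : OM t) (z : CG q × ℕ) =>
      redBlock z.2 (stepW z.1.2 z.2 ω) (stepR z.1.2 z.2 ω) ω) _ fun ω _ => ?_
    have hE' : PTime (fun z : CG q × ℕ => z.1.2) := PTime.snd' PTime.fst
    have hv : PTime (fun z : CG q × ℕ => z.2) := PTime.snd
    have hw : PTime (fun z : CG q × ℕ => stepW z.1.2 z.2 ω) := (PTime.go hE' hv (wl ω)).fst'
    have hz : PTime (fun z : CG q × ℕ => trace z.1.2 z.2 (wl ω)) := PTime.trace hE' hv (wl ω)
    exact redBlock_ptime (finite_trace_set (wl ω).length)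
      (fun y => fun x => accR t (wl ω) y (ext x.1) (ext x.2)) hv hw hz
      (fun a => trace_length _ _ _) ω
  exact h1.pair h2

end step

end Pool.Agent.PCP
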