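import Pool.Agent.Lib.PCP.Raw
import Pool.Agent.Lib.PolyTime.Arith

/-!
# The tableau is computed in polynomial time (numbers in binary)

Adapted from `CookLevin/TabTime.lean` (by helper29).
-/

namespace Pool.Agent.PCP.Lev

open Pool.Agent.PolyTime Pool.Agent.CookLevin Turing

section clauses
variable {α V : Type} [Enc α] [Enc V] {p q r : α → V}

theorem ptime_lit (hp : PTime p) (b : Bool) : PTime (fun a => ((p a, b) : Lit V)) :=
  hp.pair (PTime.const b)

theorem ptime_imp2 (hp : PTime p) (hq : PTime q) (hr : PTime r) :
    PTime (fun a => imp2 (p a) (q a) (r a)) :=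
  (ptime_lit hp false).pair ((ptime_lit hq false).pair (ptime_lit hr true))

theorem ptime_fact (hp : PTime p) : PTime (fun a => fact (p a)) :=
  (ptime_lit hp true).pair ((ptime_lit hp true).pair (ptime_lit hp true))

theorem ptime_nfact (hp : PTime p) : PTime (fun a => nfact (p a)) :=
  (ptime_lit hp false).pair ((ptime_lit hp false).pair (ptime_lit hp false))

theorem ptime_or2 (hp : PTime p) (hq : PTime q) : PTime (fun a => or2 (p a) (q a)) :=
  (ptime_lit hp true).pair ((ptime_lit hq true).pair (ptime_lit hq true))

end clauses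

section tab
open Tab

variable {Q K A : Type} [DecidableEq K] [DecidableEq A] (B : Tab Q K A)
variable {α : Type} [Enc α] {f g : α → ℕ}

omit [DecidableEq K] [DecidableEq A] in
theorem ptime_nc (hf : PTime f) (q : Q) : PTime (fun a => B.nc (f a) q) :=
  hf.pair (PTime.const _)

omit [DecidableEq K] [DecidableEq A] in
theorem ptime_ns (hf : PTime f) (k : K) (hg : PTime g) (c : Option A) :
    PTime (fun a => B.ns (f a) k (g a) c) :=
  hf.pair (hg.pair (PTime.const _))

omit [DecidableEq A] in
theorem ptime_cellClauses (q : Q) (k : K) (c : Option A) (hf : PTime f) (hg : PTime g) :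
    PTime (fun a => B.cellClauses q k c (f a) (g a)) := by
  unfold cellClauses
  cases B.actAt q k with
  | keep =>
    exact (ptime_imp2 (ptime_nc B hf q) (ptime_ns B hf k hg c)
      (ptime_ns B hf.succ k hg c)).cons (PTime.const [])
  | pop =>
    exact (ptime_imp2 (ptime_nc B hf q) (ptime_ns B hf k hg.succ c)
      (ptime_ns B hf.succ k hg c)).cons (PTime.const [])
  | push b =>
    exact (ptime_imp2 (ptime_nc B hf q) (ptime_ns B hf k hg c)
      (ptime_ns B hf.succ k hg.succ c)).cons
      ((ptime_imp2 (ptime_nc B hf q) (ptime_nc B hf q)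
        (ptime_ns B hf.succ k (PTime.const 0) (some b))).cons (PTime.const []))

omit [DecidableEq K] [DecidableEq A] in
theorem ptime_ctlClause (q : Q) (c : Option A) (hf : PTime f) :
    PTime (fun a => B.ctlClause q c (f a)) :=
  ptime_imp2 (ptime_nc B hf q) (ptime_ns B hf _ (PTime.const 0) c) (ptime_nc B hf.succ _)

omit [DecidableEq A] in
theorem ptime_stepClauses (hf : PTime f) (hg : PTime g) :
    PTime (fun a => B.stepClauses (f a) (g a)) := by
  unfold stepClauses
  refine PTime.append ?_ ?_
  · exact PTime.constFlatMap (f := fun q a => B.AO.map fun c => B.ctlClause q c (f a)) B.QL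
      fun q _ => PTime.constList (f := fun c a => B.ctlClause q c (f a)) B.AO fun c _ =>
        ptime_ctlClause B q c hf
  · exact PTime.constFlatMap (f := fun q a => B.KL.flatMap fun k => B.AO.flatMap fun c =>
        B.cellClauses q k c (f a) (g a)) B.QL
      fun q _ => PTime.constFlatMap (f := fun k a => B.AO.flatMap fun c =>
        B.cellClauses q k c (f a) (g a)) B.KL fun k _ =>
        PTime.constFlatMap (f := fun c a => B.cellClauses q k c (f a) (g a)) B.AO fun c _ =>
          ptime_cellClauses B q k c hf hg

omit [DecidableEq A] in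
theorem ptime_emptyClauses {M : α → List Unit} (hM : PTime M) :
    PTime (fun a => B.emptyClauses (M a).length) := by
  unfold emptyClauses
  refine PTime.constFlatMap (f := fun k a => (List.range (M a).length).map fun i =>
    fact (B.ns 0 k i none)) _ fun k _ => ?_
  refine PTime.map (g := fun (_ : α) (i : ℕ) => fact (B.ns 0 k i none))
    (PTime.rangeLength hM) ?_
  exact ptime_fact (ptime_ns B (PTime.const 0) k PTime.snd none)

theorem zipIdx_eq {β : Type} (l : List β) : l.zip (List.range l.length) = l.zipIdx := by
  rw [List.zipIdx_eq_zip_range', List.range_eq_range']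

omit [DecidableEq K] [DecidableEq A] in
theorem ptime_inputClauses {y : α → List Bool} {W M : α → List Unit} (hy : PTime y)
    (hW : PTime W) (hM : PTime M) :
    PTime (fun a => B.inputClauses (y a) (W a).length (M a).length) := by
  unfold inputClauses
  refine PTime.append ?_ (PTime.append ?_ ?_)
  · have hz : PTime (fun a => (y a).zipIdx) := (PTime.zipIdx hy).of_eq fun a => zipIdx_eq _
    refine PTime.map (g := fun (_ : α) (p : Bool × ℕ) =>
      cond p.1 (fact (B.ns 0 B.k0 p.2 (some (B.sy true))))
        (fact (B.ns 0 B.k0 p.2 (some (B.sy false))))) hz ?_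
    have e1 : PTime (fun p : α × (Bool × ℕ) => p.2.1) := PTime.fst.comp PTime.snd
    have e2 : PTime (fun p : α × (Bool × ℕ) => p.2.2) := PTime.snd.comp PTime.snd
    refine (PTime.ite e1
      (ptime_fact (ptime_ns B (PTime.const 0) B.k0 e2 (some (B.sy true))))
      (ptime_fact (ptime_ns B (PTime.const 0) B.k0 e2 (some (B.sy false))))).of_eq fun p => ?_
    obtain ⟨a, b, i⟩ := p
    cases b <;> rfl
  · refine PTime.map (g := fun (a : α) (j : ℕ) =>
      or2 (B.ns 0 B.k0 ((y a).length + j) (some (B.sy false)))
        (B.ns 0 B.k0 ((y a).length + j) (some (B.sy true)))) (PTime.rangeLength hW) ?_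
    have e1 : PTime (fun p : α × ℕ => (y p.1).length + p.2) :=
      (hy.length.comp PTime.fst).add PTime.snd
    exact ptime_or2 (ptime_ns B (PTime.const 0) _ e1 _) (ptime_ns B (PTime.const 0) _ e1 _)
  · refine PTime.map (g := fun (a : α) (j : ℕ) =>
      fact (B.ns 0 B.k0 ((y a).length + (W a).length + j) none)) (PTime.rangeLength hM) ?_
    have e1 : PTime (fun p : α × ℕ => (y p.1).length + (W p.1).length + p.2) :=
      ((hy.length.add hW.length).comp PTime.fst).add PTime.snd
    exact ptime_fact (ptime_ns B (PTime.const 0) _ e1 _)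

omit [DecidableEq K] in
theorem ptime_finalClauses (hf : PTime f) : PTime (fun a => B.finalClauses (f a)) := by
  unfold finalClauses
  exact PTime.constList (f := fun c a => nfact (B.ns (f a) B.k1 0 c)) _ fun c _ =>
    ptime_nfact (ptime_ns B hf _ (PTime.const 0) c)

theorem ptime_tableau {y : α → List Bool} {W T M : α → List Unit} (hy : PTime y) (hW : PTime W)
    (hT : PTime T) (hM : PTime M) :
    PTime (fun a => B.tableau (y a) (W a).length (T a).length (M a).length) := by
  unfold tableau
  refine PTime.append ?_ (PTime.cons (PTime.const _) ((ptime_emptyClauses B hM).append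
    ((ptime_inputClauses B hy hW hM).append (ptime_finalClauses B hT.length))))
  have h3 : PTime (fun p : (α × ℕ) × ℕ => B.stepClauses p.1.2 p.2) :=
    ptime_stepClauses B (PTime.snd.comp PTime.fst) PTime.snd
  have h2 : PTime (fun p : α × ℕ => (List.range (M p.1).length).flatMap fun i =>
      B.stepClauses p.2 i) :=
    PTime.flatMap (g := fun (p : α × ℕ) (i : ℕ) => B.stepClauses p.2 i)
      (PTime.rangeLength (hM.comp PTime.fst)) h3
  exact PTime.flatMap (g := fun (a : α) (t : ℕ) => (List.range (M a).length).flatMap fun i =>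
    B.stepClauses t i) (PTime.rangeLength hT) h2

end tab

end Pool.Agent.PCP.Lev
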