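import Pool.Agent.Lib.PCP.Spectral
import Pool.Agent.Lib.PCP.Powering
import Pool.Agent.Lib.PCP.Alphabet

/-!
# Walks in the regular graph, and the powered constraints
-/

namespace Pool.Agent.PCP

open Finset BigOperators

/-! ### general facts on `go` -/

section go
variable {V P : Type} (rot : V × P → V × P)

theorem go_append (v : V) (l l' : List P) :
    go rot v (l ++ l') = ((go rot (go rot v l).1 l').1,
      (go rot (go rot v l).1 l').2 ++ (go rot v l).2) := by
  induction l generalizing v with
  | nil => simp [go]
  | cons p l ih => simp [go, ih]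

theorem go_snd_length (v : V) (l : List P) : (go rot v l).2.length = l.length := by
  induction l generalizing v with
  | nil => rfl
  | cons p l ih => simp [go, ih]

theorem go_go (hinv : ∀ x, rot (rot x) = x) (v : V) (l : List P) :
    go rot (go rot v l).1 (go rot v l).2 = (v, l) := by
  induction l generalizing v with
  | nil => rfl
  | cons p l ih =>
    simp only [go]
    rw [go_append, ih]
    simp only [go]
    have h := hinv (v, p)
    have h1 : ((rot (v, p)).1, (rot (v, p)).2) = rot (v, p) := rfl
    rw [h1, h]
    rfl

theorem avgL_take {P : Type} [Fintype P] [Nonempty P] (n : ℕ) (F : List P → ℝ) :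
    avgL n F = avg fun g : Fin n → P => F (List.ofFn g) := by
  induction n generalizing F with
  | zero =>
    rw [avgL, avg, Fintype.sum_unique]
    simp
  | succ n ih =>
    rw [avgL]
    have h1 : (fun p => avgL n fun l => F (p :: l)) =
        fun p => avg fun g : Fin n → P => F (p :: List.ofFn g) := by
      funext p
      exact ih fun l => F (p :: l)
    rw [h1]
    unfold avg
    rw [← Finset.sum_div, div_div]
    have h2 : ∑ g : Fin (n + 1) → P, F (List.ofFn g) =
        ∑ p : P, ∑ g : Fin n → P, F (p :: List.ofFn g) := by
      rw [← Fintype.sum_prod_type', ← Equiv.sum_comp (Fin.consEquiv fun _ : Fin (n + 1) => P)]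
      refine Finset.sum_congr rfl fun z _ => ?_
      rw [List.ofFn_succ]
      simp [Fin.consEquiv]
    rw [h2]
    congr 1
    have h3 : Fintype.card (Fin (n + 1) → P) = Fintype.card (Fin n → P) * Fintype.card P := by
      simp [pow_succ]
    rw [h3]
    push_cast
    rfl

theorem avg_prod {X Y : Type} [Fintype X] [Fintype Y] (ψ : X → Y → ℝ) :
    avg (fun z : X × Y => ψ z.1 z.2) = avg fun x => avg fun y => ψ x y := by
  unfold avg
  rw [Fintype.sum_prod_type, Fintype.card_prod, Nat.cast_mul, ← Finset.sum_div, div_div,
    mul_comm]

end go

/-! ### the graph on natural numbers -/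

section
variable {q : ℕ} (E : List (ℕ × ℕ × Rel q))

/-- rotation map on natural numbers -/
def rN (z : ℕ × HP) : ℕ × HP := hrot E z.1 z.2

theorem go_rotF (v : Fin (2 * E.length)) (l : List HP) :
    ((go (rotF E) v l).1 : ℕ) = (go (rN E) v l).1 ∧
      (go (rotF E) v l).2 = (go (rN E) v l).2 := by
  induction l generalizing v with
  | nil => exact ⟨rfl, rfl⟩
  | cons p l ih =>
    obtain ⟨h1, h2⟩ := ih (rotF E (v, p)).1
    exact ⟨h1, by
      simp only [go, h2]
      rfl⟩

theorem go_lt {v : ℕ} (hv : v < 2 * E.length) (l : List HP) : (go (rN E) v l).1 < 2 * E.length := by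
  have := (go_rotF E ⟨v, hv⟩ l).1
  simp only at this
  rw [← this]
  exact (go (rotF E) ⟨v, hv⟩ l).1.2

theorem go_go_N {v : ℕ} (hv : v < 2 * E.length) (l : List HP) :
    go (rN E) (go (rN E) v l).1 (go (rN E) v l).2 = (v, l) := by
  have h := go_go (rotF E) (rotF_inv E) ⟨v, hv⟩ l
  have h1 := go_rotF E ⟨v, hv⟩ l
  have h2 := go_rotF E (go (rotF E) ⟨v, hv⟩ l).1 (go (rotF E) ⟨v, hv⟩ l).2
  rw [h] at h2
  rw [h1.1, h1.2] at h2
  exact Prod.ext h2.1.symm h2.2.symm

/-- arrival ports and constraints along a walk -/
def trace : ℕ → List HP → List (HP × Rel q)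
  | _, [] => []
  | v, p :: l => ((hrot E v p).2, hcon E v p) :: trace (hrot E v p).1 l

theorem trace_length (v : ℕ) (l : List HP) : (trace E v l).length = l.length := by
  induction l generalizing v with
  | nil => rfl
  | cons p l ih => simp [trace, ih]

theorem trace_append (v : ℕ) (l l' : List HP) :
    trace E v (l ++ l') = trace E v l ++ trace E (go (rN E) v l).1 l' := by
  induction l generalizing v with
  | nil => rfl
  | cons p l ih =>
    rw [List.cons_append, trace, ih, trace, List.cons_append]
    rfl

theorem trace_ports (v : ℕ) (l : List HP) :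
    ((trace E v l).map Prod.fst).reverse = (go (rN E) v l).2 := by
  induction l generalizing v with
  | nil => rfl
  | cons p l ih =>
    rw [trace, List.map_cons, List.reverse_cons, ih]
    rfl

/-- the powered constraint, as a function of the ports of the walk, the arrival ports and
constraints, and the two opinions -/
def accR (t : ℕ) (l : List HP) (z : List (HP × Rel q)) (x y : List HP → Fin q) : Bool :=
  (List.range l.length).all fun i =>
    !(decide (i < t) && decide (l.length - 1 - i < t)) ||
      (z.getD i (Sum.inl (Sum.inl ()), fun _ _ => true)).2 (x (l.take i))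
        (y ((z.drop (i + 1)).map Prod.fst).reverse)

theorem accR_iff (t : ℕ) (v : ℕ) (l : List HP) (A : ℕ → List HP → Fin q) :
    accR t l (trace E v l) (A v) (A (go (rN E) v l).1) = true ↔
      ∀ (x : List HP) (p : HP) (y : List HP), l = x ++ p :: y → x.length < t → y.length < t →
        hcon E (go (rN E) v x).1 p (A v x)
          (A (go (rN E) (hrot E (go (rN E) v x).1 p).1 y).1
            (go (rN E) (hrot E (go (rN E) v x).1 p).1 y).2) = true := by
  have key : ∀ (x : List HP) (p : HP) (y : List HP), l = x ++ p :: y →
      l.take x.length = x ∧ ((trace E v l).getD x.length (Sum.inl (Sum.inl ()),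
        fun _ _ => true)).2 = hcon E (go (rN E) v x).1 p ∧
      (((trace E v l).drop (x.length + 1)).map Prod.fst).reverse =
        (go (rN E) (hrot E (go (rN E) v x).1 p).1 y).2 ∧
      (go (rN E) v l).1 = (go (rN E) (hrot E (go (rN E) v x).1 p).1 y).1 ∧
      l.length - 1 - x.length = y.length := by
    intro x p y hl
    subst hl
    have ht : trace E v (x ++ p :: y) = trace E v x ++
        (((hrot E (go (rN E) v x).1 p).2, hcon E (go (rN E) v x).1 p) ::
          trace E (hrot E (go (rN E) v x).1 p).1 y) := by
      rw [trace_append, trace]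
    refine ⟨by simp, ?_, ?_, ?_, ?_⟩
    · rw [ht, List.getD_append_right _ _ _ _ (by rw [trace_length]), trace_length]
      simp
    · rw [ht]
      have : (trace E v x ++ (((hrot E (go (rN E) v x).1 p).2, hcon E (go (rN E) v x).1 p) ::
          trace E (hrot E (go (rN E) v x).1 p).1 y)).drop (x.length + 1) =
          trace E (hrot E (go (rN E) v x).1 p).1 y := by
        have h := trace_length E v x
        rw [← h]
        simp
      rw [this, trace_ports]
    · rw [go_append]
      rfl
    · simp
  unfold accR
  rw [List.all_eq_true]
  constructor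
  · intro h x p y hl hx hy
    obtain ⟨k1, k2, k3, k4, k5⟩ := key x p y hl
    have := h x.length (List.mem_range.2 (by rw [hl]; simp))
    rw [k1, k2, k3, k5, k4] at this
    simp only [hx, hy, decide_true, Bool.and_self, Bool.not_true, Bool.false_or] at this
    exact this
  · intro h i hi
    have hi' := List.mem_range.1 hi
    by_cases hc : i < t ∧ l.length - 1 - i < t
    · have hl : l = l.take i ++ l[i] :: l.drop (i + 1) := by
        rw [List.getElem_cons_drop, List.take_append_drop]
      have hlen : (l.take i).length = i := by
        rw [List.length_take]; omega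
      obtain ⟨k1, k2, k3, k4, k5⟩ := key _ _ _ hl
      rw [hlen] at k2 k3 k5
      have := h _ _ _ hl (by rw [hlen]; exact hc.1) (by rw [← k5]; exact hc.2)
      rw [k2, k3, k4]
      rw [this]
      simp
    · have : (decide (i < t) && decide (l.length - 1 - i < t)) = false := by
        by_cases h1 : i < t
        · have h2 : ¬ (l.length - 1 - i < t) := fun h2 => hc ⟨h1, h2⟩
          simp [h2]
        · simp [h1]
      rw [this]
      simp

end

end Pool.Agent.PCP
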