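import Pool.Agent.Lib.PCP.TriGraph3

/-!
# Completeness: a satisfying assignment gives a large packing
-/

namespace Pool.Agent.PCP.Tri

open Pool.Agent.MP_311ff9_lc

variable {q : ℕ} {K : ℕ} {G : CG q}

/-- Slots of a packing. -/
abbrev Key (q K n m : ℕ) := (Fin n × Fin q × Fin K) ⊕ (Fin n × Fin (q - 1)) ⊕ Fin m

theorem card_key (q K n m : ℕ) :
    Fintype.card (Key q K n m) = (q * K + (q - 1)) * n + m := by
  simp only [Fintype.card_sum, Fintype.card_prod, Fintype.card_fin]
  ring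

/-- the letter of the `i`-th unused position -/
def oth (x i : ℕ) : ℕ := if i < x then i else i + 1

/-- the packing of a satisfying assignment -/
def sig (K : ℕ) (G : CG q) (a : ℕ → Fin q) : Key q K G.1.length G.2.length → Tr
  | .inl (v, b, s) => wheelT K v b (2 * s + if a v = b then 1 else 0)
  | .inr (.inl (v, i)) => selT v i (oth (a v) i)
  | .inr (.inr i) => edgeT i G.2[i].1 G.2[i].2.1 (slot G.2 (2 * i) G.2[i].1)
      (slot G.2 (2 * i + 1) G.2[i].2.1) (a G.2[i].1) (a G.2[i].2.1)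

theorem oth_ne (x i : ℕ) : oth x i ≠ x := by
  unfold oth
  split_ifs <;> omega

theorem oth_inj {x i j : ℕ} (h : oth x i = oth x j) : i = j := by
  unfold oth at h
  split_ifs at h <;> omega

theorem oth_lt {x i q : ℕ} (h : i < q - 1) : oth x i < q := by
  unfold oth
  split_ifs <;> omega

theorem viol_zero {E : List (ℕ × ℕ × Rel q)} {a : ℕ → Fin q} (h : viol E a = 0)
    {e : ℕ × ℕ × Rel q} (he : e ∈ E) : e.2.2 (a e.1) (a e.2.1) = true := by
  unfold viol at h
  rw [List.countP_eq_zero] at h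
  simpa using h e he

theorem sig_mem {a : ℕ → Fin q} (h : viol G.2 a = 0) (κ : Key q K G.1.length G.2.length) :
    sig K G a κ ∈ tris K G := by
  rw [mem_tris]
  rcases κ with ⟨v, b, s⟩ | ⟨v, i⟩ | i
  · refine Or.inl ⟨v, b, _, v.2, b.2, ?_, rfl⟩
    have := s.2
    split_ifs <;> omega
  · exact Or.inr (Or.inl ⟨v, i, _, v.2, i.2, oth_lt i.2, rfl⟩)
  · exact Or.inr (Or.inr ⟨i, G.2[i], List.getElem?_eq_getElem i.2, _, _,
      viol_zero h (List.getElem_mem _), rfl⟩)

theorem key_ww {a : ℕ → Fin q} {x : Nm} {v v' : Fin G.1.length} {b b' : Fin q} {s s' : Fin K}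
    (h : x ∈ vl (sig K G a (.inl (v, b, s)))) (h' : x ∈ vl (sig K G a (.inl (v', b', s')))) :
    v = v' ∧ b = b' ∧ s = s' := by
  unfold sig at h h'
  rw [mem_vl] at h h'
  have hs := s.2
  have hs' := s'.2
  have key : ∀ δ δ' : ℕ, δ ≤ 1 → δ' ≤ 1 → (v = v' → b = b' → δ = δ') →
      (x = (wheelT K v b (2 * s + δ)).1 ∨ x = (wheelT K v b (2 * s + δ)).2.1 ∨
        x = (wheelT K v b (2 * s + δ)).2.2) →
      (x = (wheelT K v' b' (2 * s' + δ')).1 ∨ x = (wheelT K v' b' (2 * s' + δ')).2.1 ∨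
        x = (wheelT K v' b' (2 * s' + δ')).2.2) → v = v' ∧ b = b' ∧ s = s' := by
    intro δ δ' hδ hδ' hh h h'
    have h1 : (v : ℕ) = v' ∧ (b : ℕ) = b' := by
      rcases h with rfl | rfl | rfl <;> rcases h' with h | h | h <;>
        simp only [Prod.mk.injEq, true_and, zero_ne_one, one_ne_zero, false_and] at h <;>
        exact ⟨h.1, h.2.1⟩
    obtain ⟨h1, h2⟩ := h1
    have h1 := Fin.ext h1
    have h2 := Fin.ext h2
    have h3 := hh h1 h2
    refine ⟨h1, h2, Fin.ext ?_⟩
    subst h3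
    rcases h with rfl | rfl | rfl <;> rcases h' with h | h | h <;>
        simp only [Prod.mk.injEq, true_and, zero_ne_one, one_ne_zero, false_and] at h <;>
        replace h := h.2.2 <;> (try unfold nxt at h) <;> (try split_ifs at h) <;> omega
  refine key _ _ ?_ ?_ ?_ h h'
  · split_ifs <;> omega
  · split_ifs <;> omega
  · rintro rfl rfl
    rfl

theorem key_ws {a : ℕ → Fin q} {x : Nm} {v v' : Fin G.1.length} {b : Fin q} {s : Fin K}
    {i : Fin (q - 1)} (h : x ∈ vl (sig K G a (.inl (v, b, s))))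
    (h' : x ∈ vl (sig K G a (.inr (.inl (v', i))))) : False := by
  unfold sig at h h'
  rw [mem_vl] at h h'
  rcases h with rfl | rfl | rfl <;> rcases h' with h | h | h <;>
    simp only [Prod.mk.injEq, true_and, zero_ne_one, one_ne_zero, false_and, OfNat.zero_ne_ofNat,
      OfNat.one_ne_ofNat] at h
  obtain ⟨h1, h2, h3⟩ := h
  have h1 := Fin.ext h1
  subst h1
  split_ifs at h3 with h4
  · exact oth_ne (a v) i (by rw [← h2, h4])
  · omega

theorem key_we {a : ℕ → Fin q} {x : Nm} {v : Fin G.1.length} {b : Fin q} {s : Fin K}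
    {i : Fin G.2.length} (h : x ∈ vl (sig K G a (.inl (v, b, s))))
    (h' : x ∈ vl (sig K G a (.inr (.inr i)))) : False := by
  unfold sig at h h'
  rw [mem_vl] at h h'
  rcases h with rfl | rfl | rfl <;> rcases h' with h | h | h <;>
    simp only [Prod.mk.injEq, true_and, zero_ne_one, one_ne_zero, false_and, OfNat.zero_ne_ofNat,
      OfNat.one_ne_ofNat] at h
  · obtain ⟨h1, h2, h3⟩ := h
    have h4 : a v = b := by rw [h1]; exact (Fin.ext h2).symm
    rw [if_pos h4] at h3
    omega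
  · obtain ⟨h1, h2, h3⟩ := h
    have h4 : a v = b := by rw [h1]; exact (Fin.ext h2).symm
    rw [if_pos h4] at h3
    omega

theorem key_ss {a : ℕ → Fin q} {x : Nm} {v v' : Fin G.1.length} {i i' : Fin (q - 1)}
    (h : x ∈ vl (sig K G a (.inr (.inl (v, i)))))
    (h' : x ∈ vl (sig K G a (.inr (.inl (v', i'))))) : v = v' ∧ i = i' := by
  unfold sig at h h'
  rw [mem_vl] at h h'
  rcases h with rfl | rfl | rfl <;> rcases h' with h | h | h <;>
    simp only [Prod.mk.injEq, true_and, zero_ne_one, one_ne_zero, false_and, OfNat.zero_ne_ofNat,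
      OfNat.one_ne_ofNat, and_true, OfNat.ofNat_ne_one, Nat.reduceEqDiff] at h
  · exact ⟨Fin.ext h.1, Fin.ext h.2⟩
  · exact ⟨Fin.ext h.1, Fin.ext h.2⟩
  · have h1 := Fin.ext h.1
    subst h1
    exact ⟨rfl, Fin.ext (oth_inj h.2)⟩

theorem key_se {a : ℕ → Fin q} {x : Nm} {v : Fin G.1.length} {i : Fin (q - 1)}
    {i' : Fin G.2.length} (h : x ∈ vl (sig K G a (.inr (.inl (v, i)))))
    (h' : x ∈ vl (sig K G a (.inr (.inr i')))) : False := by
  unfold sig at h h'
  rw [mem_vl] at h h'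
  rcases h with rfl | rfl | rfl <;> rcases h' with h | h | h <;>
    simp only [Prod.mk.injEq, true_and, zero_ne_one, one_ne_zero, false_and, OfNat.zero_ne_ofNat,
      OfNat.one_ne_ofNat, and_true, OfNat.ofNat_ne_one, Nat.reduceEqDiff] at h
  · omega
  · omega

theorem key_ee {a : ℕ → Fin q} {x : Nm} {i i' : Fin G.2.length}
    (h : x ∈ vl (sig K G a (.inr (.inr i))))
    (h' : x ∈ vl (sig K G a (.inr (.inr i')))) : i = i' := by
  unfold sig at h h'
  rw [mem_vl] at h h'
  have e1 := ends_even G.2 i G.2[i] (List.getElem?_eq_getElem i.2)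
  have e2 := ends_even G.2 i' G.2[i'] (List.getElem?_eq_getElem i'.2)
  have key : ∀ p p' : ℕ, AtEnd G.2 p x → AtEnd G.2 p' x → p / 2 = i → p' / 2 = i' → i = i' := by
    intro p p' hp hp' h1 h2
    have := hp.unique hp'
    subst this
    exact Fin.ext (h1.symm.trans h2)
  rcases h with rfl | h | h
  · rcases h' with h | h | h <;>
      simp only [Prod.mk.injEq, OfNat.ofNat_ne_one, false_and, true_and, and_true] at h
    exact Fin.ext h
  · have f1 : AtEnd G.2 (2 * i) x := ⟨_, _, e1.1, h⟩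
    rcases h' with rfl | h' | h'
    · simp only [Prod.mk.injEq, OfNat.ofNat_ne_one, false_and] at h
    · exact key _ _ f1 ⟨_, _, e2.1, h'⟩ (by omega) (by omega)
    · exact key _ _ f1 ⟨_, _, e2.2, h'⟩ (by omega) (by omega)
  · have f1 : AtEnd G.2 (2 * i + 1) x := ⟨_, _, e1.2, h⟩
    rcases h' with rfl | h' | h'
    · simp only [Prod.mk.injEq, OfNat.ofNat_ne_one, false_and] at h
    · exact key _ _ f1 ⟨_, _, e2.1, h'⟩ (by omega) (by omega)
    · exact key _ _ f1 ⟨_, _, e2.2, h'⟩ (by omega) (by omega)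

theorem sig_disj {a : ℕ → Fin q} {x : Nm} {κ κ' : Key q K G.1.length G.2.length}
    (h : x ∈ vl (sig K G a κ)) (h' : x ∈ vl (sig K G a κ')) : κ = κ' := by
  rcases κ with ⟨v, b, s⟩ | ⟨v, i⟩ | i <;> rcases κ' with ⟨v', b', s'⟩ | ⟨v', i'⟩ | i'
  · obtain ⟨rfl, rfl, rfl⟩ := key_ww h h'
    rfl
  · exact (key_ws h h').elim
  · exact (key_we h h').elim
  · exact (key_ws h' h).elim
  · obtain ⟨rfl, rfl⟩ := key_ss h h'
    rfl
  · exact (key_se h h').elim
  · exact (key_we h' h).elim
  · exact (key_se h' h).elim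
  · obtain rfl := key_ee h h'
    rfl

theorem flatMap_vl_map {α β : Type} (f : α → β) (L : List (α × α × α)) :
    (L.map fun t => (f t.1, f t.2.1, f t.2.2)).flatMap vl = (L.flatMap vl).map f := by
  induction L with
  | nil => rfl
  | cons t L ih =>
    rw [List.map_cons, List.flatMap_cons, List.flatMap_cons, List.map_append, ih]
    rfl

theorem complete {B : ℕ} (hK : B ≤ K) (hK1 : 1 ≤ K) (hG : WF B G) {a : ℕ → Fin q}
    (h : viol G.2 a = 0) :
    ∃ S, IsTrianglePacking (XX K G) S ∧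
      S.length = (q * K + (q - 1)) * G.1.length + G.2.length := by
  let SN : List Tr := (Finset.univ : Finset (Key q K G.1.length G.2.length)).toList.map (sig K G a)
  have hSN : ∀ t ∈ SN, t ∈ tris K G := by
    intro t ht
    obtain ⟨κ, -, rfl⟩ := List.mem_map.1 ht
    exact sig_mem h κ
  have hnd : (SN.flatMap vl).Nodup := by
    rw [List.nodup_flatMap]
    refine ⟨fun t ht => vl_nodup (hSN t ht), ?_⟩
    rw [List.pairwise_map]
    refine (Finset.nodup_toList _).imp ?_
    intro κ κ' hne x hx hx'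
    exact hne (sig_disj hx hx')
  have hv : ∀ x ∈ SN.flatMap vl, x ∈ verts K G := by
    intro x hx
    obtain ⟨t, ht, hx⟩ := List.mem_flatMap.1 hx
    exact vl_verts hK hK1 hG (hSN t ht) hx
  have hadj : ∀ t ∈ SN, ∀ x ∈ vl t, ∀ y ∈ vl t, x ≠ y →
      (XX K G).Adj ((verts K G).idxOf x) ((verts K G).idxOf y) := by
    intro t ht x hx y hy hne
    have ht' := hSN t ht
    exact XX_adj.2 ⟨x, y, List.getElem?_idxOf (vl_verts hK hK1 hG ht' hx),
      List.getElem?_idxOf (vl_verts hK hK1 hG ht' hy), hne, t, ht', hx, hy⟩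
  refine ⟨SN.map fun t => ((verts K G).idxOf t.1, (verts K G).idxOf t.2.1,
    (verts K G).idxOf t.2.2), ⟨?_, ?_⟩, ?_⟩
  · intro s hs
    obtain ⟨t, ht, rfl⟩ := List.mem_map.1 hs
    have hn := vl_nodup (hSN t ht)
    simp only [vl, List.nodup_cons, List.mem_cons, List.not_mem_nil, or_false,
      not_false_eq_true, List.nodup_nil, and_true, not_or] at hn
    exact ⟨hadj t ht _ (by simp [vl]) _ (by simp [vl]) hn.1.1,
      hadj t ht _ (by simp [vl]) _ (by simp [vl]) hn.2,
      hadj t ht _ (by simp [vl]) _ (by simp [vl]) hn.1.2⟩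
  · have e := flatMap_vl_map (fun x => (verts K G).idxOf x) SN
    have e' : ∀ L : List (ℕ × ℕ × ℕ), (L.flatMap fun t => [t.1, t.2.1, t.2.2]) =
      L.flatMap vl := fun L => rfl
    rw [e', e]
    refine List.Nodup.map_on ?_ hnd
    intro x hx y hy hxy
    exact (List.idxOf_inj (hv x hx)).1 hxy
  · rw [List.length_map, List.length_map, Finset.length_toList, Finset.card_univ, card_key]

end Pool.Agent.PCP.Tri
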