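import Pool.Agent.Lib.PolyTime.Arith
import Pool.Agent.Lib.PCP.CG
import Pool.Agent.Lib.PolyTime.Finite
import Pool.Agent.Lib.MP_311ff9_lc.Problem

/-!
# From constraint graphs to triangle packing: the construction

For every vertex `v` and letter `a` a wheel: a cycle `cv v a j` (`j < 2K`) with tips `tp v a j`,
and triangles `{cv v a j, cv v a (j+1), tp v a j}`. For every `v` and `i < q - 1` a pair
`s1 v i`, `s2 v i` with triangles `{s1 v i, s2 v i, tp v a 1}` for all letters `a`. For every
edge a vertex `zz i` with the triangles `{zz i, tp u a _, tp w b _}` for all allowed pairs.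
-/

namespace Pool.Agent.PCP.Tri

open Pool.Agent.PolyTime Pool.Agent.MP_311ff9_lc

/-- Names of vertices. -/
abbrev Nm := ℕ × ℕ × ℕ × ℕ

abbrev cv (v a j : ℕ) : Nm := (0, v, a, j)
abbrev tp (v a j : ℕ) : Nm := (1, v, a, j)
abbrev s1 (v i : ℕ) : Nm := (2, v, i, 0)
abbrev s2 (v i : ℕ) : Nm := (3, v, i, 0)
abbrev zz (i : ℕ) : Nm := (4, i, 0, 0)

/-- A triple of names. -/
abbrev Tr := Nm × Nm × Nm

/-- the list of the three vertices of a triple -/
def vl {α : Type} (t : α × α × α) : List α := [t.1, t.2.1, t.2.2]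

/-- next position on the cycle of length `2K` -/
def nxt (K j : ℕ) : ℕ := if j + 1 = 2 * K then 0 else j + 1

abbrev wheelT (K v a j : ℕ) : Tr := (cv v a j, cv v a (nxt K j), tp v a j)
abbrev selT (v i a : ℕ) : Tr := (s1 v i, s2 v i, tp v a 1)
abbrev edgeT (i u w su sw a b : ℕ) : Tr := (zz i, tp u a (2 * su), tp w b (2 * sw))

/-- the triangles at the vertex `v` -/
def locT (q K v : ℕ) : List Tr :=
  ((List.range q).flatMap fun a => (List.range (2 * K)).map fun j => wheelT K v a j) ++
    ((List.range (q - 1)).flatMap fun i => (List.range q).map fun a => selT v i a)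

/-- the names of the vertices at the vertex `v` -/
def locV (q K v : ℕ) : List Nm :=
  ((List.range q).flatMap fun a => (List.range (2 * K)).flatMap fun j => [cv v a j, tp v a j]) ++
    ((List.range (q - 1)).flatMap fun i => [s1 v i, s2 v i])

/-- the vertices at the ends of the edges: ends number `2i` and `2i+1` belong to edge `i` -/
def ends {q : ℕ} (E : List (ℕ × ℕ × Rel q)) : List ℕ := E.flatMap fun e => [e.1, e.2.1]

/-- how many of the first `p` ends are at the vertex `x` -/
def slot {q : ℕ} (E : List (ℕ × ℕ × Rel q)) (p x : ℕ) : ℕ :=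
  (((ends E).take p).filter fun y => decide (y = x)).length

/-- pairs of letters -/
def pairs (q : ℕ) : List (Fin q × Fin q) :=
  (List.finRange q).flatMap fun a => (List.finRange q).map fun b => (a, b)

/-- the list with indices -/
def idxd {α : Type} (l : List α) : List (α × ℕ) := l.zip (List.range l.length)

/-- the triangles of the edges -/
def edgeTs {q : ℕ} (E : List (ℕ × ℕ × Rel q)) : List Tr :=
  (idxd E).flatMap fun ei =>
    ((pairs q).filter fun ab => ei.1.2.2 ab.1 ab.2).map fun ab =>
      edgeT ei.2 ei.1.1 ei.1.2.1 (slot E (2 * ei.2) ei.1.1) (slot E (2 * ei.2 + 1) ei.1.2.1)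
        ab.1 ab.2

/-- all triangles -/
def tris {q : ℕ} (K : ℕ) (G : CG q) : List Tr :=
  ((List.range G.1.length).flatMap (locT q K)) ++ edgeTs G.2

/-- all vertices -/
def verts {q : ℕ} (K : ℕ) (G : CG q) : List Nm :=
  ((List.range G.1.length).flatMap (locV q K)) ++ (List.range G.2.length).map zz

/-- adjacency of names -/
def adjb {q : ℕ} (K : ℕ) (G : CG q) (x y : Nm) : Bool :=
  !(decide (x = y)) && (tris K G).any fun t => decide (x ∈ vl t) && decide (y ∈ vl t)

/-- the adjacency matrix -/
def mat {q : ℕ} (K : ℕ) (G : CG q) : List (List Bool) :=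
  (verts K G).map fun x => (verts K G).map fun y => adjb K G x y

/-- names of a triple of numbers -/
def nmo (V : List Nm) (t : ℕ × ℕ × ℕ) : List (Option Nm) := [V[t.1]?, V[t.2.1]?, V[t.2.2]?]

/-- some triple contains two given names -/
def hit (V : List Nm) (S : List (ℕ × ℕ × ℕ)) (x y : Nm) : Bool :=
  S.any fun t => decide (some x ∈ nmo V t) && decide (some y ∈ nmo V t)

/-- decoded value of a vertex -/
def val {q : ℕ} (K : ℕ) (d : Fin q) (G : CG q) (S : List (ℕ × ℕ × ℕ)) (v : ℕ) : Fin q :=
  ((List.finRange q).find? fun a : Fin q => hit (verts K G) S (cv v (a : ℕ) 1) (tp v (a : ℕ) 1)).getD d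

/-- decoding -/
def dec {q : ℕ} (K : ℕ) (d : Fin q) (p : CG q × List (ℕ × ℕ × ℕ)) : List (Fin q) :=
  (List.range p.1.1.length).map fun v => val K d p.1 p.2 v

/-! ### polynomial time -/

section ptime

theorem vl_p {α β : Type} [Enc α] [Enc β] {f : α → β × β × β} (hf : PTime f) :
    PTime (fun x => vl (f x)) := by
  unfold vl
  apply_rules [PTime.id, PTime.const, PTime.fst', PTime.snd', PTime.cons]

variable {q : ℕ}

theorem locT_p (q K : ℕ) : PTime (locT q K) := by
  unfold locT
  refine PTime.append (PTime.flatMap (PTime.const _) (PTime.map (PTime.const _) ?_))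
    (PTime.flatMap (PTime.const _) (PTime.map (PTime.const _) ?_))
  · have h : PTime (fun j : ℕ => nxt K j) := by
      unfold nxt
      exact PTime.iteP (PTime.eq (PTime.succ PTime.id) (PTime.const _)) (PTime.const _)
        (PTime.succ PTime.id)
    have h2 : PTime (fun p : (ℕ × ℕ) × ℕ => nxt K p.2) := h.comp PTime.snd
    apply_rules [PTime.id, PTime.const, PTime.fst', PTime.snd', PTime.pair]
  · apply_rules [PTime.id, PTime.const, PTime.fst', PTime.snd', PTime.pair]

theorem locV_p (q K : ℕ) : PTime (locV q K) := by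
  unfold locV
  refine PTime.append (PTime.flatMap (PTime.const _) (PTime.flatMap (PTime.const _) ?_))
    (PTime.flatMap (PTime.const _) ?_)
  · apply_rules [PTime.id, PTime.const, PTime.fst', PTime.snd', PTime.pair, PTime.cons]
  · apply_rules [PTime.id, PTime.const, PTime.fst', PTime.snd', PTime.pair, PTime.cons]

theorem ends_p : PTime (ends (q := q)) := by
  unfold ends
  refine PTime.flatMap PTime.id ?_
  apply_rules [PTime.id, PTime.const, PTime.fst', PTime.snd', PTime.cons]

theorem slot_p {α : Type} [Enc α] {E : α → List (ℕ × ℕ × Rel q)} {p x : α → ℕ} (hE : PTime E)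
    (hp : PTime p) (hx : PTime x) : PTime (fun a => slot (E a) (p a) (x a)) := by
  unfold slot
  refine PTime.length (PTime.filter (PTime.take (ends_p.comp hE) hp) ?_)
  exact PTime.eq PTime.snd (hx.comp PTime.fst)

theorem idxd_p {α β : Type} [Enc α] [Enc β] {f : α → List β} (hf : PTime f) :
    PTime (fun x => idxd (f x)) := PTime.zipIdx hf

theorem edgeTs_p : PTime (edgeTs (q := q)) := by
  unfold edgeTs
  refine PTime.flatMap (idxd_p PTime.id) (PTime.map (PTime.filter (PTime.const _) ?_) ?_)
  · have h1 : PTime (fun p : (List (ℕ × ℕ × Rel q) × ((ℕ × ℕ × Rel q) × ℕ)) × (Fin q × Fin q) =>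
        p.1.2.1.2.2) := by
      apply_rules [PTime.id, PTime.fst', PTime.snd']
    have h2 : PTime (fun p : (List (ℕ × ℕ × Rel q) × ((ℕ × ℕ × Rel q) × ℕ)) × (Fin q × Fin q) =>
        p.2.1) := by
      apply_rules [PTime.id, PTime.fst', PTime.snd']
    have h3 : PTime (fun p : (List (ℕ × ℕ × Rel q) × ((ℕ × ℕ × Rel q) × ℕ)) × (Fin q × Fin q) =>
        p.2.2) := by
      apply_rules [PTime.id, PTime.fst', PTime.snd']
    exact PTime.appFn' (PTime.appFn' h1 h2) h3
  · refine PTime.pair ?_ (PTime.pair (PTime.pair ?_ (PTime.pair ?_ (PTime.pair ?_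
      (PTime.mul (PTime.const 2) (slot_p ?_ ?_ ?_))))) (PTime.pair ?_ (PTime.pair ?_
      (PTime.pair ?_ (PTime.mul (PTime.const 2) (slot_p ?_ ?_ ?_))))))
    all_goals
      apply_rules [PTime.id, PTime.const, PTime.fst', PTime.snd', PTime.pair, PTime.mul,
        PTime.succ, PTime.finVal]

theorem tris_p (K : ℕ) : PTime (tris (q := q) K) := by
  unfold tris
  exact PTime.append (PTime.flatMap (PTime.rangeLength PTime.fst) ((locT_p q K).comp PTime.snd))
    (edgeTs_p.comp PTime.snd)

theorem verts_p (K : ℕ) : PTime (verts (q := q) K) := by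
  unfold verts
  refine PTime.append (PTime.flatMap (PTime.rangeLength PTime.fst) ((locV_p q K).comp PTime.snd))
    (PTime.map (PTime.rangeLength PTime.snd) ?_)
  apply_rules [PTime.id, PTime.const, PTime.fst', PTime.snd', PTime.pair]

theorem adjb_p (K : ℕ) {α : Type} [Enc α] {G : α → CG q} {x y : α → Nm} (hG : PTime G)
    (hx : PTime x) (hy : PTime y) : PTime (fun a => adjb K (G a) (x a) (y a)) := by
  unfold adjb
  refine PTime.and (PTime.not (PTime.eq hx hy)) (PTime.any ((tris_p K).comp hG)
    (PTime.and (PTime.mem (hx.comp PTime.fst) (vl_p PTime.snd))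
      (PTime.mem (hy.comp PTime.fst) (vl_p PTime.snd))))

theorem mat_p (K : ℕ) : PTime (mat (q := q) K) := by
  unfold mat
  refine PTime.map (verts_p K) (PTime.map ((verts_p K).comp PTime.fst) (adjb_p K ?_ ?_ ?_))
  all_goals
    apply_rules [PTime.id, PTime.const, PTime.fst', PTime.snd', PTime.pair]

theorem nmo_p {α : Type} [Enc α] {V : α → List Nm} {t : α → ℕ × ℕ × ℕ} (hV : PTime V)
    (ht : PTime t) : PTime (fun a => nmo (V a) (t a)) := by
  unfold nmo
  exact PTime.cons (PTime.getElem? hV ht.fst') (PTime.cons (PTime.getElem? hV ht.snd'.fst')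
    (PTime.cons (PTime.getElem? hV ht.snd'.snd') (PTime.const [])))

theorem hit_p {α : Type} [Enc α] {V : α → List Nm} {S : α → List (ℕ × ℕ × ℕ)}
    {x y : α → Nm} (hV : PTime V) (hS : PTime S) (hx : PTime x) (hy : PTime y) :
    PTime (fun a => hit (V a) (S a) (x a) (y a)) := by
  unfold hit
  exact PTime.any hS (PTime.and
    (PTime.mem (PTime.some (hx.comp PTime.fst)) (nmo_p (hV.comp PTime.fst) PTime.snd))
    (PTime.mem (PTime.some (hy.comp PTime.fst)) (nmo_p (hV.comp PTime.fst) PTime.snd)))

theorem dec_p (K : ℕ) (d : Fin q) : PTime (dec K d) := by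
  unfold dec val
  refine PTime.map (PTime.rangeLength (PTime.fst' PTime.fst)) (PTime.getD (PTime.find?
    (PTime.const _) (hit_p ((verts_p K).comp ?_) ?_ ?_ ?_)) (PTime.const _))
  all_goals
    apply_rules [PTime.id, PTime.const, PTime.fst', PTime.snd', PTime.pair, PTime.finVal]

end ptime

end Pool.Agent.PCP.Tri
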