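import Pool.Agent.Lib.PCP.TriDefs

/-!
# The graph of the construction: its triangles
-/

namespace Pool.Agent.PCP.Tri

variable {q : ℕ}

theorem mem_vl {α : Type} {t : α × α × α} {x : α} :
    x ∈ vl t ↔ x = t.1 ∨ x = t.2.1 ∨ x = t.2.2 := by
  simp [vl]

theorem mem_idxd {α : Type} {l : List α} {x : α} {i : ℕ} : (x, i) ∈ idxd l ↔ l[i]? = some x := by
  unfold idxd
  rw [List.mem_iff_getElem?]
  constructor
  · rintro ⟨j, hj⟩
    rw [List.getElem?_zip_eq_some] at hj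
    obtain ⟨h1, h2⟩ := hj
    rw [List.getElem?_range] at h2
    · obtain rfl : j = i := by simpa using h2
      exact h1
    · by_contra h
      simp [List.getElem?_eq_none (l := List.range l.length) (i := j) (by simpa using h)] at h2
  · intro h
    refine ⟨i, ?_⟩
    rw [List.getElem?_zip_eq_some]
    refine ⟨h, ?_⟩
    rw [List.getElem?_range]
    exact (List.getElem?_eq_some_iff.1 h).1

theorem mem_pairs (a b : Fin q) : (a, b) ∈ pairs q := by
  simp [pairs]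

theorem mem_tris {K : ℕ} {G : CG q} {t : Tr} : t ∈ tris K G ↔
    (∃ v a j, v < G.1.length ∧ a < q ∧ j < 2 * K ∧ t = wheelT K v a j) ∨
    (∃ v i a, v < G.1.length ∧ i < q - 1 ∧ a < q ∧ t = selT v i a) ∨
    (∃ i e, G.2[i]? = some e ∧ ∃ a b : Fin q, e.2.2 a b = true ∧
      t = edgeT i e.1 e.2.1 (slot G.2 (2 * i) e.1) (slot G.2 (2 * i + 1) e.2.1) a b) := by
  unfold tris edgeTs locT
  simp only [List.mem_append, List.mem_flatMap, List.mem_map, List.mem_range, List.mem_filter]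
  constructor
  · rintro (⟨v, hv, ⟨a, ha, j, hj, rfl⟩ | ⟨i, hi, a, ha, rfl⟩⟩ | ⟨⟨e, i⟩, hei, ⟨a, b⟩, ⟨_, hab⟩, rfl⟩)
    · exact Or.inl ⟨v, a, j, hv, ha, hj, rfl⟩
    · exact Or.inr (Or.inl ⟨v, i, a, hv, hi, ha, rfl⟩)
    · exact Or.inr (Or.inr ⟨i, e, mem_idxd.1 hei, a, b, hab, rfl⟩)
  · rintro (⟨v, a, j, hv, ha, hj, rfl⟩ | ⟨v, i, a, hv, hi, ha, rfl⟩ | ⟨i, e, hei, a, b, hab, rfl⟩)
    · exact Or.inl ⟨v, hv, Or.inl ⟨a, ha, j, hj, rfl⟩⟩
    · exact Or.inl ⟨v, hv, Or.inr ⟨i, hi, a, ha, rfl⟩⟩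
    · exact Or.inr ⟨(e, i), mem_idxd.2 hei, (a, b), ⟨mem_pairs a b, hab⟩, rfl⟩

theorem mem_verts {K : ℕ} {G : CG q} {x : Nm} : x ∈ verts K G ↔
    (∃ v a j, v < G.1.length ∧ a < q ∧ j < 2 * K ∧ (x = cv v a j ∨ x = tp v a j)) ∨
    (∃ v i, v < G.1.length ∧ i < q - 1 ∧ (x = s1 v i ∨ x = s2 v i)) ∨
    (∃ i, i < G.2.length ∧ x = zz i) := by
  unfold verts locV
  simp only [List.mem_append, List.mem_flatMap, List.mem_map, List.mem_range, List.mem_cons,
    List.not_mem_nil, or_false]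
  constructor
  · rintro (⟨v, hv, ⟨a, ha, j, hj, h⟩ | ⟨i, hi, h⟩⟩ | ⟨i, hi, rfl⟩)
    · exact Or.inl ⟨v, a, j, hv, ha, hj, h⟩
    · exact Or.inr (Or.inl ⟨v, i, hv, hi, h⟩)
    · exact Or.inr (Or.inr ⟨i, hi, rfl⟩)
  · rintro (⟨v, a, j, hv, ha, hj, h⟩ | ⟨v, i, hv, hi, h⟩ | ⟨i, hi, rfl⟩)
    · exact Or.inl ⟨v, hv, Or.inl ⟨a, ha, j, hj, h⟩⟩
    · exact Or.inl ⟨v, hv, Or.inr ⟨i, hi, h⟩⟩
    · exact Or.inr ⟨i, hi, rfl⟩

/-! ### slots -/

theorem ends_cons (e : ℕ × ℕ × Rel q) (E : List (ℕ × ℕ × Rel q)) :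
    ends (e :: E) = e.1 :: e.2.1 :: ends E := rfl

theorem length_ends (E : List (ℕ × ℕ × Rel q)) : (ends E).length = 2 * E.length := by
  induction E with
  | nil => rfl
  | cons e E ih => rw [ends_cons]; simp only [List.length_cons]; omega

theorem ends_even (E : List (ℕ × ℕ × Rel q)) : ∀ (i : ℕ) (e : ℕ × ℕ × Rel q), E[i]? = some e →
    (ends E)[2 * i]? = some e.1 ∧ (ends E)[2 * i + 1]? = some e.2.1 := by
  induction E with
  | nil => intro i e h; simp at h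
  | cons e' E ih =>
    intro i e h
    rw [ends_cons]
    cases i with
    | zero =>
      obtain rfl : e' = e := by simpa using h
      simp
    | succ i =>
      have := ih i e (by simpa using h)
      have e1 : 2 * (i + 1) = 2 * i + 1 + 1 := by ring
      have e2 : 2 * (i + 1) + 1 = 2 * i + 1 + 1 + 1 := by ring
      rw [e1]
      simpa using this

theorem slot_lt (E : List (ℕ × ℕ × Rel q)) {p p' x : ℕ} (h : (ends E)[p]? = some x)
    (hp : p < p') : slot E p x < slot E p' x := by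
  unfold slot
  have h1 : (ends E).take p ++ [x] = (ends E).take (p + 1) := by
    rw [List.take_add_one, h]; rfl
  have h2 : ((ends E).take (p + 1)).Sublist ((ends E).take p') :=
    (List.take_isPrefix_take.2 (Or.inl (show p + 1 ≤ p' by omega))).sublist
  have h3 := (h2.filter fun y => decide (y = x)).length_le
  rw [← h1, List.filter_append] at h3
  simp only [List.length_append] at h3
  have h4 : ([x].filter fun y => decide (y = x)).length = 1 := by simp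
  omega

theorem filter_ends (E : List (ℕ × ℕ × Rel q)) (x : ℕ) :
    ((ends E).filter fun y => decide (y = x)).length = degCG E x := by
  unfold degCG
  induction E with
  | nil => rfl
  | cons e E ih =>
    rw [ends_cons, List.filter_cons, List.filter_cons, List.countP_cons, List.countP_cons]
    by_cases h1 : e.1 = x <;> by_cases h2 : e.2.1 = x <;> simp [h1, h2, ih] <;> omega

theorem slot_lt_deg (E : List (ℕ × ℕ × Rel q)) {p x : ℕ} (h : (ends E)[p]? = some x) :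
    slot E p x < degCG E x := by
  have h1 := slot_lt E h (p' := p + (ends E).length + 1) (by omega)
  have h2 : slot E (p + (ends E).length + 1) x = degCG E x := by
    unfold slot
    rw [List.take_of_length_le (by omega), filter_ends]
  omega

/-- `x` is a tip used by the end number `p` -/
def AtEnd (E : List (ℕ × ℕ × Rel q)) (p : ℕ) (x : Nm) : Prop :=
  ∃ w a, (ends E)[p]? = some w ∧ x = tp w a (2 * slot E p w)

theorem AtEnd.unique {E : List (ℕ × ℕ × Rel q)} {p p' : ℕ} {x : Nm} (h : AtEnd E p x)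
    (h' : AtEnd E p' x) : p = p' := by
  obtain ⟨w, a, h1, rfl⟩ := h
  obtain ⟨w', a', h2, h3⟩ := h'
  simp only [Prod.mk.injEq, true_and] at h3
  obtain ⟨rfl, rfl, h3⟩ := h3
  rcases lt_trichotomy p p' with h | h | h
  · have := slot_lt E h1 h; omega
  · exact h
  · have := slot_lt E h2 h; omega

/-! ### adjacency -/

/-- adjacency of names -/
def A (K : ℕ) (G : CG q) (x y : Nm) : Prop := x ≠ y ∧ ∃ t ∈ tris K G, x ∈ vl t ∧ y ∈ vl t

theorem adjb_iff {K : ℕ} {G : CG q} {x y : Nm} : adjb K G x y = true ↔ A K G x y := by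
  unfold adjb A
  simp only [Bool.and_eq_true, Bool.not_eq_true', decide_eq_false_iff_not, List.any_eq_true,
    decide_eq_true_eq, ne_eq]

theorem A.symm {K : ℕ} {G : CG q} {x y : Nm} (h : A K G x y) : A K G y x := by
  obtain ⟨h1, t, ht, hx, hy⟩ := h
  exact ⟨h1.symm, t, ht, hy, hx⟩

variable {K : ℕ} {G : CG q}

theorem A_cv {v a j : ℕ} {y : Nm} (h : A K G (cv v a j) y) :
    v < G.1.length ∧ a < q ∧ ((∃ j', y = cv v a j' ∧ j < 2 * K ∧ j' < 2 * K ∧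
      (j' = nxt K j ∨ j = nxt K j')) ∨
    (∃ j', y = tp v a j' ∧ j' < 2 * K ∧ (j = j' ∨ j = nxt K j'))) := by
  obtain ⟨hne, t, ht, hx, hy⟩ := h
  rw [mem_tris] at ht
  rw [mem_vl] at hx hy
  have hn : ∀ l, l < 2 * K → nxt K l < 2 * K := by
    intro l hl; unfold nxt; split_ifs <;> omega
  rcases ht with ⟨v', a', j', hv, ha, hj, rfl⟩ | ⟨v', i, a', hv, hi, ha, rfl⟩ |
    ⟨i, e, hei, a', b, hab, rfl⟩
  · have := hn j' hj
    simp only [Prod.mk.injEq, zero_ne_one, false_and, or_false, true_and] at hx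
    rcases hx with ⟨rfl, rfl, rfl⟩ | ⟨rfl, rfl, rfl⟩
    · rcases hy with rfl | rfl | rfl
      · exact absurd rfl hne
      · exact ⟨hv, ha, Or.inl ⟨_, rfl, hj, this, Or.inl rfl⟩⟩
      · exact ⟨hv, ha, Or.inr ⟨_, rfl, hj, Or.inl rfl⟩⟩
    · rcases hy with rfl | rfl | rfl
      · exact ⟨hv, ha, Or.inl ⟨_, rfl, this, hj, Or.inr rfl⟩⟩
      · exact absurd rfl hne
      · exact ⟨hv, ha, Or.inr ⟨_, rfl, hj, Or.inr rfl⟩⟩
  · simp at hx
  · simp at hx

theorem A_s1 {v i : ℕ} {y : Nm} (h : A K G (s1 v i) y) :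
    v < G.1.length ∧ i < q - 1 ∧ (y = s2 v i ∨ ∃ a < q, y = tp v a 1) := by
  obtain ⟨hne, t, ht, hx, hy⟩ := h
  rw [mem_tris] at ht
  rw [mem_vl] at hx hy
  rcases ht with ⟨v', a', j', hv, ha, hj, rfl⟩ | ⟨v', i, a', hv, hi, ha, rfl⟩ |
    ⟨i, e, hei, a', b, hab, rfl⟩
  · simp at hx
  · simp at hx
    obtain ⟨rfl, rfl⟩ := hx
    refine ⟨hv, hi, ?_⟩
    rcases hy with rfl | rfl | rfl
    · exact absurd rfl hne
    · exact Or.inl rfl
    · exact Or.inr ⟨_, ha, rfl⟩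
  · simp at hx

theorem A_s2 {v i : ℕ} {y : Nm} (h : A K G (s2 v i) y) :
    v < G.1.length ∧ i < q - 1 ∧ (y = s1 v i ∨ ∃ a < q, y = tp v a 1) := by
  obtain ⟨hne, t, ht, hx, hy⟩ := h
  rw [mem_tris] at ht
  rw [mem_vl] at hx hy
  rcases ht with ⟨v', a', j', hv, ha, hj, rfl⟩ | ⟨v', i, a', hv, hi, ha, rfl⟩ |
    ⟨i, e, hei, a', b, hab, rfl⟩
  · simp at hx
  · simp at hx
    obtain ⟨rfl, rfl⟩ := hx
    refine ⟨hv, hi, ?_⟩
    rcases hy with rfl | rfl | rfl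
    · exact Or.inl rfl
    · exact absurd rfl hne
    · exact Or.inr ⟨_, ha, rfl⟩
  · simp at hx

theorem A_zz {i : ℕ} {y : Nm} (h : A K G (zz i) y) :
    AtEnd G.2 (2 * i) y ∨ AtEnd G.2 (2 * i + 1) y := by
  obtain ⟨hne, t, ht, hx, hy⟩ := h
  rw [mem_tris] at ht
  rw [mem_vl] at hx hy
  rcases ht with ⟨v', a', j', hv, ha, hj, rfl⟩ | ⟨v', i, a', hv, hi, ha, rfl⟩ |
    ⟨i, e, hei, a', b, hab, rfl⟩
  · simp at hx
  · simp at hx
  · simp at hx
    subst hx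
    have h1 := ends_even G.2 _ _ hei
    rcases hy with rfl | rfl | rfl
    · exact absurd rfl hne
    · exact Or.inl ⟨_, _, h1.1, rfl⟩
    · exact Or.inr ⟨_, _, h1.2, rfl⟩

theorem A_tp {v a j : ℕ} {v' a' j' : ℕ} (h : A K G (tp v a j) (tp v' a' j')) :
    ∃ i t, t ∈ tris K G ∧ zz i ∈ vl t ∧ tp v a j ∈ vl t ∧ tp v' a' j' ∈ vl t ∧
      ((AtEnd G.2 (2 * i) (tp v a j) ∧ AtEnd G.2 (2 * i + 1) (tp v' a' j')) ∨
      (AtEnd G.2 (2 * i + 1) (tp v a j) ∧ AtEnd G.2 (2 * i) (tp v' a' j'))) := by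
  obtain ⟨hne, t, ht, hx, hy⟩ := h
  have ht' := ht
  have hx' := hx
  have hy' := hy
  rw [mem_tris] at ht
  rw [mem_vl] at hx hy
  rcases ht with ⟨v'', a'', j'', hv, ha, hj, rfl⟩ | ⟨v'', i, a'', hv, hi, ha, rfl⟩ |
    ⟨i, e, hei, a'', b, hab, rfl⟩
  · simp at hx hy hne
    omega
  · simp at hx hy hne
    omega
  · have h1 := ends_even G.2 _ _ hei
    refine ⟨i, _, ht', by simp [vl], hx', hy', ?_⟩
    simp only [Prod.mk.injEq, OfNat.one_ne_ofNat, false_and, true_and, false_or] at hx hy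
    rcases hx with ⟨rfl, rfl, rfl⟩ | ⟨rfl, rfl, rfl⟩ <;>
      rcases hy with ⟨rfl, rfl, rfl⟩ | ⟨rfl, rfl, rfl⟩
    · exact absurd rfl hne
    · exact Or.inl ⟨⟨_, _, h1.1, rfl⟩, ⟨_, _, h1.2, rfl⟩⟩
    · exact Or.inr ⟨⟨_, _, h1.2, rfl⟩, ⟨_, _, h1.1, rfl⟩⟩
    · exact absurd rfl hne

end Pool.Agent.PCP.Tri
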