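import Pool.Agent.Lib.PCP.TriGraph

/-!
# The graph of the construction: its triangles are the given ones; bounded degree
-/

namespace Pool.Agent.PCP.Tri

variable {q : ℕ} {K : ℕ} {G : CG q}

theorem kinds {x y : Nm} (h : A K G x y) : (∃ v a j, x = cv v a j) ∨ (∃ v a j, x = tp v a j) ∨
    (∃ v i, x = s1 v i) ∨ (∃ v i, x = s2 v i) ∨ (∃ i, x = zz i) := by
  obtain ⟨hne, t, ht, hx, hy⟩ := h
  rw [mem_tris] at ht
  rw [mem_vl] at hx hy
  rcases ht with ⟨v', a', j', hv, ha, hj, rfl⟩ | ⟨v', i, a', hv, hi, ha, rfl⟩ |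
    ⟨i, e, hei, a', b, hab, rfl⟩
  · rcases hx with rfl | rfl | rfl
    · exact Or.inl ⟨_, _, _, rfl⟩
    · exact Or.inl ⟨_, _, _, rfl⟩
    · exact Or.inr (Or.inl ⟨_, _, _, rfl⟩)
  · rcases hx with rfl | rfl | rfl
    · exact Or.inr (Or.inr (Or.inl ⟨_, _, rfl⟩))
    · exact Or.inr (Or.inr (Or.inr (Or.inl ⟨_, _, rfl⟩)))
    · exact Or.inr (Or.inl ⟨_, _, _, rfl⟩)
  · rcases hx with rfl | rfl | rfl
    · exact Or.inr (Or.inr (Or.inr (Or.inr ⟨_, rfl⟩)))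
    · exact Or.inr (Or.inl ⟨_, _, _, rfl⟩)
    · exact Or.inr (Or.inl ⟨_, _, _, rfl⟩)

/-- three names are in a common triangle -/
def P (K : ℕ) (G : CG q) (x y z : Nm) : Prop := ∃ t ∈ tris K G, x ∈ vl t ∧ y ∈ vl t ∧ z ∈ vl t

theorem P.rot {x y z : Nm} (h : P K G x y z) : P K G y z x := by
  obtain ⟨t, ht, hx, hy, hz⟩ := h
  exact ⟨t, ht, hy, hz, hx⟩

theorem P.swap {x y z : Nm} (h : P K G x y z) : P K G y x z := by
  obtain ⟨t, ht, hx, hy, hz⟩ := h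
  exact ⟨t, ht, hy, hx, hz⟩

theorem A_tp_same {v a j a' j' : ℕ} (h : A K G (tp v a j) (tp v a' j')) :
    ∃ s s', j = 2 * s ∧ j' = 2 * s' ∧ s ≠ s' := by
  obtain ⟨i, t, -, -, -, -, ⟨h1, h2⟩ | ⟨h1, h2⟩⟩ := A_tp h
  · obtain ⟨w, b, h3, h4⟩ := h1
    obtain ⟨w', b', h5, h6⟩ := h2
    simp only [Prod.mk.injEq, true_and] at h4 h6
    obtain ⟨rfl, rfl, rfl⟩ := h4
    obtain ⟨rfl, rfl, rfl⟩ := h6
    exact ⟨_, _, rfl, rfl, (slot_lt _ h3 (by omega)).ne⟩
  · obtain ⟨w, b, h3, h4⟩ := h1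
    obtain ⟨w', b', h5, h6⟩ := h2
    simp only [Prod.mk.injEq, true_and] at h4 h6
    obtain ⟨rfl, rfl, rfl⟩ := h4
    obtain ⟨rfl, rfl, rfl⟩ := h6
    exact ⟨_, _, rfl, rfl, (slot_lt _ h5 (by omega)).ne'⟩

theorem A_tp_even {v a j : ℕ} {v' a' j' : ℕ} (h : A K G (tp v a j) (tp v' a' j')) :
    ∃ s, j = 2 * s := by
  obtain ⟨i, t, -, -, -, -, ⟨h1, h2⟩ | ⟨h1, h2⟩⟩ := A_tp h
  · obtain ⟨w, b, h3, h4⟩ := h1
    simp only [Prod.mk.injEq, true_and] at h4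
    exact ⟨_, h4.2.2⟩
  · obtain ⟨w, b, h3, h4⟩ := h1
    simp only [Prod.mk.injEq, true_and] at h4
    exact ⟨_, h4.2.2⟩

theorem tri_cv (hK : 2 ≤ K) {v a j : ℕ} {y z : Nm} (h1 : A K G (cv v a j) y)
    (h2 : A K G (cv v a j) z) (h3 : A K G y z) : P K G (cv v a j) y z := by
  obtain ⟨hv, ha, h1⟩ := A_cv h1
  obtain ⟨-, -, h2⟩ := A_cv h2
  rcases h1 with ⟨j1, rfl, hj, hj1, h1⟩ | ⟨j1, rfl, hj1, h1⟩
  · rcases h2 with ⟨j2, rfl, -, hj2, h2⟩ | ⟨j2, rfl, hj2, h2⟩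
    · exfalso
      obtain ⟨-, -, h3⟩ := A_cv h3
      rcases h3 with ⟨j3, h4, -, -, h3⟩ | ⟨j3, h4, -⟩
      · simp only [Prod.mk.injEq, true_and] at h4
        subst h4
        unfold nxt at h1 h2 h3
        split_ifs at h1 h2 h3 <;> omega
      · simp at h4
    · obtain ⟨-, -, h3⟩ := A_cv h3
      rcases h3 with ⟨j3, h4, -⟩ | ⟨j3, h4, -, h3⟩
      · simp at h4
      · simp only [Prod.mk.injEq, true_and] at h4
        subst h4
        refine ⟨wheelT K v a j2, mem_tris.2 (Or.inl ⟨v, a, j2, hv, ha, hj2, rfl⟩), ?_, ?_, ?_⟩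
        · rw [mem_vl]
          rcases h2 with rfl | rfl
          · exact Or.inl rfl
          · exact Or.inr (Or.inl rfl)
        · rw [mem_vl]
          rcases h3 with rfl | rfl
          · exact Or.inl rfl
          · exact Or.inr (Or.inl rfl)
        · rw [mem_vl]
          exact Or.inr (Or.inr rfl)
  · rcases h2 with ⟨j2, rfl, -, hj2, h2⟩ | ⟨j2, rfl, hj2, h2⟩
    · obtain ⟨-, -, h3⟩ := A_cv h3.symm
      rcases h3 with ⟨j3, h4, -⟩ | ⟨j3, h4, -, h3⟩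
      · simp at h4
      · simp only [Prod.mk.injEq, true_and] at h4
        subst h4
        refine ⟨wheelT K v a j1, mem_tris.2 (Or.inl ⟨v, a, j1, hv, ha, hj1, rfl⟩), ?_, ?_, ?_⟩
        · rw [mem_vl]
          rcases h1 with rfl | rfl
          · exact Or.inl rfl
          · exact Or.inr (Or.inl rfl)
        · rw [mem_vl]
          exact Or.inr (Or.inr rfl)
        · rw [mem_vl]
          rcases h3 with rfl | rfl
          · exact Or.inl rfl
          · exact Or.inr (Or.inl rfl)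
    · exfalso
      obtain ⟨s, s', rfl, rfl, h5⟩ := A_tp_same h3
      unfold nxt at h1 h2
      split_ifs at h1 h2 <;> omega

theorem tri_s1 {v i : ℕ} {y z : Nm} (h1 : A K G (s1 v i) y)
    (h2 : A K G (s1 v i) z) (h3 : A K G y z) : P K G (s1 v i) y z := by
  obtain ⟨hv, hi, h1⟩ := A_s1 h1
  obtain ⟨-, -, h2⟩ := A_s1 h2
  rcases h1 with rfl | ⟨a, ha, rfl⟩
  · rcases h2 with rfl | ⟨a, ha, rfl⟩
    · exact absurd rfl h3.1
    · exact ⟨selT v i a, mem_tris.2 (Or.inr (Or.inl ⟨v, i, a, hv, hi, ha, rfl⟩)), by simp [vl]⟩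
  · rcases h2 with rfl | ⟨b, hb, rfl⟩
    · exact ⟨selT v i a, mem_tris.2 (Or.inr (Or.inl ⟨v, i, a, hv, hi, ha, rfl⟩)), by simp [vl]⟩
    · obtain ⟨s, hs⟩ := A_tp_even h3
      omega

theorem tri_s2 {v i : ℕ} {y z : Nm} (h1 : A K G (s2 v i) y)
    (h2 : A K G (s2 v i) z) (h3 : A K G y z) : P K G (s2 v i) y z := by
  obtain ⟨hv, hi, h1⟩ := A_s2 h1
  obtain ⟨-, -, h2⟩ := A_s2 h2
  rcases h1 with rfl | ⟨a, ha, rfl⟩
  · rcases h2 with rfl | ⟨a, ha, rfl⟩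
    · exact absurd rfl h3.1
    · exact ⟨selT v i a, mem_tris.2 (Or.inr (Or.inl ⟨v, i, a, hv, hi, ha, rfl⟩)), by simp [vl]⟩
  · rcases h2 with rfl | ⟨b, hb, rfl⟩
    · exact ⟨selT v i a, mem_tris.2 (Or.inr (Or.inl ⟨v, i, a, hv, hi, ha, rfl⟩)), by simp [vl]⟩
    · obtain ⟨s, hs⟩ := A_tp_even h3
      omega

theorem AtEnd.eq_tp {E : List (ℕ × ℕ × Rel q)} {p : ℕ} {x : Nm} (h : AtEnd E p x) :
    ∃ v a j, x = tp v a j := by
  obtain ⟨w, a, -, rfl⟩ := h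
  exact ⟨_, _, _, rfl⟩

theorem A_zz_tp {i : ℕ} {y : Nm} (h : A K G (zz i) y) : ∃ v a j, y = tp v a j := by
  rcases A_zz h with h | h
  · exact h.eq_tp
  · exact h.eq_tp

theorem tri_zz {i : ℕ} {y z : Nm} (h1 : A K G (zz i) y)
    (h2 : A K G (zz i) z) (h3 : A K G y z) : P K G (zz i) y z := by
  obtain ⟨v, a, j, rfl⟩ := A_zz_tp h1
  obtain ⟨v', a', j', rfl⟩ := A_zz_tp h2
  have h1 := A_zz h1
  obtain ⟨i', t, ht, hz, hx, hy, h4⟩ := A_tp h3
  have : i' = i := by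
    rcases h4 with ⟨h4, -⟩ | ⟨h4, -⟩ <;> rcases h1 with h1 | h1 <;>
      have := h1.unique h4 <;> omega
  subst this
  exact ⟨t, ht, hz, hx, hy⟩

theorem tri_tp {v a j v' a' j' v'' a'' j'' : ℕ} (h1 : A K G (tp v a j) (tp v' a' j'))
    (h2 : A K G (tp v a j) (tp v'' a'' j'')) (h3 : A K G (tp v' a' j') (tp v'' a'' j'')) :
    False := by
  obtain ⟨i1, -, -, -, -, -, h1⟩ := A_tp h1
  obtain ⟨i2, -, -, -, -, -, h2⟩ := A_tp h2
  obtain ⟨i3, -, -, -, -, -, h3⟩ := A_tp h3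
  rcases h1 with ⟨h1, h1'⟩ | ⟨h1, h1'⟩ <;> rcases h2 with ⟨h2, h2'⟩ | ⟨h2, h2'⟩ <;>
    rcases h3 with ⟨h3, h3'⟩ | ⟨h3, h3'⟩ <;>
    have e1 := h1.unique h2 <;> have e2 := h1'.unique h3 <;> have e3 := h2'.unique h3' <;> omega

/-- Every triangle of the graph is one of the given triangles. -/
theorem tri (hK : 2 ≤ K) {x y z : Nm} (h1 : A K G x y) (h2 : A K G x z) (h3 : A K G y z) :
    P K G x y z := by
  rcases kinds h1 with ⟨v, a, j, rfl⟩ | ⟨v, a, j, rfl⟩ | ⟨v, i, rfl⟩ | ⟨v, i, rfl⟩ | ⟨i, rfl⟩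
  · exact tri_cv hK h1 h2 h3
  · rcases kinds h3 with ⟨v', a', j', rfl⟩ | ⟨v', a', j', rfl⟩ | ⟨v', i, rfl⟩ | ⟨v', i, rfl⟩ |
      ⟨i, rfl⟩
    · exact (tri_cv hK h1.symm h3 h2).swap
    · rcases kinds h3.symm with ⟨v'', a'', j'', rfl⟩ | ⟨v'', a'', j'', rfl⟩ | ⟨v'', i, rfl⟩ |
        ⟨v'', i, rfl⟩ | ⟨i, rfl⟩
      · exact (tri_cv hK h2.symm h3.symm h1).rot
      · exact (tri_tp h1 h2 h3).elim
      · exact (tri_s1 h2.symm h3.symm h1).rot
      · exact (tri_s2 h2.symm h3.symm h1).rot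
      · exact (tri_zz h2.symm h3.symm h1).rot
    · exact (tri_s1 h1.symm h3 h2).swap
    · exact (tri_s2 h1.symm h3 h2).swap
    · exact (tri_zz h1.symm h3 h2).swap
  · exact tri_s1 h1 h2 h3
  · exact tri_s2 h1 h2 h3
  · exact tri_zz h1 h2 h3

/-! ### degrees -/

theorem mem_locV {v : ℕ} {x : Nm} : x ∈ locV q K v ↔
    (∃ a j, a < q ∧ j < 2 * K ∧ (x = cv v a j ∨ x = tp v a j)) ∨
    (∃ i, i < q - 1 ∧ (x = s1 v i ∨ x = s2 v i)) := by
  unfold locV
  simp only [List.mem_append, List.mem_flatMap, List.mem_range, List.mem_cons,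
    List.not_mem_nil, or_false]
  constructor
  · rintro (⟨a, ha, j, hj, h⟩ | ⟨i, hi, h⟩)
    · exact Or.inl ⟨a, j, ha, hj, h⟩
    · exact Or.inr ⟨i, hi, h⟩
  · rintro (⟨a, j, ha, hj, h⟩ | ⟨i, hi, h⟩)
    · exact Or.inl ⟨a, ha, j, hj, h⟩
    · exact Or.inr ⟨i, hi, h⟩

theorem cv_verts {v a j : ℕ} : cv v a j ∈ verts K G ↔ v < G.1.length ∧ a < q ∧ j < 2 * K := by
  rw [mem_verts]
  constructor
  · rintro (⟨v', a', j', hv, ha, hj, h⟩ | ⟨v', i, hv, hi, h⟩ | ⟨i, hi, h⟩)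
    · simp at h
      obtain ⟨rfl, rfl, rfl⟩ := h
      exact ⟨hv, ha, hj⟩
    · simp at h
    · simp at h
  · rintro ⟨hv, ha, hj⟩
    exact Or.inl ⟨v, a, j, hv, ha, hj, Or.inl rfl⟩

theorem tp_verts {v a j : ℕ} : tp v a j ∈ verts K G ↔ v < G.1.length ∧ a < q ∧ j < 2 * K := by
  rw [mem_verts]
  constructor
  · rintro (⟨v', a', j', hv, ha, hj, h⟩ | ⟨v', i, hv, hi, h⟩ | ⟨i, hi, h⟩)
    · simp at h
      obtain ⟨rfl, rfl, rfl⟩ := h
      exact ⟨hv, ha, hj⟩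
    · simp at h
    · simp at h
  · rintro ⟨hv, ha, hj⟩
    exact Or.inl ⟨v, a, j, hv, ha, hj, Or.inr rfl⟩

theorem s1_verts {v i : ℕ} : s1 v i ∈ verts K G ↔ v < G.1.length ∧ i < q - 1 := by
  rw [mem_verts]
  constructor
  · rintro (⟨v', a', j', hv, ha, hj, h⟩ | ⟨v', i, hv, hi, h⟩ | ⟨i, hi, h⟩)
    · simp at h
    · simp at h
      obtain ⟨rfl, rfl⟩ := h
      exact ⟨hv, hi⟩
    · simp at h
  · rintro ⟨hv, hi⟩
    exact Or.inr (Or.inl ⟨v, i, hv, hi, Or.inl rfl⟩)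

theorem s2_verts {v i : ℕ} : s2 v i ∈ verts K G ↔ v < G.1.length ∧ i < q - 1 := by
  rw [mem_verts]
  constructor
  · rintro (⟨v', a', j', hv, ha, hj, h⟩ | ⟨v', i, hv, hi, h⟩ | ⟨i, hi, h⟩)
    · simp at h
    · simp at h
      obtain ⟨rfl, rfl⟩ := h
      exact ⟨hv, hi⟩
    · simp at h
  · rintro ⟨hv, hi⟩
    exact Or.inr (Or.inl ⟨v, i, hv, hi, Or.inr rfl⟩)

theorem zz_verts {i : ℕ} : zz i ∈ verts K G ↔ i < G.2.length := by
  rw [mem_verts]
  constructor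
  · rintro (⟨v', a', j', hv, ha, hj, h⟩ | ⟨v', i, hv, hi, h⟩ | ⟨i, hi, h⟩)
    · simp at h
    · simp at h
    · simp at h
      subst h
      exact hi
  · intro hi
    exact Or.inr (Or.inr ⟨i, hi, rfl⟩)

theorem length_locV (v : ℕ) : (locV q K v).length = (locV q K 0).length := by
  unfold locV
  simp [List.length_flatMap]

/-- the bound for the degrees -/
def Dl (q K : ℕ) : ℕ := 3 * (locV q K 0).length + 1

theorem nbrs (K : ℕ) (G : CG q) (x : Nm) :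
    ∃ N : List Nm, N.length ≤ Dl q K ∧ ∀ y ∈ verts K G, A K G x y → y ∈ N := by
  unfold Dl
  by_cases hx : ∃ y, A K G x y
  swap
  · exact ⟨[], by simp, fun y _ h => absurd ⟨y, h⟩ hx⟩
  obtain ⟨y0, hy0⟩ := hx
  rcases kinds hy0 with ⟨v, a, j, rfl⟩ | ⟨v, a, j, rfl⟩ | ⟨v, i, rfl⟩ | ⟨v, i, rfl⟩ | ⟨i, rfl⟩
  · refine ⟨locV q K v, by rw [length_locV]; omega, fun y hy h => mem_locV.2 ?_⟩
    obtain ⟨hv, ha, h⟩ := A_cv h
    rcases h with ⟨j', rfl, h1, h2, h3⟩ | ⟨j', rfl, h1, h2⟩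
    · exact Or.inl ⟨a, j', ha, h2, Or.inl rfl⟩
    · exact Or.inl ⟨a, j', ha, h1, Or.inr rfl⟩
  · by_cases hp : ∃ p, AtEnd G.2 p (tp v a j)
    · obtain ⟨p, hp⟩ := hp
      refine ⟨zz (p / 2) :: (locV q K v ++ locV q K (((ends G.2)[2 * (p / 2)]?).getD 0) ++
        locV q K (((ends G.2)[2 * (p / 2) + 1]?).getD 0)), ?_, fun y hy h => ?_⟩
      · simp only [List.length_cons, List.length_append]
        rw [length_locV v, length_locV (((ends G.2)[2 * (p / 2)]?).getD 0),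
          length_locV (((ends G.2)[2 * (p / 2) + 1]?).getD 0)]
        omega
      · simp only [List.mem_cons, List.mem_append]
        rcases kinds h.symm with ⟨v', a', j', rfl⟩ | ⟨v', a', j', rfl⟩ | ⟨v', i, rfl⟩ |
          ⟨v', i, rfl⟩ | ⟨i, rfl⟩
        · rw [cv_verts] at hy
          obtain ⟨-, -, h⟩ := A_cv h.symm
          rcases h with ⟨j'', h, -⟩ | ⟨j'', h, -⟩
          · simp at h
          · simp only [Prod.mk.injEq, true_and] at h
            obtain ⟨rfl, rfl, rfl⟩ := h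
            exact Or.inr (Or.inl (Or.inl (mem_locV.2 (Or.inl ⟨_, _, hy.2.1, hy.2.2, Or.inl rfl⟩))))
        · rw [tp_verts] at hy
          obtain ⟨i', -, -, -, -, -, h4⟩ := A_tp h
          rcases h4 with ⟨h4, h5⟩ | ⟨h4, h5⟩
          · have e1 := hp.unique h4
            have e2 : p / 2 = i' := by omega
            obtain ⟨w, b, h6, h7⟩ := h5
            simp only [Prod.mk.injEq, true_and] at h7
            obtain ⟨rfl, rfl, rfl⟩ := h7
            refine Or.inr (Or.inr ?_)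
            rw [e2, h6, Option.getD_some]
            exact mem_locV.2 (Or.inl ⟨_, _, hy.2.1, hy.2.2, Or.inr rfl⟩)
          · have e1 := hp.unique h4
            have e2 : p / 2 = i' := by omega
            obtain ⟨w, b, h6, h7⟩ := h5
            simp only [Prod.mk.injEq, true_and] at h7
            obtain ⟨rfl, rfl, rfl⟩ := h7
            refine Or.inr (Or.inl (Or.inr ?_))
            rw [e2, h6, Option.getD_some]
            exact mem_locV.2 (Or.inl ⟨_, _, hy.2.1, hy.2.2, Or.inr rfl⟩)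
        · rw [s1_verts] at hy
          obtain ⟨-, -, h⟩ := A_s1 h.symm
          rcases h with h | ⟨a'', -, h⟩
          · simp at h
          · simp only [Prod.mk.injEq, true_and] at h
            obtain ⟨rfl, rfl, rfl⟩ := h
            exact Or.inr (Or.inl (Or.inl (mem_locV.2 (Or.inr ⟨_, hy.2, Or.inl rfl⟩))))
        · rw [s2_verts] at hy
          obtain ⟨-, -, h⟩ := A_s2 h.symm
          rcases h with h | ⟨a'', -, h⟩
          · simp at h
          · simp only [Prod.mk.injEq, true_and] at h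
            obtain ⟨rfl, rfl, rfl⟩ := h
            exact Or.inr (Or.inl (Or.inl (mem_locV.2 (Or.inr ⟨_, hy.2, Or.inr rfl⟩))))
        · refine Or.inl ?_
          rcases A_zz h.symm with h | h
          · have e1 := hp.unique h
            have e2 : p / 2 = i := by omega
            rw [e2]
          · have e1 := hp.unique h
            have e2 : p / 2 = i := by omega
            rw [e2]
    · refine ⟨locV q K v, by rw [length_locV]; omega, fun y hy h => mem_locV.2 ?_⟩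
      rcases kinds h.symm with ⟨v', a', j', rfl⟩ | ⟨v', a', j', rfl⟩ | ⟨v', i, rfl⟩ |
          ⟨v', i, rfl⟩ | ⟨i, rfl⟩
      · rw [cv_verts] at hy
        obtain ⟨-, -, h⟩ := A_cv h.symm
        rcases h with ⟨j'', h, -⟩ | ⟨j'', h, -⟩
        · simp at h
        · simp only [Prod.mk.injEq, true_and] at h
          obtain ⟨rfl, rfl, rfl⟩ := h
          exact Or.inl ⟨_, _, hy.2.1, hy.2.2, Or.inl rfl⟩
      · obtain ⟨i', -, -, -, -, -, h4⟩ := A_tp h
        rcases h4 with ⟨h4, h5⟩ | ⟨h4, h5⟩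
        · exact absurd ⟨_, h4⟩ hp
        · exact absurd ⟨_, h4⟩ hp
      · rw [s1_verts] at hy
        obtain ⟨-, -, h⟩ := A_s1 h.symm
        rcases h with h | ⟨a'', -, h⟩
        · simp at h
        · simp only [Prod.mk.injEq, true_and] at h
          obtain ⟨rfl, rfl, rfl⟩ := h
          exact Or.inr ⟨_, hy.2, Or.inl rfl⟩
      · rw [s2_verts] at hy
        obtain ⟨-, -, h⟩ := A_s2 h.symm
        rcases h with h | ⟨a'', -, h⟩
        · simp at h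
        · simp only [Prod.mk.injEq, true_and] at h
          obtain ⟨rfl, rfl, rfl⟩ := h
          exact Or.inr ⟨_, hy.2, Or.inr rfl⟩
      · rcases A_zz h.symm with h | h
        · exact absurd ⟨_, h⟩ hp
        · exact absurd ⟨_, h⟩ hp
  · refine ⟨locV q K v, by rw [length_locV]; omega, fun y hy h => mem_locV.2 ?_⟩
    obtain ⟨hv, hi, h⟩ := A_s1 h
    rcases h with rfl | ⟨a, ha, rfl⟩
    · exact Or.inr ⟨i, hi, Or.inr rfl⟩
    · rw [tp_verts] at hy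
      exact Or.inl ⟨_, _, hy.2.1, hy.2.2, Or.inr rfl⟩
  · refine ⟨locV q K v, by rw [length_locV]; omega, fun y hy h => mem_locV.2 ?_⟩
    obtain ⟨hv, hi, h⟩ := A_s2 h
    rcases h with rfl | ⟨a, ha, rfl⟩
    · exact Or.inr ⟨i, hi, Or.inl rfl⟩
    · rw [tp_verts] at hy
      exact Or.inl ⟨_, _, hy.2.1, hy.2.2, Or.inr rfl⟩
  · refine ⟨locV q K (((ends G.2)[2 * i]?).getD 0) ++
      locV q K (((ends G.2)[2 * i + 1]?).getD 0), ?_, fun y hy h => ?_⟩
    · simp only [List.length_append]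
      rw [length_locV (((ends G.2)[2 * i]?).getD 0),
        length_locV (((ends G.2)[2 * i + 1]?).getD 0)]
      omega
    · rw [List.mem_append]
      rcases A_zz h with h | h
      · obtain ⟨w, b, h6, rfl⟩ := h
        rw [tp_verts] at hy
        refine Or.inl ?_
        rw [h6, Option.getD_some]
        exact mem_locV.2 (Or.inl ⟨_, _, hy.2.1, hy.2.2, Or.inr rfl⟩)
      · obtain ⟨w, b, h6, rfl⟩ := h
        rw [tp_verts] at hy
        refine Or.inr ?_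
        rw [h6, Option.getD_some]
        exact mem_locV.2 (Or.inl ⟨_, _, hy.2.1, hy.2.2, Or.inr rfl⟩)

end Pool.Agent.PCP.Tri
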