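import Pool.Agent.Lib.PCP.TriGraph2

/-!
# The bounded degree graph of the construction
-/

namespace Pool.Agent.PCP.Tri

open Pool.Agent.MP_311ff9_lc

variable {q : ℕ} {K : ℕ} {G : CG q}

theorem verts_nodup (K : ℕ) (G : CG q) : (verts K G).Nodup := by
  unfold verts
  rw [List.nodup_append]
  refine ⟨?_, ?_, ?_⟩
  · rw [List.nodup_flatMap]
    constructor
    · intro v hv
      unfold locV
      rw [List.nodup_append]
      refine ⟨?_, ?_, ?_⟩
      · rw [List.nodup_flatMap]
        constructor
        · intro a ha
          rw [List.nodup_flatMap]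
          constructor
          · intro j hj
            simp
          · refine List.nodup_range.imp ?_
            intro j j' hne
            intro x hx hx'
            simp only [List.mem_cons, List.not_mem_nil, or_false] at hx hx'
            rcases hx with rfl | rfl <;> rcases hx' with h | h <;> simp at h <;> exact hne h
        · refine List.nodup_range.imp ?_
          intro j j' hne
          intro x hx hx'
          simp only [List.mem_flatMap, List.mem_cons, List.not_mem_nil, or_false] at hx hx'
          obtain ⟨b, -, hx⟩ := hx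
          obtain ⟨b', -, hx'⟩ := hx'
          rcases hx with rfl | rfl <;> rcases hx' with h | h <;> simp at h <;> exact hne h.1
      · rw [List.nodup_flatMap]
        constructor
        · intro i hi
          simp
        · refine List.nodup_range.imp ?_
          intro j j' hne
          intro x hx hx'
          simp only [List.mem_cons, List.not_mem_nil, or_false] at hx hx'
          rcases hx with rfl | rfl <;> rcases hx' with h | h <;> simp at h <;> exact hne h
      · intro x hx y hy
        simp only [List.mem_flatMap, List.mem_cons, List.not_mem_nil, or_false] at hx hy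
        obtain ⟨a, -, j, -, hx⟩ := hx
        obtain ⟨i, -, hy⟩ := hy
        rcases hx with rfl | rfl <;> rcases hy with rfl | rfl <;> simp
    · refine List.nodup_range.imp ?_
      intro v v' hne
      intro x hx hx'
      rw [mem_locV] at hx hx'
      rcases hx with ⟨a, j, -, -, hx | hx⟩ | ⟨i, -, hx | hx⟩ <;>
      rcases hx' with ⟨a', j', -, -, hx' | hx'⟩ | ⟨i', -, hx' | hx'⟩ <;>
      · rw [hx] at hx'
        simp only [Prod.mk.injEq] at hx'
        omega
  · refine List.nodup_range.map ?_
    intro i j h
    simpa using h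
  · intro x hx y hy
    simp only [List.mem_flatMap, List.mem_map] at hx hy
    obtain ⟨v, -, hx⟩ := hx
    obtain ⟨i, -, rfl⟩ := hy
    rw [mem_locV] at hx
    rcases hx with ⟨a', j', -, -, hx' | hx'⟩ | ⟨i', -, hx' | hx'⟩ <;>
      · rw [hx']
        simp

theorem vl_verts {B : ℕ} (hK : B ≤ K) (hK1 : 1 ≤ K) (hG : WF B G) {t : Tr} (ht : t ∈ tris K G)
    {x : Nm} (hx : x ∈ vl t) : x ∈ verts K G := by
  rw [mem_tris] at ht
  rw [mem_vl] at hx
  rcases ht with ⟨v, a, j, hv, ha, hj, rfl⟩ | ⟨v, i, a, hv, hi, ha, rfl⟩ |
    ⟨i, e, hei, a, b, hab, rfl⟩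
  · rcases hx with rfl | rfl | rfl
    · exact cv_verts.2 ⟨hv, ha, hj⟩
    · refine cv_verts.2 ⟨hv, ha, ?_⟩
      unfold nxt
      split_ifs <;> omega
    · exact tp_verts.2 ⟨hv, ha, hj⟩
  · rcases hx with rfl | rfl | rfl
    · exact s1_verts.2 ⟨hv, hi⟩
    · exact s2_verts.2 ⟨hv, hi⟩
    · exact tp_verts.2 ⟨hv, ha, by omega⟩
  · have h1 := ends_even G.2 _ _ hei
    have he : e ∈ G.2 := List.mem_of_getElem? hei
    have h2 := slot_lt_deg _ h1.1
    have h3 := slot_lt_deg _ h1.2
    have h4 := hG.deg e.1
    have h5 := hG.deg e.2.1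
    rcases hx with rfl | rfl | rfl
    · exact zz_verts.2 (List.getElem?_eq_some_iff.1 hei).1
    · exact tp_verts.2 ⟨(hG.lt e he).1, a.2, by omega⟩
    · exact tp_verts.2 ⟨(hG.lt e he).2, b.2, by omega⟩

/-- the vertices of a triangle are distinct -/
theorem vl_nodup {t : Tr} (ht : t ∈ tris K G) : (vl t).Nodup := by
  rw [mem_tris] at ht
  rcases ht with ⟨v, a, j, hv, ha, hj, rfl⟩ | ⟨v, i, a, hv, hi, ha, rfl⟩ |
    ⟨i, e, hei, a, b, hab, rfl⟩
  · have : j ≠ nxt K j := by
      unfold nxt
      split_ifs <;> omega
    simp [vl, this]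
  · simp [vl]
  · have h1 := ends_even G.2 _ _ hei
    simp only [vl, List.nodup_cons, List.mem_cons, Prod.mk.injEq, List.not_mem_nil, or_false,
      OfNat.ofNat_ne_one, false_and, not_false_eq_true, List.nodup_nil, and_true, true_and,
      not_and, or_self]
    intro h2 h3 h4
    rw [h2] at h1 h4
    have := slot_lt _ h1.1 (show 2 * i < 2 * i + 1 by omega)
    omega

/-- The graph. -/
def XG (K : ℕ) (G : CG q) : SimpleGraph (Fin (verts K G).length) where
  Adj u v := adjb K G (verts K G)[u] (verts K G)[v] = true
  symm := ⟨fun u v h => adjb_iff.2 (adjb_iff.1 h).symm⟩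
  loopless := ⟨fun u h => (adjb_iff.1 h).1 rfl⟩

instance (K : ℕ) (G : CG q) : DecidableRel (XG K G).Adj := fun u v =>
  inferInstanceAs (Decidable (adjb K G (verts K G)[u] (verts K G)[v] = true))

theorem XG_adj {u v : Fin (verts K G).length} :
    (XG K G).Adj u v ↔ A K G (verts K G)[u] (verts K G)[v] := adjb_iff

theorem XG_degree (u : Fin (verts K G).length) : (XG K G).degree u ≤ Dl q K := by
  obtain ⟨N, hN, h⟩ := nbrs K G (verts K G)[u]
  refine le_trans ?_ hN
  rw [← SimpleGraph.card_neighborFinset_eq_degree]
  refine le_trans ?_ (List.toFinset_card_le N)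
  refine Finset.card_le_card_of_injOn (fun v => (verts K G)[v]) ?_ ?_
  · intro v hv
    simp only [Finset.mem_coe, SimpleGraph.mem_neighborFinset] at hv
    simp only [Finset.mem_coe, List.mem_toFinset]
    exact h _ (List.getElem_mem _) (XG_adj.1 hv)
  · intro v _ v' _ hvv
    have := (List.Nodup.getElem_inj_iff (verts_nodup K G)).1 hvv
    exact Fin.ext this

/-- The graph with its degree bound. -/
def XX (K : ℕ) (G : CG q) : BoundedGraph (Dl q K) where
  n := (verts K G).length
  G := XG K G
  degree_le := XG_degree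

theorem XX_matrix (K : ℕ) (G : CG q) : (XX K G).matrix = mat K G := by
  unfold BoundedGraph.matrix mat
  have h1 : ∀ {β : Type} (f : Nm → β), (verts K G).map f =
      List.ofFn (n := (verts K G).length) fun u => f (verts K G)[u] := by
    intro β f
    refine List.ext_getElem (by simp) ?_
    intro i h1 h2
    simp
  rw [h1]
  refine congrArg List.ofFn (funext fun u => ?_)
  rw [h1]
  refine congrArg List.ofFn (funext fun v => ?_)
  have : decide (adjb K G (verts K G)[u] (verts K G)[v] = true) =
      adjb K G (verts K G)[u] (verts K G)[v] := by simp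
  exact this

/-- adjacency in terms of names -/
theorem XX_adj {u v : ℕ} : (XX K G).Adj u v ↔
    ∃ x y, (verts K G)[u]? = some x ∧ (verts K G)[v]? = some y ∧ A K G x y := by
  unfold BoundedGraph.Adj
  constructor
  · rintro ⟨hu, hv, h⟩
    exact ⟨_, _, List.getElem?_eq_getElem hu, List.getElem?_eq_getElem hv, XG_adj.1 h⟩
  · rintro ⟨x, y, hx, hy, h⟩
    obtain ⟨hu, rfl⟩ := List.getElem?_eq_some_iff.1 hx
    obtain ⟨hv, rfl⟩ := List.getElem?_eq_some_iff.1 hy
    exact ⟨hu, hv, XG_adj.2 h⟩

end Pool.Agent.PCP.Tri
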