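import Pool.Agent.Lib.PCP.TriComplete

/-!
# Soundness: the packing and its decoding
-/

namespace Pool.Agent.PCP.Tri

open Pool.Agent.MP_311ff9_lc

variable {q : ℕ} {K : ℕ} {G : CG q}

/-- the given triangle is in the packing -/
def Inn (K : ℕ) (G : CG q) (S : List (ℕ × ℕ × ℕ)) (t : Tr) : Prop :=
  ∃ s ∈ S, ∀ w ∈ vl t, some w ∈ nmo (verts K G) s

theorem mem_nmo {V : List Nm} {s : ℕ × ℕ × ℕ} {x : Nm} :
    some x ∈ nmo V s ↔ ∃ u ∈ vl s, V[u]? = some x := by
  simp only [nmo, vl, List.mem_cons, List.not_mem_nil, or_false, exists_eq_or_imp,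
    exists_eq_left, eq_comm (a := some x)]

theorem perm_nmo {V : List Nm} {s : ℕ × ℕ × ℕ} {t : Tr} (ht : (vl t).Nodup)
    (h : ∀ w ∈ vl t, some w ∈ nmo V s) {w : Nm} : some w ∈ nmo V s ↔ w ∈ vl t := by
  have h1 : ((vl t).map some).Nodup := ht.map (Option.some_injective _)
  have h2 : (vl t).map some ⊆ nmo V s := by
    intro x hx
    obtain ⟨w, hw, rfl⟩ := List.mem_map.1 hx
    exact h w hw
  have h3 := (List.subperm_of_subset h1 h2).perm_of_length_le (by simp [vl, nmo])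
  rw [← h3.mem_iff, List.mem_map]
  constructor
  · rintro ⟨w', hw', h4⟩
    rw [← Option.some_injective _ h4]
    exact hw'
  · intro hw
    exact ⟨w, hw, rfl⟩

variable {S : List (ℕ × ℕ × ℕ)}

theorem pack_disj (hS : IsTrianglePacking (XX K G) S) :
    S.Pairwise fun s s' => List.Disjoint (vl s) (vl s') :=
  (List.nodup_flatMap.1 hS.2).2

theorem pack_nodup (hS : IsTrianglePacking (XX K G) S) : S.Nodup := by
  refine (pack_disj hS).imp ?_
  rintro s s' h rfl
  exact h (a := s.1) (by simp [vl]) (by simp [vl])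

theorem share (hS : IsTrianglePacking (XX K G) S) {s s' : ℕ × ℕ × ℕ} (hs : s ∈ S)
    (hs' : s' ∈ S) {x : Nm} (hx : some x ∈ nmo (verts K G) s)
    (hx' : some x ∈ nmo (verts K G) s') : s = s' := by
  by_contra hne
  rw [mem_nmo] at hx hx'
  obtain ⟨u, hu, h1⟩ := hx
  obtain ⟨u', hu', h2⟩ := hx'
  obtain ⟨g1, e1⟩ := List.getElem?_eq_some_iff.1 h1
  obtain ⟨g2, e2⟩ := List.getElem?_eq_some_iff.1 h2
  have : u = u' := (List.Nodup.getElem_inj_iff (verts_nodup K G)).1 (e1.trans e2.symm)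
  subst this
  have hsym : Std.Symm fun s s' : ℕ × ℕ × ℕ => List.Disjoint (vl s) (vl s') :=
    ⟨fun a b h => h.symm⟩
  exact (pack_disj hS).forall hs hs' hne hu hu'

theorem exists_tri (hK : 2 ≤ K) (hS : IsTrianglePacking (XX K G) S) {s : ℕ × ℕ × ℕ}
    (hs : s ∈ S) : ∃ t ∈ tris K G, ∀ w ∈ vl t, some w ∈ nmo (verts K G) s := by
  obtain ⟨h1, h2, h3⟩ := hS.1 s hs
  rw [XX_adj] at h1 h2 h3
  obtain ⟨x, y, hx, hy, h1⟩ := h1
  obtain ⟨y', z, hy', hz, h2⟩ := h2
  obtain ⟨x', z', hx', hz', h3⟩ := h3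
  have e1 : y' = y := by rw [hy] at hy'; exact (Option.some_injective _ hy').symm
  have e2 : x' = x := by rw [hx] at hx'; exact (Option.some_injective _ hx').symm
  have e3 : z' = z := by rw [hz] at hz'; exact (Option.some_injective _ hz').symm
  subst e1 e2 e3
  obtain ⟨t, ht, m1, m2, m3⟩ := tri hK h1 h3 h2
  refine ⟨t, ht, ?_⟩
  have hn : [x', y', z'].Nodup := by
    simp only [List.nodup_cons, List.mem_cons, List.not_mem_nil, or_false,
      not_false_eq_true, List.nodup_nil, and_true, not_or]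
    exact ⟨⟨h1.1, h3.1⟩, h2.1⟩
  have hsub : [x', y', z'] ⊆ vl t := by
    intro w hw
    simp only [List.mem_cons, List.not_mem_nil, or_false] at hw
    rcases hw with rfl | rfl | rfl
    · exact m1
    · exact m2
    · exact m3
  have hp := (List.subperm_of_subset hn hsub).perm_of_length_le (by simp [vl])
  intro w hw
  rw [← hp.mem_iff] at hw
  simp only [List.mem_cons, List.not_mem_nil, or_false] at hw
  rw [mem_nmo]
  rcases hw with rfl | rfl | rfl
  · exact ⟨s.1, by simp [vl], hx⟩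
  · exact ⟨s.2.1, by simp [vl], hy⟩
  · exact ⟨s.2.2, by simp [vl], hz⟩

theorem inn_share (hS : IsTrianglePacking (XX K G) S) {t t' : Tr}
    (ht' : t' ∈ tris K G) (h : Inn K G S t) (h' : Inn K G S t') {x : Nm} (hx : x ∈ vl t)
    (hx' : x ∈ vl t') {w : Nm} (hw : w ∈ vl t) : w ∈ vl t' := by
  obtain ⟨s, hs, h⟩ := h
  obtain ⟨s', hs', h'⟩ := h'
  have := share hS hs hs' (h x hx) (h' x hx')
  subst this
  rw [← perm_nmo (vl_nodup ht') h']
  exact h w hw

/-! ### keys -/

/-- the triangle `t` belongs to the key -/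
def Ky (K : ℕ) (G : CG q) : Key q K G.1.length G.2.length → Tr → Prop
  | .inl (v, a, s), t => t = wheelT K v a (2 * s) ∨ t = wheelT K v a (2 * s + 1)
  | .inr (.inl (v, i)), t => ∃ a < q, t = selT v i a
  | .inr (.inr i), t => ∃ a b : Fin q, G.2[i].2.2 a b = true ∧
      t = edgeT i G.2[i].1 G.2[i].2.1 (slot G.2 (2 * i) G.2[i].1)
        (slot G.2 (2 * i + 1) G.2[i].2.1) a b

theorem exists_key {t : Tr} (ht : t ∈ tris K G) :
    ∃ κ : Key q K G.1.length G.2.length, Ky K G κ t := by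
  rw [mem_tris] at ht
  rcases ht with ⟨v, a, j, hv, ha, hj, rfl⟩ | ⟨v, i, a, hv, hi, ha, rfl⟩ |
    ⟨i, e, hei, a, b, hab, rfl⟩
  · refine ⟨.inl (⟨v, hv⟩, ⟨a, ha⟩, ⟨j / 2, by omega⟩), ?_⟩
    change wheelT K v a j = wheelT K v a (2 * (j / 2)) ∨
      wheelT K v a j = wheelT K v a (2 * (j / 2) + 1)
    rcases Nat.even_or_odd' j with ⟨c, hc | hc⟩
    · left
      congr 1
      omega
    · right
      congr 1
      omega
  · exact ⟨.inr (.inl (⟨v, hv⟩, ⟨i, hi⟩)), a, ha, rfl⟩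
  · obtain ⟨hi, rfl⟩ := List.getElem?_eq_some_iff.1 hei
    exact ⟨.inr (.inr ⟨i, hi⟩), a, b, hab, rfl⟩

theorem key_tris {κ : Key q K G.1.length G.2.length} {t : Tr} (h : Ky K G κ t) :
    t ∈ tris K G := by
  rw [mem_tris]
  rcases κ with ⟨v, a, s⟩ | ⟨v, i⟩ | i
  · have hs := s.2
    rcases h with rfl | rfl
    · exact Or.inl ⟨v, a, _, v.2, a.2, by omega, rfl⟩
    · exact Or.inl ⟨v, a, _, v.2, a.2, by omega, rfl⟩
  · obtain ⟨a, ha, rfl⟩ := h
    exact Or.inr (Or.inl ⟨v, i, a, v.2, i.2, ha, rfl⟩)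
  · obtain ⟨a, b, hab, rfl⟩ := h
    exact Or.inr (Or.inr ⟨i, G.2[i], List.getElem?_eq_getElem i.2, _, _, hab, rfl⟩)

theorem key_share {κ : Key q K G.1.length G.2.length} {t t' : Tr} (h : Ky K G κ t)
    (h' : Ky K G κ t') : ∃ x, x ∈ vl t ∧ x ∈ vl t' := by
  rcases κ with ⟨v, a, s⟩ | ⟨v, i⟩ | i
  · have hs := s.2
    have e : nxt K (2 * s) = 2 * s + 1 := by
      unfold nxt
      split_ifs <;> omega
    refine ⟨cv v a (2 * s + 1), ?_, ?_⟩
    · rcases h with rfl | rfl
      · simp [vl, e]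
      · simp [vl]
    · rcases h' with rfl | rfl
      · simp [vl, e]
      · simp [vl]
  · obtain ⟨a, ha, rfl⟩ := h
    obtain ⟨a', ha', rfl⟩ := h'
    exact ⟨s1 v i, by simp [vl], by simp [vl]⟩
  · obtain ⟨a, b, hab, rfl⟩ := h
    obtain ⟨a', b', hab', rfl⟩ := h'
    exact ⟨zz i, by simp [vl], by simp [vl]⟩

/-- the key is used by the packing -/
def Used (K : ℕ) (G : CG q) (S : List (ℕ × ℕ × ℕ)) (κ : Key q K G.1.length G.2.length) : Prop :=
  ∃ t, Ky K G κ t ∧ Inn K G S t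

open Classical in
/-- number of unused keys -/
noncomputable def unused (K : ℕ) (G : CG q) (S : List (ℕ × ℕ × ℕ)) : ℕ :=
  (Finset.univ.filter fun κ : Key q K G.1.length G.2.length => ¬ Used K G S κ).card

theorem count (hK : 2 ≤ K) (hS : IsTrianglePacking (XX K G) S) :
    S.length + unused K G S ≤ (q * K + (q - 1)) * G.1.length + G.2.length := by
  classical
  have h1 : ∀ s ∈ S, ∃ κ : Key q K G.1.length G.2.length, ∃ t, Ky K G κ t ∧
      ∀ w ∈ vl t, some w ∈ nmo (verts K G) s := by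
    intro s hs
    obtain ⟨t, ht, h⟩ := exists_tri hK hS hs
    obtain ⟨κ, hκ⟩ := exists_key ht
    exact ⟨κ, t, hκ, h⟩
  have h2 : S.toFinset.card ≤
      (Finset.univ.filter fun κ : Key q K G.1.length G.2.length => Used K G S κ).card := by
    by_cases hne : S = []
    · subst hne
      simp
    obtain ⟨s0, hs0⟩ := List.exists_mem_of_ne_nil S hne
    have : Nonempty (Key q K G.1.length G.2.length) := ⟨(h1 s0 hs0).choose⟩
    choose! f hf using h1
    refine Finset.card_le_card_of_injOn f ?_ ?_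
    · intro s hs
      have hs : s ∈ S := by simpa using hs
      obtain ⟨t, ht, h⟩ := hf s hs
      simp only [Finset.coe_filter, Finset.mem_univ, true_and, Set.mem_ofPred_eq]
      exact ⟨t, ht, s, hs, h⟩
    · intro s hs s' hs' hss
      have hs : s ∈ S := by simpa using hs
      have hs' : s' ∈ S := by simpa using hs'
      obtain ⟨t, ht, h⟩ := hf s hs
      obtain ⟨t', ht', h'⟩ := hf s' hs'
      rw [← hss] at ht'
      obtain ⟨x, hx, hx'⟩ := key_share ht ht'
      exact share hS hs hs' (h x hx) (h' x hx')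
  rw [List.toFinset_card_of_nodup (pack_nodup hS)] at h2
  have h3 := Finset.card_filter_add_card_filter_not
    (s := (Finset.univ : Finset (Key q K G.1.length G.2.length))) (fun κ => Used K G S κ)
  rw [Finset.card_univ, card_key] at h3
  unfold unused
  omega

end Pool.Agent.PCP.Tri
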