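import Pool.Agent.Lib.PCP.TriSound

/-!
# Soundness: the decoded assignment
-/

namespace Pool.Agent.PCP.Tri

open Pool.Agent.MP_311ff9_lc

variable {q : ℕ} {K : ℕ} {G : CG q} {S : List (ℕ × ℕ × ℕ)}

theorem wheel_tris {v a j : ℕ} (hv : v < G.1.length) (ha : a < q) (hj : j < 2 * K) :
    wheelT K v a j ∈ tris K G := mem_tris.2 (Or.inl ⟨v, a, j, hv, ha, hj, rfl⟩)

theorem sel_tris {v i a : ℕ} (hv : v < G.1.length) (hi : i < q - 1) (ha : a < q) :
    selT v i a ∈ tris K G := mem_tris.2 (Or.inr (Or.inl ⟨v, i, a, hv, hi, ha, rfl⟩))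

theorem nxt_lt {j : ℕ} (hj : j < 2 * K) : nxt K j < 2 * K := by
  unfold nxt
  split_ifs <;> omega

theorem wheel_next (hS : IsTrianglePacking (XX K G) S) {v a j : ℕ} (hv : v < G.1.length)
    (ha : a < q) (hj : j < 2 * K) (h : Inn K G S (wheelT K v a j))
    (h' : Inn K G S (wheelT K v a (nxt K j))) : False := by
  have h1 := inn_share hS (wheel_tris hv ha (nxt_lt hj)) h h' (x := cv v a (nxt K j))
    (by simp [vl]) (by simp [vl]) (w := tp v a j) (by simp [vl])
  rw [mem_vl] at h1
  simp only [Prod.mk.injEq, true_and, one_ne_zero, false_and, false_or] at h1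
  unfold nxt at h1
  split_ifs at h1 <;> omega

theorem wheel_sel (hS : IsTrianglePacking (XX K G) S) {v a i : ℕ} (hv : v < G.1.length)
    (ha : a < q) (hi : i < q - 1) (h : Inn K G S (wheelT K v a 1))
    (h' : Inn K G S (selT v i a)) : False := by
  have h1 := inn_share hS (sel_tris hv hi ha) h h' (x := tp v a 1)
    (by simp [vl]) (by simp [vl]) (w := cv v a 1) (by simp [vl])
  rw [mem_vl] at h1
  simp at h1

theorem sel_sel (hS : IsTrianglePacking (XX K G) S) {v a i i' : ℕ} (hv : v < G.1.length)
    (ha : a < q) (hi' : i' < q - 1) (h : Inn K G S (selT v i a))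
    (h' : Inn K G S (selT v i' a)) : i = i' := by
  have h1 := inn_share hS (sel_tris hv hi' ha) h h' (x := tp v a 1)
    (by simp [vl]) (by simp [vl]) (w := s1 v i) (by simp [vl])
  rw [mem_vl] at h1
  simp at h1
  exact h1

theorem wheel_edge1 (hS : IsTrianglePacking (XX K G) S) {i u w su sw a b : ℕ}
    (ht : edgeT i u w su sw a b ∈ tris K G)
    (h : Inn K G S (wheelT K u a (2 * su))) (h' : Inn K G S (edgeT i u w su sw a b)) : False := by
  have h1 := inn_share hS ht h h' (x := tp u a (2 * su))
    (by simp [vl]) (by simp [vl]) (w := cv u a (2 * su)) (by simp [vl])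
  rw [mem_vl] at h1
  simp at h1

theorem wheel_edge2 (hS : IsTrianglePacking (XX K G) S) {i u w su sw a b : ℕ}
    (ht : edgeT i u w su sw a b ∈ tris K G)
    (h : Inn K G S (wheelT K w b (2 * sw))) (h' : Inn K G S (edgeT i u w su sw a b)) : False := by
  have h1 := inn_share hS ht h h' (x := tp w b (2 * sw))
    (by simp [vl]) (by simp [vl]) (w := cv w b (2 * sw)) (by simp [vl])
  rw [mem_vl] at h1
  simp at h1

/-- all keys at a vertex are used -/
def Good (K : ℕ) (G : CG q) (S : List (ℕ × ℕ × ℕ)) (v : Fin G.1.length) : Prop :=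
  (∀ a s, Used K G S (.inl (v, a, s))) ∧ ∀ i, Used K G S (.inr (.inl (v, i)))

theorem Good.wheel {v : Fin G.1.length} (h : Good K G S v) (a : Fin q) {s : ℕ} (hs : s < K) :
    Inn K G S (wheelT K v a (2 * s)) ∨ Inn K G S (wheelT K v a (2 * s + 1)) := by
  obtain ⟨t, ht, hi⟩ := h.1 a ⟨s, hs⟩
  rcases ht with rfl | rfl
  · exact Or.inl hi
  · exact Or.inr hi

theorem Good.chain (hK : 2 ≤ K) (hS : IsTrianglePacking (XX K G) S) {v : Fin G.1.length}
    (h : Good K G S v) (a : Fin q) (h1 : ¬ Inn K G S (wheelT K v a 1)) {s : ℕ} (hs : s < K) :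
    Inn K G S (wheelT K v a (2 * s)) := by
  have h0 : Inn K G S (wheelT K v a 0) := (h.wheel a (s := 0) (by omega)).resolve_right h1
  have key : ∀ d, d < K → Inn K G S (wheelT K v a (2 * (K - 1 - d))) := by
    intro d
    induction d with
    | zero =>
      intro _
      refine (h.wheel a (s := K - 1 - 0) (by omega)).resolve_right fun h2 => ?_
      have e : nxt K (2 * (K - 1 - 0) + 1) = 0 := by
        unfold nxt
        split_ifs <;> omega
      exact wheel_next hS v.2 a.2 (by omega) h2 (by rw [e]; exact h0)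
    | succ d ih =>
      intro hd
      have ih := ih (by omega)
      refine (h.wheel a (s := K - 1 - (d + 1)) (by omega)).resolve_right fun h2 => ?_
      have e : nxt K (2 * (K - 1 - (d + 1)) + 1) = 2 * (K - 1 - d) := by
        unfold nxt
        split_ifs <;> omega
      exact wheel_next hS v.2 a.2 (by omega) h2 (by rw [e]; exact ih)
  have := key (K - 1 - s) (by omega)
  have e : K - 1 - (K - 1 - s) = s := by omega
  rwa [e] at this

theorem Good.uniq (hS : IsTrianglePacking (XX K G) S) {v : Fin G.1.length}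
    (h : Good K G S v) {a b : Fin q} (ha : Inn K G S (wheelT K v a 1))
    (hb : Inn K G S (wheelT K v b 1)) : a = b := by
  classical
  by_contra hne
  have h1 : ∀ i : Fin (q - 1), ∃ c : Fin q, Inn K G S (selT v i c) := by
    intro i
    obtain ⟨t, ⟨c, hc, rfl⟩, hi⟩ := h.2 i
    exact ⟨⟨c, hc⟩, hi⟩
  choose c hc using h1
  have hinj : Function.Injective c := by
    intro i i' hi
    refine Fin.ext (sel_sel hS v.2 (c i).2 i'.2 (hc i) ?_)
    rw [hi]
    exact hc i'
  have h2 : (Finset.univ : Finset (Fin (q - 1))).card ≤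
      ((Finset.univ : Finset (Fin q)) \ {a, b}).card := by
    refine Finset.card_le_card_of_injOn c ?_ hinj.injOn
    intro i _
    simp only [Finset.coe_sdiff, Finset.coe_univ, Finset.coe_insert, Finset.coe_singleton,
      Set.mem_sdiff, Set.mem_univ, Set.mem_insert_iff, Set.mem_singleton_iff, true_and, not_or]
    constructor
    · intro e
      exact wheel_sel hS v.2 (c i).2 i.2 (by rw [e]; exact ha) (hc i)
    · intro e
      exact wheel_sel hS v.2 (c i).2 i.2 (by rw [e]; exact hb) (hc i)
  rw [Finset.card_sdiff_of_subset (Finset.subset_univ _), Finset.card_pair hne,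
    Finset.card_univ, Finset.card_univ, Fintype.card_fin, Fintype.card_fin] at h2
  have h3 : (2 : ℕ) ≤ q := by
    have := a.2
    have := b.2
    have : (a : ℕ) ≠ b := fun e => hne (Fin.ext e)
    omega
  omega

theorem hit_iff (hK : 2 ≤ K) (hS : IsTrianglePacking (XX K G) S) {v a : ℕ} :
    hit (verts K G) S (cv v a 1) (tp v a 1) = true ↔ Inn K G S (wheelT K v a 1) := by
  unfold hit
  simp only [List.any_eq_true, Bool.and_eq_true, decide_eq_true_eq]
  constructor
  · rintro ⟨s, hs, h1, h2⟩
    obtain ⟨t, ht, h⟩ := exists_tri hK hS hs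
    have hn := vl_nodup ht
    rw [perm_nmo hn h] at h1 h2
    have h3 : t = wheelT K v a 1 := by
      rw [mem_tris] at ht
      rw [mem_vl] at h1 h2
      rcases ht with ⟨v', a', j', hv, ha, hj, rfl⟩ | ⟨v', i, a', hv, hi, ha, rfl⟩ |
        ⟨i, e, hei, a', b, hab, rfl⟩
      · simp only [Prod.mk.injEq, true_and, one_ne_zero, false_and, false_or] at h2
        obtain ⟨rfl, rfl, rfl⟩ := h2
        rfl
      · simp at h1
      · simp at h1
    subst h3
    exact ⟨s, hs, h⟩
  · rintro ⟨s, hs, h⟩
    exact ⟨s, hs, h _ (by simp [vl]), h _ (by simp [vl])⟩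

theorem Good.val (hK : 2 ≤ K) (hS : IsTrianglePacking (XX K G) S) {v : Fin G.1.length}
    (h : Good K G S v) {a : Fin q} (ha : Inn K G S (wheelT K v a 1)) (d : Fin q) :
    val K d G S v = a := by
  unfold Tri.val
  cases hf : (List.finRange q).find? fun a : Fin q =>
      hit (verts K G) S (cv v (a : ℕ) 1) (tp v (a : ℕ) 1) with
  | none =>
    rw [List.find?_eq_none] at hf
    exact absurd ((hit_iff hK hS).2 ha) (hf a (List.mem_finRange a))
  | some b =>
    have := List.find?_some hf
    rw [Option.getD_some]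
    exact h.uniq hS ((hit_iff hK hS).1 this) ha

/-- An edge is satisfied by the decoded assignment when its key and the keys at its ends are
used. -/
theorem edge_ok {B : ℕ} (hK : 2 ≤ K) (hBK : B ≤ K) (hG : WF B G)
    (hS : IsTrianglePacking (XX K G) S) (d : Fin q)
    (i : Fin G.2.length) (hi : Used K G S (.inr (.inr i))) {u w : Fin G.1.length}
    (hu : G.2[i].1 = u) (hw : G.2[i].2.1 = w) (gu : Good K G S u) (gw : Good K G S w) :
    G.2[i].2.2 (val K d G S G.2[i].1) (val K d G S G.2[i].2.1) = true := by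
  obtain ⟨t, ⟨a, b, hab, rfl⟩, hI⟩ := hi
  have ht : edgeT i G.2[i].1 G.2[i].2.1 (slot G.2 (2 * i) G.2[i].1)
      (slot G.2 (2 * i + 1) G.2[i].2.1) a b ∈ tris K G :=
    mem_tris.2 (Or.inr (Or.inr ⟨i, G.2[i], List.getElem?_eq_getElem i.2, _, _, hab, rfl⟩))
  have e1 := ends_even G.2 i G.2[i] (List.getElem?_eq_getElem i.2)
  have l1 := slot_lt_deg _ e1.1
  have l2 := slot_lt_deg _ e1.2
  have l3 := hG.deg G.2[i].1
  have l4 := hG.deg G.2[i].2.1
  have h1 : Inn K G S (wheelT K u a 1) := by
    by_contra hc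
    have h2 := gu.chain hK hS a hc (s := slot G.2 (2 * i) G.2[i].1) (by omega)
    rw [← hu] at h2
    exact wheel_edge1 hS ht h2 hI
  have h2 : Inn K G S (wheelT K w b 1) := by
    by_contra hc
    have h2 := gw.chain hK hS b hc (s := slot G.2 (2 * i + 1) G.2[i].2.1) (by omega)
    rw [← hw] at h2
    exact wheel_edge2 hS ht h2 hI
  have v1 := gu.val hK hS h1 d
  have v2 := gw.val hK hS h2 d
  rw [← hu] at v1
  rw [← hw] at v2
  rw [v1, v2]
  exact hab

theorem countP_eq_card {α : Type} (l : List α) (p : α → Bool) :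
    l.countP p = (Finset.univ.filter fun i : Fin l.length => p l[i] = true).card := by
  induction l with
  | nil => simp
  | cons x l ih =>
    have e : (Finset.univ.filter fun i : Fin (x :: l).length => p (x :: l)[i] = true).card =
        (Finset.univ.filter fun i : Fin (l.length + 1) => p (x :: l)[i] = true).card := rfl
    rw [e, Fin.card_filter_univ_succ, List.countP_cons, ih]
    have e2 : (Finset.univ.filter fun i : Fin l.length => p (x :: l)[i.succ] = true).card =
        (Finset.univ.filter fun i : Fin l.length => p l[i] = true).card := rfl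
    rw [e2]
    have e3 : (x :: l)[(0 : Fin (l.length + 1))] = x := rfl
    rw [e3]
    split_ifs <;> omega

theorem getD_dec {d : Fin q} {i : ℕ} (hi : i < G.1.length) :
    (dec K d (G, S)).getD i d = val K d G S i := by
  unfold dec
  simp [List.getD, hi]

theorem sound {B : ℕ} (hK : 2 ≤ K) (hBK : B ≤ K) (hG : WF B G)
    (hS : IsTrianglePacking (XX K G) S) (d : Fin q) :
    viol G.2 (fun i => (dec K d (G, S)).getD i d) ≤ (B + 1) * unused K G S := by
  classical
  unfold viol
  rw [countP_eq_card]
  beta_reduce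
  let Bd : Finset (Fin G.1.length) := Finset.univ.filter fun v => ¬ Good K G S v
  let U : Finset (Key q K G.1.length G.2.length) := Finset.univ.filter fun κ => ¬ Used K G S κ
  have hU : U.card = unused K G S := rfl
  let UE : Finset (Fin G.2.length) := Finset.univ.filter fun i => ¬ Used K G S (.inr (.inr i))
  let UV : Finset (Key q K G.1.length G.2.length) := U.filter fun κ => ∀ i, κ ≠ .inr (.inr i)
  have c1 : UE.card ≤ (U.filter fun κ => ¬ ∀ i, κ ≠ .inr (.inr i)).card := by
    refine Finset.card_le_card_of_injOn (fun i => .inr (.inr i)) ?_ ?_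
    · intro i hi
      simp only [UE, U, Finset.coe_filter, Finset.mem_filter, Finset.mem_univ, true_and] at hi ⊢
      refine ⟨hi, fun h => h i rfl⟩
    · intro i _ j _ h
      simpa using h
  have c2 : Bd.card ≤ UV.card := by
    have h1 : ∀ v ∈ Bd, ∃ κ ∈ UV, (∃ a s, κ = .inl (v, a, s)) ∨ ∃ i, κ = .inr (.inl (v, i)) := by
      intro v hv
      simp only [Bd, Finset.mem_filter, Finset.mem_univ, true_and, Good, not_and_or,
        not_forall] at hv
      rcases hv with ⟨a, s, h⟩ | ⟨i, h⟩
      · refine ⟨.inl (v, a, s), ?_, Or.inl ⟨a, s, rfl⟩⟩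
        simp only [UV, U, Finset.mem_filter, Finset.mem_univ, true_and]
        exact ⟨h, fun i hi => by simp at hi⟩
      · refine ⟨.inr (.inl (v, i)), ?_, Or.inr ⟨i, rfl⟩⟩
        simp only [UV, U, Finset.mem_filter, Finset.mem_univ, true_and]
        exact ⟨h, fun i hi => by simp at hi⟩
    by_cases hne : Bd.Nonempty
    swap
    · rw [Finset.not_nonempty_iff_eq_empty] at hne
      rw [hne]
      simp
    obtain ⟨v0, hv0⟩ := hne
    have : Nonempty (Key q K G.1.length G.2.length) := ⟨(h1 v0 hv0).choose⟩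
    choose! f hf hf' using h1
    refine Finset.card_le_card_of_injOn f hf ?_
    intro v hv v' hv' h
    have h2 := hf' v hv
    have h3 := hf' v' hv'
    rw [h] at h2
    rcases h2 with ⟨a, s, h2⟩ | ⟨i, h2⟩ <;> rcases h3 with ⟨a', s', h3⟩ | ⟨i', h3⟩ <;>
      rw [h2] at h3 <;> simp at h3
    · exact h3.1
    · exact h3.1
  have c3 : (U.filter fun κ => ∀ i, κ ≠ .inr (.inr i)).card +
      (U.filter fun κ => ¬ ∀ i, κ ≠ .inr (.inr i)).card = U.card :=
    Finset.card_filter_add_card_filter_not _
  have c4 : (Finset.univ.filter fun i : Fin G.2.length =>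
      (!G.2[i].2.2 ((dec K d (G, S)).getD G.2[i].1 d) ((dec K d (G, S)).getD G.2[i].2.1 d)) =
        true) ⊆ UE ∪ (Bd.biUnion fun v =>
          (Finset.univ.filter fun i : Fin G.2.length => decide (G.2[i].1 = v) = true) ∪
          (Finset.univ.filter fun i : Fin G.2.length => decide (G.2[i].2.1 = v) = true)) := by
    intro i hi
    simp only [Finset.mem_filter, Finset.mem_univ, true_and, Bool.not_eq_true'] at hi
    by_contra hc
    simp only [UE, Bd, Finset.mem_union, Finset.mem_filter, Finset.mem_univ, true_and,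
      Finset.mem_biUnion, decide_eq_true_eq, not_or, not_exists, not_and, not_not] at hc
    obtain ⟨hc1, hc2⟩ := hc
    have hl := hG.lt G.2[i] (List.getElem_mem _)
    have g1 : Good K G S ⟨G.2[i].1, hl.1⟩ := by
      by_contra hg
      exact (hc2 _ hg).1 rfl
    have g2 : Good K G S ⟨G.2[i].2.1, hl.2⟩ := by
      by_contra hg
      exact (hc2 _ hg).2 rfl
    have := edge_ok hK hBK hG hS d i hc1 (u := ⟨G.2[i].1, hl.1⟩) (w := ⟨G.2[i].2.1, hl.2⟩)
      rfl rfl g1 g2
    rw [getD_dec hl.1, getD_dec hl.2, this] at hi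
    simp at hi
  have c5 : ∀ v ∈ Bd,
      ((Finset.univ.filter fun i : Fin G.2.length => decide (G.2[i].1 = v) = true) ∪
        (Finset.univ.filter fun i : Fin G.2.length => decide (G.2[i].2.1 = v) = true)).card ≤ B := by
    intro v _
    refine le_trans (Finset.card_union_le _ _) ?_
    rw [← countP_eq_card G.2 fun e => decide (e.1 = v),
      ← countP_eq_card G.2 fun e => decide (e.2.1 = v)]
    exact hG.deg v
  have c6 := Finset.card_le_card c4
  have c7 := le_trans c6 (Finset.card_union_le _ _)
  have c8 := Finset.card_biUnion_le (s := Bd) (t := fun v =>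
          (Finset.univ.filter fun i : Fin G.2.length => decide (G.2[i].1 = v) = true) ∪
          (Finset.univ.filter fun i : Fin G.2.length => decide (G.2[i].2.1 = v) = true))
  have c9 := le_trans c8 (Finset.sum_le_card_nsmul Bd _ B c5)
  rw [smul_eq_mul] at c9
  rw [← hU]
  have c10 : Bd.card * B ≤ UV.card * B := Nat.mul_le_mul_right _ c2
  have c11 : UV.card * B ≤ U.card * B :=
    Nat.mul_le_mul_right _ (Finset.card_le_card (Finset.filter_subset _ _))
  have c12 : (B + 1) * U.card = U.card * B + U.card := by ring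
  have c13 : UE.card ≤ U.card := le_trans c1 (Finset.card_le_card (Finset.filter_subset _ _))
  rw [c12]
  omega

end Pool.Agent.PCP.Tri
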