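import Pool.Agent.Lib.PCP.UnionDefs

/-!
# Disjoint unions of lists of graphs of bounded degree, and their triangle packings
-/

namespace Pool.Agent.PCP.Un

open Pool.Agent.PolyTime Pool.Agent.MP_311ff9_lc

variable {Δ : ℕ}

/-- the empty graph -/
def emptyG (Δ : ℕ) : BoundedGraph Δ where
  n := 0
  G := ⊥
  dec := fun u => u.elim0
  degree_le := fun u => u.elim0

/-- union of a list of graphs -/
noncomputable def UG : List (BoundedGraph Δ) → BoundedGraph Δ
  | [] => emptyG Δ
  | X :: Xs => sumG X (UG Xs)

/-- block-diagonal sum of a list of matrices -/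
def dsumL (Ms : List (List (List Bool))) : List (List Bool) := Ms.foldr dsum []

theorem UG_matrix (Xs : List (BoundedGraph Δ)) :
    (UG Xs).matrix = dsumL (Xs.map BoundedGraph.matrix) := by
  induction Xs with
  | nil => rfl
  | cons X Xs ih =>
    change (sumG X (UG Xs)).matrix = dsum X.matrix (dsumL (Xs.map BoundedGraph.matrix))
    rw [sumG_matrix, ih]

/-- number of rows of the first `i` matrices -/
def off (Ms : List (List (List Bool))) (i : ℕ) : ℕ := (Ms.take i).flatten.length

/-- triangles between `a` and `b` -/
def pt (a b : ℕ) (S : List (ℕ × ℕ × ℕ)) : List (ℕ × ℕ × ℕ) :=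
  (S.filter fun t => decide (a ≤ t.1) && decide (t.1 < b)).map (sh a)

/-- the parts of a packing -/
def parts (z : List (List (List Bool)) × List (ℕ × ℕ × ℕ)) : List (List (ℕ × ℕ × ℕ)) :=
  (List.range z.1.length).map fun i => pt (off z.1 i) (off z.1 (i + 1)) z.2

theorem pt_zero (m : ℕ) (S : List (ℕ × ℕ × ℕ)) : pt 0 m S = left m S := by
  unfold pt left
  have h1 : ∀ t : ℕ × ℕ × ℕ, sh 0 t = t := fun t => rfl
  rw [List.map_congr_left (g := fun t => t) (fun t _ => h1 t), List.map_id']
  refine List.filter_congr fun t _ => ?_
  simp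

theorem pt_add (m a b : ℕ) (S : List (ℕ × ℕ × ℕ)) :
    pt (m + a) (m + b) S = pt a b (right m S) := by
  unfold pt right
  rw [List.filter_map, List.filter_filter, List.map_map]
  have h1 : (S.filter fun t => decide (m + a ≤ t.1) && decide (t.1 < m + b)) =
      S.filter fun t => ((fun t : ℕ × ℕ × ℕ => decide (a ≤ t.1) && decide (t.1 < b)) ∘ sh m) t &&
        !decide (t.1 < m) := by
    refine List.filter_congr fun t _ => ?_
    change (decide (m + a ≤ t.1) && decide (t.1 < m + b)) =
      ((decide (a ≤ t.1 - m) && decide (t.1 - m < b)) && !decide (t.1 < m))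
    rw [Bool.eq_iff_iff, Bool.and_eq_true, Bool.and_eq_true, Bool.and_eq_true,
      decide_eq_true_eq, decide_eq_true_eq, decide_eq_true_eq, decide_eq_true_eq,
      Bool.not_eq_true', decide_eq_false_iff_not]
    omega
  rw [h1]
  refine List.map_congr_left fun t _ => ?_
  simp only [Function.comp, sh, Nat.sub_sub]

theorem parts_cons (M : List (List Bool)) (Ms : List (List (List Bool)))
    (S : List (ℕ × ℕ × ℕ)) :
    parts (M :: Ms, S) = left M.length S :: parts (Ms, right M.length S) := by
  unfold parts
  simp only [List.length_cons]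
  rw [List.range_succ_eq_map, List.map_cons, List.map_map]
  congr 1
  · have e0 : off (M :: Ms) 0 = 0 := rfl
    have e1 : off (M :: Ms) (0 + 1) = M.length := by simp [off]
    rw [e0, e1, pt_zero]
  · refine List.map_congr_left fun i _ => ?_
    have e : ∀ j, off (M :: Ms) (j + 1) = M.length + off Ms j := by
      intro j
      simp [off]
    simp only [Function.comp, Nat.succ_eq_add_one]
    rw [e, e, pt_add]

theorem union_main (Xs : List (BoundedGraph Δ)) : ∀ S, IsTrianglePacking (UG Xs) S →
    (parts (Xs.map BoundedGraph.matrix, S)).length = Xs.length ∧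
    (∀ i (_ : i < Xs.length),
      IsTrianglePacking Xs[i] ((parts (Xs.map BoundedGraph.matrix, S)).getD i [])) ∧
    S.length = ((parts (Xs.map BoundedGraph.matrix, S)).map List.length).sum ∧
    ∀ i (_ : i < Xs.length) (R : List (ℕ × ℕ × ℕ)), IsTrianglePacking Xs[i] R →
      ∃ S', IsTrianglePacking (UG Xs) S' ∧
        S'.length + ((parts (Xs.map BoundedGraph.matrix, S)).getD i []).length =
          S.length + R.length := by
  induction Xs with
  | nil =>
    intro S hS
    refine ⟨rfl, fun i hi => by simp at hi, ?_, fun i hi => by simp at hi⟩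
    rcases S with _ | ⟨t, S⟩
    · rfl
    · obtain ⟨⟨h, _⟩, _⟩ := hS.1 t List.mem_cons_self
      exact absurd h (Nat.not_lt_zero _)
  | cons X Xs ih =>
    intro S hS
    change IsTrianglePacking (sumG X (UG Xs)) S at hS
    rw [List.map_cons, parts_cons, length_matrix]
    have hl := left_packing hS
    have hr := right_packing hS
    have hlr := length_left_right X.n S
    obtain ⟨h1, h2, h3, h4⟩ := ih _ hr
    refine ⟨by rw [List.length_cons, h1, List.length_cons], ?_, ?_, ?_⟩
    · intro i hi
      rcases i with _ | i
      · exact hl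
      · exact h2 i (by simpa using hi)
    · rw [List.map_cons, List.sum_cons, ← h3, hlr]
    · intro i hi R hR
      rcases i with _ | i
      · refine ⟨R ++ (right X.n S).map (up X.n), sum_packing hR hr, ?_⟩
        rw [List.getD_cons_zero, List.length_append, List.length_map]
        omega
      · obtain ⟨S', hS', hlen⟩ := h4 i (by simpa using hi) R hR
        refine ⟨left X.n S ++ S'.map (up X.n), sum_packing hl hS', ?_⟩
        rw [List.getD_cons_succ, List.length_append, List.length_map]
        omega

/-! ### polynomial time -/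

theorem sh_ptime {α : Type} [Enc α] {m : α → ℕ} {t : α → ℕ × ℕ × ℕ} (hm : PTime m)
    (ht : PTime t) : PTime (fun a => sh (m a) (t a)) :=
  (ht.fst'.sub hm).pair ((ht.snd'.fst'.sub hm).pair (ht.snd'.snd'.sub hm))

theorem parts_ptime : PTime parts := by
  refine PTime.map (g := fun (z : List (List (List Bool)) × List (ℕ × ℕ × ℕ)) (i : ℕ) =>
    pt (off z.1 i) (off z.1 (i + 1)) z.2) (PTime.rangeLength PTime.fst) ?_
  have hM : PTime (fun p : (List (List (List Bool)) × List (ℕ × ℕ × ℕ)) × ℕ => p.1.1) :=
    PTime.fst' PTime.fst
  have hS : PTime (fun p : (List (List (List Bool)) × List (ℕ × ℕ × ℕ)) × ℕ => p.1.2) :=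
    PTime.snd' PTime.fst
  have hi : PTime (fun p : (List (List (List Bool)) × List (ℕ × ℕ × ℕ)) × ℕ => p.2) := PTime.snd
  have ha : PTime (fun p : (List (List (List Bool)) × List (ℕ × ℕ × ℕ)) × ℕ =>
      off p.1.1 p.2) := (PTime.flatten (PTime.take hM hi)).length
  have hb : PTime (fun p : (List (List (List Bool)) × List (ℕ × ℕ × ℕ)) × ℕ =>
      off p.1.1 (p.2 + 1)) := (PTime.flatten (PTime.take hM (hi.add (PTime.const 1)))).length
  unfold pt
  refine PTime.map (g := fun (p : (List (List (List Bool)) × List (ℕ × ℕ × ℕ)) × ℕ)
    (t : ℕ × ℕ × ℕ) => sh (off p.1.1 p.2) t) (PTime.filter (g := fun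
      (p : (List (List (List Bool)) × List (ℕ × ℕ × ℕ)) × ℕ) (t : ℕ × ℕ × ℕ) =>
        decide (off p.1.1 p.2 ≤ t.1) && decide (t.1 < off p.1.1 (p.2 + 1))) hS ?_)
      (sh_ptime (ha.comp PTime.fst) PTime.snd)
  exact PTime.and (PTime.le (ha.comp PTime.fst) (PTime.fst' PTime.snd))
    (PTime.lt (PTime.fst' PTime.snd) (hb.comp PTime.fst))

theorem dsum_ptime {α : Type} [Enc α] {M N : α → List (List Bool)} (hM : PTime M)
    (hN : PTime N) : PTime (fun a => dsum (M a) (N a)) := by
  unfold dsum
  have h1 : PTime (fun a => (N a).map fun _ => false) :=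
    PTime.map (g := fun (_ : α) (_ : List Bool) => false) hN (PTime.const _)
  have h2 : PTime (fun a => (M a).map fun _ => false) :=
    PTime.map (g := fun (_ : α) (_ : List Bool) => false) hM (PTime.const _)
  exact PTime.append
    (PTime.map (g := fun a (row : List Bool) => row ++ (N a).map fun _ => false) hM
      (PTime.append PTime.snd (h1.comp PTime.fst)))
    (PTime.map (g := fun a (row : List Bool) => (M a).map (fun _ => false) ++ row) hN
      (PTime.append (h2.comp PTime.fst) PTime.snd))

theorem length_dsum (M N : List (List Bool)) : (dsum M N).length = M.length + N.length := by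
  simp [dsum]

theorem row_dsum {M N : List (List Bool)} {B : ℕ} (hM : ∀ r ∈ M, r.length ≤ B + M.length)
    (hN : ∀ r ∈ N, r.length ≤ B + N.length) :
    ∀ r ∈ dsum M N, r.length ≤ B + (dsum M N).length := by
  intro r hr
  rw [length_dsum]
  unfold dsum at hr
  rw [List.mem_append, List.mem_map, List.mem_map] at hr
  rcases hr with ⟨r', hr', rfl⟩ | ⟨r', hr', rfl⟩
  · have := hM r' hr'
    rw [List.length_append, List.length_map]
    omega
  · have := hN r' hr'
    rw [List.length_append, List.length_map]
    omega

theorem fold_bound (B : ℕ) (l : List (List (List Bool)))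
    (h : ∀ M ∈ l, ∀ r ∈ M, r.length ≤ B) :
    (l.foldl (fun acc M => dsum M acc) []).length ≤ l.flatten.length ∧
      ∀ r ∈ l.foldl (fun acc M => dsum M acc) [], r.length ≤
        B + (l.foldl (fun acc M => dsum M acc) []).length := by
  induction l using List.reverseRecOn with
  | nil => simp
  | append_singleton l M ih =>
    obtain ⟨h1, h2⟩ := ih fun M' hM' => h M' (List.mem_append_left _ hM')
    rw [List.foldl_append]
    simp only [List.foldl_cons, List.foldl_nil]
    refine ⟨?_, row_dsum (fun r hr => ?_) h2⟩
    · rw [length_dsum, List.flatten_append, List.length_append]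
      simp only [List.flatten_cons, List.flatten_nil, List.append_nil]
      omega
    · have := h M (by simp) r hr
      omega

theorem length_flatten_le_size {β : Type} [Enc β] (l : List (List β)) :
    l.flatten.length ≤ size (enc l) := by
  induction l with
  | nil => simp
  | cons x l ih =>
    rw [List.flatten_cons, List.length_append, size_lcons]
    have := length_le_size x
    omega

theorem dsumL_ptime : PTime dsumL := by
  have hfold : PTime (fun Ms : List (List (List Bool)) =>
      Ms.reverse.foldl (fun acc M => dsum M acc) []) := by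
    refine PTime.foldl (h := fun (_ : List (List (List Bool))) (acc : List (List Bool))
      (M : List (List Bool)) => dsum M acc) (PTime.reverse PTime.id) (PTime.const [])
      (dsum_ptime (PTime.snd' PTime.snd) (PTime.fst' PTime.snd))
      (B := fun n => n * ((2 * n * 4 + 1) + 1) + 1)
      (((PBd.id.mul (((((PBd.const 2).mul PBd.id).mul (PBd.const 4)).add (PBd.const 1)).add
        (PBd.const 1)))).add (PBd.const 1)) ?_
    intro Ms l₁ l₂ hl
    set n := size (enc Ms) with hn
    have hmem : ∀ M ∈ l₁, M ∈ Ms := by
      intro M hM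
      have : M ∈ Ms.reverse := by rw [hl]; exact List.mem_append_left _ hM
      simpa using this
    have hrow : ∀ M ∈ l₁, ∀ r ∈ M, r.length ≤ n := by
      intro M hM r hr
      have h1 := length_le_size r
      have h2 := size_le_of_mem hr
      have h3 := size_le_of_mem (hmem M hM)
      omega
    have hflat : l₁.flatten.length ≤ n := by
      have h1 : l₁.flatten.length ≤ Ms.reverse.flatten.length := by
        rw [hl, List.flatten_append, List.length_append]
        omega
      have h2 : Ms.reverse.flatten.length = Ms.flatten.length := by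
        rw [List.length_flatten, List.length_flatten, List.map_reverse, List.sum_reverse]
      have h3 := length_flatten_le_size Ms
      omega
    obtain ⟨b1, b2⟩ := fold_bound n l₁ hrow
    have h5 : ∀ r ∈ l₁.foldl (fun acc M => dsum M acc) [], size (enc r) ≤ 2 * n * 4 + 1 := by
      intro r hr
      have h6 := b2 r hr
      have h7 := size_list_le r 3 fun b _ => by cases b <;> simp [enc_true, enc_false]
      have h8 : r.length * (3 + 1) ≤ (2 * n) * 4 := Nat.mul_le_mul (by omega) (le_refl _)
      omega
    refine (size_list_le _ _ h5).trans ?_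
    have h9 : (l₁.foldl (fun acc M => dsum M acc) []).length * (2 * n * 4 + 1 + 1) ≤
        n * (2 * n * 4 + 1 + 1) := Nat.mul_le_mul_right _ (by omega)
    omega
  refine hfold.of_eq fun Ms => ?_
  unfold dsumL
  rw [List.foldl_reverse]

end Pool.Agent.PCP.Un

namespace Pool.Agent.PCP

open Pool.Agent.PolyTime Pool.Agent.MP_311ff9_lc

/-- Disjoint unions of graphs of bounded degree (block-diagonal adjacency matrices), and the
decomposition of their triangle packings. -/
theorem union_graphs (Δ : ℕ) :
    ∃ (F : List (List (List Bool)) → List (List Bool))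
      (P : List (List (List Bool)) × List (ℕ × ℕ × ℕ) → List (List (ℕ × ℕ × ℕ))),
      PTime F ∧ PTime P ∧ ∀ Xs : List (BoundedGraph Δ), ∃ U : BoundedGraph Δ,
        U.matrix = F (Xs.map BoundedGraph.matrix) ∧
        ∀ S, IsTrianglePacking U S →
          (P (Xs.map BoundedGraph.matrix, S)).length = Xs.length ∧
          (∀ i (h : i < Xs.length),
            IsTrianglePacking Xs[i] ((P (Xs.map BoundedGraph.matrix, S)).getD i [])) ∧
          S.length = ((P (Xs.map BoundedGraph.matrix, S)).map List.length).sum ∧
          ∀ i (h : i < Xs.length) (R : List (ℕ × ℕ × ℕ)), IsTrianglePacking Xs[i] R →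
            ∃ S', IsTrianglePacking U S' ∧
              S'.length + ((P (Xs.map BoundedGraph.matrix, S)).getD i []).length =
                S.length + R.length :=
  ⟨Un.dsumL, Un.parts, Un.dsumL_ptime, Un.parts_ptime, fun Xs =>
    ⟨Un.UG Xs, Un.UG_matrix Xs, Un.union_main Xs⟩⟩

end Pool.Agent.PCP
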