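import Pool.Agent.Lib.PolyTime.Arith
import Pool.Agent.Lib.PCP.CG
import Pool.Agent.Lib.MP_311ff9_lc.Problem

/-!
# Disjoint unions of two graphs of bounded degree
-/

namespace Pool.Agent.PCP.Un

open Pool.Agent.PolyTime Pool.Agent.MP_311ff9_lc

variable {Δ : ℕ}

/-- block-diagonal sum of two matrices -/
def dsum (M N : List (List Bool)) : List (List Bool) :=
  M.map (fun row => row ++ N.map (fun _ => false)) ++
    N.map (fun row => M.map (fun _ => false) ++ row)

/-- disjoint union of two graphs -/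
noncomputable def sumG (X Y : BoundedGraph Δ) : BoundedGraph Δ where
  n := X.n + Y.n
  G :=
    { Adj := fun u v => X.Adj u v ∨ (X.n ≤ (u : ℕ) ∧ X.n ≤ (v : ℕ) ∧ Y.Adj (u - X.n) (v - X.n))
      symm := ⟨by
        rintro u v (⟨hu, hv, h⟩ | ⟨hu, hv, h1, h2, h⟩)
        · exact Or.inl ⟨hv, hu, h.symm⟩
        · exact Or.inr ⟨hv, hu, h2, h1, h.symm⟩⟩
      loopless := ⟨by
        rintro u (⟨hu, hv, h⟩ | ⟨hu, hv, h1, h2, h⟩)
        · exact h.ne rfl
        · exact h.ne rfl⟩ }
  dec := Classical.decRel _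
  degree_le := by
    classical
    intro u
    by_cases hu : (u : ℕ) < X.n
    · refine le_trans ?_ (X.degree_le ⟨u, hu⟩)
      rw [← SimpleGraph.card_neighborFinset_eq_degree, ← SimpleGraph.card_neighborFinset_eq_degree]
      refine Finset.card_le_card_of_injOn (fun v => if h : (v : ℕ) < X.n then ⟨v, h⟩ else ⟨u, hu⟩)
        ?_ ?_
      · intro v hv
        simp only [Finset.mem_coe, SimpleGraph.mem_neighborFinset] at hv ⊢
        rcases hv with ⟨h1, h2, h⟩ | ⟨h1, _⟩
        · rw [dif_pos h2]; exact h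
        · omega
      · intro v hv w hw hvw
        simp only [Finset.mem_coe, SimpleGraph.mem_neighborFinset] at hv hw
        rcases hv with ⟨h1, h2, h⟩ | ⟨h1, _⟩
        · rcases hw with ⟨g1, g2, g⟩ | ⟨g1, _⟩
          · simp only [dif_pos h2, dif_pos g2, Fin.mk.injEq] at hvw
            exact Fin.ext hvw
          · omega
        · omega
    · have hu' : (u : ℕ) - X.n < Y.n := by have := u.2; omega
      refine le_trans ?_ (Y.degree_le ⟨u - X.n, hu'⟩)
      rw [← SimpleGraph.card_neighborFinset_eq_degree, ← SimpleGraph.card_neighborFinset_eq_degree]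
      refine Finset.card_le_card_of_injOn (fun v => if h : (v : ℕ) - X.n < Y.n then ⟨v - X.n, h⟩
        else ⟨u - X.n, hu'⟩) ?_ ?_
      · intro v hv
        simp only [Finset.mem_coe, SimpleGraph.mem_neighborFinset] at hv ⊢
        rcases hv with ⟨h1, h2, h⟩ | ⟨h1, h2, h3, h4, h⟩
        · omega
        · rw [dif_pos h4]; exact h
      · intro v hv w hw hvw
        simp only [Finset.mem_coe, SimpleGraph.mem_neighborFinset] at hv hw
        rcases hv with ⟨h1, h2, h⟩ | ⟨h1, h2, h3, h4, h⟩
        · omega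
        · rcases hw with ⟨g1, g2, g⟩ | ⟨g1, g2, g3, g4, g⟩
          · omega
          · simp only [dif_pos h4, dif_pos g4, Fin.mk.injEq] at hvw
            exact Fin.ext (by omega)

theorem sumG_n (X Y : BoundedGraph Δ) : (sumG X Y).n = X.n + Y.n := rfl

theorem Adj_lt {X : BoundedGraph Δ} {u v : ℕ} (h : X.Adj u v) : u < X.n ∧ v < X.n := by
  obtain ⟨h1, h2, _⟩ := h
  exact ⟨h1, h2⟩

theorem sumG_adj (X Y : BoundedGraph Δ) (u v : ℕ) : (sumG X Y).Adj u v ↔
    X.Adj u v ∨ (X.n ≤ u ∧ X.n ≤ v ∧ Y.Adj (u - X.n) (v - X.n)) := by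
  constructor
  · rintro ⟨hu, hv, h⟩
    exact h
  · intro h
    have hu : u < X.n + Y.n := by
      rcases h with h | ⟨h1, h2, h⟩
      · have := Adj_lt h; omega
      · have := Adj_lt h; omega
    have hv : v < X.n + Y.n := by
      rcases h with h | ⟨h1, h2, h⟩
      · have := Adj_lt h; omega
      · have := Adj_lt h; omega
    exact ⟨hu, hv, h⟩

theorem matrix_eq (X : BoundedGraph Δ) : X.matrix = (List.range X.n).map fun u =>
    (List.range X.n).map fun v => @decide (X.Adj u v) (Classical.dec _) := by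
  classical
  unfold BoundedGraph.matrix
  rw [List.ofFn_eq_map]
  apply List.ext_getElem
  · simp
  · intro i h1 h2
    simp only [List.length_map, List.length_finRange] at h1
    simp only [List.getElem_map, List.getElem_finRange, List.getElem_range]
    apply List.ext_getElem
    · simp
    · intro j h3 h4
      simp only [List.length_ofFn] at h3
      simp only [List.getElem_ofFn, List.getElem_map, List.getElem_range]
      rw [decide_eq_decide]
      constructor
      · intro h
        exact ⟨h1, h3, h⟩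
      · rintro ⟨_, _, h⟩
        exact h

theorem length_matrix (X : BoundedGraph Δ) : X.matrix.length = X.n := by
  unfold BoundedGraph.matrix; simp

theorem sumG_matrix (X Y : BoundedGraph Δ) :
    (sumG X Y).matrix = dsum X.matrix Y.matrix := by
  classical
  have hr : List.range (X.n + Y.n) = List.range X.n ++ (List.range Y.n).map (fun j => X.n + j) := by
    rw [List.range_add]
  rw [matrix_eq (sumG X Y), sumG_n, hr, List.map_append, dsum]
  congr 1
  · rw [matrix_eq X, List.map_map]
    refine List.map_congr_left fun u hu => ?_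
    rw [List.mem_range] at hu
    simp only [Function.comp]
    rw [List.map_append]
    congr 1
    · refine List.map_congr_left fun v hv => ?_
      rw [List.mem_range] at hv
      rw [decide_eq_decide, sumG_adj]
      constructor
      · rintro (h | ⟨h1, _⟩)
        · exact h
        · omega
      · exact Or.inl
    · rw [List.map_const', length_matrix, List.map_map]
      rw [List.eq_replicate_iff]
      refine ⟨by simp, fun b hb => ?_⟩
      obtain ⟨v, _, rfl⟩ := List.mem_map.1 hb
      simp only [Function.comp, decide_eq_false_iff_not]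
      rw [sumG_adj]
      rintro (h | ⟨h1, _⟩)
      · have := (Adj_lt h).2; omega
      · omega
  · rw [matrix_eq Y, List.map_map, List.map_map]
    refine List.map_congr_left fun u hu => ?_
    rw [List.mem_range] at hu
    simp only [Function.comp]
    rw [List.map_append]
    congr 1
    · rw [List.map_const', length_matrix, List.eq_replicate_iff]
      refine ⟨by simp, fun b hb => ?_⟩
      obtain ⟨v, hv, rfl⟩ := List.mem_map.1 hb
      rw [List.mem_range] at hv
      simp only [decide_eq_false_iff_not]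
      rw [sumG_adj]
      rintro (h | ⟨_, h1, _⟩)
      · have := (Adj_lt h).1; omega
      · omega
    · rw [List.map_map]
      refine List.map_congr_left fun v hv => ?_
      simp only [Function.comp]
      rw [decide_eq_decide, sumG_adj]
      have e1 : X.n + u - X.n = u := by omega
      have e2 : X.n + v - X.n = v := by omega
      rw [e1, e2]
      constructor
      · rintro (h | ⟨_, _, h⟩)
        · have := (Adj_lt h).1; omega
        · exact h
      · intro h
        exact Or.inr ⟨by omega, by omega, h⟩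

/-! ### packings of the union -/

/-- shift a triangle down -/
def sh (m : ℕ) (t : ℕ × ℕ × ℕ) : ℕ × ℕ × ℕ := (t.1 - m, t.2.1 - m, t.2.2 - m)

/-- shift a triangle up -/
def up (m : ℕ) (t : ℕ × ℕ × ℕ) : ℕ × ℕ × ℕ := (t.1 + m, t.2.1 + m, t.2.2 + m)

/-- triangles of the first graph -/
def left (m : ℕ) (S : List (ℕ × ℕ × ℕ)) : List (ℕ × ℕ × ℕ) := S.filter fun t => decide (t.1 < m)

/-- triangles of the second graph -/
def right (m : ℕ) (S : List (ℕ × ℕ × ℕ)) : List (ℕ × ℕ × ℕ) :=
  (S.filter fun t => !decide (t.1 < m)).map (sh m)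

/-- vertices of a packing -/
def fl (S : List (ℕ × ℕ × ℕ)) : List ℕ := S.flatMap fun t => [t.1, t.2.1, t.2.2]

theorem packing_iff (X : BoundedGraph Δ) (S : List (ℕ × ℕ × ℕ)) : IsTrianglePacking X S ↔
    (∀ t ∈ S, X.Adj t.1 t.2.1 ∧ X.Adj t.2.1 t.2.2 ∧ X.Adj t.1 t.2.2) ∧ (fl S).Nodup := Iff.rfl

theorem length_left_right (m : ℕ) (S : List (ℕ × ℕ × ℕ)) :
    (left m S).length + (right m S).length = S.length := by
  unfold left right
  rw [List.length_map, ← List.countP_eq_length_filter, ← List.countP_eq_length_filter]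
  rw [List.length_eq_countP_add_countP (fun t : ℕ × ℕ × ℕ => decide (t.1 < m)) (l := S)]
  congr 1
  refine List.countP_congr fun t _ => ?_
  simp

theorem fl_map_up (m : ℕ) (S : List (ℕ × ℕ × ℕ)) : fl (S.map (up m)) = (fl S).map (· + m) := by
  induction S with
  | nil => rfl
  | cons t S ih =>
    unfold fl at ih ⊢
    rw [List.map_cons, List.flatMap_cons, List.flatMap_cons, List.map_append, ih]
    rfl

theorem fl_sublist {S S' : List (ℕ × ℕ × ℕ)} (h : S.Sublist S') : (fl S).Sublist (fl S') := by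
  induction h with
  | slnil => exact List.Sublist.refl _
  | cons t _ ih =>
    unfold fl at ih ⊢
    rw [List.flatMap_cons]
    exact ih.trans (List.sublist_append_right _ _)
  | cons_cons t _ ih =>
    unfold fl at ih ⊢
    rw [List.flatMap_cons, List.flatMap_cons]
    exact (List.Sublist.refl _).append ih

theorem left_packing {X Y : BoundedGraph Δ} {S : List (ℕ × ℕ × ℕ)}
    (h : IsTrianglePacking (sumG X Y) S) : IsTrianglePacking X (left X.n S) := by
  refine ⟨fun t ht => ?_, (fl_sublist List.filter_sublist).nodup h.2⟩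
  unfold left at ht
  rw [List.mem_filter, decide_eq_true_eq] at ht
  obtain ⟨h1, h2, h3⟩ := h.1 t ht.1
  rw [sumG_adj] at h1 h2 h3
  have a1 : X.Adj t.1 t.2.1 := by
    rcases h1 with h1 | ⟨h1, _⟩
    · exact h1
    · omega
  have a3 : X.Adj t.1 t.2.2 := by
    rcases h3 with h3 | ⟨h3, _⟩
    · exact h3
    · omega
  have a2 : X.Adj t.2.1 t.2.2 := by
    rcases h2 with h2 | ⟨h2, _⟩
    · exact h2
    · have := (Adj_lt a1).2; omega
  exact ⟨a1, a2, a3⟩

theorem right_mem {X Y : BoundedGraph Δ} {S : List (ℕ × ℕ × ℕ)}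
    (h : IsTrianglePacking (sumG X Y) S) {t : ℕ × ℕ × ℕ} (ht : t ∈ S) (hlt : ¬ t.1 < X.n) :
    X.n ≤ t.1 ∧ X.n ≤ t.2.1 ∧ X.n ≤ t.2.2 ∧ Y.Adj (t.1 - X.n) (t.2.1 - X.n) ∧
      Y.Adj (t.2.1 - X.n) (t.2.2 - X.n) ∧ Y.Adj (t.1 - X.n) (t.2.2 - X.n) := by
  obtain ⟨h1, h2, h3⟩ := h.1 t ht
  rw [sumG_adj] at h1 h2 h3
  rcases h1 with h1 | ⟨a1, a2, a3⟩
  · have := (Adj_lt h1).1; omega
  rcases h3 with h3 | ⟨b1, b2, b3⟩
  · have := (Adj_lt h3).1; omega
  rcases h2 with h2 | ⟨c1, c2, c3⟩
  · have := (Adj_lt h2).1; omega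
  exact ⟨a1, a2, b2, a3, c3, b3⟩

theorem up_sh {m : ℕ} {t : ℕ × ℕ × ℕ} (h1 : m ≤ t.1) (h2 : m ≤ t.2.1) (h3 : m ≤ t.2.2) :
    up m (sh m t) = t := by
  obtain ⟨a, b, c⟩ := t
  simp only [up, sh] at *
  rw [Nat.sub_add_cancel h1, Nat.sub_add_cancel h2, Nat.sub_add_cancel h3]

theorem right_up {X Y : BoundedGraph Δ} {S : List (ℕ × ℕ × ℕ)}
    (h : IsTrianglePacking (sumG X Y) S) : (right X.n S).map (up X.n) =
      S.filter fun t => !decide (t.1 < X.n) := by
  unfold right
  rw [List.map_map]
  conv_rhs => rw [← List.map_id (S.filter fun t => !decide (t.1 < X.n))]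
  refine List.map_congr_left fun t ht => ?_
  rw [List.mem_filter] at ht
  have hlt : ¬ t.1 < X.n := by simpa using ht.2
  obtain ⟨h1, h2, h3, _⟩ := right_mem h ht.1 hlt
  exact up_sh h1 h2 h3

theorem right_packing {X Y : BoundedGraph Δ} {S : List (ℕ × ℕ × ℕ)}
    (h : IsTrianglePacking (sumG X Y) S) : IsTrianglePacking Y (right X.n S) := by
  refine ⟨fun t ht => ?_, ?_⟩
  · unfold right at ht
    obtain ⟨t', ht', rfl⟩ := List.mem_map.1 ht
    rw [List.mem_filter] at ht'
    have hlt : ¬ t'.1 < X.n := by simpa using ht'.2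
    obtain ⟨_, _, _, h1, h2, h3⟩ := right_mem h ht'.1 hlt
    exact ⟨h1, h2, h3⟩
  · have h1 : (fl ((right X.n S).map (up X.n))).Nodup := by
      rw [right_up h]
      exact (fl_sublist List.filter_sublist).nodup h.2
    rw [fl_map_up] at h1
    exact List.Nodup.of_map _ h1

theorem mem_fl {S : List (ℕ × ℕ × ℕ)} {u : ℕ} (h : u ∈ fl S) :
    ∃ t ∈ S, u = t.1 ∨ u = t.2.1 ∨ u = t.2.2 := by
  unfold fl at h
  obtain ⟨t, ht, hu⟩ := List.mem_flatMap.1 h
  simp only [List.mem_cons, List.not_mem_nil, or_false] at hu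
  exact ⟨t, ht, hu⟩

theorem sum_packing {X Y : BoundedGraph Δ} {S T : List (ℕ × ℕ × ℕ)}
    (hS : IsTrianglePacking X S) (hT : IsTrianglePacking Y T) :
    IsTrianglePacking (sumG X Y) (S ++ T.map (up X.n)) := by
  refine ⟨fun t ht => ?_, ?_⟩
  · rw [List.mem_append] at ht
    rcases ht with ht | ht
    · obtain ⟨h1, h2, h3⟩ := hS.1 t ht
      rw [sumG_adj, sumG_adj, sumG_adj]
      exact ⟨Or.inl h1, Or.inl h2, Or.inl h3⟩
    · obtain ⟨t', ht', rfl⟩ := List.mem_map.1 ht
      obtain ⟨h1, h2, h3⟩ := hT.1 t' ht'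
      rw [sumG_adj, sumG_adj, sumG_adj]
      simp only [up, Nat.add_sub_cancel]
      exact ⟨Or.inr ⟨by omega, by omega, h1⟩, Or.inr ⟨by omega, by omega, h2⟩,
        Or.inr ⟨by omega, by omega, h3⟩⟩
  · change (fl (S ++ T.map (up X.n))).Nodup
    have h1 : fl (S ++ T.map (up X.n)) = fl S ++ (fl T).map (· + X.n) := by
      rw [← fl_map_up]
      unfold fl
      rw [List.flatMap_append]
    rw [h1, List.nodup_append]
    refine ⟨hS.2, ?_, ?_⟩
    · exact hT.2.map fun a b hab => by simpa using hab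
    · intro u hu v hv
      obtain ⟨t, ht, hut⟩ := mem_fl hu
      obtain ⟨w, _, rfl⟩ := List.mem_map.1 hv
      have hlt : u < X.n := by
        obtain ⟨h1, h2, _⟩ := hS.1 t ht
        have a1 := Adj_lt h1
        have a2 := Adj_lt h2
        rcases hut with rfl | rfl | rfl
        · exact a1.1
        · exact a1.2
        · exact a2.2
      omega

end Pool.Agent.PCP.Un
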